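import Mathlib

/-! Smooth blending, periodisation and inversion. -/

open Set Filter Topology

namespace Pool.Agent.P.MP_97fbd9_an

/-- Smooth step from `a` to `b`. -/
noncomputable def chi (a b y : ℝ) : ℝ := Real.smoothTransition ((y - a) / (b - a))

/-- Blend of two values. -/
noncomputable def bl (a b y u v : ℝ) : ℝ := u + chi a b y * (v - u)

lemma chi_smooth (a b : ℝ) (n : ℕ) : ContDiff ℝ n (chi a b) :=
  Real.smoothTransition.contDiff.comp (by fun_prop)

lemma bl_smooth {E : Type*} [NormedAddCommGroup E] [NormedSpace ℝ E] {n : ℕ} (a b : ℝ)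
    {y u v : E → ℝ} (hy : ContDiff ℝ n y) (hu : ContDiff ℝ n u) (hv : ContDiff ℝ n v) :
    ContDiff ℝ n fun z => bl a b (y z) (u z) (v z) :=
  hu.add (((chi_smooth a b n).comp hy).mul (hv.sub hu))

lemma bl_left {a b y : ℝ} (hab : a < b) (h : y ≤ a) (u v : ℝ) : bl a b y u v = u := by
  unfold bl chi
  rw [Real.smoothTransition.zero_of_nonpos
    (div_nonpos_of_nonpos_of_nonneg (by linarith) (by linarith))]
  ring

lemma bl_right {a b y : ℝ} (hab : a < b) (h : b ≤ y) (u v : ℝ) : bl a b y u v = v := by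
  unfold bl chi
  rw [Real.smoothTransition.one_of_one_le ((one_le_div (by linarith)).2 (by linarith))]
  ring

lemma bl_ge {a b y u v c : ℝ} (hu : c ≤ u) (hv : c ≤ v) : c ≤ bl a b y u v := by
  unfold bl chi
  have h1 := Real.smoothTransition.nonneg ((y - a) / (b - a))
  have h2 := Real.smoothTransition.le_one ((y - a) / (b - a))
  nlinarith

lemma bl_le {a b y u v c : ℝ} (hu : u ≤ c) (hv : v ≤ c) : bl a b y u v ≤ c := by
  unfold bl chi
  have h1 := Real.smoothTransition.nonneg ((y - a) / (b - a))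
  have h2 := Real.smoothTransition.le_one ((y - a) / (b - a))
  nlinarith

/-- Functions with positive derivative. -/
def Inc (f : ℝ → ℝ) : Prop := ∀ y, ∃ d, 0 < d ∧ HasDerivAt f d y

lemma Inc.strictMono {f : ℝ → ℝ} (h : Inc f) : StrictMono f :=
  strictMono_of_deriv_pos fun y => by obtain ⟨d, a, b⟩ := h y; rwa [b.deriv]

lemma inc_aff {c : ℝ} (hc : 0 < c) (d : ℝ) : Inc fun y => c * y + d := fun y =>
  ⟨c, hc, by simpa using ((hasDerivAt_id y).const_mul c).add_const d⟩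

lemma Inc.bl {f g : ℝ → ℝ} (hf : Inc f) (hg : Inc g) {a b : ℝ} (hab : a < b)
    (h : ∀ y, a ≤ y → y ≤ b → f y ≤ g y) : Inc fun y => bl a b y (f y) (g y) := by
  intro y
  obtain ⟨d1, p1, h1⟩ := hf y
  obtain ⟨d2, p2, h2⟩ := hg y
  rcases lt_or_ge y a with g1 | g1
  · refine ⟨d1, p1, h1.congr_of_eventuallyEq ?_⟩
    filter_upwards [gt_mem_nhds g1] with z hz using bl_left hab hz.le _ _
  rcases lt_or_ge b y with g2 | g2
  · refine ⟨d2, p2, h2.congr_of_eventuallyEq ?_⟩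
    filter_upwards [lt_mem_nhds g2] with z hz using bl_right hab hz.le _ _
  have h3 : HasDerivAt (chi a b) (deriv (chi a b) y) y :=
    ((chi_smooth a b 1).differentiable (by simp) y).hasDerivAt
  have h4 : 0 ≤ deriv (chi a b) y := Monotone.deriv_nonneg fun s t hst =>
    Real.smoothTransition.monotone (by gcongr)
  refine ⟨_, ?_, h1.add (h3.mul (h2.sub h1))⟩
  have a1 : 0 ≤ chi a b y := Real.smoothTransition.nonneg _
  have a2 : chi a b y ≤ 1 := Real.smoothTransition.le_one _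
  have a3 := mul_nonneg h4 (sub_nonneg.2 (h y g1 g2))
  change 0 < d1 + (deriv (chi a b) y * (g y - f y) + chi a b y * (d2 - d1))
  rcases le_total d1 d2 with g | g <;> nlinarith

/-- Cut off outside `[-4, 4]`. -/
noncomputable def cut (y u : ℝ) : ℝ := bl (-4) (-3) y 0 (bl 3 4 y u 0)

lemma cut_in {y : ℝ} (h : |y| ≤ 3) (u : ℝ) : cut y u = u := by
  rw [abs_le] at h
  unfold cut; rw [bl_right (by norm_num) h.1, bl_left (by norm_num) h.2]

lemma cut_out {y : ℝ} (h : 4 ≤ |y|) (u : ℝ) : cut y u = 0 := by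
  unfold cut
  rcases le_abs.1 h with g | g
  · rw [bl_right (by norm_num) (by linarith), bl_right (by norm_num) g]
  · rw [bl_left (by norm_num) (by linarith)]

lemma cut_le (y : ℝ) : |cut y y| ≤ 4 := by
  rcases le_total 4 |y| with h | h
  · rw [cut_out h]; simp
  · rw [abs_le] at h ⊢
    exact ⟨bl_ge (by norm_num) (bl_ge h.1 (by norm_num)),
      bl_le (by norm_num) (bl_le h.2 (by norm_num))⟩

lemma cut_smooth {E : Type*} [NormedAddCommGroup E] [NormedSpace ℝ E] {n : ℕ}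
    {y u : E → ℝ} (hy : ContDiff ℝ n y) (hu : ContDiff ℝ n u) :
    ContDiff ℝ n fun z => cut (y z) (u z) :=
  bl_smooth _ _ hy contDiff_const (bl_smooth _ _ hy hu contDiff_const)

/-- Reduction modulo the period. -/
noncomputable def rd (y : ℝ) : ℝ := y - 16 * round (y / 16)

lemma rd_add (y : ℝ) (m : ℤ) : rd (y + 16 * m) = rd y := by
  unfold rd
  rw [show (y + 16 * m) / 16 = y / 16 + m by ring, round_add_intCast]
  push_cast; ring

lemma rd_eq {y : ℝ} (h : |y| < 8) : rd y = y := by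
  unfold rd
  rw [abs_lt] at h
  rw [round_eq_zero_iff.2 ⟨by linarith [h.1], by linarith [h.2]⟩]; simp

lemma rd_local (y : ℝ) : (∃ k : ℤ, ∀ᶠ z in 𝓝 y, rd z = z - 16 * k) ∨ ∀ᶠ z in 𝓝 y, 7 ≤ |rd z| := by
  have h := abs_le.1 (abs_sub_round (y / 16))
  set k := round (y / 16)
  have e : ∀ (z : ℝ) (m : ℤ), |z - 16 * m| < 8 → rd z = z - 16 * m := fun z m g => by
    have := rd_add (z - 16 * m) m
    rwa [sub_add_cancel, rd_eq g] at this
  by_cases g : |y - 16 * k| < 8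
  · refine Or.inl ⟨k, ?_⟩
    have : ContinuousAt (fun z : ℝ => |z - 16 * k|) y := by fun_prop
    filter_upwards [this.eventually (gt_mem_nhds g)] with z hz using e z k hz
  · right
    have : ContinuousAt (fun z : ℝ => |z - y|) y := by fun_prop
    filter_upwards [this.eventually (gt_mem_nhds (by simp : |y - y| < 1))] with z hz
    have h' := abs_le.1 (abs_sub_round (z / 16))
    rw [abs_lt] at hz
    by_contra c
    rw [not_le, abs_lt] at c
    unfold rd at c
    set m := round (z / 16)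
    have : m = k := by
      have a1 : (m : ℝ) - k < 1 := by linarith [h.1, h.2, c.1, c.2, hz.1, hz.2]
      have a2 : (k : ℝ) - m < 1 := by linarith [h.1, h.2, c.1, c.2, hz.1, hz.2]
      have b1 : m - k < 1 := by exact_mod_cast a1
      have b2 : k - m < 1 := by exact_mod_cast a2
      omega
    rw [this] at c
    exact g (abs_lt.2 ⟨by linarith [c.1, hz.2], by linarith [c.2, hz.1]⟩)

lemma per_smooth {n : ℕ} {b : ℝ × ℝ → ℝ} (hb : ContDiff ℝ n b)
    (h0 : ∀ u y, 7 ≤ |y| → b (u, y) = 0) : ContDiff ℝ n fun z : ℝ × ℝ => b (z.1, rd z.2) := by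
  rw [contDiff_iff_contDiffAt]
  intro z
  rcases rd_local z.2 with ⟨k, h⟩ | h
  · have : ContDiffAt ℝ n (fun z : ℝ × ℝ => b (z.1, z.2 - 16 * k)) z :=
      (hb.comp (by fun_prop)).contDiffAt
    refine this.congr_of_eventuallyEq ?_
    filter_upwards [continuous_snd.continuousAt.eventually h] with w hw
    rw [hw]
  · refine (contDiffAt_const (c := (0 : ℝ))).congr_of_eventuallyEq ?_
    filter_upwards [continuous_snd.continuousAt.eventually h] with w hw
    exact h0 _ _ hw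

lemma per_smooth1 {n : ℕ} {b : ℝ → ℝ} (hb : ContDiff ℝ n b) (h0 : ∀ y, 7 ≤ |y| → b y = 0) :
    ContDiff ℝ n fun y => b (rd y) :=
  (per_smooth (b := fun z => b z.2) (hb.comp contDiff_snd) (fun _ => h0)).comp
    (f := fun y : ℝ => ((0 : ℝ), y)) (by fun_prop)

/-- Degree one periodisation. -/
noncomputable def lft (f : ℝ → ℝ) (y : ℝ) : ℝ := y + (f (rd y) - rd y)

lemma lft_add (f : ℝ → ℝ) (y : ℝ) (m : ℤ) : lft f (y + 16 * m) = lft f y + 16 * m := by
  unfold lft; rw [rd_add]; ring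

lemma lft_eq (f : ℝ → ℝ) {y : ℝ} (h : |y| < 8) : lft f y = f y := by
  unfold lft; rw [rd_eq h]; ring

lemma Inc.lft {f : ℝ → ℝ} (hf : Inc f) (h0 : ∀ y, 7 ≤ |y| → f y = y) : Inc (lft f) := by
  intro y
  rcases rd_local y with ⟨k, h⟩ | h
  · obtain ⟨d, p, hd⟩ := hf (y - 16 * k)
    refine ⟨d, p, ((hd.comp_sub_const y (16 * (k : ℝ))).add_const (16 * (k : ℝ))).congr_of_eventuallyEq ?_⟩
    filter_upwards [h] with z hz
    unfold MP_97fbd9_an.lft; rw [hz]; ring
  · refine ⟨1, one_pos, (hasDerivAt_id y).congr_of_eventuallyEq ?_⟩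
    filter_upwards [h] with z hz
    unfold MP_97fbd9_an.lft; rw [h0 _ hz]; simp

lemma inv_smooth {n : ℕ} (hn : 1 ≤ n) {F : ℝ × ℝ → ℝ × ℝ} (hF : ContDiff ℝ n F)
    (hb : Function.Bijective F) (hi : ∀ z, Function.Injective (fderiv ℝ F z)) :
    ∃ G : ℝ × ℝ → ℝ × ℝ, ContDiff ℝ n G ∧ (∀ z, G (F z) = z) ∧ ∀ z, F (G z) = z := by
  let D : ℝ × ℝ → (ℝ × ℝ) ≃L[ℝ] (ℝ × ℝ) := fun z =>
    (LinearEquiv.ofInjectiveEndo (fderiv ℝ F z).toLinearMap (hi z)).toContinuousLinearEquiv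
  have hD : ∀ z, HasStrictFDerivAt F (D z : (ℝ × ℝ) →L[ℝ] (ℝ × ℝ)) z := fun z => by
    have : (D z : (ℝ × ℝ) →L[ℝ] (ℝ × ℝ)) = fderiv ℝ F z := by ext <;> rfl
    rw [this]
    exact hF.contDiffAt.hasStrictFDerivAt (by exact_mod_cast (by omega : n ≠ 0))
  let e : (ℝ × ℝ) ≃ₜ (ℝ × ℝ) := (Equiv.ofBijective F hb).toHomeomorphOfContinuousOpen
    hF.continuous (isOpenMap_of_hasStrictFDerivAt_equiv hD)
  exact ⟨e.symm, e.contDiff_symm (fun z => (hD z).hasFDerivAt) hF, e.symm_apply_apply,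
    e.apply_symm_apply⟩

lemma vert_inv {n : ℕ} (hn : 1 ≤ n) {p : ℝ × ℝ → ℝ} (hp : ContDiff ℝ n p)
    (hi : ∀ x, Inc fun y => p (x, y)) (ha : ∀ x y (m : ℤ), p (x, y + 16 * m) = p (x, y) + 16 * m) :
    ∃ G : ℝ × ℝ → ℝ × ℝ, ContDiff ℝ n G ∧ (∀ z, G (z.1, p z) = z) ∧
      ∀ z, ((G z).1, p (G z)) = z := by
  have hF : ContDiff ℝ n fun z : ℝ × ℝ => (z.1, p z) := contDiff_fst.prodMk hp
  refine inv_smooth hn hF ⟨?_, ?_⟩ fun z => ?_
  · rintro ⟨x, y⟩ ⟨x', y'⟩ h
    simp only [Prod.mk.injEq] at h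
    obtain ⟨rfl, h⟩ := h
    rw [(hi x).strictMono.injective h]
  · rintro ⟨x, y⟩
    have c : Continuous fun y => p (x, y) := hp.continuous.comp (by fun_prop)
    obtain ⟨m, hm⟩ := exists_nat_ge |y - p (x, 0)|
    rw [abs_le] at hm
    have h1 := ha x 0 m
    have h2 := ha x 0 (-m)
    push_cast at h1 h2
    have hm0 : (0 : ℝ) ≤ m := Nat.cast_nonneg m
    obtain ⟨t, ht⟩ := intermediate_value_univ (0 + 16 * -(m : ℝ)) (0 + 16 * (m : ℝ)) c
      (show y ∈ Icc _ _ from ⟨by rw [h2]; linarith [hm.1], by rw [h1]; linarith [hm.2]⟩)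
    exact ⟨(x, t), by simp only at ht ⊢; rw [ht]⟩
  · have hd := (hp.differentiable (by exact_mod_cast (by omega : n ≠ 0)) z).hasFDerivAt
    rw [(hasFDerivAt_fst.prodMk hd).fderiv, injective_iff_map_eq_zero]
    rintro ⟨a, b⟩ h
    simp only [ContinuousLinearMap.prod_apply, ContinuousLinearMap.coe_fst', Prod.mk_eq_zero] at h
    obtain ⟨rfl, h⟩ := h
    obtain ⟨d, p0, h1⟩ := hi z.1 z.2
    have h2 : HasDerivAt (fun y => p (z.1, y)) (fderiv ℝ p z (0, 1)) z.2 :=
      hd.comp_hasDerivAt z.2 ((hasDerivAt_const z.2 z.1).prodMk (hasDerivAt_id z.2))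
    have e : ((0 : ℝ), b) = b • ((0 : ℝ), (1 : ℝ)) := by simp
    rw [e, map_smul, ← h1.unique h2, smul_eq_mul, mul_eq_zero] at h
    rw [h.resolve_right p0.ne']; rfl

end Pool.Agent.P.MP_97fbd9_an
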