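import Pool.Agent.P.MP_97fbd9_an.Orb

/-! Bounds for the designed orbits. -/

open Finset

namespace Pool.Agent.P.MP_97fbd9_an

namespace Orb

variable {P : Par} {o : Orb}

/-- Exponent of the product of contractions. -/
def LE (P : Par) (o : Orb) (k k' : ℕ) : ℕ := ∑ l ∈ Ico k k', (P.D * o.n l + P.p * o.j l + P.p)

lemma abs_lm (k : ℕ) : |o.lm P k| = w (P.D * o.n k + P.p * o.j k + P.p) := abs_lam _ _

lemma lm_le (k : ℕ) : |o.lm P k| ≤ w (P.D * o.n k + P.p) := by
  rw [abs_lm]; apply w_anti; omega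

lemma abs_lh (k k' : ℕ) : |o.lh P k k'| = w (o.LE P k k') := by
  unfold lh LE
  rw [abs_prod]
  simp only [abs_lm]
  unfold w
  rw [prod_pow_eq_pow_sum]

lemma lh_ne (k k' : ℕ) : o.lh P k k' ≠ 0 := by
  rw [← abs_pos, abs_lh]; exact w_pos _

lemma LE_add {k l k' : ℕ} (h : k ≤ l) (h' : l ≤ k') :
    o.LE P k k' = o.LE P k l + o.LE P l k' := (sum_Ico_consecutive _ h h').symm

lemma LE_ge (k k' : ℕ) : P.p * (k' - k) ≤ o.LE P k k' := by
  unfold LE
  calc P.p * (k' - k) = ∑ _l ∈ Ico k k', P.p := by simp [mul_comm]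
    _ ≤ _ := sum_le_sum fun l _ => by omega

lemma LE_ge' (k k' : ℕ) : k' - k ≤ o.LE P k k' := by
  have := LE_ge (P := P) (o := o) k k'
  have := P.p_pos
  nlinarith

lemma LE_le (k k' : ℕ) : o.LE P k k' ≤ 2 * P.p * o.SS k k' := by
  unfold LE SS
  rw [mul_sum]
  refine sum_le_sum fun l _ => ?_
  have := n_pos (o := o) l
  have h : P.D * o.n l ≤ P.p * o.n l := by gcongr; have := P.hp; omega
  nlinarith

lemma LE_one (k : ℕ) : o.LE P k (k + 1) = P.D * o.n k + P.p * o.j k + P.p := by simp [LE]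

lemma SS_add {k l k' : ℕ} (h : k ≤ l) (h' : l ≤ k') : o.SS k k' = o.SS k l + o.SS l k' :=
  (sum_Ico_consecutive _ h h').symm

lemma SS_ge (k k' : ℕ) : k' - k ≤ o.SS k k' := by
  unfold SS
  calc k' - k = ∑ _l ∈ Ico k k', 1 := by simp
    _ ≤ _ := sum_le_sum fun l _ => by have := n_pos (o := o) l; omega

lemma SS_one (k : ℕ) : o.SS k (k + 1) = o.n k + o.j k := by simp [SS]

lemma SS_mid {k l k' : ℕ} (h : k ≤ l) (h' : l < k') :
    (l - k) + (o.n l + o.j l) + (k' - (l + 1)) ≤ o.SS k k' := by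
  rw [SS_add h h'.le, SS_add (Nat.le_succ l) h', SS_one]
  have := SS_ge (o := o) k l
  have := SS_ge (o := o) (l + 1) k'
  simp only [Nat.succ_eq_add_one]
  omega

lemma lh_le_one (k k' : ℕ) : |o.lh P k k'| ≤ 1 := by rw [abs_lh]; exact w_le_one _

lemma lh_le {k k' : ℕ} (h : k < k') :
    |o.lh P k k'| ≤ w (P.D * o.n k + P.p + (k' - (k + 1))) := by
  rw [abs_lh, LE_add (Nat.le_succ k) h, LE_one]
  apply w_anti
  have := LE_ge' (P := P) (o := o) (k + 1) k'
  simp only [Nat.succ_eq_add_one]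
  omega

lemma g_le (k : ℕ) : |o.g P k| ≤ w (P.d * o.n k + P.p + P.big) := by
  refine ((good (P := P) (o := o) k).gg_sig (o.n k)).trans (w_anti ?_)
  have := (good (P := P) (o := o) k).S_pos (cnt (o.I P k) (P.p * o.n k))
  nlinarith

lemma g_le_u {k : ℕ} (hk : 1 ≤ k) (h : 1 ≤ o.u P k) :
    |o.g P k| ≤ w (P.d * o.n k + P.big * o.SS (o.u P k) k + P.p) := by
  rw [← (frame_u hk h).2]
  exact (good (P := P) (o := o) k).gg_sig (o.n k)

lemma fo_le (k : ℕ) : |o.fo P k| ≤ w (P.d * o.n k + P.p) / 80 := by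
  have h := (good (P := P) (o := o) k).kn_sig (o.n k)
  have h1 := w_anti (x := P.d * o.n k + P.p)
    (y := P.d * o.n k + P.big * (o.I P k).S (cnt (o.I P k) (P.p * o.n k)) + P.p) (by omega)
  have h2 := w_anti (x := P.d * o.n k + P.p) (y := P.D * o.n k + P.p)
    (by have := d_le_D P (o.n k); omega)
  have := w_pos (P.d * o.n k + P.p)
  unfold fo
  rw [abs_neg]
  unfold ik
  linarith

lemma c_le (k : ℕ) : |o.c P k| ≤ 1001 / 1000 * w 2 :=
  (good (P := P) (o := o) k).pos_abs (o.blk k).f_tri _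

lemma w_p_le (P : Par) (x : ℕ) : w (x + P.p) ≤ w 2 / 1000000 := by
  apply w_lt2; have := P.D_ge; have := P.hp; omega

lemma tv_le {z : ℝ} (hz : |z| ≤ 11 / 10 * w 2) {k : ℕ} (hk : k ≤ o.K) :
    |o.tv P z k| ≤ 11 / 10 * w 2 ∧
      (k < o.K → |o.tv P z k - o.c P k| ≤ w (P.d * o.n k + P.p) / 50) := by
  induction hk using Nat.decreasingInduction with
  | self => rw [tv_top]; exact ⟨hz, fun h => absurd h (lt_irrefl _)⟩
  | of_succ k hk ih =>
    have h1 := fo_le (P := P) (o := o) k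
    have h2 := c_le (P := P) (o := o) k
    have h3 := lm_le (P := P) (o := o) k
    have h4 := w_anti (x := P.d * o.n k + P.p) (y := P.D * o.n k + P.p)
      (by have := d_le_D P (o.n k); omega)
    have h5 := w_p_le P (P.d * o.n k)
    have h6 := w_pos (P.d * o.n k + P.p)
    have h7 : |o.lm P k * o.tv P z (k + 1)| ≤ w (P.d * o.n k + P.p) / 1000 := by
      rw [abs_mul]
      have := ih.1
      rw [w_two] at this
      have := abs_nonneg (o.lm P k)
      have := abs_nonneg (o.tv P z (k + 1))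
      nlinarith
    rw [tv_succ z hk]
    rw [abs_le] at *
    refine ⟨?_, fun _ => ?_⟩
    · constructor <;> linarith [h1.1, h1.2, h2.1, h2.2, h7.1, h7.2]
    · rw [abs_le]; constructor <;> linarith [h1.1, h1.2, h2.1, h2.2, h7.1, h7.2]

lemma abs_ite_le {c : Prop} [Decidable c] {x b : ℝ} (hb : 0 ≤ b) (h : c → |x| ≤ b) :
    |if c then x else 0| ≤ b := by
  split_ifs with g
  · exact h g
  · simpa using hb

lemma sum_geo {a b c : ℕ} {x : ℕ → ℝ} {M : ℝ} (hM : 0 ≤ M)
    (h : ∀ k ∈ Ico a b, |x k| ≤ M * w (c + (k - a))) :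
    |∑ k ∈ Ico a b, x k| ≤ 1002 / 1000 * M * w c := by
  calc _ ≤ ∑ k ∈ Ico a b, |x k| := abs_sum_le_sum_abs _ _
    _ ≤ ∑ k ∈ Ico a b, M * w (c + (k - a)) := sum_le_sum h
    _ = M * ∑ k ∈ Ico a b, w (c + (k - a)) := by rw [mul_sum]
    _ ≤ M * (1001 / 1000 * w c + w c / 1000) := by gcongr; exact sum_w_le a b c
    _ = _ := by ring

lemma frame_t_aux {z : ℝ} {k : ℕ} (hk : 1 ≤ k)
    (ih : ∀ l, 1 ≤ l → l < k → |o.t P z l - o.c P l| ≤ w (P.D * o.n l + P.p) / 50) (i : ℕ) :
    |(o.I P k).gg i * o.t P z (k - (o.I P k).fr i) - (o.I P k).kn i -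
      (o.I P k).sn i * (o.I P k).pi i * w ((o.I P k).e i)| ≤ w ((o.I P k).e i) / 20 := by
  obtain ⟨a, b, c⟩ := frame (P := P) (o := o) hk i
  have hg := good (P := P) (o := o) k
  rcases eq_or_lt_of_le a with h | h
  · have := hg.frm i ((o.I P k).cc i) (by simp [(w_pos _).le])
    rw [b h] at this ⊢
    simpa using this
  · obtain ⟨-, -, c3, c4⟩ := c h
    have := hg.fr_pos i
    apply hg.frm
    rw [c3, c4]
    have h1 := ih (k - (o.I P k).fr i) (by omega) (by omega)
    have := w_pos (P.D * o.n (k - (o.I P k).fr i) + P.p)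
    linarith

lemma snpi_le {I : Info} (hI : Good P I) (i : ℕ) : |I.sn i * I.pi i * w (I.e i)| ≤ w (I.e i) := by
  rw [abs_mul, abs_mul, w_abs]
  have a1 : |I.sn i| = 1 := by rcases hI.sn_val i with h | h <;> simp [h]
  rw [a1, one_mul]
  exact mul_le_of_le_one_left (w_pos _).le (hI.pi_val i).abs_le

lemma t_le {z : ℝ} (hz : |z| ≤ 11 / 10 * w 2) : ∀ k, 1 ≤ k → k < o.K →
    |o.t P z k - o.c P k| ≤ w (P.D * o.n k + P.p) / 50 := by
  intro k
  induction k using Nat.strong_induction_on with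
  | _ k ih =>
  intro hk hK
  have ih' : ∀ l, 1 ≤ l → l < k → |o.t P z l - o.c P l| ≤ w (P.D * o.n l + P.p) / 50 :=
    fun l a b => ih l b a (by omega)
  have hg := good (P := P) (o := o) k
  have hs := sig_pos (P := P) (o.n k)
  have h1 : |o.fo P k + o.g P k * o.t P z (o.u P k)| ≤ w (P.D * o.n k + P.p) / 900 := by
    have a1 := frame_t_aux hk ih' (o.ik P k)
    have a2 := snpi_le hg (o.ik P k)
    have a3 := hg.e_sig (o.n k)
    have a4 : |(o.I P k).gg (o.ik P k) * o.t P z (o.u P k) - (o.I P k).kn (o.ik P k)| ≤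
        105 / 100 * w ((o.I P k).e (o.ik P k)) := by
      unfold u
      rw [abs_le] at *
      constructor <;> linarith [a1.1, a1.2, a2.1, a2.2]
    have e : o.fo P k + o.g P k * o.t P z (o.u P k) =
        ((o.I P k).gg (o.ik P k) * o.t P z (o.u P k) - (o.I P k).kn (o.ik P k)) / sig P (o.n k) := by
      unfold fo g; ring
    rw [e, abs_div, abs_of_pos hs]
    have a5 := div_le_div_of_nonneg_right a4 hs.le
    rw [mul_div_assoc] at a5
    have := w_pos (P.D * o.n k + P.p)
    unfold ik at *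
    linarith
  have h2 : |o.lm P k * o.tv P z (k + 1)| ≤ w (P.D * o.n k + P.p) / 1000 := by
    rw [abs_mul]
    have := (tv_le (P := P) (o := o) hz (Nat.succ_le_of_lt hK)).1
    rw [w_two] at this
    have := lm_le (P := P) (o := o) k
    have := abs_nonneg (o.lm P k)
    have := abs_nonneg (o.tv P z (k + 1))
    simp only [Nat.succ_eq_add_one] at *
    nlinarith
  have h3 : |∑ k' ∈ Ico (k + 1) o.K,
      if o.u P k' < k then o.lh P k k' * o.g P k' * o.t P z (o.u P k') else 0| ≤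
      1002 / 1000 * (1 / 1000) * w (P.D * o.n k + P.p) := by
    refine sum_geo (by norm_num) fun l hl => abs_ite_le (by have := w_pos (P.D * o.n k + P.p + (l - (k + 1))); positivity) fun hu => ?_
    have hl1 := (mem_Ico.1 hl).1
    rcases Nat.eq_zero_or_pos (o.u P l) with g0 | g0
    · rw [g_zero (by omega) g0]; simp; exact (w_pos _).le
    · have b1 := ih' _ g0 hu
      have b2 := c_le (P := P) (o := o) (o.u P l)
      have b3 := w_le_one (P.D * o.n (o.u P l) + P.p)
      have b4 : |o.t P z (o.u P l)| ≤ 1 := by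
        rw [w_two] at b2
        rw [abs_le] at *; constructor <;> linarith [b1.1, b1.2, b2.1, b2.2]
      have b5 : |o.g P l| ≤ 1 / 1000 := by
        rw [← w_one]; refine (g_le l).trans (w_anti ?_); have := P.p_pos; omega
      have b6 := lh_le (P := P) (o := o) hl1
      have := w_pos (P.D * o.n k + P.p + (l - (k + 1)))
      rw [abs_mul, abs_mul]
      calc _ ≤ w (P.D * o.n k + P.p + (l - (k + 1))) * (1 / 1000) * 1 := by gcongr
        _ = _ := by ring
  rw [t_eq, sum_eq_sum_Ico_succ_bot hK, if_pos (u_lt hk), lh_self, tv_succ z hK]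
  have := w_pos (P.D * o.n k + P.p)
  rw [abs_le] at *
  constructor <;> linarith [h1.1, h1.2, h2.1, h2.2, h3.1, h3.2]

lemma frame_t {z : ℝ} (hz : |z| ≤ 11 / 10 * w 2) {k : ℕ} (hk : 1 ≤ k) (hK : k ≤ o.K) (i : ℕ) :
    |(o.I P k).gg i * o.t P z (k - (o.I P k).fr i) - (o.I P k).kn i -
      (o.I P k).sn i * (o.I P k).pi i * w ((o.I P k).e i)| ≤ w ((o.I P k).e i) / 20 :=
  frame_t_aux hk (fun l a b => t_le hz l a (by omega)) i

lemma t_abs {z : ℝ} (hz : |z| ≤ 11 / 10 * w 2) {k : ℕ} (hk : 1 ≤ k) (hK : k ≤ o.K) :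
    |o.t P z k| ≤ 11 / 10 * w 2 := by
  rcases eq_or_lt_of_le hK with rfl | h
  · rw [t_top]; exact hz
  · have h1 := t_le (P := P) hz k hk h
    have h2 := c_le (P := P) (o := o) k
    have h3 := w_p_le P (P.D * o.n k)
    have := w_pos 2
    rw [abs_le] at *
    constructor <;> linarith [h1.1, h1.2, h2.1, h2.2]

lemma gt_le {z : ℝ} (hz : |z| ≤ 11 / 10 * w 2) {k : ℕ} (hk : 1 ≤ k) (hK : k ≤ o.K) :
    |o.g P k * o.t P z (o.u P k)| ≤ w (P.d * o.n k + P.p + P.big) := by
  rcases Nat.eq_zero_or_pos (o.u P k) with g0 | g0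
  · rw [g_zero hk g0]; simp; exact (w_pos _).le
  · have h1 := t_abs (P := P) hz g0 ((u_lt (P := P) hk).le.trans hK)
    rw [w_two] at h1
    rw [abs_mul]
    exact (mul_le_of_le_one_right (abs_nonneg _) (by linarith)).trans (g_le k)

lemma C_le {k : ℕ} (hk : 1 ≤ k) : |o.C P k| ≤ 2 * w (P.big * (o.n k + o.j k)) := by
  have : |o.C P k| ≤ 1002 / 1000 * 1 * w (P.big * (o.n k + o.j k)) := by
    refine sum_geo (by norm_num) fun l hl => abs_ite_le (by rw [one_mul]; exact (w_pos _).le)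
      fun hu => ?_
    have hl1 := (mem_Ico.1 hl).1
    have a1 := g_le_u (P := P) (o := o) (k := l) (by omega) (by omega)
    rw [hu] at a1
    have a2 := SS_mid (o := o) (le_refl k) hl1
    have a3 := P.big_ge
    rw [abs_mul, one_mul]
    refine (mul_le_of_le_one_left (abs_nonneg _) (lh_le_one _ _)).trans (a1.trans (w_anti ?_))
    have : P.big * (o.n k + o.j k + (l - (k + 1))) ≤ P.big * o.SS k l := by gcongr; omega
    nlinarith
  have := w_pos (P.big * (o.n k + o.j k))
  linarith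

/-- The tangent solution. -/
noncomputable def v (P : Par) (o : Orb) (k : ℕ) : ℝ := o.t P 1 k - o.t P 0 k

lemma v_eq (k : ℕ) : o.v P k = o.lh P k o.K + ∑ k' ∈ Ico k o.K,
    if o.u P k' < k then o.lh P k k' * o.g P k' * o.v P (o.u P k') else 0 := by
  have e1 := t_eq (P := P) (o := o) 1 k
  have e0 := t_eq (P := P) (o := o) 0 k
  have : ∑ k' ∈ Ico k o.K,
      (if o.u P k' < k then o.lh P k k' * o.g P k' * o.v P (o.u P k') else 0) =
      (∑ k' ∈ Ico k o.K,
        if o.u P k' < k then o.lh P k k' * o.g P k' * o.t P 1 (o.u P k') else 0) -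
      ∑ k' ∈ Ico k o.K,
        if o.u P k' < k then o.lh P k k' * o.g P k' * o.t P 0 (o.u P k') else 0 := by
    rw [← sum_sub_distrib]
    refine sum_congr rfl fun l _ => ?_
    unfold v; split_ifs <;> ring
  rw [this]
  unfold tv at e1 e0
  unfold v
  linear_combination e1 - e0

lemma v_le : ∀ k, 1 ≤ k → k ≤ o.K → |o.v P k - o.lh P k o.K| ≤ |o.lh P k o.K| / 100 := by
  intro k
  induction k using Nat.strong_induction_on with
  | _ k ih =>
  intro hk hK
  rw [v_eq, add_sub_cancel_left]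
  have : |∑ k' ∈ Ico k o.K,
      if o.u P k' < k then o.lh P k k' * o.g P k' * o.v P (o.u P k') else 0| ≤
      1002 / 1000 * (2 * |o.lh P k o.K|) * w 1 := by
    refine sum_geo (by positivity) fun l hl => abs_ite_le
      (by have := w_pos (1 + (l - k)); positivity) fun hu => ?_
    obtain ⟨hl1, hl2⟩ := mem_Ico.1 hl
    rcases Nat.eq_zero_or_pos (o.u P l) with g0 | g0
    · rw [g_zero (by omega) g0]; simp; have := w_pos (1 + (l - k)); positivity
    · have b1 := ih _ hu g0 (by omega)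
      have b2 : |o.v P (o.u P l)| ≤ 2 * |o.lh P (o.u P l) o.K| := by
        have := abs_sub_abs_le_abs_sub (o.v P (o.u P l)) (o.lh P (o.u P l) o.K)
        have := abs_nonneg (o.lh P (o.u P l) o.K)
        linarith
      have b3 : |o.lh P (o.u P l) o.K| ≤ |o.lh P l o.K| := by
        rw [lh_mul (by omega : o.u P l ≤ l) hl2.le, abs_mul]
        exact mul_le_of_le_one_left (abs_nonneg _) (lh_le_one _ _)
      have b4 : |o.g P l| ≤ w (1 + (l - k)) := by
        refine (g_le_u (by omega) g0).trans (w_anti ?_)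
        have := SS_ge (o := o) (o.u P l) l
        have := P.big_ge
        have : o.SS (o.u P l) l ≤ P.big * o.SS (o.u P l) l := by nlinarith
        omega
      have := w_pos (1 + (l - k))
      rw [lh_mul hl1 hl2.le, abs_mul, abs_mul, abs_mul]
      calc _ ≤ |o.lh P k l| * w (1 + (l - k)) * (2 * |o.lh P l o.K|) := by
            gcongr
            linarith
        _ = _ := by ring
  rw [w_one] at this
  have := abs_nonneg (o.lh P k o.K)
  linarith

lemma v_top : o.v P o.K = 1 := by unfold v; rw [t_top, t_top]; ring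

/-- The tangent heights. -/
noncomputable def xv (P : Par) (o : Orb) (k : ℕ) : ℝ := o.eta P 1 k - o.eta P 0 k

lemma xv_one : o.xv P 1 = 0 := by simp [xv, eta]

lemma xv_succ {k : ℕ} (hk : 1 ≤ k) : o.xv P (k + 1) = Bc P (o.n k) (o.j k) * o.v P k := by
  unfold xv v; rw [eta_succ _ hk, eta_succ _ hk]; ring

lemma v_pass {k : ℕ} (hk : 1 ≤ k) (h : k < o.K) : o.ja P k * o.v P k - o.xv P k =
    (-1) ^ o.n k * w (P.p * (o.n k + o.j k)) * o.v P (k + 1) := by
  have e1 := pass_eq (P := P) (o := o) 1 hk h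
  have e0 := pass_eq (P := P) (o := o) 0 hk h
  unfold v xv
  linear_combination e1 - e0

lemma xv_ik {k : ℕ} (hk : 1 ≤ k) (h : k ≤ o.K) : o.xv P k = (o.I P k).mu (o.ik P k) * o.v P k +
    (o.I P k).gg (o.ik P k) * o.v P (o.u P k) := by
  have e1 := inv (P := P) (o := o) 1 hk h (o.ik P k)
  have e0 := inv (P := P) (o := o) 0 hk h (o.ik P k)
  rw [PE_ik _ hk le_rfl] at e1 e0
  unfold v xv u
  linear_combination e1 - e0

end Orb

end Pool.Agent.P.MP_97fbd9_an
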