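import Pool.Agent.P.MP_97fbd9_an.Bnd

/-! Limit centres and comparison of two designed orbits along a common chain of nodes. -/

open Finset Filter Topology

namespace Pool.Agent.P.MP_97fbd9_an

/-- The limit of the centres along a path. -/
noncomputable def plim (P : Par) (I : Info) (f : ℕ → ℝ) : ℝ := limUnder atTop (pos P I f)

variable {P : Par}

lemma w_tendsto : Tendsto w atTop (𝓝 0) :=
  tendsto_pow_atTop_nhds_zero_of_lt_one (by norm_num) (by norm_num)

lemma Good.plim_tendsto {I : Info} (hI : Good P I) {f : ℕ → ℝ} (hf : ∀ a, Tri (f a)) :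
    Tendsto (pos P I f) atTop (𝓝 (plim P I f)) := by
  apply CauchySeq.tendsto_limUnder
  rw [Metric.cauchySeq_iff']
  intro ε hε
  obtain ⟨a, ha⟩ := (w_tendsto.eventually (gt_mem_nhds (half_pos hε))).exists
  refine ⟨P.p * a, fun y hy => ?_⟩
  have h1 := hI.pos_tail hf _ y hy
  have h2 := w_pos (2 + 2 * (aF P y + cnt I y))
  have h3 := w_anti (x := a) (y := 2 + 2 * (aF P (P.p * a) + cnt I (P.p * a)))
    (by rw [aF_mul]; omega)
  have h4 := w_pos a
  rw [Real.dist_eq]
  linarith

lemma Good.plim_loc {I : Info} (hI : Good P I) {f : ℕ → ℝ} (hf : ∀ a, Tri (f a)) {x : ℕ}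
    (hl : Live P I x) :
    |plim P I f - pos P I f x - dig P I f x * w (tau P I x)| ≤ w (tau P I x) / 900 := by
  refine le_of_tendsto (((hI.plim_tendsto hf).sub_const _).sub_const _).abs ?_
  filter_upwards [eventually_gt_atTop x] with y hy using hI.pos_loc hf hl hy

lemma Good.plim_abs {I : Info} (hI : Good P I) {f : ℕ → ℝ} (hf : ∀ a, Tri (f a)) :
    |plim P I f| ≤ 1001 / 1000 * w 2 :=
  le_of_tendsto (hI.plim_tendsto hf).abs (Eventually.of_forall fun y => hI.pos_abs hf y)

namespace Orb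

/-- Future digits of a pass. -/
noncomputable def fut (o : Orb) (k : ℕ) : ℕ → ℝ :=
  if k < o.K then (o.blk k).f else fun a => sgb (o.ka a)

/-- The final centre. -/
noncomputable def cinf (P : Par) (o : Orb) : ℝ := plim P (o.I P o.K) (o.fut o.K)

/-- The designed positions. -/
noncomputable def T (P : Par) (o : Orb) (k : ℕ) : ℝ := o.t P (o.cinf P) k

variable {o o' : Orb}

lemma fut_lt {k : ℕ} (h : k < o.K) : o.fut k = (o.blk k).f := if_pos h

lemma fut_top : o.fut o.K = fun a => sgb (o.ka a) := if_neg (lt_irrefl _)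

lemma fut_tri (k a : ℕ) : Tri (o.fut k a) := by
  unfold fut; split_ifs
  · exact (o.blk k).f_tri a
  · exact sgb_tri _

lemma fut_ne_iff (k a : ℕ) : o.fut k a ≠ 0 ↔ (k < o.K → a < o.n k) := by
  unfold fut; split_ifs with h
  · simp only [h, true_implies]
    exact ⟨fun g => by by_contra g'; exact g ((o.blk k).f_zero (not_lt.1 g')), (o.blk k).f_ne⟩
  · simp [h, sgb_ne]

lemma f_top (o : Orb) (k : ℕ) : (o.blk k).f (o.n k) = 0 := (o.blk k).f_zero le_rfl

lemma cinf_le : |o.cinf P| ≤ 11 / 10 * w 2 := by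
  have := (good (P := P) (o := o) o.K).plim_abs (fut_tri (o := o) o.K)
  have := w_pos 2
  unfold cinf; linarith

lemma c_loc {k x : ℕ} (hk : k < o.K) (hl : Live P (o.I P k) x) (hx : x ≤ P.p * o.n k) :
    |o.c P k - pos P (o.I P k) (o.fut k) x - dig P (o.I P k) (o.fut k) x * w (tau P (o.I P k) x)|
      ≤ w (tau P (o.I P k) x) / 900 := by
  rw [fut_lt hk]
  rcases eq_or_lt_of_le hx with rfl | h
  · rw [dig_mul, f_top]
    have := w_pos (tau P (o.I P k) (P.p * o.n k))
    simp [c]; positivity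
  · exact (good k).pos_loc (o.blk k).f_tri hl h

lemma w_dn_le {k x : ℕ} (hl : Live P (o.I P k) x) (hx : x ≤ P.p * o.n k) :
    w (P.d * o.n k + P.p) ≤ w (tau P (o.I P k) x) / 1000000 :=
  w_lt2 (by have := (good (P := P) (o := o) k).tau_J (o.n k) hl hx; omega)

lemma tv_loc {k x : ℕ} (hk : k ≤ o.K) (hl : Live P (o.I P k) x)
    (hx : k < o.K → x ≤ P.p * o.n k) :
    |o.tv P (o.cinf P) k - pos P (o.I P k) (o.fut k) x -
      dig P (o.I P k) (o.fut k) x * w (tau P (o.I P k) x)| ≤ w (tau P (o.I P k) x) / 100 := by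
  have hw := w_pos (tau P (o.I P k) x)
  rcases eq_or_lt_of_le hk with rfl | h
  · rw [tv_top]
    have := (good (P := P) (o := o) o.K).plim_loc (fut_tri (o := o) o.K) hl
    unfold cinf; linarith
  · have h1 := c_loc h hl (hx h)
    have h2 := (tv_le (P := P) (o := o) (cinf_le (P := P) (o := o)) hk).2 h
    have h3 := w_dn_le hl (hx h)
    rw [abs_le] at *
    constructor <;> linarith [h1.1, h1.2, h2.1, h2.2]

lemma T_loc {k x : ℕ} (hk1 : 1 ≤ k) (hk : k ≤ o.K) (hl : Live P (o.I P k) x)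
    (hx : k < o.K → x ≤ P.p * o.n k) :
    |o.T P k - pos P (o.I P k) (o.fut k) x -
      dig P (o.I P k) (o.fut k) x * w (tau P (o.I P k) x)| ≤ w (tau P (o.I P k) x) / 100 := by
  have hw := w_pos (tau P (o.I P k) x)
  unfold T
  rcases eq_or_lt_of_le hk with rfl | h
  · rw [t_top]
    have := (good (P := P) (o := o) o.K).plim_loc (fut_tri (o := o) o.K) hl
    unfold cinf; linarith
  · have h1 := c_loc h hl (hx h)
    have h2 := t_le (P := P) (o := o) (cinf_le (P := P) (o := o)) k hk1 h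
    have h3 := w_dn_le hl (hx h)
    have h4 := w_anti (x := P.d * o.n k + P.p) (y := P.D * o.n k + P.p)
      (by have := d_le_D P (o.n k); omega)
    rw [abs_le] at *
    constructor <;> linarith [h1.1, h1.2, h2.1, h2.2]

lemma dead {k l k' : ℕ} (hk : 1 ≤ k) (hl : k < l) (hu : o.u P l < k) (hk' : l < k') :
    o.u P k' ≠ k := by
  intro h
  obtain ⟨-, b, c⟩ := pull (P := P) (o := o) (by omega : 1 ≤ l) hk'.le (o.ik P k')
    (by unfold u at h; omega)
  have := (good (P := P) (o := o) l).fr_mono (b hk')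
  unfold u at h hu
  omega

/-- Product of signs. -/
noncomputable def sgp (o : Orb) (k k' : ℕ) : ℝ := ∏ l ∈ Ico k k', (-1) ^ o.n l

lemma lh_sgp (k k' : ℕ) : o.lh P k k' = o.sgp k k' * w (o.LE P k k') := by
  unfold lh sgp LE lm lam w
  rw [prod_mul_distrib, prod_pow_eq_pow_sum _ _ (1 / 1000 : ℝ)]

lemma sgp_sq (k k' : ℕ) : o.sgp k k' * o.sgp k k' = 1 := by
  unfold sgp; rw [← prod_mul_distrib]; exact prod_eq_one fun l _ => sg_sq _

lemma shift_pi {k : ℕ} (hk : 1 ≤ k) {m : ℕ} (hm : k ≤ m) (a : ℕ) :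
    (o.I P m).pi (o.sh k m + a) = (o.I P k).pi a ∧
      (o.I P m).sn (o.sh k m + a) = o.sgp k m * (o.I P k).sn a := by
  induction m, hm using Nat.le_induction with
  | base => simp [sh_self, sgp]
  | succ m hm ih =>
    have e : o.sh k (m + 1) + a = o.n m + o.j m + 1 + (o.sh k m + a) := by rw [sh_right hm]; omega
    rw [e, I_succ (by omega), pi_step_hi, sn_step_hi, ih.1, ih.2]
    unfold sgp
    rw [prod_Ico_succ_top hm]
    exact ⟨rfl, by ring⟩

/-- Two passes in the same terminal node. -/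
def Node (P : Par) (o : Orb) (k : ℕ) (o' : Orb) (k' : ℕ) : Prop :=
  k < o.K ∧ k' < o'.K ∧
    Same P (o.past k) (o.blk k).f (o'.past k') (o'.blk k').f (P.p * o.n k + 1)

section node

variable {k k' : ℕ}

lemma Node.n_eq (h : Node P o k o' k') : o'.n k' = o.n k := by
  have h2 := h.2.2.2
  rw [aF_mul_succ] at h2
  rcases lt_trichotomy (o'.n k') (o.n k) with g | g | g
  · have := h2 (o'.n k') (by omega)
    rw [f_top] at this
    exact absurd this ((o.blk k).f_ne g)
  · exact g
  · have := h2 (o.n k) (by omega)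
    rw [f_top] at this
    exact absurd this.symm ((o'.blk k').f_ne g)

lemma Node.f_eq (h : Node P o k o' k') : (o'.blk k').f = (o.blk k).f := by
  have h2 := h.2.2.2
  rw [aF_mul_succ] at h2
  funext a
  rcases lt_or_ge a (o.n k) with g | g
  · exact (h2 a (by omega)).symm
  · rw [(o.blk k).f_zero g, (o'.blk k').f_zero (h.n_eq.le.trans g)]

lemma Node.symm (h : Node P o k o' k') : Node P o' k' o k :=
  ⟨h.2.1, h.1, by rw [h.n_eq]; exact h.2.2.symm⟩

lemma Node.same (h : Node P o k o' k') :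
    Same P (o.past k) (o.blk k).f (o'.past k') (o'.blk k').f (P.p * o.n k) :=
  h.2.2.mono (Nat.le_succ _)

lemma Node.ik_eq (h : Node P o k o' k') : o'.ik P k' = o.ik P k := by
  unfold ik; rw [h.n_eq]; exact h.same.cnt_eq

lemma Node.c_eq (h : Node P o k o' k') : o'.c P k' = o.c P k := by
  unfold c; rw [h.n_eq]; exact h.same.pos_eq

lemma Node.agree (h : Node P o k o' k') : Agree (o.I P k) (o'.I P k') (o.ik P k) := h.same.1

lemma Node.fr_eq (h : Node P o k o' k') :
    (o'.I P k').fr (o'.ik P k') = (o.I P k).fr (o.ik P k) := by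
  rw [h.ik_eq]; exact (h.same.locP.fr _ le_rfl).symm

lemma Node.jb_eq (h : Node P o k o' k') : o'.jb P k' = o.jb P k := by
  unfold jb
  rw [h.n_eq, h.c_eq, h.f_eq, h.ik_eq]
  congr 2
  exact (h.same.locP.h _ le_rfl).symm

lemma Node.ja_eq (h : Node P o k o' k') :
    o.ja P k - o'.ja P k' = sig P (o.n k) * (o.C P k - o'.C P k') := by
  unfold ja
  have : (o'.I P k').mu (o.ik P k) = (o.I P k).mu (o.ik P k) := (h.same.locP.mu _ le_rfl).symm
  rw [h.n_eq, h.ik_eq, this]; ring

end node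

/-- A common chain of terminal nodes. -/
def Chain (P : Par) (o : Orb) (k : ℕ) (o' : Orb) (k' L : ℕ) : Prop :=
  (∀ l ≤ L, Node P o (k + l) o' (k' + l)) ∧ ∀ l < L, o'.j (k' + l) = o.j (k + l)

/-- Common blocks. -/
def Blocks (o : Orb) (k : ℕ) (o' : Orb) (k' L : ℕ) : Prop :=
  ∀ l < L, o'.n (k' + l) = o.n (k + l) ∧ o'.j (k' + l) = o.j (k + l) ∧
    (o'.blk (k' + l)).f = (o.blk (k + l)).f

section chain

variable {k k' L : ℕ}

lemma Chain.symm (h : Chain P o k o' k' L) : Chain P o' k' o k L :=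
  ⟨fun l hl => (h.1 l hl).symm, fun l hl => (h.2 l hl).symm⟩

lemma Chain.mono (h : Chain P o k o' k' L) {L' : ℕ} (hL : L' ≤ L) : Chain P o k o' k' L' :=
  ⟨fun l hl => h.1 l (hl.trans hL), fun l hl => h.2 l (hl.trans_le hL)⟩

lemma Chain.blocks (h : Chain P o k o' k' L) : Blocks o k o' k' L :=
  fun l hl => ⟨(h.1 l hl.le).n_eq, h.2 l hl, (h.1 l hl.le).f_eq⟩

lemma Chain.blocks_succ (h : Chain P o k o' k' L) (hj : o'.j (k' + L) = o.j (k + L)) :
    Blocks o k o' k' (L + 1) := fun l hl => by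
  refine ⟨(h.1 l (by omega)).n_eq, ?_, (h.1 l (by omega)).f_eq⟩
  rcases eq_or_lt_of_le (Nat.lt_succ_iff.1 hl) with rfl | g
  · exact hj
  · exact h.2 l g

lemma Blocks.mono (h : Blocks o k o' k' L) {L' : ℕ} (hL : L' ≤ L) : Blocks o k o' k' L' :=
  fun l hl => h l (hl.trans_le hL)

lemma Blocks.lm_eq (h : Blocks o k o' k' L) {l : ℕ} (hl : l < L) :
    o'.lm P (k' + l) = o.lm P (k + l) := by unfold lm; rw [(h l hl).1, (h l hl).2.1]

lemma Blocks.lh_eq (h : Blocks o k o' k' L) : o'.lh P k' (k' + L) = o.lh P k (k + L) := by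
  induction L with
  | zero => simp [lh_self]
  | succ L ih =>
    rw [← add_assoc, ← add_assoc, lh_right (by omega), lh_right (by omega),
      ih (h.mono (Nat.le_succ L)), h.lm_eq (Nat.lt_succ_self L)]

lemma Blocks.sh_eq (h : Blocks o k o' k' L) : o'.sh k' (k' + L) = o.sh k (k + L) := by
  induction L with
  | zero => simp [sh_self]
  | succ L ih =>
    rw [← add_assoc, ← add_assoc, sh_right (by omega), sh_right (by omega),
      ih (h.mono (Nat.le_succ L)), (h L (Nat.lt_succ_self L)).1, (h L (Nat.lt_succ_self L)).2.1]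

lemma Blocks.GG_eq (h : Blocks o k o' k' (L + 1)) :
    o'.GG P k' (k' + L + 1) = o.GG P k (k + L + 1) := by
  induction L with
  | zero =>
    have := h 0 (by omega)
    simp only [add_zero] at this
    simp [GG, this.1, this.2.1]
  | succ L ih =>
    have e := ih (h.mono (Nat.le_succ _))
    have := h (L + 1) (by omega)
    unfold GG at e ⊢
    rw [prod_Ico_succ_top (by omega), prod_Ico_succ_top (by omega : k + 1 ≤ k + (L + 1)),
      this.1, this.2.1, ← mul_assoc, ← mul_assoc, ← add_assoc, ← add_assoc, e]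

lemma Blocks.agree (h : Blocks o k o' k' L) (hk : 1 ≤ k) (hk' : 1 ≤ k') {i : ℕ}
    (ha : Agree (o.I P k) (o'.I P k') i) :
    Agree (o.I P (k + L)) (o'.I P (k' + L)) (o.sh k (k + L) + i) := by
  induction L with
  | zero => simpa [sh_self] using ha
  | succ L ih =>
    have ih := ih (h.mono (Nat.le_succ L))
    obtain ⟨a1, a2, a3⟩ := h L (Nat.lt_succ_self L)
    rw [← add_assoc, ← add_assoc, I_succ (by omega), I_succ (by omega), a1, a2, a3,
      sh_right (by omega)]
    intro a ha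
    rcases le_or_gt a (o.n (k + L) + o.j (k + L)) with g | g
    · rw [pi_step_lo _ _ _ _ g, pi_step_lo _ _ _ _ g]
    · obtain ⟨a', rfl⟩ : ∃ a', a = o.n (k + L) + o.j (k + L) + 1 + a' :=
        ⟨a - (o.n (k + L) + o.j (k + L) + 1), by omega⟩
      rw [pi_step_hi, pi_step_hi]
      exact ih a' (by omega)

lemma Chain.u_iff (h : Chain P o k o' k' L) (hk : 1 ≤ k) (hk' : 1 ≤ k') {l : ℕ} (hl : l ≤ L) :
    (o'.u P (k' + l) = k' ↔ o.u P (k + l) = k) ∧ (o'.u P (k' + l) < k' ↔ o.u P (k + l) < k) := by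
  have a := (h.1 l hl).fr_eq
  have b := (frame (P := P) (o := o) (by omega : 1 ≤ k + l) (o.ik P (k + l))).1
  have b' := (frame (P := P) (o := o') (by omega : 1 ≤ k' + l) (o'.ik P (k' + l))).1
  unfold u
  omega

/-- Tail of the compensation. -/
noncomputable def Ct (P : Par) (o : Orb) (k m : ℕ) : ℝ :=
  ∑ k' ∈ Ico m o.K, if o.u P k' = k then o.lh P k k' * o.g P k' else 0

lemma Chain.C_sub (h : Chain P o k o' k' L) (hk : 1 ≤ k) (hk' : 1 ≤ k') :
    o.C P k - o'.C P k' = o.Ct P k (k + L + 1) - o'.Ct P k' (k' + L + 1) := by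
  induction L with
  | zero => rfl
  | succ L ih =>
    rw [ih (h.mono (Nat.le_succ L))]
    obtain ⟨a1, a2, -⟩ := h.1 (L + 1) le_rfl
    unfold Ct
    rw [sum_eq_sum_Ico_succ_bot (a := k + L + 1) a1, sum_eq_sum_Ico_succ_bot (a := k' + L + 1) a2]
    have : (if o.u P (k + L + 1) = k then o.lh P k (k + L + 1) * o.g P (k + L + 1) else 0) =
        if o'.u P (k' + L + 1) = k' then o'.lh P k' (k' + L + 1) * o'.g P (k' + L + 1) else 0 := by
      have b := (h.u_iff hk hk' le_rfl).1
      by_cases g : o.u P (k + L + 1) = k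
      · have g' : o'.u P (k' + L + 1) = k' := b.2 g
        rw [if_pos g, if_pos g']
        have c1 := (frame_u (P := P) (o := o) (k := k + L + 1) (by omega) (by omega)).1
        have c2 := (frame_u (P := P) (o := o') (k := k' + L + 1) (by omega) (by omega)).1
        unfold Orb.g
        rw [c1, c2, g, g', h.blocks.GG_eq]
        have d1 := h.blocks.lh_eq (P := P)
        have d2 := (h.1 (L + 1) le_rfl).n_eq
        simp only [← add_assoc] at d1 d2
        rw [d1, d2]
      · have g' : ¬ o'.u P (k' + L + 1) = k' := fun g' => g (b.1 g')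
        rw [if_neg g, if_neg g']
    rw [this]
    simp only [← add_assoc]
    ring

lemma Ct_dead {l m : ℕ} (hk : 1 ≤ k) (hl : k < l) (hu : o.u P l < k) (hm : l < m) :
    o.Ct P k m = 0 :=
  sum_eq_zero fun a ha => if_neg (dead hk hl hu (by have := (mem_Ico.1 ha).1; omega))

lemma Ct_top {m : ℕ} (hm : o.K ≤ m) : o.Ct P k m = 0 := by
  unfold Ct; rw [Ico_eq_empty (by omega), sum_empty]

lemma alive_fr (hk : 1 ≤ k) (ha : ∀ l, 1 ≤ l → l ≤ L → k ≤ o.u P (k + l)) :
    L + 2 ≤ (o.I P (k + L + 1)).fr (o.sh k (k + L + 1) + o.ik P k) := by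
  induction L with
  | zero =>
    rw [add_zero, sh_right le_rfl, sh_self, zero_add (o.n k + o.j k + 1), (fr_hi hk le_rfl).1]
    have := (good (P := P) (o := o) k).fr_pos (o.ik P k)
    omega
  | succ L ih =>
    have ih := ih (fun l a b => ha l a (by omega))
    have h1 := ha (L + 1) (by omega) le_rfl
    rw [← add_assoc] at h1 ⊢
    have h2 : o.ik P (k + L + 1) ≤ o.sh k (k + L + 1) + o.ik P k := by
      by_contra g
      have := (good (P := P) (o := o) (k + L + 1)).fr_mono (not_le.1 g).le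
      unfold u at h1
      omega
    have e : o.sh k (k + L + 1 + 1) + o.ik P k =
        o.n (k + L + 1) + o.j (k + L + 1) + 1 + (o.sh k (k + L + 1) + o.ik P k) := by
      rw [sh_right (by omega)]; omega
    rw [e, (fr_hi (by omega) h2).1]
    omega

lemma Chain.fo_eq (h : Chain P o k o' k' (L + 1)) (hk : 1 ≤ k) (hk' : 1 ≤ k')
    (ha : ∀ l, 1 ≤ l → l ≤ L + 1 → k ≤ o.u P (k + l)) :
    o'.fo P (k' + L + 1) = o.fo P (k + L + 1) := by
  have h1 := alive_fr (L := L) hk (fun l a b => ha l a (by omega))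
  have h2 := ha (L + 1) (by omega) le_rfl
  have h0 := h.1 0 (by omega)
  simp only [add_zero] at h0
  have h3 := loc _ _ _ (h.blocks.agree hk hk' h0.agree)
  have h4 := h.1 (L + 1) le_rfl
  simp only [← add_assoc] at h2 h3 h4
  have h5 : (o.I P (k + L + 1)).fr (o.ik P (k + L + 1)) <
      (o.I P (k + L + 1)).fr (o.sh k (k + L + 1) + o.ik P k) := by unfold u at h2; omega
  have h6 : o.ik P (k + L + 1) ≤ o.sh k (k + L + 1) + o.ik P k := by
    by_contra g
    have := (good (P := P) (o := o) (k + L + 1)).fr_mono (not_le.1 g).le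
    omega
  have h7 := (h3.kg _ _ h6 le_rfl h5).1
  unfold fo
  rw [h4.ik_eq, h4.n_eq]
  unfold I
  rw [h7]

lemma Chain.tv_diff (h : Chain P o k o' k' L) (hk : 1 ≤ k) (hk' : 1 ≤ k')
    (ha : ∀ l, 1 ≤ l → l ≤ L → k ≤ o.u P (k + l)) (z z' : ℝ) :
    o.lm P k * o.tv P z (k + 1) - o'.lm P k' * o'.tv P z' (k' + 1) = o.lh P k (k + L) *
      (o.lm P (k + L) * o.tv P z (k + L + 1) - o'.lm P (k' + L) * o'.tv P z' (k' + L + 1)) := by
  induction L with
  | zero => simp [lh_self]
  | succ L ih =>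
    rw [ih (h.mono (Nat.le_succ L)) (fun l a b => ha l a (by omega))]
    have h4 := h.1 (L + 1) le_rfl
    have h5 := h.fo_eq hk hk' ha
    have h6 := h.blocks.lm_eq (P := P) (Nat.lt_succ_self L)
    simp only [← add_assoc] at h4 ⊢
    rw [tv_succ z h4.1, tv_succ z' h4.2.1, h5, h4.c_eq, h6, lh_right (by omega)]
    ring

end chain

end Orb

end Pool.Agent.P.MP_97fbd9_an
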