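import Pool.Agent.P.MP_97fbd9_an.Sep

/-! The separation estimate and its consequences for the compensations. -/

open Finset

namespace Pool.Agent.P.MP_97fbd9_an

namespace Orb

variable {P : Par} {o o' : Orb} {k k' L : ℕ}

lemma tau_ge (I : Info) (x : ℕ) : 2 ≤ tau P I x := by unfold tau; omega

lemma Rab_small {m x : ℕ} (hk : 1 ≤ k) (hkm : k ≤ m) (hl : Live P (o.I P m) x)
    (hx : m < o.K → x ≤ P.p * o.n m) :
    o.Rab P k m ≤ |o.lh P k m| * w (tau P (o.I P m) x) / 1000 := by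
  have h0 := abs_nonneg (o.lh P k m)
  have h1 := w_pos (tau P (o.I P m) x)
  rcases lt_or_ge m o.K with g | g
  · have a := Rab_le (P := P) hk hkm g
    have b := w_dn_le hl (hx g)
    nlinarith
  · rw [Rab_top g]; positivity

lemma tv_two {m : ℕ} (hm : m ≤ o.K) :
    99 / 100 * w 2 ≤ |o.tv P (o.cinf P) m| ∧ |o.tv P (o.cinf P) m| ≤ 101 / 100 * w 2 := by
  have h := tv_loc (P := P) (o := o) (x := P.p * 0) hm (live_mul 0) (fun _ => by simp)
  rw [dig_mul, mul_zero, pos_zero, tau_zero (good m).e_mono] at h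
  have hne : o.fut m 0 ≠ 0 := (fut_ne_iff m 0).2 fun _ => n_pos m
  have := w_pos 2
  rcases fut_tri (o := o) m 0 with g | g | g
  · rw [g, abs_le] at h
    rw [abs_of_neg (by linarith [h.2])]; constructor <;> linarith [h.1, h.2]
  · exact absurd g hne
  · rw [g, abs_le] at h
    rw [abs_of_pos (by linarith [h.1])]; constructor <;> linarith [h.1, h.2]

lemma core_J (h : Chain P o k o' k' L) (hk : 1 ≤ k) (hk' : 1 ≤ k')
    (ha : ∀ l, 1 ≤ l → l ≤ L → k ≤ o.u P (k + l)) (hj : o.j (k + L) < o'.j (k' + L)) :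
    |o.lh P k (k + L + 1)| * w 2 / 2 ≤ |o.T P k - o'.T P k'| ∧
      |o'.lh P k' (k' + L + 1)| ≤ |o.lh P k (k + L + 1)| := by
  obtain ⟨hK, hK', -⟩ := h.1 L le_rfl
  have hn := (h.1 L le_rfl).n_eq
  have e1 := h.blocks.lh_eq (P := P)
  have a1 : |o'.lm P (k' + L)| ≤ |o.lm P (k + L)| / 1000 := by
    rw [abs_lm, abs_lm, hn]; apply w_lt
    have := P.p_pos; nlinarith
  have a2 : |o.lh P k (k + L + 1)| = |o.lh P k (k + L)| * |o.lm P (k + L)| := by
    rw [lh_right (by omega), abs_mul]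
  have a3 : |o'.lh P k' (k' + L + 1)| = |o.lh P k (k + L)| * |o'.lm P (k' + L)| := by
    rw [lh_right (by omega), abs_mul, e1]
  have p1 := abs_nonneg (o.lh P k (k + L))
  have p2 := abs_nonneg (o.lm P (k + L))
  have p3 := abs_nonneg (o'.lm P (k' + L))
  have a4 : |o'.lh P k' (k' + L + 1)| ≤ |o.lh P k (k + L + 1)| := by
    rw [a2, a3]; exact mul_le_mul_of_nonneg_left (by linarith) p1
  refine ⟨?_, a4⟩
  have eE : w (o.LE P k (k + L + 1) + 2) = |o.lh P k (k + L + 1)| * w 2 := by rw [w_add, abs_lh]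
  obtain ⟨t1, t2⟩ := tv_two (P := P) (o := o) (m := k + L + 1) hK
  obtain ⟨t3, t4⟩ := tv_two (P := P) (o := o') (m := k' + L + 1) hK'
  have w2 := w_pos 2
  have b1 := abs_sub_abs_le_abs_sub (o.lm P (k + L) * o.tv P (o.cinf P) (k + L + 1))
    (o'.lm P (k' + L) * o'.tv P (o'.cinf P) (k' + L + 1))
  have b2 := abs_sub (o.lm P (k + L) * o.tv P (o.cinf P) (k + L + 1))
    (o'.lm P (k' + L) * o'.tv P (o'.cinf P) (k' + L + 1))
  rw [abs_mul, abs_mul] at b1 b2
  have c1 : |o'.lm P (k' + L)| * |o'.tv P (o'.cinf P) (k' + L + 1)| ≤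
      |o.lm P (k + L)| / 1000 * (101 / 100 * w 2) := by gcongr
  have c2 : |o.lm P (k + L)| * (99 / 100 * w 2) ≤
      |o.lm P (k + L)| * |o.tv P (o.cinf P) (k + L + 1)| := by gcongr
  have c3 : |o.lm P (k + L)| * |o.tv P (o.cinf P) (k + L + 1)| ≤
      |o.lm P (k + L)| * (101 / 100 * w 2) := by gcongr
  have c4 := mul_nonneg p2 w2.le
  rw [← eE]
  refine lb_main h hk hk' ha ?_ ?_ ?_ (Or.inl ?_)
  · have r1 := Rab_small (P := P) (o := o) (x := P.p * 0) hk (by omega : k ≤ k + L + 1)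
      (live_mul 0) (fun _ => by simp)
    have r2 := Rab_small (P := P) (o := o') (x := P.p * 0) hk' (by omega : k' ≤ k' + L + 1)
      (live_mul 0) (fun _ => by simp)
    rw [mul_zero, tau_zero (good _).e_mono] at r1 r2
    have := abs_nonneg (o.lh P k (k + L + 1))
    rw [eE]; nlinarith
  · rw [eE, a2, abs_mul, mul_assoc, mul_left_comm]
    gcongr; linarith
  · rw [eE, a2, abs_mul, mul_assoc, mul_left_comm]
    gcongr; linarith
  · have := LE_even (P := P) (o := o) k (k + L + 1); omega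

lemma core_S (h : Chain P o k o' k' L) (hk : 1 ≤ k) (hk' : 1 ≤ k')
    (ha : ∀ l, 1 ≤ l → l ≤ L → k ≤ o.u P (k + l)) (hj : o'.j (k' + L) = o.j (k + L)) {x : ℕ}
    (hs : Same P (o.past (k + L + 1)) (o.fut (k + L + 1)) (o'.past (k' + L + 1))
      (o'.fut (k' + L + 1)) x)
    (hd : dig P (o'.I P (k' + L + 1)) (o'.fut (k' + L + 1)) x ≠
      dig P (o.I P (k + L + 1)) (o.fut (k + L + 1)) x)
    (hx : k + L + 1 < o.K → x ≤ P.p * o.n (k + L + 1))
    (hx' : k' + L + 1 < o'.K → x ≤ P.p * o'.n (k' + L + 1)) :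
    |o.lh P k (k + L + 1)| * w (tau P (o.I P (k + L + 1)) x) / 2 ≤ |o.T P k - o'.T P k'| := by
  obtain ⟨hK, hK', -⟩ := h.1 L le_rfl
  have hb := h.blocks_succ hj
  have e1 := hb.lh_eq (P := P)
  have e2 := hb.lm_eq (P := P) (Nat.lt_succ_self L)
  have e3 := hb.sh_eq
  simp only [← add_assoc] at e1 e3
  set m := k + L + 1 with hm
  set m' := k' + L + 1 with hm'
  have hl : Live P (o.I P m) x := hs.live_of_ne hd
  have hl' : Live P (o'.I P m') x := hs.live hl
  have et : tau P (o'.I P m') x = tau P (o.I P m) x := hs.tau_eq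
  have ep : pos P (o'.I P m') (o'.fut m') x = pos P (o.I P m) (o.fut m) x := hs.pos_eq
  have t1 := tv_loc (P := P) (o := o) (k := m) hK hl hx
  have t2 := tv_loc (P := P) (o := o') (k := m') hK' hl' hx'
  rw [et, ep] at t2
  have eF : o.lh P k (k + L) * (o.lm P (k + L) * o.tv P (o.cinf P) m -
      o'.lm P (k' + L) * o'.tv P (o'.cinf P) m') =
      o.lh P k m * (o.tv P (o.cinf P) m - o'.tv P (o'.cinf P) m') := by
    rw [e2, hm, lh_right (by omega)]; ring
  have eE : w (o.LE P k m + tau P (o.I P m) x) = |o.lh P k m| * w (tau P (o.I P m) x) := by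
    rw [w_add, abs_lh]
  have hg := good (P := P) (o := o) m
  have hg' := good (P := P) (o := o') m'
  set d := dig P (o.I P m) (o.fut m) x with hdd
  set d' := dig P (o'.I P m') (o'.fut m') x with hdd'
  obtain ⟨d1, d2⟩ := tri_diff (hg.dig_tri (fut_tri m) x) (hg'.dig_tri (fut_tri m') x) hd.symm
  rw [← hdd, ← hdd'] at d1 d2
  have hw := w_pos (tau P (o.I P m) x)
  set W := w (tau P (o.I P m) x)
  have t3 : |o.tv P (o.cinf P) m - o'.tv P (o'.cinf P) m' - (d - d') * W| ≤ W / 50 := by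
    rw [abs_le] at t1 t2 ⊢
    constructor <;> linarith [t1.1, t1.2, t2.1, t2.2]
  have t4 : |(d - d') * W| = |d - d'| * W := by rw [abs_mul, abs_of_pos hw]
  have t5 := abs_sub_abs_le_abs_sub (o.tv P (o.cinf P) m - o'.tv P (o'.cinf P) m') ((d - d') * W)
  have t6 := abs_sub_abs_le_abs_sub ((d - d') * W) (o.tv P (o.cinf P) m - o'.tv P (o'.cinf P) m')
  rw [abs_sub_comm ((d - d') * W)] at t6
  have p0 := abs_nonneg (o.lh P k m)
  rw [← eE]
  refine lb_main h hk hk' ha ?_ ?_ ?_ ?_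
  · have r1 := Rab_small (P := P) (o := o) hk (by omega : k ≤ m) hl hx
    have r2 := Rab_small (P := P) (o := o') hk' (by omega : k' ≤ m') hl' hx'
    rw [et, e1] at r2
    rw [eE]; nlinarith
  · rw [eE, eF, abs_mul, mul_left_comm]
    gcongr; nlinarith
  · rw [eE, eF, abs_mul, mul_left_comm]
    gcongr; nlinarith
  · by_cases hp : P.p ∣ x
    · left
      obtain ⟨a, rfl⟩ := hp
      have := LE_even (P := P) (o := o) k m
      have := Par.mul_even P.p_even a
      unfold tau; omega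
    · right
      have he := hl.resolve_left hp
      set i0 := cnt (o.I P m) x
      have hc : cnt (o'.I P m') x = i0 := hs.cnt_eq
      have hlp : LocP (o.I P m) (o'.I P m') i0 := hs.locP
      have f1 : d = (o.I P m).sn i0 * (o.I P m).pi i0 := by
        rw [hdd]; unfold dig; rw [if_neg hp, if_pos he]
      have f2 : d' = (o.I P m).sn i0 * (o'.I P m').pi i0 := by
        rw [hdd']; unfold dig
        rw [if_neg hp, hc, ← hlp.e _ le_rfl, if_pos he, hlp.sn _ le_rfl]
      have f3 : (o.I P m).pi i0 ≠ (o'.I P m').pi i0 := fun g => hd (by rw [f1, f2, g])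
      have f4 : ∀ i, Agree (o.I P k) (o'.I P k') i → o.sh k m + i ≤ i0 := fun i hi => by
        have : Agree (o.I P m) (o'.I P m') (o.sh k m + i) := hb.agree hk hk' hi
        by_contra g
        exact f3 (this i0 (by omega))
      have f5 : ∀ i, (o.I P m).pi (o.sh k m + i) = (o.I P k).pi i ∧
          (o'.I P m').pi (o.sh k m + i) = (o'.I P k').pi i := fun i =>
        ⟨(shift_pi hk (by omega) i).1, by rw [← e3]; exact (shift_pi hk' (by omega) i).1⟩
      have f6 := f4 0 (fun a g => absurd g (Nat.not_lt_zero a))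
      refine ⟨⟨i0 - o.sh k m, ?_⟩, fun i hi hne => ?_⟩
      · rw [← (f5 _).1, ← (f5 _).2, Nat.add_sub_cancel' (by omega)]; exact f3
      · have g1 := f4 i hi
        have g2 : o.sh k m + i = i0 := by
          by_contra g
          exact hne (by rw [← (f5 i).1, ← (f5 i).2]; exact hs.1 _ (lt_of_le_of_ne g1 g))
        have g3 := (shift_pi (P := P) (o := o) hk (by omega : k ≤ m) i).2
        rw [g2] at g3
        have g4 : d - d' = o.sgp k m * ((o.I P k).sn i * ((o.I P k).pi i - (o'.I P k').pi i)) := by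
          rw [f1, f2, g3, ← (f5 i).1, ← (f5 i).2, g2]; ring
        have g5 := sgp_sq (o := o) k m
        rw [eF, lh_sgp]
        have g6 : (o.I P k).sn i * ((o.I P k).pi i - (o'.I P k').pi i) * (o.sgp k m *
            w (o.LE P k m) * (o.tv P (o.cinf P) m - o'.tv P (o'.cinf P) m')) =
            w (o.LE P k m) * ((d - d') * (o.tv P (o.cinf P) m - o'.tv P (o'.cinf P) m')) := by
          rw [g4]; ring
        rw [g6]
        refine mul_nonneg (w_pos _).le ?_
        rw [abs_le] at t3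
        rcases le_abs.1 d1 with g | g
        · have := mul_le_mul_of_nonneg_right g hw.le
          exact mul_nonneg (by linarith) (by linarith [t3.1])
        · have := mul_le_mul_of_nonneg_right g hw.le
          exact mul_nonneg_of_nonpos_of_nonpos (by linarith) (by linarith [t3.2])

lemma exists_split (h : Chain P o k o' k' L) (hj : o'.j (k' + L) = o.j (k + L))
    (hmax : ¬ Chain P o k o' k' (L + 1)) :
    (k + L + 1 = o.K ∧ k' + L + 1 = o'.K ∧ ∀ x, Same P (o.past (k + L + 1)) (o.fut (k + L + 1))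
      (o'.past (k' + L + 1)) (o'.fut (k' + L + 1)) x) ∨
    ∃ x, Same P (o.past (k + L + 1)) (o.fut (k + L + 1)) (o'.past (k' + L + 1))
      (o'.fut (k' + L + 1)) x ∧ dig P (o'.I P (k' + L + 1)) (o'.fut (k' + L + 1)) x ≠
      dig P (o.I P (k + L + 1)) (o.fut (k + L + 1)) x ∧
      (k + L + 1 < o.K → x ≤ P.p * o.n (k + L + 1)) ∧
      (k' + L + 1 < o'.K → x ≤ P.p * o'.n (k' + L + 1)) := by
  obtain ⟨hK, hK', -⟩ := h.1 L le_rfl
  have hnode : ¬ Node P o (k + L + 1) o' (k' + L + 1) := fun g => hmax ⟨fun l hl => by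
    rcases eq_or_lt_of_le hl with rfl | g'
    · exact g
    · exact h.1 l (by omega), fun l hl => by
    rcases eq_or_lt_of_le (Nat.lt_succ_iff.1 hl) with rfl | g'
    · exact hj
    · exact h.2 l g'⟩
  set m := k + L + 1
  set m' := k' + L + 1
  have k1 : m < o.K → ¬ Same P (o.past m) (o.fut m) (o'.past m') (o'.fut m') (P.p * o.n m + 1) :=
    fun g hs => by
    rcases lt_or_ge m' o'.K with g' | g'
    · rw [fut_lt g, fut_lt g'] at hs
      exact hnode ⟨g, g', hs⟩
    · have := hs.2 (o.n m) (by rw [aF_mul_succ]; omega)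
      have a := (fut_ne_iff (o := o') m' (o.n m)).2 (fun a => by omega)
      have b := (fut_ne_iff (o := o) m (o.n m)).1 (this ▸ a) g
      omega
  have k2 : m' < o'.K →
      ¬ Same P (o.past m) (o.fut m) (o'.past m') (o'.fut m') (P.p * o'.n m' + 1) :=
    fun g hs => by
    rcases lt_or_ge m o.K with g' | g'
    · rw [fut_lt g, fut_lt g'] at hs
      exact hnode (Node.symm ⟨g, g', hs.symm⟩)
    · have := hs.2 (o'.n m') (by rw [aF_mul_succ]; omega)
      have a := (fut_ne_iff (o := o) m (o'.n m')).2 (fun a => by omega)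
      have b := (fut_ne_iff (o := o') m' (o'.n m')).1 (this ▸ a) g
      omega
  by_cases hall : ∀ x, Same P (o.past m) (o.fut m) (o'.past m') (o'.fut m') x
  · left
    refine ⟨?_, ?_, hall⟩
    · by_contra g; exact k1 (by omega) (hall _)
    · by_contra g; exact k2 (by omega) (hall _)
  · right
    push Not at hall
    obtain ⟨X, hX⟩ := hall
    obtain ⟨x, -, hs, hd⟩ := (split _ _ _ _ X).resolve_left hX
    refine ⟨x, hs, hd, fun g => ?_, fun g => ?_⟩
    · by_contra g'; exact k1 g (hs.mono (by omega))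
    · by_contra g'; exact k2 g (hs.mono (by omega))

lemma exists_max (h : Chain P o k o' k' L) :
    ∃ L', L ≤ L' ∧ Chain P o k o' k' L' ∧ ¬ Chain P o k o' k' (L' + 1) := by
  by_contra g
  push Not at g
  have : ∀ a, Chain P o k o' k' (L + a) := fun a => by
    induction a with
    | zero => exact h
    | succ a ih => exact g (L + a) (by omega) ih
  have := ((this o.K).1 _ le_rfl).1
  omega

lemma dead_eq (h : Chain P o k o' k' L) (hk : 1 ≤ k) (hk' : 1 ≤ k')
    (ha : ¬ ∀ l, 1 ≤ l → l ≤ L → k ≤ o.u P (k + l)) : o.C P k = o'.C P k' := by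
  push Not at ha
  obtain ⟨l, h1, h2, h3⟩ := ha
  have := h.C_sub hk hk'
  rw [Ct_dead (l := k + l) hk (by omega) h3 (by omega),
    Ct_dead (l := k' + l) hk' (by omega) ((h.u_iff hk hk' h2).2.2 h3) (by omega)] at this
  linarith

theorem core (h : Chain P o k o' k' L) (hk : 1 ≤ k) (hk' : 1 ≤ k')
    (ha : ∀ l, 1 ≤ l → l ≤ L → k ≤ o.u P (k + l)) (hmax : ¬ Chain P o k o' k' (L + 1)) :
    (k + L + 1 = o.K ∧ k' + L + 1 = o'.K ∧ o'.j (k' + L) = o.j (k + L) ∧
      ∀ x, Same P (o.past (k + L + 1)) (o.fut (k + L + 1))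
      (o'.past (k' + L + 1)) (o'.fut (k' + L + 1)) x) ∨
    (|o.lh P k (k + L + 1)| * w 2 / 2 ≤ |o.T P k - o'.T P k'| ∧
      |o'.lh P k' (k' + L + 1)| * w 2 / 2 ≤ |o.T P k - o'.T P k'|) ∨
    (o'.j (k' + L) = o.j (k + L) ∧ ∃ x, Same P (o.past (k + L + 1)) (o.fut (k + L + 1))
      (o'.past (k' + L + 1)) (o'.fut (k' + L + 1)) x ∧ Live P (o.I P (k + L + 1)) x ∧
      (k + L + 1 < o.K → x ≤ P.p * o.n (k + L + 1)) ∧
      (k' + L + 1 < o'.K → x ≤ P.p * o'.n (k' + L + 1)) ∧
      |o.lh P k (k + L + 1)| * w (tau P (o.I P (k + L + 1)) x) / 2 ≤ |o.T P k - o'.T P k'|) := by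
  have w2 := w_pos 2
  rcases lt_trichotomy (o.j (k + L)) (o'.j (k' + L)) with g | g | g
  · obtain ⟨a, b⟩ := core_J h hk hk' ha g
    exact Or.inr (Or.inl ⟨a, le_trans (by gcongr) a⟩)
  · rcases exists_split h g.symm hmax with ⟨a, b, c⟩ | ⟨x, a, b, c, d⟩
    · exact Or.inl ⟨a, b, g.symm, c⟩
    · exact Or.inr (Or.inr ⟨g.symm, x, a, a.live_of_ne b, c, d, core_S h hk hk' ha g.symm a b c d⟩)
  · have ha' : ∀ l, 1 ≤ l → l ≤ L → k' ≤ o'.u P (k' + l) := fun l a b => by
      have := (h.u_iff hk hk' b).2; have := ha l a b; omega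
    obtain ⟨a, b⟩ := core_J h.symm hk' hk ha' g
    rw [abs_sub_comm] at a
    exact Or.inr (Or.inl ⟨le_trans (by gcongr) a, a⟩)

lemma aff_term {m l mm : ℕ} (hk : 1 ≤ k) (hm : k < m) (hl : m ≤ l) (hu : o.u P l = k)
    (hmm : mm ≤ P.m) : |o.lh P k l * o.g P l| ≤
      (|o.lh P k m| * w (tau P (o.I P m) (P.p * o.n m))) ^ mm * w ((P.s + 1) * o.SS k l) := by
  have a1 := g_le_u (P := P) (o := o) (k := l) (by omega) (by omega)
  rw [hu] at a1
  rw [abs_mul, abs_lh k m, ← w_add, ← w_mul, ← w_add]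
  refine (mul_le_of_le_one_left (abs_nonneg _) (lh_le_one _ _)).trans (a1.trans (w_anti ?_))
  have b1 := LE_le (P := P) (o := o) k m
  have b2 := (good (P := P) (o := o) m).tau_mul (o.n m)
  have b3 := P.hbig
  have b4 := P.hd
  have b5 := SS_ge (o := o) k l
  have b6 := SS_add (o := o) hm.le hl
  have c1 : (o.LE P k m + tau P (o.I P m) (P.p * o.n m)) * mm ≤
      2 * P.m * P.p * o.SS k m + 2 * P.m + P.d * o.n m := by
    calc _ ≤ (2 * P.p * o.SS k m + (2 + (2 * P.m + 4) * o.n m)) * P.m := by gcongr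
      _ = 2 * P.m * P.p * o.SS k m + 2 * P.m + P.m * (2 * P.m + 4) * o.n m := by ring
      _ ≤ _ := by gcongr
  have c2 : (2 * P.m * P.p + P.s + 2 * P.m + 2 * P.p + 10) * o.SS k l ≤ P.big * o.SS k l := by
    gcongr
  have c3 : 2 * P.m ≤ 2 * P.m * o.SS k l := Nat.le_mul_of_pos_right _ (by omega)
  rcases eq_or_lt_of_le hl with rfl | g
  · nlinarith
  · have d1 := SS_mid (o := o) (le_refl m) g
    have d2 : P.d * o.n m ≤ P.p * o.SS m l := by
      gcongr
      · have := P.hD; have := P.hp; omega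
      · omega
    have d3 : P.p * o.SS m l ≤ 2 * P.m * P.p * o.SS m l := by
      gcongr; have := P.hm; nlinarith
    rw [b6] at c2 c3 ⊢
    nlinarith

lemma Ct_le {m L0 mm : ℕ} {X : ℝ} (hk : 1 ≤ k) (hm : k + L0 < m) (hmm : mm ≤ P.m) (hX0 : 0 ≤ X)
    (hX : m < o.K → |o.lh P k m| * w (tau P (o.I P m) (P.p * o.n m)) ≤ X) :
    |o.Ct P k m| ≤ X ^ mm * w (P.s * o.n (k + L0)) / 800 := by
  have hw := w_pos (P.s * o.n (k + L0))
  have : |o.Ct P k m| ≤ 1002 / 1000 * X ^ mm * w (P.s * o.n (k + L0) + 1) := by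
    refine sum_geo (by positivity) fun l hl => abs_ite_le
      (by have := w_pos (P.s * o.n (k + L0) + 1 + (l - m)); positivity) fun hu => ?_
    obtain ⟨h1, h2⟩ := mem_Ico.1 hl
    refine (aff_term hk (by omega) h1 hu hmm).trans ?_
    have a := SS_mid (o := o) (k := k) (l := k + L0) (k' := l) (by omega) (by omega)
    have b := n_pos (o := o) (k + L0)
    have c : P.s * o.n (k + L0) ≤ P.s * o.SS k l := by gcongr; omega
    have := w_pos (tau P (o.I P m) (P.p * o.n m))
    gcongr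
    · exact (w_pos _).le
    · exact hX (by omega)
    · apply w_anti; rw [add_mul]; omega
  rw [w_succ] at this
  have : 0 ≤ X ^ mm * w (P.s * o.n (k + L0)) := by positivity
  nlinarith

theorem C_hold {mm : ℕ} (h : Chain P o k o' k' L) (hk : 1 ≤ k) (hk' : 1 ≤ k') (hmm : mm ≤ P.m) :
    |o.C P k - o'.C P k'| ≤ (2 * |o.T P k - o'.T P k'|) ^ mm * w (P.s * o.n (k + L)) / 400 := by
  have hw := w_pos (P.s * o.n (k + L))
  obtain ⟨L', hL, h', hmax⟩ := exists_max h
  by_cases ha : ∀ l, 1 ≤ l → l ≤ L' → k ≤ o.u P (k + l)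
  swap
  · rw [dead_eq h' hk hk' ha, sub_self, abs_zero]; positivity
  have key : (k + L' + 1 < o.K → |o.lh P k (k + L' + 1)| *
      w (tau P (o.I P (k + L' + 1)) (P.p * o.n (k + L' + 1))) ≤ 2 * |o.T P k - o'.T P k'|) ∧
      (k' + L' + 1 < o'.K → |o'.lh P k' (k' + L' + 1)| *
      w (tau P (o'.I P (k' + L' + 1)) (P.p * o'.n (k' + L' + 1))) ≤ 2 * |o.T P k - o'.T P k'|) := by
    have p1 := abs_nonneg (o.lh P k (k + L' + 1))
    have p2 := abs_nonneg (o'.lh P k' (k' + L' + 1))
    rcases core h' hk hk' ha hmax with ⟨a, b, -⟩ | ⟨a, b⟩ | ⟨a, x, b, c, d, e, f⟩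
    · exact ⟨by omega, by omega⟩
    · refine ⟨fun _ => ?_, fun _ => ?_⟩
      · have := mul_le_mul_of_nonneg_left (w_anti (tau_ge (P := P) (o.I P (k + L' + 1))
          (P.p * o.n (k + L' + 1)))) p1
        linarith
      · have := mul_le_mul_of_nonneg_left (w_anti (tau_ge (P := P) (o'.I P (k' + L' + 1))
          (P.p * o'.n (k' + L' + 1)))) p2
        linarith
    · refine ⟨fun g => ?_, fun g => ?_⟩
      · have := mul_le_mul_of_nonneg_left (w_anti ((good _).tau_le c (d g))) p1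
        linarith
      · have e1 := (h'.blocks_succ a).lh_eq (P := P)
        simp only [← add_assoc] at e1
        have := mul_le_mul_of_nonneg_left
          (w_anti ((good (P := P) (o := o') _).tau_le (b.live c) (e g))) p2
        have et : tau P (o'.I P (k' + L' + 1)) x = tau P (o.I P (k + L' + 1)) x := b.tau_eq
        rw [et, e1] at this
        rw [e1]
        linarith
  have a1 := Ct_le (L0 := L) hk (by omega) hmm (by positivity) key.1
  have a2 := Ct_le (L0 := L) hk' (by omega) hmm (by positivity) key.2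
  rw [(h.1 L le_rfl).n_eq] at a2
  rw [h'.C_sub hk hk']
  have := abs_sub (o.Ct P k (k + L' + 1)) (o'.Ct P k' (k' + L' + 1))
  linarith

lemma GG_mul {m l : ℕ} (hm : k < m) (hl : m ≤ l) :
    o.GG P k l = o.GG P k m * ∏ i ∈ Ico m l, Bs P (o.n i) (o.j i) := by
  unfold GG; rw [mul_assoc, prod_Ico_consecutive _ hm hl]

lemma abs_GG (k m : ℕ) : |o.GG P k m| ≤ w (2 + P.q * (o.n k + o.j k) + (m - (k + 1))) := by
  unfold GG
  rw [abs_mul, abs_Bc, w_add (2 + _), abs_prod]
  refine mul_le_mul_of_nonneg_left ?_ (w_pos _).le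
  calc _ ≤ ∏ _i ∈ Ico (k + 1) m, w 1 := prod_le_prod (fun _ _ => abs_nonneg _) fun i _ => by
        rw [abs_Bs]; apply w_anti; omega
    _ = _ := by rw [prod_const, Nat.card_Ico, ← w_mul, one_mul]

lemma GG_Ct {m b : ℕ} (hk : 1 ≤ k) (hm : k < m) (hb : m < o.K → b ≤ o.n m) :
    |o.GG P k m * o.Ct P k m| ≤ 2 * w (P.p * b + (P.p + 3) * (m - k)) := by
  have hw := w_pos (P.p * b + (P.p + 3) * (m - k))
  have : |o.GG P k m * o.Ct P k m| ≤ 1002 / 1000 * 1 * w (P.p * b + (P.p + 3) * (m - k)) := by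
    unfold Ct
    rw [mul_sum]
    refine sum_geo (by positivity) fun l hl => ?_
    rw [mul_ite, mul_zero, one_mul]
    refine abs_ite_le (w_pos _).le fun hu => ?_
    obtain ⟨h1, h2⟩ := mem_Ico.1 hl
    have hb := hb (by omega)
    have a1 := g_le_u (P := P) (o := o) (k := l) (by omega) (by omega)
    rw [hu] at a1
    have b3 := P.big_ge
    have b5 := SS_ge (o := o) k m
    have c0 : P.p * b ≤ P.p * o.n m := by gcongr
    rw [abs_mul, abs_mul]
    rcases eq_or_lt_of_le h1 with rfl | g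
    · have a2 := (frame_u (P := P) (o := o) (k := m) (by omega) (by omega)).1
      rw [hu, ← g_sig] at a2
      rw [← a2, abs_mul, abs_of_pos (sig_pos _)]
      have c1 : (P.p + 3) * (m - k) ≤ P.big * o.SS k m := by gcongr; omega
      have p1 := w_pos (P.d * o.n m + P.big * o.SS k m + P.p)
      have p2 := sig_pos (P := P) (o.n m)
      calc _ ≤ w (P.d * o.n m + P.big * o.SS k m + P.p) * sig P (o.n m) *
            (1 * w (P.d * o.n m + P.big * o.SS k m + P.p)) := by
            gcongr; exact lh_le_one _ _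
        _ = sig P (o.n m) * w (P.d * o.n m + P.big * o.SS k m + P.p +
            (P.d * o.n m + P.big * o.SS k m) + P.p) := by
            rw [add_assoc (_ + _ + P.p), w_add (_ + _ + P.p)]; ring
        _ ≤ _ := by
            rw [sig_mul]; apply w_anti
            have : P.p * o.n m = P.s * o.n m + 2 * (P.d * o.n m) := by rw [P.hp, P.hD]; ring
            omega
    · have d1 := SS_mid (o := o) hm.le g
      have c1 : P.big * ((m - k) + o.n m + (l - (m + 1))) ≤ P.big * o.SS k l := by gcongr; omega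
      have c2 : (P.p + 3) * (m - k) ≤ P.big * (m - k) := by gcongr; omega
      have c3 : P.p * o.n m ≤ P.big * o.n m := by gcongr; omega
      have c4 : l - (m + 1) ≤ P.big * (l - (m + 1)) := Nat.le_mul_of_pos_left _ (by omega)
      have p0 := P.p_pos
      calc _ ≤ 1 * (1 * w (P.d * o.n l + P.big * o.SS k l + P.p)) := by
            gcongr
            · exact (abs_GG k m).trans (w_le_one _)
            · exact lh_le_one _ _
        _ ≤ _ := by
            rw [one_mul, one_mul]; apply w_anti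
            rw [mul_add, mul_add] at c1
            omega
  linarith

theorem near {a : ℕ} (h : Node P o k o' k') (hk : 1 ≤ k) (hk' : 1 ≤ k') (hm : k + L + 1 ≤ o.K)
    (ha : k + L + 1 < o.K → a ≤ o.n (k + L + 1))
    (hT : |o.T P k - o'.T P k'| <
      |o.lh P k (k + L + 1)| * w (tau P (o.I P (k + L + 1)) (P.p * a)) / 2) :
    o.C P k = o'.C P k' ∨ (Chain P o k o' k' L ∧ o'.j (k' + L) = o.j (k + L) ∧
      Same P (o.past (k + L + 1)) (o.fut (k + L + 1)) (o'.past (k' + L + 1)) (o'.fut (k' + L + 1))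
        (P.p * a + 1)) := by
  have h0 : Chain P o k o' k' 0 := ⟨fun l hl => by obtain rfl := Nat.le_zero.1 hl; exact h,
    fun l hl => absurd hl (Nat.not_lt_zero l)⟩
  obtain ⟨L', -, h', hmax⟩ := exists_max h0
  by_cases hal : ∀ l, 1 ≤ l → l ≤ L' → k ≤ o.u P (k + l)
  swap
  · exact Or.inl (dead_eq h' hk hk' hal)
  right
  rcases lt_or_ge L L' with g | g
  · obtain ⟨a1, a2, a3⟩ := h'.1 (L + 1) g
    refine ⟨h'.mono g.le, h'.2 L g, ?_⟩
    simp only [← add_assoc] at a1 a2 a3
    rw [fut_lt a1, fut_lt a2]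
    exact a3.mono (by have := Nat.mul_le_mul_left P.p (ha a1); omega)
  have p1 : |o.lh P k (k + L + 1)| ≤ |o.lh P k (k + L' + 1)| := by
    rw [lh_mul (by omega : k ≤ k + L' + 1) (by omega), abs_mul]
    exact mul_le_of_le_one_right (abs_nonneg _) (lh_le_one _ _)
  have p2 := abs_nonneg (o.lh P k (k + L + 1))
  have p3 := w_pos (tau P (o.I P (k + L + 1)) (P.p * a))
  rcases core h' hk hk' hal hmax with ⟨b1, b2, b3, b4⟩ | ⟨b, -⟩ | ⟨b1, x, b2, b3, b4, -, b6⟩
  · obtain rfl : L = L' := by omega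
    exact ⟨h', b3, b4 _⟩
  · exfalso
    have := w_anti (tau_ge (P := P) (o.I P (k + L + 1)) (P.p * a))
    have : |o.lh P k (k + L + 1)| * w (tau P (o.I P (k + L + 1)) (P.p * a)) ≤
      |o.lh P k (k + L' + 1)| * w 2 := by gcongr
    linarith
  · rcases eq_or_lt_of_le g with rfl | g'
    · refine ⟨h', b1, b2.mono ?_⟩
      by_contra g2
      have := mul_le_mul_of_nonneg_left
        (w_anti ((good (P := P) (o := o) _).tau_le b3 (by omega : x ≤ P.p * a))) p2
      linarith
    · exfalso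
      have c1 := w_dn_le b3 (b4 (by omega))
      have c2 := lh_le (P := P) (o := o) (by omega : k + L' + 1 < k + L + 1)
      have c3 := w_anti (x := P.d * o.n (k + L' + 1) + P.p)
        (y := P.D * o.n (k + L' + 1) + P.p + (k + L + 1 - (k + L' + 1 + 1)))
        (by have := d_le_D P (o.n (k + L' + 1)); omega)
      rw [lh_mul (by omega : k ≤ k + L' + 1) (by omega : k + L' + 1 ≤ k + L + 1), abs_mul] at hT
      have c4 := w_le_one (tau P (o.I P (k + L + 1)) (P.p * a))
      have c5 := w_pos (tau P (o.I P (k + L' + 1)) x)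
      have c6 : |o.lh P k (k + L' + 1)| * |o.lh P (k + L' + 1) (k + L + 1)| *
          w (tau P (o.I P (k + L + 1)) (P.p * a)) ≤
          |o.lh P k (k + L' + 1)| * w (tau P (o.I P (k + L' + 1)) x) * 1 := by
        gcongr; linarith
      linarith

end Orb

end Pool.Agent.P.MP_97fbd9_an
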