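import Mathlib

/-! Homoclinic classes of saddle fixed points of torus diffeomorphisms. -/

open Set Filter

namespace Pool.Agent.P.MP_97fbd9_an

/-- The torus, quotient of the plane by the lattice of period sixteen: a closed surface. -/
abbrev Torus : Type := AddCircle (16 : ℝ) × AddCircle (16 : ℝ)

/-- The covering map of the torus by the plane. -/
def proj (z : ℝ × ℝ) : Torus := ((z.1 : AddCircle (16 : ℝ)), (z.2 : AddCircle (16 : ℝ)))

/-- `F` is a lift of `f` to the plane. -/
def IsLift (f : Torus → Torus) (F : ℝ × ℝ → ℝ × ℝ) : Prop := ∀ z, f (proj z) = proj (F z)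

/-- `p` is a hyperbolic saddle fixed point of `f`: the derivative of the lift `F` at a point above
`p` has a real eigenvalue of modulus above one and a real eigenvalue of modulus below one. -/
def Saddle (f : Torus → Torus) (F : ℝ × ℝ → ℝ × ℝ) (p : Torus) : Prop :=
  f p = p ∧ ∃ (z u v : ℝ × ℝ) (l m : ℝ), proj z = p ∧ 1 < |l| ∧ |m| < 1 ∧ u ≠ 0 ∧ v ≠ 0 ∧
    fderiv ℝ F z u = l • u ∧ fderiv ℝ F z v = m • v

/-- `γ` lifts a `C¹` arc of the stable manifold of `p` for `g`: the iterates of the arc
over the interval from minus one to one converge uniformly to `p`. -/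
def Arc (g : Torus → Torus) (p : Torus) (γ : ℝ → ℝ × ℝ) : Prop :=
  ContDiff ℝ 1 γ ∧
    TendstoUniformlyOn (fun (n : ℕ) (t : ℝ) => g^[n] (proj (γ t))) (fun _ => p) atTop (Icc (-1) 1)

/-- Points of transverse intersection of the unstable manifold of `p` with the stable manifold
of `q`. -/
def Trans (f : Torus ≃ₜ Torus) (p q : Torus) : Set Torus :=
  {z | ∃ γ δ : ℝ → ℝ × ℝ, Arc f.symm p γ ∧ Arc f q δ ∧ γ 0 = δ 0 ∧ proj (γ 0) = z ∧
    LinearIndependent ℝ ![deriv γ 0, deriv δ 0]}

/-- The homoclinic class of `p`. -/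
def HC (f : Torus ≃ₜ Torus) (p : Torus) : Set Torus := closure (Trans f p p)

/-- The homoclinic relation. -/
def Related (f : Torus ≃ₜ Torus) (p q : Torus) : Prop :=
  (Trans f p q).Nonempty ∧ (Trans f q p).Nonempty

end Pool.Agent.P.MP_97fbd9_an
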