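import Pool.Agent.P.MP_97fbd9_an.Blend

/-! The lifted diffeomorphism. -/

namespace Pool.Agent.P.MP_97fbd9_an

/-- Saturation. -/
noncomputable def sat (t : ℝ) : ℝ := bl (-2) (-9 / 5) t (-2) (bl (9 / 5) 2 t t 2)
/-- The horizontal part. -/
noncomputable def g0 (φ : ℝ → ℝ) (a x : ℝ) : ℝ :=
  bl (-3 / 5) (-3 / 10) x (-(x + 1) / a) (bl (3 / 10) (3 / 5) x (φ x) (-(x - 1) / a))
/-- The coupling. -/
noncomputable def h0 (y : ℝ) : ℝ := bl (-6) (-5) y y (bl 5 6 y (y / 1000) y)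
/-- The vertical part. -/
noncomputable def P0 (a β u y : ℝ) : ℝ :=
  bl (-3) (-2) y y (bl (-3 / 5) (-3 / 10) y (-1 + 1000 * β * ((y + 1) / a + u))
    (bl (-a / 5) (-a / 10) y (y / 1000) (bl (a / 10) (a / 5) y (1000 * β * (y / a - u))
      (bl (3 / 10) (3 / 5) y (y / 1000) (bl 2 3 y (1 + 1000 * β * ((y - 1) / a + u)) y)))))
/-- The shear. -/
noncomputable def A0 (β y : ℝ) : ℝ :=
  (cut (y / β) (y / β) - cut ((y - 1) / β) ((y - 1) / β) - cut ((y + 1) / β) ((y + 1) / β)) / 1000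

/-- Periodic horizontal part. -/
noncomputable def gg0 (φ : ℝ → ℝ) (a x : ℝ) : ℝ := cut (rd x) (sat (g0 φ a (rd x)))
/-- Periodic shear. -/
noncomputable def AA (β y : ℝ) : ℝ := A0 β (rd y)
/-- Periodic vertical part. -/
noncomputable def Pv (a β : ℝ) (z : ℝ × ℝ) : ℝ := lft (P0 a β (cut (rd z.1) (rd z.1))) z.2
/-- The lifted map. -/
noncomputable def FF (φ : ℝ → ℝ) (a β : ℝ) (z : ℝ × ℝ) : ℝ × ℝ :=
  (gg0 φ a z.1 - lft h0 z.2 + AA β (Pv a β (gg0 φ a z.1 - lft h0 z.2, z.1)),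
    Pv a β (gg0 φ a z.1 - lft h0 z.2, z.1))

/-- The properties of the lifted map. -/
structure MapP (n : ℕ) (φ : ℝ → ℝ) (a β : ℝ) (F G : ℝ × ℝ → ℝ × ℝ) : Prop where
  sF : ContDiff ℝ n F
  sG : ContDiff ℝ n G
  GF : ∀ z, G (F z) = z
  FG : ∀ z, F (G z) = z
  per : ∀ (x y : ℝ) (m k : ℤ), F (x + 16 * m, y + 16 * k) =
    ((F (x, y)).1 - 16 * k, (F (x, y)).2 + 16 * m)
  box : ∀ x y, |x| ≤ 3 → |y| ≤ 3 → |(F (x, y)).1| ≤ 5 / 2 ∧ |(F (x, y)).2| ≤ 3 ∧
    (|x| ≤ 2 → |(F (x, y)).2| ≤ 2)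
  esc : ∀ x y, |x| ≤ 3 → |y| ≤ 3 → 2 / 1000000 ≤ |x| → 9 / 5 * a ≤ |x - 1| → 9 / 5 * a ≤ |x + 1| →
    3 / 2 ≤ |(F (x, y)).1|
  near : ∀ x y, |x| ≤ 3 / 10 → |y| ≤ 3 → (|φ x| ≤ 9 / 5 → |(F (x, y)).1 - φ x| ≤ 1 / 50) ∧
    (9 / 5 ≤ |φ x| → 3 / 2 ≤ |(F (x, y)).1|)
  fV : ∀ x y s, s = 1 ∨ s = -1 → |x - s| ≤ 9 / 5 * a → |y| ≤ 3 → F (x, y) = (-(x - s) / a, -β * y + s)
  f3 : ∀ x y, |x| ≤ a / 10 → |y| ≤ 3 → F (x, y) = (x / a, β * y)
  fC : ∀ x y, a / 5 ≤ |x| → |x| ≤ 3 / 10 → |φ x| ≤ 9 / 5 → |y| ≤ 3 →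
    F (x, y) = (φ x - y / 1000, x / 1000)

lemma sat_in {t : ℝ} (h : |t| ≤ 9 / 5) : sat t = t := by
  rw [abs_le] at h
  unfold sat; rw [bl_right (by norm_num) (by linarith [h.1]), bl_left (by norm_num) h.2]

lemma sat_le (t : ℝ) : |sat t| ≤ 2 := by
  unfold sat
  rcases le_total t (-2) with h | h
  · rw [bl_left (by norm_num) h]; norm_num
  rcases le_total 2 t with h' | h'
  · rw [bl_right (by norm_num) (by linarith), bl_right (by norm_num) h']; norm_num
  · exact abs_le.2 ⟨bl_ge le_rfl (bl_ge h (by norm_num)), bl_le (by norm_num) (bl_le h' le_rfl)⟩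

lemma sat_out {t : ℝ} (h : 9 / 5 ≤ |t|) : 9 / 5 ≤ |sat t| := by
  unfold sat
  rcases le_abs.1 h with g | g
  · rw [bl_right (by norm_num) (by linarith)]
    exact le_abs.2 (Or.inl (bl_ge g (by norm_num)))
  · rw [bl_left (a := 9 / 5) (by norm_num) (by linarith)]
    refine le_abs.2 (Or.inr ?_)
    have : bl (-2) (-9 / 5) t (-2) t ≤ -9 / 5 := bl_le (by norm_num) (by linarith)
    linarith

lemma h0_inc : Inc h0 := by
  have i1 : Inc fun y : ℝ => y := by simpa using inc_aff one_pos 0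
  have i2 : Inc fun y : ℝ => y / 1000 := by
    simpa [div_eq_inv_mul] using inc_aff (by norm_num : (0 : ℝ) < 1000⁻¹) 0
  refine i1.bl (i2.bl i1 (by norm_num) fun y a _ => by linarith) (by norm_num) fun y _ b => ?_
  rw [bl_left (by norm_num) (by linarith)]; linarith

lemma h0_in {y : ℝ} (h : |y| ≤ 3) : h0 y = y / 1000 := by
  rw [abs_le] at h
  unfold h0; rw [bl_right (by norm_num) (by linarith [h.1]), bl_left (by norm_num) (by linarith [h.2])]

lemma h0_out (y : ℝ) (h : 7 ≤ |y|) : h0 y = y := by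
  unfold h0
  rcases le_abs.1 h with g | g
  · rw [bl_right (by norm_num) (by linarith), bl_right (by norm_num) (by linarith)]
  · rw [bl_left (by norm_num) (by linarith)]

section par

variable {a β : ℝ} (ha : 0 < a) (ha1 : a ≤ 1 / 1000000000) (hb : 0 < β) (hb1 : β ≤ a / 1000000000)

include ha ha1 hb hb1

lemma small {u t : ℝ} (hu : |u| ≤ 4) (ht : |t| ≤ 3) : |1000 * β * (t / a + u)| ≤ 1 / 10 := by
  have h1 : |t / a + u| ≤ 3 / a + 4 := by
    refine (abs_add_le _ _).trans (add_le_add ?_ hu)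
    rw [abs_div, abs_of_pos ha]; gcongr
  have h2 : β * (3 / a) ≤ 3 / 1000000000 := by
    rw [mul_div_assoc', div_le_iff₀ ha]; linarith
  rw [abs_mul, abs_of_pos (by positivity)]
  nlinarith

lemma small3 {u t : ℝ} (hu : |u| ≤ 4) (ht : |t| ≤ a) : |1000 * β * (t / a - u)| ≤ a / 100000 := by
  have h1 : |t / a - u| ≤ 1 + 4 := by
    refine (abs_sub _ _).trans (add_le_add ?_ hu)
    rw [abs_div, abs_of_pos ha, div_le_one ha]; exact ht
  rw [abs_mul, abs_of_pos (by positivity)]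
  nlinarith

lemma P0_inc {u : ℝ} (hu : |u| ≤ 4) : Inc (P0 a β u) := by
  have i1 : Inc fun y : ℝ => y := by simpa using inc_aff one_pos 0
  have i2 : Inc fun y : ℝ => y / 1000 := by
    simpa [div_eq_inv_mul] using inc_aff (by norm_num : (0 : ℝ) < 1000⁻¹) 0
  have i3 : ∀ c d e : ℝ, Inc fun y : ℝ => c + 1000 * β * ((y + d) / a + e) := fun c d e => by
    have := inc_aff (c := 1000 * β / a) (by positivity) (c + 1000 * β * (d / a + e))
    convert this using 2; ring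
  have i4 : Inc fun y : ℝ => 1 + 1000 * β * ((y - 1) / a + u) := i3 1 (-1) u
  have i5 : Inc fun y : ℝ => 1000 * β * (y / a - u) := by simpa [sub_eq_add_neg] using i3 0 0 (-u)
  refine i1.bl ((i3 _ _ _).bl (i2.bl (i5.bl (i2.bl (i4.bl i1 (by norm_num) fun y p q => ?_)
    (by norm_num) fun y p q => ?_) (by linarith) fun y p q => ?_) (by linarith) fun y p q => ?_)
    (by norm_num) fun y p q => ?_) (by norm_num) fun y p q => ?_
  · have := abs_le.1 (small ha ha1 hb hb1 hu (t := y - 1) (abs_le.2 ⟨by linarith, by linarith⟩))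
    linarith [this.2]
  · have := abs_le.1 (small ha ha1 hb hb1 hu (t := y - 1) (abs_le.2 ⟨by linarith, by linarith⟩))
    rw [bl_left (by norm_num) (by linarith)]; linarith [this.1]
  · have := abs_le.1 (small3 ha ha1 hb hb1 hu (t := y) (abs_le.2 ⟨by linarith, by linarith⟩))
    rw [bl_left (by norm_num) (by linarith)]; linarith [this.2]
  · have := abs_le.1 (small3 ha ha1 hb hb1 hu (t := y) (abs_le.2 ⟨by linarith, by linarith⟩))
    rw [bl_left (by linarith) (by linarith)]; linarith [this.1]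
  · have := abs_le.1 (small ha ha1 hb hb1 hu (t := y + 1) (abs_le.2 ⟨by linarith, by linarith⟩))
    rw [bl_left (by linarith) (by linarith)]; linarith [this.2]
  · have := abs_le.1 (small ha ha1 hb hb1 hu (t := y + 1) (abs_le.2 ⟨by linarith, by linarith⟩))
    rw [bl_left (by norm_num) (by linarith)]; linarith [this.1]

omit hb hb1 in
lemma P0_out (u y : ℝ) (h : 3 ≤ |y|) : P0 a β u y = y := by
  unfold P0
  rcases le_abs.1 h with g | g
  · rw [bl_right (by norm_num) (by linarith), bl_right (by norm_num) (by linarith),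
      bl_right (by linarith) (by linarith), bl_right (by linarith) (by linarith),
      bl_right (by norm_num) (by linarith), bl_right (by norm_num) g]
  · rw [bl_left (by norm_num) (by linarith)]

omit hb hb1 in
lemma P0_p (u : ℝ) {y : ℝ} (h : 3 / 5 ≤ y) (h' : y ≤ 2) :
    P0 a β u y = 1 + 1000 * β * ((y - 1) / a + u) := by
  unfold P0
  rw [bl_right (by norm_num) (by linarith), bl_right (by norm_num) (by linarith),
    bl_right (by linarith) (by linarith), bl_right (by linarith) (by linarith),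
    bl_right (by norm_num) h, bl_left (by norm_num) h']

omit ha ha1 hb hb1 in
lemma P0_m (u : ℝ) {y : ℝ} (h : -2 ≤ y) (h' : y ≤ -3 / 5) :
    P0 a β u y = -1 + 1000 * β * ((y + 1) / a + u) := by
  unfold P0
  rw [bl_right (by norm_num) h, bl_left (by norm_num) h']

omit hb hb1 in
lemma P0_3 (u : ℝ) {y : ℝ} (h : |y| ≤ a / 10) : P0 a β u y = 1000 * β * (y / a - u) := by
  rw [abs_le] at h
  unfold P0
  rw [bl_right (by norm_num) (by linarith [h.1]), bl_right (by norm_num) (by linarith [h.1]),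
    bl_right (by linarith) (by linarith [h.1]), bl_left (by linarith) h.2]

omit hb hb1 in
lemma P0_C (u : ℝ) {y : ℝ} (h : a / 5 ≤ |y|) (h' : |y| ≤ 3 / 10) : P0 a β u y = y / 1000 := by
  rw [abs_le] at h'
  unfold P0
  rw [bl_right (by norm_num) (by linarith [h'.1]), bl_right (by norm_num) (by linarith [h'.1])]
  rcases le_abs.1 h with g | g
  · rw [bl_right (by linarith) (by linarith), bl_right (by linarith) g, bl_left (by norm_num) h'.2]
  · rw [bl_left (by linarith) (by linarith)]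

omit ha ha1 hb hb1 in
lemma A0_le (y : ℝ) : |A0 β y| ≤ 12 / 1000 := by
  have a1 := abs_le.1 (cut_le (y / β))
  have a2 := abs_le.1 (cut_le ((y - 1) / β))
  have a3 := abs_le.1 (cut_le ((y + 1) / β))
  unfold A0
  rw [abs_le]; constructor <;> linarith [a1.1, a1.2, a2.1, a2.2, a3.1, a3.2]

omit ha ha1 hb1 in
lemma cut_far {t : ℝ} (h : 4 * β ≤ |t|) : cut (t / β) (t / β) = 0 :=
  cut_out (by rw [abs_div, abs_of_pos hb, le_div_iff₀ hb]; exact h) _

omit ha ha1 hb1 in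
lemma cut_close {t : ℝ} (h : |t| ≤ 3) : cut (β * t / β) (β * t / β) = t := by
  rw [mul_div_cancel_left₀ _ hb.ne', cut_in h]

omit ha in
lemma A0_far {y : ℝ} (h : 4 * β ≤ |y|) (h' : |y| ≤ 1 / 2 ∨ 2 ≤ |y|) : A0 β y = 0 := by
  have a1 := abs_sub_abs_le_abs_sub y 1
  have a2 := abs_sub_abs_le_abs_sub 1 y
  have a3 := abs_sub_abs_le_abs_sub y (-1)
  have a4 := abs_sub_abs_le_abs_sub (-1) y
  rw [abs_sub_comm] at a2 a4
  rw [sub_neg_eq_add, abs_neg] at a3 a4
  rw [abs_one] at a1 a2 a3 a4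
  unfold A0
  rw [cut_far hb h, cut_far hb (t := y - 1) (by rcases h' with g | g <;> linarith),
    cut_far hb (t := y + 1) (by rcases h' with g | g <;> linarith)]
  ring

omit ha ha1 hb hb1 in
lemma gg0_smooth {n : ℕ} {φ : ℝ → ℝ} (hφ : ContDiff ℝ n φ) : ContDiff ℝ n (gg0 φ a) := by
  refine per_smooth1 (b := fun x => cut x (sat (g0 φ a x))) (cut_smooth contDiff_id ?_)
    fun y hy => cut_out (by linarith) _
  have : ContDiff ℝ n (g0 φ a) :=
    bl_smooth _ _ contDiff_id (by fun_prop) (bl_smooth _ _ contDiff_id hφ (by fun_prop))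
  exact bl_smooth _ _ this contDiff_const (bl_smooth _ _ this this contDiff_const)

omit ha in
lemma AA_smooth (n : ℕ) : ContDiff ℝ n (AA β) := by
  refine per_smooth1 (b := A0 β) ?_ fun y hy =>
    A0_far ha1 hb hb1 (by linarith) (Or.inr (by linarith))
  have c : ∀ d : ℝ, ContDiff ℝ n fun y : ℝ => cut ((y + d) / β) ((y + d) / β) := fun d =>
    cut_smooth (by fun_prop) (by fun_prop)
  have c0 := c 0
  simp only [add_zero] at c0
  exact ((c0.sub (c (-1))).sub (c 1)).div_const _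

omit ha ha1 hb hb1 in
lemma hh_smooth (n : ℕ) : ContDiff ℝ n (lft h0) := by
  refine contDiff_id.add (per_smooth1 (b := fun y => h0 y - y) (ContDiff.sub ?_ contDiff_id)
    fun y hy => by rw [h0_out y hy, sub_self])
  exact bl_smooth _ _ contDiff_id contDiff_id (bl_smooth _ _ contDiff_id (by fun_prop) contDiff_id)

omit hb hb1 in
lemma Pv_smooth (n : ℕ) : ContDiff ℝ n (Pv a β) := by
  have s1 : ContDiff ℝ n fun x => cut (rd x) (rd x) :=
    per_smooth1 (b := fun x => cut x x) (cut_smooth contDiff_id contDiff_id)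
      fun y hy => cut_out (by linarith) _
  have s2 : ContDiff ℝ n fun z : ℝ × ℝ => P0 a β z.1 z.2 :=
    bl_smooth _ _ contDiff_snd contDiff_snd (bl_smooth _ _ contDiff_snd (by fun_prop)
      (bl_smooth _ _ contDiff_snd (by fun_prop) (bl_smooth _ _ contDiff_snd (by fun_prop)
        (bl_smooth _ _ contDiff_snd (by fun_prop)
          (bl_smooth _ _ contDiff_snd (by fun_prop) contDiff_snd)))))
  have s3 := per_smooth (b := fun z => P0 a β z.1 z.2 - z.2) (s2.sub contDiff_snd)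
    fun u y hy => by simp only; rw [P0_out ha ha1 u y (by linarith), sub_self]
  have s4 : ContDiff ℝ n fun z : ℝ × ℝ => (cut (rd z.1) (rd z.1), z.2) :=
    (s1.comp contDiff_fst).prodMk contDiff_snd
  exact contDiff_snd.add (s3.comp s4)

lemma FF_smooth {n : ℕ} {φ : ℝ → ℝ} (hφ : ContDiff ℝ n φ) : ContDiff ℝ n (FF φ a β) := by
  have t1 : ContDiff ℝ n fun z : ℝ × ℝ => gg0 φ a z.1 - lft h0 z.2 :=
    ((gg0_smooth hφ).comp contDiff_fst).sub ((hh_smooth n).comp contDiff_snd)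
  have t2 : ContDiff ℝ n fun z : ℝ × ℝ => Pv a β (gg0 φ a z.1 - lft h0 z.2, z.1) :=
    (Pv_smooth ha ha1 n).comp (t1.prodMk contDiff_fst)
  exact (t1.add ((AA_smooth ha1 hb hb1 n).comp t2)).prodMk t2

omit ha ha1 hb hb1 in
lemma comp_inv {n : ℕ} (hn : 1 ≤ n) {g A h : ℝ → ℝ} {p : ℝ × ℝ → ℝ} (sg : ContDiff ℝ n g)
    (sA : ContDiff ℝ n A) (sh : ContDiff ℝ n h) (sp : ContDiff ℝ n p) (i1 : Inc h)
    (a1 : ∀ y (m : ℤ), h (y + 16 * m) = h y + 16 * m) (i2 : ∀ x, Inc fun y => p (x, y))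
    (a2 : ∀ x y (m : ℤ), p (x, y + 16 * m) = p (x, y) + 16 * m) :
    ∃ G : ℝ × ℝ → ℝ × ℝ, ContDiff ℝ n G ∧
      (∀ z : ℝ × ℝ, G (g z.1 - h z.2 + A (p (g z.1 - h z.2, z.1)), p (g z.1 - h z.2, z.1)) = z) ∧
      ∀ z, (g (G z).1 - h (G z).2 + A (p (g (G z).1 - h (G z).2, (G z).1)),
        p (g (G z).1 - h (G z).2, (G z).1)) = z := by
  obtain ⟨G1, s1, l1, r1⟩ := vert_inv hn (p := fun z => h z.2) (sh.comp contDiff_snd)
    (fun _ => i1) (fun _ y m => a1 y m)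
  obtain ⟨G2, s2, l2, r2⟩ := vert_inv hn sp i2 a2
  refine ⟨fun z => G1 ((G2 (z.1 - A z.2, z.2)).2,
    g (G2 (z.1 - A z.2, z.2)).2 - (G2 (z.1 - A z.2, z.2)).1), ?_, fun z => ?_, fun z => ?_⟩
  · have t1 : ContDiff ℝ n fun z : ℝ × ℝ => G2 (z.1 - A z.2, z.2) :=
      s2.comp ((contDiff_fst.sub (sA.comp contDiff_snd)).prodMk contDiff_snd)
    exact s1.comp (t1.snd.prodMk ((sg.comp t1.snd).sub t1.fst))
  · simp only [add_sub_cancel_right]
    rw [l2 (g z.1 - h z.2, z.1)]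
    simp only [sub_sub_cancel]
    exact l1 z
  · have b1 := r2 (z.1 - A z.2, z.2)
    beta_reduce
    generalize G2 (z.1 - A z.2, z.2) = u at b1 ⊢
    have b2 := r1 (u.2, g u.2 - u.1)
    simp only [Prod.mk.injEq] at b1 b2
    simp only [b2.1, b2.2, sub_sub_cancel, Prod.mk.eta, b1.2]
    rw [b1.1, sub_add_cancel]

lemma FF_inv {n : ℕ} (hn : 1 ≤ n) {φ : ℝ → ℝ} (hφ : ContDiff ℝ n φ) :
    ∃ G : ℝ × ℝ → ℝ × ℝ, ContDiff ℝ n G ∧ (∀ z, G (FF φ a β z) = z) ∧ ∀ z, FF φ a β (G z) = z :=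
  comp_inv hn (gg0_smooth hφ) (AA_smooth ha1 hb hb1 n) (hh_smooth n) (Pv_smooth ha ha1 n)
    (h0_inc.lft h0_out) (lft_add _)
    (fun x => (P0_inc ha ha1 hb hb1 (cut_le (rd x))).lft fun y hy => P0_out ha ha1 _ y (by linarith))
    (fun x y m => lft_add (P0 a β (cut (rd x) (rd x))) y m)

omit ha ha1 hb hb1 in
lemma FF_per (φ : ℝ → ℝ) (x y : ℝ) (m k : ℤ) : FF φ a β (x + 16 * m, y + 16 * k) =
    ((FF φ a β (x, y)).1 - 16 * k, (FF φ a β (x, y)).2 + 16 * m) := by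
  have e1 : gg0 φ a (x + 16 * m) - lft h0 (y + 16 * k) =
      gg0 φ a x - lft h0 y + 16 * ((-k : ℤ) : ℝ) := by
    simp only [gg0, rd_add, lft_add]; push_cast; ring
  have e2 : ∀ X, Pv a β (X + 16 * ((-k : ℤ) : ℝ), x + 16 * m) = Pv a β (X, x) + 16 * m :=
    fun X => by simp only [Pv, rd_add, lft_add]
  simp only [FF, e1, e2, AA, rd_add]
  push_cast
  congr 1; ring

lemma FF_key (φ : ℝ → ℝ) {x y : ℝ} (hx : |x| ≤ 3) (hy : |y| ≤ 3) :
    ∃ X Y, X = sat (g0 φ a x) - y / 1000 ∧ |X| ≤ 21 / 10 ∧ Y = P0 a β X x ∧ |Y| ≤ 3 ∧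
      (|x| ≤ 2 → |Y| ≤ 2) ∧ FF φ a β (x, y) = (X + A0 β Y, Y) := by
  have a1 : |sat (g0 φ a x) - y / 1000| ≤ 21 / 10 := by
    have := abs_le.1 (sat_le (g0 φ a x))
    rw [abs_le] at hy ⊢; constructor <;> linarith [this.1, this.2, hy.1, hy.2]
  have e1 : gg0 φ a x - lft h0 y = sat (g0 φ a x) - y / 1000 := by
    unfold gg0
    rw [rd_eq (by linarith), cut_in hx, lft_eq _ (by linarith), h0_in hy]
  generalize hX : sat (g0 φ a x) - y / 1000 = X at a1 e1
  have a2 := (P0_inc ha ha1 hb hb1 (u := X) (by linarith)).strictMono.monotone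
  have a3 : |P0 a β X x| ≤ 3 := by
    rw [abs_le] at hx ⊢
    have b1 := a2 hx.1
    have b2 := a2 hx.2
    rw [P0_out ha ha1 _ _ (by norm_num)] at b1
    rw [P0_out ha ha1 _ 3 (by norm_num)] at b2
    exact ⟨b1, b2⟩
  refine ⟨X, _, rfl, a1, rfl, a3, fun g => ?_, ?_⟩
  · rw [abs_le] at g ⊢
    have b1 := a2 g.1
    have b2 := a2 g.2
    rw [P0_m _ le_rfl (by norm_num)] at b1
    rw [P0_p ha ha1 _ (y := 2) (by norm_num) le_rfl] at b2
    have c1 := abs_le.1 (small ha ha1 hb hb1 (u := X) (t := -2 + 1) (by linarith) (by norm_num))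
    have c2 := abs_le.1 (small ha ha1 hb hb1 (u := X) (t := 2 - 1) (by linarith) (by norm_num))
    constructor <;> linarith [c1.1, c2.2]
  · have e2 : Pv a β (X, x) = P0 a β X x := by
      unfold Pv
      rw [rd_eq (by linarith), cut_in (by linarith), lft_eq _ (by linarith)]
    simp only [FF, e1, e2, AA]
    rw [rd_eq (by linarith)]

omit ha ha1 hb hb1 in
lemma g0_C (φ : ℝ → ℝ) {x : ℝ} (hx : |x| ≤ 3 / 10) : g0 φ a x = φ x := by
  rw [abs_le] at hx
  unfold g0; rw [bl_right (by norm_num) (by linarith [hx.1]), bl_left (by norm_num) hx.2]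

lemma FF_out (φ : ℝ → ℝ) {x y : ℝ} (hx : |x| ≤ 3) (hy : |y| ≤ 3) (h : 9 / 5 ≤ |g0 φ a x|) :
    3 / 2 ≤ |(FF φ a β (x, y)).1| := by
  obtain ⟨X, Y, e1, -, -, -, -, e2⟩ := FF_key ha ha1 hb hb1 φ hx hy
  have b1 := sat_out h
  have b2 := abs_le.1 (A0_le (β := β) Y)
  rw [abs_le] at hy
  rw [e2, e1]
  rcases le_abs.1 b1 with g | g
  · exact le_abs.2 (Or.inl (by simp only; linarith [hy.1, hy.2, b2.1, b2.2]))
  · exact le_abs.2 (Or.inr (by simp only; linarith [hy.1, hy.2, b2.1, b2.2]))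

lemma FF_V (φ : ℝ → ℝ) (x y s : ℝ) (hs : s = 1 ∨ s = -1) (hx : |x - s| ≤ 9 / 5 * a) (hy : |y| ≤ 3) :
    FF φ a β (x, y) = (-(x - s) / a, -β * y + s) := by
  have q : |-(x - s) / a| ≤ 9 / 5 := by
    rw [abs_div, abs_neg, abs_of_pos ha, div_le_iff₀ ha]; exact hx
  have hy' : |-y| ≤ 3 := by rwa [abs_neg]
  have q2 : |β * y| ≤ 1 / 10 := by
    rw [abs_mul, abs_of_pos hb]
    exact (mul_le_mul_of_nonneg_left hy hb.le).trans (by linarith)
  have q3 : β ≤ 1 / 1000 := by linarith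
  rw [abs_le] at hx q2
  obtain ⟨X, Y, e1, -, e2, -, -, e3⟩ := FF_key ha ha1 hb hb1 φ (x := x)
    (by rcases hs with rfl | rfl <;> rw [abs_le] <;> constructor <;> linarith [hx.1, hx.2]) hy
  rcases hs with rfl | rfl
  · unfold g0 at e1
    rw [bl_right (by norm_num) (by linarith [hx.1]), bl_right (by norm_num) (by linarith [hx.1]),
      sat_in q] at e1
    rw [P0_p ha ha1 _ (by linarith [hx.1]) (by linarith [hx.2])] at e2
    have e4 : Y = -β * y + 1 := by rw [e2, e1]; ring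
    rw [e3, e4, e1]
    unfold A0
    rw [cut_far hb (t := -β * y + 1) (le_abs.2 (Or.inl (by linarith [q2.2]))),
      cut_far hb (t := -β * y + 1 + 1) (le_abs.2 (Or.inl (by linarith [q2.2]))),
      show -β * y + 1 - 1 = β * -y by ring, cut_close hb hy']
    congr 1; ring
  · unfold g0 at e1
    rw [sub_neg_eq_add] at q
    rw [bl_left (by norm_num) (by linarith [hx.2]), sat_in q] at e1
    rw [P0_m _ (by linarith [hx.1]) (by linarith [hx.2])] at e2
    have e4 : Y = -β * y + -1 := by rw [e2, e1]; ring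
    rw [e3, e4, e1]
    unfold A0
    rw [cut_far hb (t := -β * y + -1) (le_abs.2 (Or.inr (by linarith [q2.1]))),
      cut_far hb (t := -β * y + -1 - 1) (le_abs.2 (Or.inr (by linarith [q2.1]))),
      show -β * y + -1 + 1 = β * -y by ring, cut_close hb hy']
    congr 1; ring

theorem exists_map {n : ℕ} (hn : 1 ≤ n) {φ : ℝ → ℝ} (hφ : ContDiff ℝ n φ)
    (h1 : ∀ y, 2 / 1000000 ≤ y → φ y = 2) (h2 : ∀ y, y ≤ -(2 / 1000000) → φ y = -2)
    (h3 : ∀ y, |y| ≤ a / 10 → φ y = y / a) : ∃ F G, MapP n φ a β F G := by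
  obtain ⟨G, s, l, r⟩ := FF_inv ha ha1 hb hb1 hn hφ
  refine ⟨FF φ a β, G, FF_smooth ha ha1 hb hb1 hφ, s, l, r, FF_per φ, fun x y hx hy => ?_,
    fun x y hx hy p1 p2 p3 => ?_, fun x y hx hy => ?_, FF_V ha ha1 hb hb1 φ, fun x y hx hy => ?_,
    fun x y p1 p2 p3 hy => ?_⟩
  · obtain ⟨X, Y, -, a1, -, a2, a3, e⟩ := FF_key ha ha1 hb hb1 φ hx hy
    rw [e]
    exact ⟨(abs_add_le _ _).trans (by linarith [A0_le (β := β) Y]), a2, a3⟩
  · refine FF_out ha ha1 hb hb1 φ hx hy ?_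
    unfold g0
    have q1 : ∀ t, 9 / 5 * a ≤ |t| → 9 / 5 ≤ |-t / a| := fun t ht => by
      rw [abs_div, abs_neg, abs_of_pos ha, le_div_iff₀ ha]; exact ht
    rcases le_abs.1 p1 with g | g
    · rw [bl_right (by norm_num) (by linarith)]
      rcases le_total (3 / 5) x with g' | g'
      · rw [bl_right (by norm_num) g']; exact q1 _ p2
      · refine le_abs.2 (Or.inl (bl_ge (by rw [h1 x g]; norm_num) ?_))
        rw [le_div_iff₀ ha]; linarith
    · rw [bl_left (a := 3 / 10) (by norm_num) (by linarith)]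
      rcases le_total x (-3 / 5) with g' | g'
      · rw [bl_left (by norm_num) g']; exact q1 _ p3
      · refine le_abs.2 (Or.inr (le_neg.1 (bl_le ?_ (by rw [h2 x (by linarith)]; norm_num))))
        rw [div_le_iff₀ ha]; linarith
  · refine ⟨fun g => ?_, fun g => FF_out ha ha1 hb hb1 φ (by linarith) hy (by rwa [g0_C φ hx])⟩
    obtain ⟨X, Y, e1, -, -, -, -, e2⟩ := FF_key ha ha1 hb hb1 φ (x := x) (by linarith) hy
    rw [e2, e1, g0_C φ hx, sat_in g]
    have b2 := abs_le.1 (A0_le (β := β) Y)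
    rw [abs_le] at hy ⊢
    constructor <;> simp only <;> linarith [hy.1, hy.2, b2.1, b2.2]
  · have q : |x / a| ≤ 9 / 5 := by
      rw [abs_div, abs_of_pos ha, div_le_iff₀ ha]; linarith
    have q2 : |β * y| ≤ 1 / 10 := by
      rw [abs_mul, abs_of_pos hb]
      exact (mul_le_mul_of_nonneg_left hy hb.le).trans (by linarith)
    have q3 : β ≤ 1 / 1000 := by linarith
    rw [abs_le] at q2
    obtain ⟨X, Y, e1, -, e2, -, -, e3⟩ := FF_key ha ha1 hb hb1 φ (x := x) (by linarith) hy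
    rw [g0_C φ (by linarith), h3 x hx, sat_in q] at e1
    rw [P0_3 ha ha1 _ hx] at e2
    have e4 : Y = β * y := by rw [e2, e1]; ring
    rw [e3, e4, e1]
    unfold A0
    rw [cut_close hb hy, cut_far hb (t := β * y - 1) (le_abs.2 (Or.inr (by linarith [q2.2]))),
      cut_far hb (t := β * y + 1) (le_abs.2 (Or.inl (by linarith [q2.1])))]
    congr 1; ring
  · obtain ⟨X, Y, e1, -, e2, -, -, e3⟩ := FF_key ha ha1 hb hb1 φ (x := x) (by linarith) hy
    rw [g0_C φ p2, sat_in p3] at e1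
    rw [P0_C ha ha1 _ p1 p2] at e2
    have : |x / 1000| = |x| / 1000 := by rw [abs_div]; norm_num
    rw [e3, e2, e1, A0_far ha1 hb hb1 (by linarith) (Or.inl (by linarith)), add_zero]

end par

end Pool.Agent.P.MP_97fbd9_an
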