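import Pool.Agent.P.MP_97fbd9_an.Tor
import Pool.Agent.P.MP_97fbd9_an.Map

/-! Local dynamics near the two saddles and the horseshoe. -/

open Set Filter Topology

namespace Pool.Agent.P.MP_97fbd9_an

/-- The standing assumptions. -/
structure Ctx (φ : ℝ → ℝ) (a β : ℝ) (F G : ℝ × ℝ → ℝ × ℝ) (f : Torus ≃ₜ Torus) : Prop where
  ha : 0 < a
  ha1 : a ≤ 1 / 1000000000
  hb : 0 < β
  hb1 : β ≤ a / 1000000000
  sφ : ContDiff ℝ 1 φ
  M : MapP 1 φ a β F G
  lF : IsLift f F
  lG : IsLift f.symm G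

variable {n : ℕ} {φ : ℝ → ℝ} {a β : ℝ} {F G : ℝ × ℝ → ℝ × ℝ} {f : Torus ≃ₜ Torus}

lemma MapP.equiF (h : MapP n φ a β F G) : Equi F := fun l hl => by
  obtain ⟨m, k, rfl⟩ := (proj_zero_iff l).1 hl
  refine ⟨(16 * ((-k : ℤ) : ℝ), 16 * (m : ℝ)), (proj_zero_iff _).2 ⟨_, _, rfl⟩, fun z => ?_⟩
  refine (h.per z.1 z.2 m k).trans (Prod.ext ?_ rfl)
  simp [sub_eq_add_neg]

lemma MapP.equiG (h : MapP n φ a β F G) : Equi G := fun l hl => by
  obtain ⟨m, k, rfl⟩ := (proj_zero_iff l).1 hl
  refine ⟨(16 * (k : ℝ), 16 * ((-m : ℤ) : ℝ)), (proj_zero_iff _).2 ⟨_, _, rfl⟩, fun z => ?_⟩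
  have := h.per (G z).1 (G z).2 k (-m)
  rw [Prod.mk.eta, h.FG] at this
  rw [← h.GF (G z + _)]
  congr 1
  have e : z + (16 * (m : ℝ), 16 * (k : ℝ)) = (z.1 - 16 * ((-m : ℤ) : ℝ), z.2 + 16 * (k : ℝ)) :=
    Prod.ext (by simp) rfl
  exact e.trans this.symm

/-- The coordinate of the fixed point of `x ↦ 1 - a x`. -/
noncomputable def fx (a : ℝ) : ℝ := 1 / (1 + a)

lemma fx_eq (ha : 0 < a) : fx a = 1 - a * fx a := by unfold fx; field_simp; ring

lemma fx_bd (ha : 0 < a) : 0 < fx a ∧ fx a ≤ 1 := by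
  unfold fx
  exact ⟨by positivity, by rw [div_le_one (by linarith)]; linarith⟩

namespace Ctx

variable (h : Ctx φ a β F G f)
include h

lemma sF : ContDiff ℝ 1 F := by simpa using h.M.sF
lemma sG : ContDiff ℝ 1 G := by simpa using h.M.sG

lemma box_iter {z : ℝ × ℝ} (h1 : |z.1| ≤ 3) (h2 : |z.2| ≤ 3) (k : ℕ) :
    |(F^[k] z).1| ≤ 3 ∧ |(F^[k] z).2| ≤ 3 := by
  induction k with
  | zero => exact ⟨h1, h2⟩
  | succ k ih =>
    rw [Function.iterate_succ_apply']
    have := h.M.box _ _ ih.1 ih.2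
    exact ⟨by linarith [this.1], this.2.1⟩

lemma fd_z {z : ℝ × ℝ} (h1 : |z.1| < a / 10) (h2 : |z.2| < 3) (u : ℝ × ℝ) :
    fderiv ℝ F z u = (u.1 / a, β * u.2) := by
  have e : F =ᶠ[𝓝 z] fun z => (z.1 / a, β * z.2) := by
    filter_upwards [(continuous_fst.abs.continuousAt (x := z)).eventually (gt_mem_nhds h1),
      (continuous_snd.abs.continuousAt (x := z)).eventually (gt_mem_nhds h2)] with y p q
    exact h.M.f3 y.1 y.2 p.le q.le
  have d := (((hasFDerivAt_fst (𝕜 := ℝ) (p := z)).mul_const a⁻¹).prodMk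
    ((hasFDerivAt_snd (𝕜 := ℝ) (p := z)).const_mul β)).fderiv
  simp only [div_eq_mul_inv] at e ⊢
  rw [e.fderiv_eq, d]
  simp [mul_comm]

lemma fd_v {z : ℝ × ℝ} {s : ℝ} (hs : s = 1 ∨ s = -1) (h1 : |z.1 - s| < 9 / 5 * a) (h2 : |z.2| < 3)
    (u : ℝ × ℝ) : fderiv ℝ F z u = (-u.1 / a, -β * u.2) := by
  have e : F =ᶠ[𝓝 z] fun z => (-(z.1 - s) / a, -β * z.2 + s) := by
    filter_upwards [((continuous_fst.sub continuous_const).abs.continuousAt (x := z)).eventually
      (gt_mem_nhds h1), (continuous_snd.abs.continuousAt (x := z)).eventually (gt_mem_nhds h2)]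
      with y p q
    exact h.M.fV y.1 y.2 s hs p.le q.le
  have d : HasFDerivAt (fun z : ℝ × ℝ => (-(z.1 - s) * a⁻¹, -β * z.2 + s)) _ z :=
    (((hasFDerivAt_fst (𝕜 := ℝ) (p := z)).sub_const s).neg.mul_const a⁻¹).prodMk
      (((hasFDerivAt_snd (𝕜 := ℝ) (p := z)).const_mul (-β)).add_const s)
  simp only [div_eq_mul_inv] at e ⊢
  rw [e.fderiv_eq, d.fderiv]
  simp [mul_comm]

lemma fd_c {z : ℝ × ℝ} (h0 : a / 5 < |z.1|) (h1 : |z.1| < 3 / 10) (h3 : |φ z.1| < 9 / 5)
    (h2 : |z.2| < 3) (u : ℝ × ℝ) :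
    fderiv ℝ F z u = (deriv φ z.1 * u.1 - u.2 / 1000, u.1 / 1000) := by
  have e : F =ᶠ[𝓝 z] fun z => (φ z.1 - z.2 / 1000, z.1 / 1000) := by
    filter_upwards [(continuous_fst.abs.continuousAt (x := z)).eventually (lt_mem_nhds h0),
      (continuous_fst.abs.continuousAt (x := z)).eventually (gt_mem_nhds h1),
      ((h.sφ.continuous.comp continuous_fst).abs.continuousAt (x := z)).eventually (gt_mem_nhds h3),
      (continuous_snd.abs.continuousAt (x := z)).eventually (gt_mem_nhds h2)] with y p q r s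
    exact h.M.fC y.1 y.2 p.le q.le r.le s.le
  have d := (h.sφ.differentiable (by simp) z.1).hasDerivAt.comp_hasFDerivAt z
    (hasFDerivAt_fst (𝕜 := ℝ) (p := z))
  have d' : HasFDerivAt (fun z : ℝ × ℝ => (φ z.1 - z.2 * 1000⁻¹, z.1 * 1000⁻¹)) _ z :=
    (d.sub ((hasFDerivAt_snd (𝕜 := ℝ) (p := z)).mul_const 1000⁻¹)).prodMk
      ((hasFDerivAt_fst (𝕜 := ℝ) (p := z)).mul_const 1000⁻¹)
  simp only [div_eq_mul_inv] at e ⊢
  rw [e.fderiv_eq, d'.fderiv]
  simp [mul_comm]

lemma fix0 : F (0, 0) = (0, 0) := by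
  simpa using h.M.f3 0 0 (by simp; linarith [h.ha]) (by simp)

lemma stepP {x y : ℝ} (hx : |x - fx a| ≤ a / 2) (hy : |y| ≤ 3) :
    F (x, y) = (fx a - (x - fx a) / a, fx β - β * (y - fx β)) := by
  have ha := h.ha
  have e1 := fx_eq ha
  have e2 := fx_eq h.hb
  have b := fx_bd ha
  rw [h.M.fV x y 1 (Or.inl rfl) (by
    rw [abs_le] at hx ⊢
    constructor <;> nlinarith [hx.1, hx.2, b.1, b.2]) hy]
  congr 1
  · field_simp; linarith
  · linarith

lemma fixP : F (fx a, fx β) = (fx a, fx β) := by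
  have b := fx_bd h.hb
  simpa using h.stepP (x := fx a) (y := fx β) (by simp; linarith [h.ha])
    (by rw [abs_of_pos b.1]; linarith [b.2])

lemma saddle0 : Saddle f F (proj (0, 0)) := by
  have ha := h.ha
  have ha1 := h.ha1
  have hb := h.hb
  have hb1 := h.hb1
  refine ⟨by rw [h.lF, h.fix0], (0, 0), (1, 0), (0, 1), 1 / a, β, rfl, ?_, ?_, by simp, by simp,
    ?_, ?_⟩
  · rw [abs_of_pos (by positivity), lt_div_iff₀ ha]; linarith
  · rw [abs_of_pos hb]; linarith
  · rw [h.fd_z (by simp; linarith) (by simp)]; simp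
  · rw [h.fd_z (by simp; linarith) (by simp)]; simp

lemma saddleP : Saddle f F (proj (fx a, fx β)) := by
  have ha := h.ha
  have ha1 := h.ha1
  have hb := h.hb
  have hb1 := h.hb1
  have e1 := fx_eq ha
  have b := fx_bd ha
  have b' := fx_bd hb
  have p1 : |(fx a, fx β).1 - 1| < 9 / 5 * a := by
    rw [abs_lt]; constructor <;> simp only <;> nlinarith [b.1, b.2]
  have p2 : |(fx a, fx β).2| < 3 := by rw [abs_of_pos b'.1]; linarith [b'.2]
  refine ⟨by rw [h.lF, h.fixP], (fx a, fx β), (1, 0), (0, 1), -1 / a, -β, rfl, ?_, ?_, by simp,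
    by simp, ?_, ?_⟩
  · rw [neg_div, abs_neg, abs_of_pos (by positivity), lt_div_iff₀ ha]; linarith
  · rw [abs_neg, abs_of_pos hb]; linarith
  · rw [h.fd_v (Or.inl rfl) p1 p2]; simp
  · rw [h.fd_v (Or.inl rfl) p1 p2]; simp

lemma uloc {z : ℝ × ℝ} (h0 : dist z (0, 0) < a / 10)
    (hz : ∀ k, dist (f.symm^[k] (proj z)) (proj (0, 0)) < a / 10) : z.2 = 0 := by
  have ha := h.ha
  have ha1 := h.ha1
  have hb := h.hb
  have hb1 := h.hb1
  have key : ∀ k (z : ℝ × ℝ), dist z (0, 0) < a / 10 →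
      (∀ k, dist (f.symm^[k] (proj z)) (proj (0, 0)) < a / 10) → |z.2| ≤ β ^ k := by
    intro k
    induction k with
    | zero =>
      intro z h0 _
      rw [Prod.dist_eq, max_lt_iff, Real.dist_eq, Real.dist_eq, sub_zero, sub_zero] at h0
      rw [pow_zero]; linarith [h0.2]
    | succ k ih =>
      intro z h0 hz
      obtain ⟨l, l1, l2⟩ := exists_close (G z) (0, 0)
      have e : proj (G z - l) = f.symm (proj z) := by rw [proj_sub, l1, sub_zero, h.lG]
      have l3 : dist (G z - l) (0, 0) < a / 10 := by rw [l2, ← h.lG]; exact hz 1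
      have i := ih (G z - l) l3 fun k => by rw [e]; exact hz (k + 1)
      rw [Prod.dist_eq, max_lt_iff, Real.dist_eq, Real.dist_eq, sub_zero, sub_zero] at h0 l3
      have e2 := h.M.f3 _ (G z - l).2 l3.1.le (by linarith [l3.2])
      have bx := h.M.box (G z - l).1 (G z - l).2 (by linarith [l3.1]) (by linarith [l3.2])
      have e3 : F ((G z - l).1, (G z - l).2) = z := proj_inj
        ((abs_sub _ _).trans (by linarith [bx.1, h0.1])) ((abs_sub _ _).trans (by linarith [bx.2.1, h0.2]))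
        (by rw [← h.lF, e, f.apply_symm_apply])
      rw [← e3, e2, abs_mul, abs_of_pos hb, pow_succ']
      exact mul_le_mul_of_nonneg_left i hb.le
  exact abs_nonpos_iff.1 (ge_of_tendsto'
    (tendsto_pow_atTop_nhds_zero_of_lt_one hb.le (by linarith)) fun k => key k z h0 hz)

lemma sloc {z : ℝ × ℝ} (h0 : dist z (fx a, fx β) < a / 2)
    (hz : ∀ k, dist (f^[k] (proj z)) (proj (fx a, fx β)) < a / 2) : z.1 = fx a := by
  have ha := h.ha
  have ha1 := h.ha1
  have b := fx_bd ha
  have b' := fx_bd h.hb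
  have key : ∀ k (z : ℝ × ℝ), dist z (fx a, fx β) < a / 2 →
      (∀ k, dist (f^[k] (proj z)) (proj (fx a, fx β)) < a / 2) → |z.1 - fx a| ≤ a ^ k := by
    intro k
    induction k with
    | zero =>
      intro z h0 _
      rw [Prod.dist_eq, max_lt_iff, Real.dist_eq] at h0
      rw [pow_zero]; linarith [h0.1]
    | succ k ih =>
      intro z h0 hz
      rw [Prod.dist_eq, max_lt_iff, Real.dist_eq, Real.dist_eq, abs_lt, abs_lt] at h0
      simp only at h0
      have p2 : |z.2| ≤ 3 := abs_le.2 ⟨by linarith [h0.2.1], by linarith [h0.2.2]⟩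
      have e := h.stepP (x := z.1) (abs_le.2 ⟨h0.1.1.le, h0.1.2.le⟩) p2
      have bx := h.M.box z.1 z.2 (abs_le.2 ⟨by linarith [h0.1.1], by linarith [h0.1.2]⟩) p2
      have i := ih (F z) (by
        rw [← dist_proj_eq, ← h.lF]
        · exact hz 1
        · exact (abs_sub _ _).trans (by rw [abs_of_pos b.1]; linarith [bx.1])
        · exact (abs_sub _ _).trans (by rw [abs_of_pos b'.1]; linarith [bx.2.1]))
        fun k => by rw [← h.lF]; exact hz (k + 1)
      rw [show F z = F (z.1, z.2) from rfl, e, sub_sub_cancel_left, abs_neg, abs_div, abs_of_pos ha,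
        div_le_iff₀ ha] at i
      rwa [pow_succ]
  have := abs_nonpos_iff.1 (ge_of_tendsto'
    (tendsto_pow_atTop_nhds_zero_of_lt_one ha.le (by linarith)) fun k => key k z h0 hz)
  linarith

end Ctx

/-- Coordinate coded by a word. -/
def xw (a : ℝ) : List Bool → ℝ → ℝ
  | [], e => e
  | b :: l, e => (if b then 1 else -1) - a * xw a l e

lemma xw_append (l l' : List Bool) (e : ℝ) : xw a (l ++ l') e = xw a l (xw a l' e) := by
  induction l with
  | nil => rfl
  | cons b l ih => simp only [List.cons_append, xw, ih]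

lemma xw_cont (l : List Bool) : Continuous (xw a l) := by
  induction l with
  | nil => exact continuous_id
  | cons b l ih => exact continuous_const.sub (continuous_const.mul ih)

lemma xw_rep (ha : 0 < a) (k : ℕ) (e : ℝ) :
    xw a (List.replicate k true) e = fx a + (-a) ^ k * (e - fx a) := by
  induction k with
  | zero => simp [xw]
  | succ k ih =>
    simp only [List.replicate_succ, xw, ih, if_true, pow_succ]
    linarith [fx_eq ha]

namespace Ctx

variable (h : Ctx φ a β F G f)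
include h

lemma xw_le (l : List Bool) {e : ℝ} (he : |e| ≤ 3 / 2) : |xw a l e| ≤ 3 / 2 := by
  induction l with
  | nil => exact he
  | cons b l ih =>
    have ha := h.ha
    have ha1 := h.ha1
    rw [abs_le] at ih ⊢
    cases b <;> simp [xw] <;> constructor <;> nlinarith [ih.1, ih.2]

lemma xw_step (b : Bool) (l : List Bool) {e y : ℝ} (he : |e| ≤ 3 / 2) (hy : |y| ≤ 3) :
    F (xw a (b :: l) e, y) = (xw a l e, -β * y + if b then 1 else -1) := by
  have ha := h.ha
  have := h.xw_le l he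
  rw [h.M.fV _ y (if b then 1 else -1) (by cases b <;> simp) (by
    simp only [xw, sub_sub_cancel_left, abs_neg, abs_mul, abs_of_pos ha]; nlinarith) hy]
  congr 1
  simp only [xw]; field_simp; ring

lemma y_step (b : Bool) {y : ℝ} (hy : |y| ≤ 3) : |-β * y + if b then 1 else -1| ≤ 3 := by
  have hb := h.hb
  have := h.hb1
  have := h.ha1
  rw [abs_le] at hy ⊢
  cases b <;> simp <;> constructor <;> nlinarith [hy.1, hy.2]

lemma xw_iter (l l' : List Bool) {e y : ℝ} (he : |e| ≤ 3 / 2) (hy : |y| ≤ 3) :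
    ∃ y', |y'| ≤ 3 ∧ F^[l.length] (xw a (l ++ l') e, y) = (xw a l' e, y') := by
  induction l generalizing y with
  | nil => exact ⟨y, hy, rfl⟩
  | cons b l ih =>
    rw [List.length_cons, Function.iterate_succ_apply, List.cons_append, h.xw_step b _ he hy]
    exact ih (h.y_step b hy)

lemma rep_iter (k : ℕ) (l' : List Bool) {e y : ℝ} (he : |e| ≤ 3 / 2) (hy : |y| ≤ 3) :
    F^[k] (xw a (List.replicate k true ++ l') e, y) =
      (xw a l' e, fx β + (-β) ^ k * (y - fx β)) := by
  induction k generalizing y with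
  | zero => simp
  | succ k ih =>
    rw [Function.iterate_succ_apply, List.replicate_succ, List.cons_append, h.xw_step _ _ he hy,
      ih (h.y_step true hy), if_pos rfl, pow_succ]
    congr 1
    linear_combination (-(-β) ^ k) * fx_eq h.hb

lemma arc_s0 (l : List Bool) {y : ℝ} (hy : |y| ≤ 2) :
    Arc f (proj (0, 0)) fun t => (xw a l 0, y + t) := by
  have hb := h.hb
  refine arc_of h.lF (by fun_prop) l.length hb.le (by linarith [h.hb1, h.ha1]) fun k t ht => ?_
  obtain ⟨y', p, q⟩ := h.xw_iter l [] (e := 0) (y := y + t) (by norm_num)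
    ((abs_add_le _ _).trans (by linarith [abs_le.2 ht]))
  rw [List.append_nil] at q
  have : ∀ k, F^[k] (0, y') = (0, β ^ k * y') := fun k => by
    induction k with
    | zero => simp
    | succ k ih =>
      have : |β ^ k * y'| ≤ 3 := by
        rw [abs_mul, abs_of_pos (pow_pos hb k)]
        exact (mul_le_of_le_one_left (abs_nonneg _)
          (pow_le_one₀ hb.le (by linarith [h.hb1, h.ha1]))).trans p
      rw [Function.iterate_succ_apply', ih, h.M.f3 _ _ (by simp; linarith [h.ha]) this, pow_succ]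
      congr 1 <;> ring
  rw [Function.iterate_add_apply, q]
  change dist (F^[k] (0, y')) _ ≤ _
  have p0 := pow_pos hb k
  rw [this, Prod.dist_eq, dist_self, max_eq_right dist_nonneg, Real.dist_eq, sub_zero, abs_mul,
    abs_of_pos p0]
  nlinarith

lemma arc_sP (l : List Bool) {y : ℝ} (hy : |y| ≤ 2) :
    Arc f (proj (fx a, fx β)) fun t => (xw a l (fx a), y + t) := by
  have hb := h.hb
  have b := fx_bd h.ha
  have b' := fx_bd hb
  have he : |fx a| ≤ 3 / 2 := by rw [abs_of_pos b.1]; linarith [b.2]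
  refine arc_of h.lF (by fun_prop) l.length hb.le (by linarith [h.hb1, h.ha1]) fun k t ht => ?_
  obtain ⟨y', p, q⟩ := h.xw_iter l [] (y := y + t) he
    ((abs_add_le _ _).trans (by linarith [abs_le.2 ht]))
  rw [List.append_nil] at q
  have := h.rep_iter k [] he p
  rw [List.append_nil, xw_rep h.ha, sub_self, mul_zero, add_zero] at this
  rw [Function.iterate_add_apply, q]
  change dist (F^[k] (fx a, y')) _ ≤ _
  have p0 := pow_pos hb k
  have p1 : |y' - fx β| ≤ 4 := (abs_sub _ _).trans (by rw [abs_of_pos b'.1]; linarith [b'.2])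
  rw [this]
  change dist (fx a, _) _ ≤ _
  rw [Prod.dist_eq, dist_self, max_eq_right dist_nonneg, Real.dist_eq, add_sub_cancel_left,
    abs_mul, abs_pow, abs_neg, abs_of_pos hb]
  nlinarith

lemma arc_u0 {c η : ℝ} (hc : |c| + |η| ≤ 1 / 10) :
    Arc f.symm (proj (0, 0)) fun t => (c + t * η, 0) := by
  have ha := h.ha
  have ha1 := h.ha1
  refine arc_of h.lG (by fun_prop) 0 ha.le (by linarith) fun k t ht => ?_
  have p : |c + t * η| ≤ 1 / 10 := by
    refine (abs_add_le _ _).trans ?_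
    rw [abs_mul]
    linarith [mul_le_of_le_one_left (abs_nonneg η) (abs_le.2 ht)]
  generalize c + t * η = x at p
  have : ∀ k, G^[k] (x, 0) = (a ^ k * x, 0) := fun k => by
    induction k with
    | zero => simp
    | succ k ih =>
      have p1 : a ^ k ≤ 1 := pow_le_one₀ ha.le (by linarith)
      have p2 := pow_pos ha k
      have := h.M.f3 (a ^ (k + 1) * x) 0 (by
        rw [abs_mul, pow_succ, abs_of_pos (by positivity)]
        nlinarith [mul_le_mul p1 p (abs_nonneg _) zero_le_one]) (by simp)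
      rw [Function.iterate_succ_apply', ih, ← h.M.GF (a ^ (k + 1) * x, 0), this]
      congr 2
      · field_simp; ring
      · simp
  have p0 := pow_pos ha k
  rw [add_zero, this, Prod.dist_eq, dist_self, max_eq_left dist_nonneg, Real.dist_eq, sub_zero,
    abs_mul, abs_of_pos p0]
  nlinarith

lemma arc_uP {x0 : ℝ} (hx : |x0| ≤ 3 / 2) :
    Arc f.symm (proj (fx a, fx β)) fun t => (x0 + t / 4, fx β) := by
  have ha := h.ha
  have ha1 := h.ha1
  have b := fx_bd ha
  have b' := fx_bd h.hb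
  refine arc_of h.lG (by fun_prop) 0 ha.le (by linarith) fun k t ht => ?_
  have p : |x0 + t / 4| ≤ 9 / 5 := by
    rw [abs_le] at hx ⊢; constructor <;> linarith [hx.1, hx.2, ht.1, ht.2]
  generalize x0 + t / 4 = x at p
  have g : ∀ x, |x| ≤ 9 / 5 → G (x, fx β) = (1 - a * x, fx β) := fun x p => by
    have := h.M.fV (1 - a * x) (fx β) 1 (Or.inl rfl) (by
      rw [sub_sub_cancel_left, abs_neg, abs_mul, abs_of_pos ha]; nlinarith)
      (by rw [abs_of_pos b'.1]; linarith [b'.2])
    rw [← h.M.GF (1 - a * x, fx β), this]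
    congr 2
    · field_simp; ring
    · linarith [fx_eq h.hb]
  have : ∀ k, |fx a + (-a) ^ k * (x - fx a)| ≤ 9 / 5 ∧
      G^[k] (x, fx β) = (fx a + (-a) ^ k * (x - fx a), fx β) := fun k => by
    induction k with
    | zero => simpa using p
    | succ k ih =>
      have e : fx a + (-a) ^ (k + 1) * (x - fx a) = 1 - a * (fx a + (-a) ^ k * (x - fx a)) := by
        rw [pow_succ]; linarith [fx_eq ha]
      rw [Function.iterate_succ_apply', ih.2, g _ ih.1, e]
      have := abs_le.1 ih.1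
      exact ⟨abs_le.2 ⟨by nlinarith [this.2], by nlinarith [this.1]⟩, rfl⟩
  have p0 := pow_pos ha k
  have p1 : |x - fx a| ≤ 4 := (abs_sub _ _).trans (by rw [abs_of_pos b.1]; linarith [b.2])
  rw [add_zero, (this k).2, Prod.dist_eq, dist_self, max_eq_left dist_nonneg, Real.dist_eq,
    add_sub_cancel_left, abs_mul, abs_pow, abs_neg, abs_of_pos ha]
  nlinarith

omit h in
lemma deriv_vert (x y : ℝ) : deriv (fun t : ℝ => (x, y + t)) 0 = (0, 1) :=
  ((hasDerivAt_const 0 x).prodMk ((hasDerivAt_id 0).const_add y)).deriv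

lemma homP (l : List Bool) : proj (xw a l (fx a), fx β) ∈ HC f (proj (fx a, fx β)) := by
  have b := fx_bd h.ha
  have b' := fx_bd h.hb
  refine subset_closure ⟨_, _, h.arc_uP (h.xw_le l (by rw [abs_of_pos b.1]; linarith [b.2])),
    h.arc_sP l (y := fx β) (by rw [abs_of_pos b'.1]; linarith [b'.2]), by simp, by simp, ?_⟩
  have d : HasDerivAt (fun t : ℝ => (xw a l (fx a) + t / 4, fx β)) (1 / 4, 0) 0 :=
    (((hasDerivAt_id (0 : ℝ)).div_const 4).const_add _).prodMk (hasDerivAt_const 0 (fx β))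
  rw [deriv_vert, d.deriv]
  exact indep_of (by norm_num) rfl (by norm_num)

lemma hom0 (hp : ∀ l : List Bool, l ≠ [] → ∃ c : ℝ, a / 5 < |c| ∧ |c| ≤ 1 / 100 ∧
    φ c = xw a l 0 ∧ deriv φ c ≠ 0) (l : List Bool) :
    proj (xw a l (fx a), fx β) ∈ HC f (proj (0, 0)) := by
  have ha := h.ha
  have hb := h.hb
  have key : ∀ M, ∃ c, |c| ≤ 1 ∧ proj (xw a l (fx a + (-a) ^ (M + 1) * (0 - fx a)),
      fx β + (-β) ^ M * (c - fx β)) ∈ Trans f (proj (0, 0)) (proj (0, 0)) := fun M => by
    obtain ⟨c, c1, c2, c3, c4⟩ := hp (List.replicate M true ++ (l ++ List.replicate (M + 1) true))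
      (by simp [List.replicate_succ])
    set L := List.replicate M true ++ (l ++ List.replicate (M + 1) true) with hL
    have p0 : |φ c| < 9 / 5 := by
      rw [c3]; linarith [h.xw_le L (e := 0) (by norm_num)]
    have p1 : |c / 1000| ≤ 1 := by rw [abs_div]; norm_num; linarith
    have e := h.M.fC c 0 c1.le (by linarith) p0.le (by simp)
    rw [zero_div, sub_zero, c3] at e
    have u := h.arc_u0 (c := c) (η := 1 / 100) (by norm_num; linarith)
    have t : proj (xw a L 0, c / 1000) ∈ Trans f (proj (0, 0)) (proj (0, 0)) := by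
      refine ⟨_, _, u.fwd_u h.lF h.sF, h.arc_s0 L (y := c / 1000) (by linarith), by simp [e],
        by simp [e], ?_⟩
      have d : HasDerivAt (fun t : ℝ => (c + t * (1 / 100), (0 : ℝ))) (1 * (1 / 100), 0) 0 :=
        (((hasDerivAt_id (0 : ℝ)).mul_const _).const_add c).prodMk (hasDerivAt_const 0 0)
      rw [deriv_vert, ((h.sF.differentiable (by simp) _).hasFDerivAt.comp_hasDerivAt 0 d).deriv,
        h.fd_c (by simpa using c1) (by simp; linarith) (by simpa using p0) (by simp)]
      exact indep_of (by simpa using c4) rfl (by norm_num)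
    have := trans_fwd h.lF h.sF h.sG h.M.GF t M
    rw [h.lF.iterate, hL, h.rep_iter M _ (by norm_num) (by linarith), xw_append, xw_rep ha] at this
    exact ⟨_, p1, this⟩
  choose c c1 c2 using key
  refine mem_closure_of_tendsto (b := atTop) ?_ (Eventually.of_forall c2)
  refine (proj_cont.tendsto _).comp (Tendsto.prodMk_nhds (((xw_cont l).tendsto _).comp ?_) ?_)
  · have t := (tendsto_pow_atTop_nhds_zero_of_abs_lt_one (r := -a)
      (by rw [abs_neg, abs_of_pos ha]; linarith [h.ha1])).comp (tendsto_add_atTop_nat 1)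
    simpa using (t.mul_const (0 - fx a)).const_add (fx a)
  · have t := tendsto_pow_atTop_nhds_zero_of_lt_one hb.le (by linarith [h.ha1, h.hb1])
    have b' := fx_bd hb
    have : Tendsto (fun M => (-β) ^ M * (c M - fx β)) atTop (𝓝 0) := by
      refine squeeze_zero_norm (fun M => ?_) (by simpa using t.mul_const 2)
      rw [Real.norm_eq_abs, abs_mul, abs_pow, abs_neg, abs_of_pos hb]
      refine mul_le_mul_of_nonneg_left ((abs_sub _ _).trans ?_) (pow_pos hb M).le
      rw [abs_of_pos b'.1]; linarith [c1 M, b'.2]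
    simpa using this.const_add (fx β)

lemma sep {k : ℕ} {u v : Fin k → Bool} (huv : u ≠ v) : ∃ i < k,
    1 ≤ dist (f^[i] (proj (xw a (List.ofFn u) (fx a), fx β)))
      (f^[i] (proj (xw a (List.ofFn v) (fx a), fx β))) := by
  obtain ⟨i, hi⟩ := Function.ne_iff.1 huv
  have ha := h.ha
  have ha1 := h.ha1
  have b := fx_bd ha
  have b' := fx_bd h.hb
  have he : |fx a| ≤ 3 / 2 := by rw [abs_of_pos b.1]; linarith [b.2]
  have key : ∀ u : Fin k → Bool, ∃ x y, |x - if u i then 1 else -1| ≤ 1 / 4 ∧ |y| ≤ 3 ∧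
      F^[i] (xw a (List.ofFn u) (fx a), fx β) = (x, y) := fun u => by
    obtain ⟨y, p, q⟩ := h.xw_iter ((List.ofFn u).take i) ((List.ofFn u).drop i) (y := fx β) he
      (by rw [abs_of_pos b'.1]; linarith [b'.2])
    rw [List.take_append_drop, List.length_take, List.length_ofFn, min_eq_left i.2.le,
      List.drop_eq_getElem_cons (by simp), List.getElem_ofFn] at q
    refine ⟨_, y, ?_, p, q⟩
    have := h.xw_le (List.drop (i + 1) (List.ofFn u)) he
    simp only [xw, Fin.eta, sub_sub_cancel_left, abs_neg, abs_mul, abs_of_pos ha]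
    nlinarith
  obtain ⟨x, y, p1, p2, p3⟩ := key u
  obtain ⟨x', y', q1, q2, q3⟩ := key v
  refine ⟨i, i.2, ?_⟩
  have r : 1 ≤ |x - x'| ∧ |x - x'| ≤ 8 := by
    rw [abs_le] at p1 q1
    rw [le_abs, abs_le]
    cases hu : u i <;> cases hv : v i <;> simp [hu, hv] at hi p1 q1
    · exact ⟨Or.inr (by linarith [p1.2, q1.1]), by linarith [p1.1, q1.2], by linarith [p1.2, q1.1]⟩
    · exact ⟨Or.inl (by linarith [p1.1, q1.2]), by linarith [p1.1, q1.2], by linarith [p1.2, q1.1]⟩
  rw [h.lF.iterate, h.lF.iterate, p3, q3, dist_proj_eq r.2 ((abs_sub _ _).trans (by linarith)),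
    Prod.dist_eq]
  exact le_max_of_le_left r.1

lemma entropy_pos {K : Set Torus} (hK : ∀ l : List Bool, proj (xw a l (fx a), fx β) ∈ K) :
    0 < Dynamics.coverEntropy f K := by
  classical
  have hU := Metric.dist_mem_uniformity (α := Torus) (by norm_num : (0 : ℝ) < 1 / 2)
  refine lt_of_lt_of_le ?_ (Dynamics.netEntropyEntourage_le_coverEntropy f K hU)
  have key : ∀ k : ℕ, ((2 : ENNReal) ^ k) ≤
      (Dynamics.netMaxcard f K {p : Torus × Torus | dist p.1 p.2 < 1 / 2} k : ENNReal) := fun k => by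
    let g : (Fin k → Bool) → Torus := fun u => proj (xw a (List.ofFn u) (fx a), fx β)
    have inj : Function.Injective g := fun u v e => by
      by_contra c
      obtain ⟨i, -, hi⟩ := h.sep c
      change 1 ≤ dist (f^[i] (g u)) (f^[i] (g v)) at hi
      rw [e, dist_self] at hi; linarith
    have net : Dynamics.IsDynNetIn f K {p : Torus × Torus | dist p.1 p.2 < 1 / 2} k
        (Finset.univ.image g : Finset Torus) := by
      refine ⟨fun z hz => ?_, fun z hz z' hz' hne => ?_⟩
      · obtain ⟨u, -, rfl⟩ := Finset.mem_image.1 hz; exact hK _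
      · obtain ⟨u, -, rfl⟩ := Finset.mem_image.1 hz
        obtain ⟨v, -, rfl⟩ := Finset.mem_image.1 hz'
        obtain ⟨i, hi, hd⟩ := h.sep (fun e : u = v => hne (by rw [e]))
        refine Set.disjoint_left.2 fun y p q => ?_
        have p' : dist (f^[i] (g u)) (f^[i] y) < 1 / 2 := Dynamics.mem_ball_dynEntourage.1 p i hi
        have q' : dist (f^[i] (g v)) (f^[i] y) < 1 / 2 := Dynamics.mem_ball_dynEntourage.1 q i hi
        have := dist_triangle_right (f^[i] (g u)) (f^[i] (g v)) (f^[i] y)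
        change 1 ≤ dist (f^[i] (g u)) (f^[i] (g v)) at hd
        linarith
    have := ENat.toENNReal_mono net.card_le_netMaxcard
    rw [Finset.card_image_of_injective _ inj] at this
    simpa using this
  refine lt_of_lt_of_le ?_ (ExpGrowth.expGrowthSup_monotone key)
  rw [ExpGrowth.expGrowthSup_pow]
  exact ENNReal.zero_lt_log_iff.2 (by norm_num)

end Ctx

end Pool.Agent.P.MP_97fbd9_an
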