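import Mathlib

/-! A one dimensional flat extension lemma. -/

open Set Filter Topology
open scoped ContDiff

namespace Pool.Agent.P.MP_97fbd9_an

section flat

variable {E : Type*} [NormedAddCommGroup E] [NormedSpace ℝ E]

/-- Functions that are flat of order `m` along `S` and smooth off `S`. -/
def Flat (S : Set ℝ) (m : ℕ) (G : ℝ → E) : Prop :=
  ∃ M : ℝ, (∀ x ∈ S, ∀ y, ‖G y - G x‖ ≤ M * |y - x| ^ m) ∧ ContDiffOn ℝ ∞ G Sᶜ ∧
    ∀ j, 1 ≤ j → j ≤ m → ∀ y ∉ S, ∀ x ∈ S, ‖iteratedDeriv j G y‖ ≤ M * |y - x| ^ (m - j)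

lemma Flat.hasDerivAt {S : Set ℝ} {m : ℕ} {G : ℝ → E} (h : Flat S (m + 2) G) {x : ℝ}
    (hx : x ∈ S) : HasDerivAt G 0 x := by
  obtain ⟨M, h1, -, -⟩ := h
  rw [hasDerivAt_iff_isLittleO, Asymptotics.isLittleO_iff]
  intro c hc
  have ht : Tendsto (fun y : ℝ => M * |y - x| ^ (m + 1)) (𝓝 x) (𝓝 0) := by
    have : Continuous (fun y : ℝ => M * |y - x| ^ (m + 1)) := by fun_prop
    simpa using this.tendsto x
  filter_upwards [ht.eventually (gt_mem_nhds hc)] with y hy
  have h2 := h1 x hx y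
  simp only [smul_zero, sub_zero, Real.norm_eq_abs]
  calc ‖G y - G x‖ ≤ M * |y - x| ^ (m + 2) := h2
    _ = M * |y - x| ^ (m + 1) * |y - x| := by ring
    _ ≤ c * |y - x| := by gcongr

lemma Flat.contDiff {S : Set ℝ} (hS : IsClosed S) :
    ∀ (m : ℕ) (G : ℝ → E), Flat S (m + 1) G → ContDiff ℝ m G := by
  intro m
  induction m with
  | zero =>
    rintro G ⟨M, h1, h2, -⟩
    simp only [Nat.cast_zero, contDiff_zero]
    rw [continuous_iff_continuousAt]
    intro x
    by_cases hx : x ∈ S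
    · rw [ContinuousAt, tendsto_iff_norm_sub_tendsto_zero]
      have ht : Tendsto (fun y : ℝ => M * |y - x| ^ (0 + 1)) (𝓝 x) (𝓝 0) := by
        have : Continuous (fun y : ℝ => M * |y - x| ^ (0 + 1)) := by fun_prop
        simpa using this.tendsto x
      exact squeeze_zero (fun _ => norm_nonneg _) (fun y => h1 x hx y) ht
    · exact (h2.contDiffAt (hS.isOpen_compl.mem_nhds hx)).continuousAt
  | succ m ih =>
    intro G hG
    have hd : ∀ x ∈ S, HasDerivAt G 0 x := fun x hx => hG.hasDerivAt hx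
    obtain ⟨M, h1, h2, h3⟩ := hG
    rw [Nat.cast_succ, contDiff_succ_iff_deriv]
    refine ⟨fun x => ?_, by simp, ih _ ⟨max M 0, ?_, ?_, ?_⟩⟩
    · by_cases hx : x ∈ S
      · exact (hd x hx).differentiableAt
      · exact (h2.contDiffAt (hS.isOpen_compl.mem_nhds hx)).differentiableAt (by simp)
    · intro x hx y
      rw [(hd x hx).deriv, sub_zero]
      by_cases hy : y ∈ S
      · rw [(hd y hy).deriv, norm_zero]; positivity
      · have := h3 1 le_rfl (by omega) y hy x hx
        rw [iteratedDeriv_one] at this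
        refine this.trans ?_
        have e : m + 1 + 1 - 1 = m + 1 := by omega
        rw [e]
        gcongr
        exact le_max_left _ _
    · exact h2.deriv_of_isOpen hS.isOpen_compl (by simp)
    · intro j hj1 hj2 y hy x hx
      have := h3 (j + 1) (by omega) (by omega) y hy x hx
      rw [iteratedDeriv_succ'] at this
      refine this.trans ?_
      have e : m + 1 + 1 - (j + 1) = m + 1 - j := by omega
      rw [e]
      gcongr
      exact le_max_left _ _

end flat

lemma st_iter_zero (j : ℕ) (hj : 1 ≤ j) (u : ℝ) (hu : u < 0 ∨ 1 < u) :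
    iteratedDeriv j Real.smoothTransition u = 0 := by
  rcases hu with hu | hu
  · have : Real.smoothTransition =ᶠ[𝓝 u] fun _ => (0 : ℝ) := by
      filter_upwards [gt_mem_nhds hu] with v hv using Real.smoothTransition.zero_of_nonpos hv.le
    rw [this.iteratedDeriv_eq, iteratedDeriv_const, if_neg (by omega)]
  · have : Real.smoothTransition =ᶠ[𝓝 u] fun _ => (1 : ℝ) := by
      filter_upwards [lt_mem_nhds hu] with v hv using Real.smoothTransition.one_of_one_le hv.le
    rw [this.iteratedDeriv_eq, iteratedDeriv_const, if_neg (by omega)]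

lemma st_bound (m : ℕ) : ∃ K : ℝ, 0 ≤ K ∧ ∀ j ≤ m, ∀ u ∈ Icc (0 : ℝ) 1,
    |iteratedDeriv j Real.smoothTransition u| ≤ K := by
  have h : ∀ j : ℕ, ∃ K : ℝ, ∀ u ∈ Icc (0 : ℝ) 1,
      ‖iteratedDeriv j Real.smoothTransition u‖ ≤ K := fun j =>
    isCompact_Icc.exists_bound_of_continuousOn
      ((Real.smoothTransition.contDiff (n := j)).continuous_iteratedDeriv' j).continuousOn
  choose K hK using h
  refine ⟨∑ j ∈ Finset.range (m + 1), |K j|, by positivity, fun j hj u hu => ?_⟩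
  calc _ ≤ K j := hK j u hu
    _ ≤ |K j| := le_abs_self _
    _ ≤ _ := Finset.single_le_sum (f := fun j => |K j|) (fun _ _ => abs_nonneg _)
      (Finset.mem_range.2 (by omega))

section gap

variable {E : Type*} [NormedAddCommGroup E] [NormedSpace ℝ E]

lemma gap_data {S : Set ℝ} (hS : IsClosed S) (hlo : ∀ x, ∃ s ∈ S, s ≤ x)
    (hhi : ∀ x, ∃ s ∈ S, x ≤ s) :
    ∃ lo hi : ℝ → ℝ, ∀ y, lo y ∈ S ∧ hi y ∈ S ∧ lo y ≤ y ∧ y ≤ hi y ∧
      (∀ s ∈ S, (s ≤ y → s ≤ lo y) ∧ (y ≤ s → hi y ≤ s)) := by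
  refine ⟨fun y => sSup (S ∩ Iic y), fun y => sInf (S ∩ Ici y), fun y => ?_⟩
  have c1 : IsClosed (S ∩ Iic y) := hS.inter isClosed_Iic
  have c2 : IsClosed (S ∩ Ici y) := hS.inter isClosed_Ici
  have n1 : (S ∩ Iic y).Nonempty := by obtain ⟨s, hs, h⟩ := hlo y; exact ⟨s, hs, h⟩
  have n2 : (S ∩ Ici y).Nonempty := by obtain ⟨s, hs, h⟩ := hhi y; exact ⟨s, hs, h⟩
  have b1 : BddAbove (S ∩ Iic y) := ⟨y, fun s hs => hs.2⟩
  have b2 : BddBelow (S ∩ Ici y) := ⟨y, fun s hs => hs.2⟩
  have m1 := c1.csSup_mem n1 b1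
  have m2 := c2.csInf_mem n2 b2
  exact ⟨m1.1, m2.1, m1.2, m2.2, fun s hs => ⟨fun h => le_csSup b1 ⟨hs, h⟩,
    fun h => csInf_le b2 ⟨hs, h⟩⟩⟩

/-- The closed-set version of the extension lemma. -/
lemma ext_closed {S : Set ℝ} (hS : IsClosed S) (hlo : ∀ x, ∃ s ∈ S, s ≤ x)
    (hhi : ∀ x, ∃ s ∈ S, x ≤ s) (m : ℕ) (g : ℝ → E) (M : ℝ) (hM : 0 ≤ M)
    (hg : ∀ x ∈ S, ∀ y ∈ S, ‖g y - g x‖ ≤ M * |y - x| ^ m) :
    ∃ G : ℝ → E, Flat S m G ∧ ∀ y, ∃ α ∈ S, ∃ β ∈ S, α ≤ y ∧ y ≤ β ∧
      (∀ s ∈ S, (s ≤ y → s ≤ α) ∧ (y ≤ s → β ≤ s)) ∧ ∃ θ ∈ Icc (0 : ℝ) 1,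
        G y = (1 - θ) • g α + θ • g β ∧ (θ ≠ 0 → β - y ≤ 2 * (y - α)) ∧
        (θ ≠ 1 → y - α ≤ 2 * (β - y)) := by
  obtain ⟨lo, hi, H⟩ := gap_data hS hlo hhi
  obtain ⟨K, hK0, hK⟩ := st_bound m
  set G : ℝ → E := fun y => g (lo y) +
    Real.smoothTransition (3 / (hi y - lo y) * y + (-(3 / (hi y - lo y) * lo y) - 1)) •
      (g (hi y) - g (lo y)) with hG
  have hin : ∀ y ∈ S, lo y = y ∧ hi y = y := fun y hy =>
    ⟨le_antisymm (H y).2.2.1 (((H y).2.2.2.2 y hy).1 le_rfl),
      le_antisymm (((H y).2.2.2.2 y hy).2 le_rfl) (H y).2.2.2.1⟩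
  have hout : ∀ y ∉ S, lo y < y ∧ y < hi y := fun y hy =>
    ⟨lt_of_le_of_ne (H y).2.2.1 (fun h => hy (h ▸ (H y).1)),
      lt_of_le_of_ne (H y).2.2.2.1 (fun h => hy (h ▸ (H y).2.1))⟩
  have hstr : ∀ y, ∃ θ ∈ Icc (0 : ℝ) 1,
        G y = (1 - θ) • g (lo y) + θ • g (hi y) ∧ (θ ≠ 0 → hi y - y ≤ 2 * (y - lo y)) ∧
        (θ ≠ 1 → y - lo y ≤ 2 * (hi y - y)) := by
    intro y
    refine ⟨Real.smoothTransition (3 / (hi y - lo y) * y + (-(3 / (hi y - lo y) * lo y) - 1)),
      ⟨Real.smoothTransition.nonneg _, Real.smoothTransition.le_one _⟩, ?_, ?_, ?_⟩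
    · simp only [hG]; module
    · intro h
      by_cases hy : y ∈ S
      · rw [(hin y hy).1, (hin y hy).2]; simp
      · obtain ⟨h1, h2⟩ := hout y hy
        have hp : 0 < hi y - lo y := by linarith
        have h3 := not_le.1 (fun h' => h (Real.smoothTransition.zero_of_nonpos h'))
        have h4 : 3 / (hi y - lo y) * y + (-(3 / (hi y - lo y) * lo y) - 1) =
            (3 * (y - lo y) - (hi y - lo y)) / (hi y - lo y) := by field_simp; ring
        rw [h4, lt_div_iff₀ hp] at h3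
        linarith
    · intro h
      by_cases hy : y ∈ S
      · rw [(hin y hy).1, (hin y hy).2]; simp
      · obtain ⟨h1, h2⟩ := hout y hy
        have hp : 0 < hi y - lo y := by linarith
        have h3 := not_le.1 (fun h' => h (Real.smoothTransition.one_of_one_le h'))
        have h4 : 3 / (hi y - lo y) * y + (-(3 / (hi y - lo y) * lo y) - 1) =
            (3 * (y - lo y) - (hi y - lo y)) / (hi y - lo y) := by field_simp; ring
        rw [h4, div_lt_iff₀ hp] at h3
        linarith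
  have hloc : ∀ y ∉ S, G =ᶠ[𝓝 y] fun z => g (lo y) +
      Real.smoothTransition (3 / (hi y - lo y) * z + (-(3 / (hi y - lo y) * lo y) - 1)) •
        (g (hi y) - g (lo y)) := by
    intro y hy
    obtain ⟨h1, h2⟩ := hout y hy
    filter_upwards [Ioo_mem_nhds h1 h2] with z hz
    have key : ∀ s ∈ S, s ≤ lo y ∨ hi y ≤ s := fun s hs => by
      rcases le_total s y with h | h
      · exact Or.inl (((H y).2.2.2.2 s hs).1 h)
      · exact Or.inr (((H y).2.2.2.2 s hs).2 h)
    have e1 : lo z = lo y := by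
      apply le_antisymm
      · rcases key _ (H z).1 with h | h
        · exact h
        · linarith [(H z).2.2.1, hz.2]
      · exact ((H z).2.2.2.2 _ (H y).1).1 hz.1.le
    have e2 : hi z = hi y := by
      apply le_antisymm
      · exact ((H z).2.2.2.2 _ (H y).2.1).2 hz.2.le
      · rcases key _ (H z).2.1 with h | h
        · linarith [(H z).2.2.2.1, hz.1]
        · exact h
    simp only [hG, e1, e2]
  refine ⟨G, ⟨3 ^ m * (K + 1) * M, ?_, ?_, ?_⟩, fun y => ⟨lo y, (H y).1, hi y, (H y).2.1,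
    (H y).2.2.1, (H y).2.2.2.1, (H y).2.2.2.2, hstr y⟩⟩
  · intro x hx y
    have hGx : G x = g x := by simp only [hG, (hin x hx).1, (hin x hx).2]; simp
    obtain ⟨θ, hθ, e, h0, h1⟩ := hstr y
    obtain ⟨hl, hh, hly, hyh, hs⟩ := H y
    have hb : ∀ s ∈ S, |s - x| ≤ 3 * |y - x| → ‖g s - g x‖ ≤ 3 ^ m * (K + 1) * M * |y - x| ^ m := by
      intro s hsS hs3
      calc ‖g s - g x‖ ≤ M * |s - x| ^ m := hg x hx s hsS
        _ ≤ M * (3 * |y - x|) ^ m := by gcongr
        _ = 3 ^ m * 1 * M * |y - x| ^ m := by rw [mul_pow]; ring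
        _ ≤ _ := by gcongr; linarith
    have hA : θ ≠ 1 → |lo y - x| ≤ 3 * |y - x| := by
      intro h
      have h1 := h1 h
      rcases le_total x y with hxy | hxy
      · have := (hs x hx).1 hxy
        rw [abs_of_nonneg (by linarith), abs_of_nonneg (by linarith)]; linarith
      · have := (hs x hx).2 hxy
        rw [abs_of_nonpos (by linarith), abs_of_nonpos (by linarith)]; linarith
    have hB : θ ≠ 0 → |hi y - x| ≤ 3 * |y - x| := by
      intro h
      have h0 := h0 h
      rcases le_total x y with hxy | hxy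
      · have := (hs x hx).1 hxy
        rw [abs_of_nonneg (by linarith), abs_of_nonneg (by linarith)]; linarith
      · have := (hs x hx).2 hxy
        rw [abs_of_nonpos (by linarith), abs_of_nonpos (by linarith)]; linarith
    have e' : G y - G x = (1 - θ) • (g (lo y) - g x) + θ • (g (hi y) - g x) := by
      rw [e, hGx]; module
    set B := 3 ^ m * (K + 1) * M * |y - x| ^ m
    have a1 : ‖(1 - θ) • (g (lo y) - g x)‖ ≤ (1 - θ) * B := by
      rw [norm_smul, Real.norm_eq_abs, abs_of_nonneg (by linarith [hθ.2])]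
      by_cases h : θ = 1
      · simp [h]
      · exact mul_le_mul_of_nonneg_left (hb _ hl (hA h)) (by linarith [hθ.2])
    have a2 : ‖θ • (g (hi y) - g x)‖ ≤ θ * B := by
      rw [norm_smul, Real.norm_eq_abs, abs_of_nonneg hθ.1]
      by_cases h : θ = 0
      · simp [h]
      · exact mul_le_mul_of_nonneg_left (hb _ hh (hB h)) hθ.1
    rw [e']
    calc _ ≤ _ := norm_add_le _ _
      _ ≤ (1 - θ) * B + θ * B := add_le_add a1 a2
      _ = B := by ring
  · intro y hy
    refine (ContDiffAt.congr_of_eventuallyEq ?_ (hloc y hy)).contDiffWithinAt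
    have := Real.smoothTransition.contDiff (n := ⊤)
    refine ContDiff.contDiffAt ?_
    exact contDiff_const.add ((this.comp (by fun_prop)).smul contDiff_const)
  · intro j hj1 hjm y hy x hx
    obtain ⟨h1, h2⟩ := hout y hy
    obtain ⟨hl, hh, hly, hyh, hs⟩ := H y
    have hp : 0 < hi y - lo y := by linarith
    rw [(hloc y hy).iteratedDeriv_eq, iteratedDeriv_const_add (by omega)]
    set a := 3 / (hi y - lo y) with ha
    set b := -(a * lo y) - 1 with hb
    have hsm : ContDiff ℝ j (fun z => Real.smoothTransition (z + b)) :=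
      (Real.smoothTransition.contDiff (n := j)).comp (by fun_prop)
    have hsm2 : ContDiff ℝ j (fun z => Real.smoothTransition (a * z + b)) :=
      (Real.smoothTransition.contDiff (n := j)).comp (by fun_prop)
    rw [iteratedDeriv_smul_const hsm2.contDiffAt]
    have e := congrFun (iteratedDeriv_comp_const_mul hsm a) y
    simp only [iteratedDeriv_comp_add_const] at e
    rw [e]
    have h4 : a * y + b = (3 * (y - lo y) - (hi y - lo y)) / (hi y - lo y) := by
      rw [hb, ha]; field_simp; ring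
    by_cases hu : a * y + b < 0 ∨ 1 < a * y + b
    · rw [st_iter_zero j hj1 _ hu]; simp; positivity
    · push Not at hu
      have hu0 := hu.1
      have hu1 := hu.2
      rw [h4, le_div_iff₀ hp] at hu0
      rw [h4, div_le_iff₀ hp] at hu1
      have hd : hi y - lo y ≤ 3 * |y - x| := by
        rcases le_total x y with hxy | hxy
        · have := (hs x hx).1 hxy
          rw [abs_of_nonneg (by linarith)]; linarith
        · have := (hs x hx).2 hxy
          rw [abs_of_nonpos (by linarith)]; linarith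
      have hk := hK j hjm _ hu
      have hgg := hg _ hl _ hh
      rw [abs_of_pos hp] at hgg
      have ha0 : 0 < a := by positivity
      obtain ⟨k, rfl⟩ : ∃ k, m = j + k := ⟨m - j, by omega⟩
      rw [norm_smul, Real.norm_eq_abs, abs_mul, abs_of_pos (by positivity), Nat.add_sub_cancel_left]
      calc a ^ j * |iteratedDeriv j Real.smoothTransition (a * y + b)| * ‖g (hi y) - g (lo y)‖
          ≤ a ^ j * (K + 1) * (M * (hi y - lo y) ^ (j + k)) := by gcongr; linarith
        _ = 3 ^ j * (K + 1) * M * (hi y - lo y) ^ k := by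
          rw [ha, div_pow, pow_add]; field_simp
        _ ≤ 3 ^ j * (K + 1) * M * (3 * |y - x|) ^ k := by gcongr
        _ = _ := by rw [mul_pow, pow_add]; ring

/-- The output of the extension lemma for an indexed family. -/
structure ExtProp {ι : Type*} (pos : ι → ℝ) (jet : ι → E) (r : ℕ) (lo hi : ι) (G : ℝ → E) :
    Prop where
  smooth : ContDiff ℝ r G
  flat : 1 ≤ r → ∀ y ∈ closure (range pos), HasDerivAt G 0 y
  eq : ∀ i, G (pos i) = jet i
  right : ∀ y, pos hi ≤ y → G y = jet hi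
  left : ∀ y, y ≤ pos lo → G y = jet lo
  locB : ∀ (y : ℝ) (s1 s2 : ι) (K : Set E) (F : ι → Prop), IsClosed K → Convex ℝ K →
    pos s1 ≤ y → y ≤ pos s2 → (∀ i, F i → pos s1 ≤ pos i → pos i ≤ pos s2 → jet i ∈ K) →
    (∀ i, pos s1 ≤ pos i → pos i ≤ pos s2 → ∃ i', F i' ∧ pos i' ∈ uIcc (pos i) y) → G y ∈ K
  locL : ∀ (y : ℝ) (s0 : ι) (K : Set E), IsClosed K → Convex ℝ K →
    (∀ i, |pos i - y| ≤ 3 * |y - pos s0| → jet i ∈ K) → G y ∈ K

theorem ext_family [CompleteSpace E] {ι : Type*} (pos : ι → ℝ) (jet : ι → E) (r : ℕ) (M : ℝ)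
    (hM : 0 ≤ M) (hH : ∀ a b, ‖jet a - jet b‖ ≤ M * |pos a - pos b| ^ (r + 1)) (lo hi : ι)
    (hlo : ∀ i, pos lo ≤ pos i) (hhi : ∀ i, pos i ≤ pos hi) :
    ∃ G : ℝ → E, ExtProp pos jet r lo hi G := by
  classical
  set A := range pos with hA
  set g0 : ℝ → E := fun x => if h : x ∈ A then jet h.choose else 0 with hg0
  have g0p : ∀ i, g0 (pos i) = jet i := by
    intro i
    have h : pos i ∈ A := ⟨i, rfl⟩
    simp only [hg0, dif_pos h]
    have := hH h.choose i
    rw [h.choose_spec, sub_self, abs_zero, zero_pow (by omega), mul_zero] at this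
    exact sub_eq_zero.1 (norm_le_zero_iff.1 this)
  have hcau : ∀ x ∈ closure A, ∃ y, Tendsto g0 (𝓝[A] x) (𝓝 y) := by
    intro x hx
    have : (𝓝[A] x).NeBot := mem_closure_iff_nhdsWithin_neBot.1 hx
    apply cauchy_map_iff_exists_tendsto.1
    rw [Metric.cauchy_iff]
    refine ⟨inferInstance, fun ε hε => ?_⟩
    have ht : Tendsto (fun y : ℝ => M * (2 * y) ^ (r + 1)) (𝓝[>] 0) (𝓝 0) := by
      have : Continuous (fun y : ℝ => M * (2 * y) ^ (r + 1)) := by fun_prop
      simpa using (this.tendsto 0).mono_left nhdsWithin_le_nhds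
    obtain ⟨d, hd, hd0⟩ := ((ht.eventually (gt_mem_nhds hε)).and self_mem_nhdsWithin).exists
    have hd0 : 0 < d := hd0
    refine ⟨g0 '' (Metric.ball x d ∩ A), image_mem_map
      (inter_mem (mem_nhdsWithin_of_mem_nhds (Metric.ball_mem_nhds x hd0)) self_mem_nhdsWithin), ?_⟩
    rintro _ ⟨_, ⟨h1, i, rfl⟩, rfl⟩ _ ⟨_, ⟨h2, j, rfl⟩, rfl⟩
    rw [g0p, g0p, dist_eq_norm]
    rw [Metric.mem_ball, Real.dist_eq] at h1 h2
    have : |pos i - pos j| ≤ 2 * d := by
      rw [abs_lt] at h1 h2; rw [abs_le]; constructor <;> linarith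
    calc _ ≤ _ := hH i j
      _ ≤ M * (2 * d) ^ (r + 1) := by gcongr
      _ < ε := hd
  set g1 := extendFrom A g0 with hg1
  have t1 : ∀ x ∈ closure A, Tendsto g0 (𝓝[A] x) (𝓝 (g1 x)) := fun x hx =>
    tendsto_extendFrom (hcau x hx)
  have h1 : ∀ x ∈ closure A, ∀ i, ‖g1 x - jet i‖ ≤ M * |x - pos i| ^ (r + 1) := by
    intro x hx i
    have : (𝓝[A] x).NeBot := mem_closure_iff_nhdsWithin_neBot.1 hx
    have c : Continuous (fun y : ℝ => M * |y - pos i| ^ (r + 1)) := by fun_prop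
    refine le_of_tendsto_of_tendsto ((t1 x hx).sub_const (jet i)).norm
      ((c.tendsto x).mono_left nhdsWithin_le_nhds) ?_
    filter_upwards [self_mem_nhdsWithin]
    rintro _ ⟨j, rfl⟩
    rw [g0p]; exact hH j i
  have h2 : ∀ x ∈ closure A, ∀ y ∈ closure A, ‖g1 y - g1 x‖ ≤ M * |y - x| ^ (r + 1) := by
    intro x hx y hy
    have : (𝓝[A] x).NeBot := mem_closure_iff_nhdsWithin_neBot.1 hx
    have c : Continuous (fun z : ℝ => M * |y - z| ^ (r + 1)) := by fun_prop
    refine le_of_tendsto_of_tendsto ((t1 x hx).const_sub (g1 y)).norm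
      ((c.tendsto x).mono_left nhdsWithin_le_nhds) ?_
    filter_upwards [self_mem_nhdsWithin]
    rintro _ ⟨j, rfl⟩
    rw [g0p]; exact h1 y hy j
  have g1p : ∀ i, g1 (pos i) = jet i := by
    intro i
    have := h1 (pos i) (subset_closure ⟨i, rfl⟩) i
    rw [sub_self, abs_zero, zero_pow (by omega), mul_zero] at this
    exact sub_eq_zero.1 (norm_le_zero_iff.1 this)
  have hAI : closure A ⊆ Icc (pos lo) (pos hi) :=
    closure_minimal (by rintro _ ⟨i, rfl⟩; exact ⟨hlo i, hhi i⟩) isClosed_Icc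
  have hlh : pos lo ≤ pos hi := hlo hi
  set cl : ℝ → ℝ := fun x => max (pos lo) (min x (pos hi)) with hcl
  set S := closure A ∪ (Iic (pos lo) ∪ Ici (pos hi)) with hS
  have cl1 : ∀ x ∈ Icc (pos lo) (pos hi), cl x = x := fun x hx => by
    simp only [hcl, min_eq_left hx.2, max_eq_right hx.1]
  have cl2 : ∀ x, x ≤ pos lo → cl x = pos lo := fun x hx => by
    simp only [hcl]; exact max_eq_left ((min_le_left _ _).trans hx)
  have cl3 : ∀ x, pos hi ≤ x → cl x = pos hi := fun x hx => by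
    simp only [hcl, min_eq_right hx, max_eq_right hlh]
  have clS : ∀ x ∈ S, cl x ∈ closure A := by
    rintro x (hx | hx | hx)
    · rw [cl1 x (hAI hx)]; exact hx
    · rw [cl2 x hx]; exact subset_closure ⟨lo, rfl⟩
    · rw [cl3 x hx]; exact subset_closure ⟨hi, rfl⟩
  have clL : ∀ x y, |cl y - cl x| ≤ |y - x| := by
    intro x y
    simp only [hcl]
    refine (abs_max_sub_max_le_max _ _ _ _).trans ?_
    rw [sub_self, abs_zero, max_eq_right (abs_nonneg _)]
    refine (abs_min_sub_min_le_max _ _ _ _).trans ?_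
    rw [sub_self, abs_zero, max_eq_left (abs_nonneg _)]
  have hSc : IsClosed S := isClosed_closure.union (isClosed_Iic.union isClosed_Ici)
  obtain ⟨G, hF, hG⟩ := ext_closed hSc
    (fun x => ⟨min x (pos lo), Or.inr (Or.inl (mem_Iic.2 (min_le_right _ _))), min_le_left _ _⟩)
    (fun x => ⟨max x (pos hi), Or.inr (Or.inr (mem_Ici.2 (le_max_right _ _))), le_max_left _ _⟩)
    (r + 1) (fun x => g1 (cl x)) M hM (fun x hx y hy => (h2 _ (clS x hx) _ (clS y hy)).trans
      (mul_le_mul_of_nonneg_left (pow_le_pow_left₀ (abs_nonneg _) (clL x y) _) hM))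
  have GS : ∀ y ∈ S, G y = g1 (cl y) := by
    intro y hy
    obtain ⟨α, -, β, -, a1, a2, a3, θ, -, e, -⟩ := hG y
    have e1 : α = y := le_antisymm a1 ((a3 y hy).1 le_rfl)
    have e2 : β = y := le_antisymm ((a3 y hy).2 le_rfl) a2
    rw [e, e1, e2]; module
  have pS : ∀ i, pos i ∈ S := fun i => Or.inl (subset_closure ⟨i, rfl⟩)
  have approx : ∀ (K : Set E), IsClosed K → ∀ x ∈ closure A,
      (∀ η > 0, ∃ i, jet i ∈ K ∧ |pos i - x| < η) → g1 x ∈ K := by
    intro K hK x hx h
    rw [← hK.closure_eq, Metric.mem_closure_iff]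
    intro ε hε
    have ht : Tendsto (fun y : ℝ => M * y ^ (r + 1)) (𝓝[>] 0) (𝓝 0) := by
      have : Continuous (fun y : ℝ => M * y ^ (r + 1)) := by fun_prop
      simpa using (this.tendsto 0).mono_left nhdsWithin_le_nhds
    obtain ⟨d, hd, hd0⟩ := ((ht.eventually (gt_mem_nhds hε)).and self_mem_nhdsWithin).exists
    obtain ⟨i, hi, hi2⟩ := h d hd0
    refine ⟨jet i, hi, ?_⟩
    rw [dist_eq_norm]
    rw [abs_sub_comm] at hi2
    calc _ ≤ _ := h1 x hx i
      _ ≤ M * d ^ (r + 1) := by gcongr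
      _ < ε := hd
  have inA : ∀ x ∈ S, pos lo ≤ x → x ≤ pos hi → x ∈ closure A := by
    rintro x (hx | hx | hx) a b
    · exact hx
    · rw [le_antisymm hx a]; exact subset_closure ⟨lo, rfl⟩
    · rw [le_antisymm b hx]; exact subset_closure ⟨hi, rfl⟩
  have near : ∀ x ∈ closure A, ∀ η > 0, ∃ i, |pos i - x| < η := by
    intro x hx η hη
    obtain ⟨_, ⟨i, rfl⟩, h⟩ := Metric.mem_closure_iff.1 hx η hη
    exact ⟨i, by rwa [Real.dist_eq, abs_sub_comm] at h⟩
  have hr : ∀ y, pos hi ≤ y → G y = jet hi := fun y hy => by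
    rw [GS y (Or.inr (Or.inr hy)), cl3 y hy, g1p]
  have hl : ∀ y, y ≤ pos lo → G y = jet lo := fun y hy => by
    rw [GS y (Or.inr (Or.inl hy)), cl2 y hy, g1p]
  refine ⟨G, Flat.contDiff hSc r G hF, fun hr1 y hy => ?_, fun i => ?_, hr, hl, ?_, ?_⟩
  · obtain ⟨k, rfl⟩ : ∃ k, r = k + 1 := ⟨r - 1, by omega⟩
    exact hF.hasDerivAt (Or.inl hy)
  · rw [GS _ (pS i), cl1 _ ⟨hlo i, hhi i⟩, g1p]
  · intro y s1 s2 K F hK hc b1 b2 hF1 hF2
    obtain ⟨α, hα, β, hβ, a1, a2, a3, θ, hθ, e, -⟩ := hG y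
    have c1 := (a3 _ (pS s1)).1 b1
    have c2 := (a3 _ (pS s2)).2 b2
    have key : ∀ x ∈ S, pos s1 ≤ x → x ≤ pos s2 →
        (∀ i, pos i ∈ uIcc x y → pos i = x ∨ False ∨ |pos i - x| ≤ 0 ∨ (x ≤ y ∧ pos i ≤ x) ∨
          (y ≤ x ∧ x ≤ pos i)) → g1 (cl x) ∈ K := by
      intro x hx d1 d2 hgap
      have hxA := inA x hx ((hlo s1).trans d1) (d2.trans (hhi s2))
      rw [cl1 x (hAI hxA)]
      refine approx K hK x hxA fun η hη => ?_
      have : ∃ i, pos s1 ≤ pos i ∧ pos i ≤ pos s2 ∧ |pos i - x| < η := by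
        rcases eq_or_lt_of_le d1 with d1 | d1
        · exact ⟨s1, le_rfl, b1.trans b2, by rw [d1]; simpa using hη⟩
        rcases eq_or_lt_of_le d2 with d2 | d2
        · exact ⟨s2, b1.trans b2, le_rfl, by rw [d2]; simpa using hη⟩
        obtain ⟨i, hi⟩ := near x hxA (min η (min (x - pos s1) (pos s2 - x)))
          (lt_min hη (lt_min (by linarith) (by linarith)))
        rw [lt_min_iff, lt_min_iff, abs_lt, abs_lt, abs_lt] at hi
        exact ⟨i, by linarith [hi.2.1.1], by linarith [hi.2.2.2], abs_lt.2 hi.1⟩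
      obtain ⟨i, i1, i2, i3⟩ := this
      obtain ⟨i', f1, f2⟩ := hF2 i i1 i2
      have f3 : pos s1 ≤ pos i' ∧ pos i' ≤ pos s2 := by
        rcases mem_uIcc.1 f2 with h | h <;> constructor <;> linarith [h.1, h.2]
      refine ⟨i', hF1 i' f1 f3.1 f3.2, ?_⟩
      rw [abs_lt] at i3 ⊢
      by_cases hm : pos i' ∈ uIcc x y
      · rcases hgap i' hm with h | h | h | h | h
        · rw [h]; constructor <;> linarith
        · exact h.elim
        · rw [abs_nonpos_iff] at h; constructor <;> linarith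
        · rcases mem_uIcc.1 hm with h' | h' <;> constructor <;> linarith [h.1, h.2, h'.1, h'.2]
        · rcases mem_uIcc.1 hm with h' | h' <;> constructor <;> linarith [h.1, h.2, h'.1, h'.2]
      · rw [mem_uIcc] at hm f2
        push Not at hm
        rcases f2 with h | h
        · rcases le_total x (pos i') with h' | h'
          · have := hm.1 h'; constructor <;> linarith [h.1, h.2]
          · constructor <;> linarith [h.1, h.2]
        · rcases le_total (pos i') x with h' | h'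
          · have := hm.2 h.1; constructor <;> linarith [h.1, h.2]
          · constructor <;> linarith [h.1, h.2]
    have k1 := key α hα c1 (a1.trans b2) (fun i hi => by
      rw [uIcc_of_le a1] at hi
      exact Or.inr (Or.inr (Or.inr (Or.inl ⟨a1, (a3 _ (pS i)).1 hi.2⟩))))
    have k2 := key β hβ (b1.trans a2) c2 (fun i hi => by
      rw [uIcc_of_ge a2] at hi
      exact Or.inr (Or.inr (Or.inr (Or.inr ⟨a2, (a3 _ (pS i)).2 hi.1⟩))))
    rw [e]
    exact hc k1 k2 (by linarith [hθ.2]) hθ.1 (by ring)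
  · intro y s0 K hK hc h
    by_cases hy0 : y = pos s0
    · have := h s0 (by rw [hy0]; simp)
      rw [hy0, GS _ (pS s0), cl1 _ ⟨hlo s0, hhi s0⟩, g1p]; exact this
    have hd : 0 < |y - pos s0| := abs_pos.2 (sub_ne_zero.2 hy0)
    rcases le_total (pos hi) y with hy | hy
    · rw [hr y hy]
      apply h
      have := hhi s0
      rw [abs_of_nonpos (by linarith), abs_of_nonneg (by linarith)]; linarith
    rcases le_total y (pos lo) with hy' | hy'
    · rw [hl y hy']
      apply h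
      have := hlo s0
      rw [abs_of_nonneg (by linarith), abs_of_nonpos (by linarith)]; linarith
    obtain ⟨α, hα, β, hβ, a1, a2, a3, θ, hθ, e, t0, t1⟩ := hG y
    have c1 := (a3 _ (pS lo)).1 hy'
    have c2 := (a3 _ (pS hi)).2 hy
    have key : ∀ x ∈ S, pos lo ≤ x → x ≤ pos hi → |x - y| ≤ 2 * |y - pos s0| → g1 (cl x) ∈ K := by
      intro x hx d1 d2 hxy
      have hxA := inA x hx d1 d2
      rw [cl1 x (hAI hxA)]
      refine approx K hK x hxA fun η hη => ?_
      obtain ⟨i, hi⟩ := near x hxA (min η |y - pos s0|) (lt_min hη hd)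
      rw [lt_min_iff] at hi
      refine ⟨i, h i ?_, hi.1⟩
      have := abs_sub_le (pos i) x y
      linarith [hi.2]
    have q := a3 _ (pS s0)
    have kα : θ ≠ 1 → g1 (cl α) ∈ K := fun ht => key α hα c1 (a1.trans hy) (by
      have := t1 ht
      rw [abs_of_nonpos (by linarith)]
      rcases le_total (pos s0) y with h' | h'
      · have := q.1 h'; rw [abs_of_nonneg (by linarith)]; linarith
      · have := q.2 h'; rw [abs_of_nonpos (by linarith)]; linarith)
    have kβ : θ ≠ 0 → g1 (cl β) ∈ K := fun ht => key β hβ (hy'.trans a2) c2 (by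
      have := t0 ht
      rw [abs_of_nonneg (by linarith)]
      rcases le_total (pos s0) y with h' | h'
      · have := q.1 h'; rw [abs_of_nonneg (by linarith)]; linarith
      · have := q.2 h'; rw [abs_of_nonpos (by linarith)]; linarith)
    rw [e]
    by_cases h0 : θ = 0
    · have := kα (by rw [h0]; norm_num)
      simpa [h0] using this
    by_cases h1' : θ = 1
    · have := kβ h0
      simpa [h1'] using this
    exact hc (kα h1') (kβ h0) (by linarith [hθ.2]) hθ.1 (by ring)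

end gap

end Pool.Agent.P.MP_97fbd9_an
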