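import Pool.Agent.P.MP_97fbd9_an.Uniq

/-! Reading the itinerary of an orbit. -/

open Finset

namespace Pool.Agent.P.MP_97fbd9_an

/-- The types of points of an orbit. -/
inductive Ty
  | z
  | c
  | v (b : Bool)

variable {P : Par}

lemma run_x (u f : ℕ → ℝ) (n : ℕ) (h : ∀ s < n, u (s + 1) = -(u s - f s) / w P.p) :
    u 0 = kap P f n + (-1) ^ n * w (P.p * n) * u n := by
  induction n with
  | zero => simp [kap, w_zero]
  | succ n ih =>
    rw [ih fun s hs => h s (by omega), h n (by omega), mul_add P.p, mul_one, w_add]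
    unfold kap
    rw [sum_range_succ]
    have := (w_pos P.p).ne'
    field_simp; ring

lemma run_z (u : ℕ → ℝ) (j : ℕ) (h : ∀ s < j, u (s + 1) = u s / w P.p) :
    u 0 = w (P.p * j) * u j := by
  induction j with
  | zero => simp [w_zero]
  | succ n ih =>
    rw [ih fun s hs => h s (by omega), h n (by omega), mul_add P.p, mul_one, w_add]
    have := (w_pos P.p).ne'
    field_simp

lemma run_y (u f : ℕ → ℝ) (n : ℕ) (h : ∀ s < n, u (s + 1) = -w P.q * u s + f s) :
    u n = (-1) ^ n * w (P.q * n) * u 0 + ∑ i ∈ range n, (-1) ^ i * f (n - 1 - i) * w (P.q * i) := by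
  induction n with
  | zero => simp [w_zero]
  | succ n ih =>
    rw [h n (by omega), ih fun s hs => h s (by omega), sum_range_succ', mul_add, mul_sum,
      mul_add P.q, mul_one, w_add]
    have : ∑ i ∈ range n, -w P.q * ((-1) ^ i * f (n - 1 - i) * w (P.q * i)) =
        ∑ i ∈ range n, (-1) ^ (i + 1) * f (n + 1 - 1 - (i + 1)) * w (P.q * (i + 1)) :=
      sum_congr rfl fun i _ => by
        rw [show n + 1 - 1 - (i + 1) = n - 1 - i by omega, mul_add P.q, mul_one, w_add]; ring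
    rw [this]
    simp [w_zero]; ring

lemma run_yz (u : ℕ → ℝ) (j : ℕ) (h : ∀ s < j, u (s + 1) = w P.q * u s) :
    u j = w (P.q * j) * u 0 := by
  induction j with
  | zero => simp [w_zero]
  | succ n ih =>
    rw [h n (by omega), ih fun s hs => h s (by omega), mul_add P.q, mul_one, w_add]; ring

lemma prt_eq (n j : ℕ) (f : ℕ → ℝ) : prt P n j f (n + j) =
    w (1 + P.q * j) * ∑ i ∈ range n, (-1) ^ i * f (n - 1 - i) * w (P.q * i) := by
  unfold prt
  rw [add_comm n j, sum_range_add, sum_eq_zero, zero_add, mul_sum]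
  · refine sum_congr rfl fun i hi => ?_
    have hi := mem_range.1 hi
    have e1 : snn j (j + i) = (-1) ^ i := by
      unfold snn; split_ifs with g
      · obtain rfl : i = 0 := by omega
        simp
      · rw [Nat.add_sub_cancel_left]
    have e2 : dgt n j f (j + i) = f (n - 1 - i) := by
      unfold dgt; rw [if_neg (by omega), if_pos (by omega)]; congr 1; omega
    rw [e1, e2, mul_add P.q, ← add_assoc, w_add _ (P.q * i)]; ring
  · intro i hi
    unfold dgt; rw [if_pos (mem_range.1 hi)]; ring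

lemma blk_run (u v f : ℕ → ℝ) (t n j : ℕ)
    (h1 : ∀ s < n, u (t + s + 1) = -(u (t + s) - f s) / w P.p ∧
      v (t + s + 1) = -w P.q * v (t + s) + f s)
    (h2 : ∀ s < j, u (t + n + s + 1) = u (t + n + s) / w P.p ∧
      v (t + n + s + 1) = w P.q * v (t + n + s)) :
    u t = kap P f n + (-1) ^ n * w (P.p * (n + j)) * u (t + n + j) ∧
      v (t + n + j) / 1000 = prt P n j f (n + j) + Bc P n j * (1000 * v t) := by
  have a1 := run_x (P := P) (fun s => u (t + s)) f n fun s hs => (h1 s hs).1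
  have a2 := run_z (P := P) (fun s => u (t + n + s)) j fun s hs => (h2 s hs).1
  have a3 := run_y (P := P) (fun s => v (t + s)) f n fun s hs => (h1 s hs).2
  have a4 := run_yz (P := P) (fun s => v (t + n + s)) j fun s hs => (h2 s hs).2
  simp only [add_zero] at a1 a2 a3 a4
  refine ⟨by rw [a1, a2, mul_add P.p, w_add]; ring, ?_⟩
  rw [a4, a3, prt_eq]
  unfold Bc
  rw [mul_add P.q, w_add 2, w_add 1, w_add, w_one, w_two]; ring

theorem parse_tangent {G : ℝ → ℝ × ℝ} (hG : IsG P G) (x y V W : ℕ → ℝ) (ty : ℕ → Ty)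
    (h0 : y 0 = 0) (h0' : W 0 = 0) (t0 : ty 0 = Ty.z)
    (hz : ∀ s, ty s = Ty.z → x (s + 1) = x s / w P.p ∧ y (s + 1) = w P.q * y s ∧
      V (s + 1) = V s / w P.p ∧ W (s + 1) = w P.q * W s ∧ ∀ b, ty (s + 1) ≠ Ty.v b)
    (hc : ∀ s, ty s = Ty.c → |x s| ≤ 2 * w 2 ∧ x (s + 1) = phi G (x s) - y s / 1000 ∧
      y (s + 1) = x s / 1000 ∧ V (s + 1) = deriv (phi G) (x s) * V s - W s / 1000 ∧
      W (s + 1) = V s / 1000 ∧ ∃ b, ty (s + 1) = Ty.v b)
    (hv : ∀ s b, ty s = Ty.v b → x (s + 1) = -(x s - sgb b) / w P.p ∧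
      y (s + 1) = -w P.q * y s + sgb b ∧ V (s + 1) = -V s / w P.p ∧ W (s + 1) = -w P.q * W s)
    (hb : ∀ s, |x s| ≤ 2) (hN : ∃ N, ∀ s ≥ N, ∃ b, ty s = Ty.v b) :
    ∃ N, ∀ s ≥ N, V s = 0 := by
  classical
  obtain ⟨N, hN⟩ := hN
  let p : ℕ → Prop := fun s => ty s = Ty.c
  have hf : (Set.ofPred p).Finite := (Set.finite_lt_nat N).subset fun s hs => by
    by_contra g
    obtain ⟨b, hb⟩ := hN s (not_lt.1 g)
    have : ty s = Ty.c := hs
    rw [this] at hb; cases hb
  have zrun : ∀ s t, ty s = Ty.z → (∀ a ≤ t, ¬ p (s + a)) → ty (s + t) = Ty.z := by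
    intro s t h1 h2
    induction t with
    | zero => exact h1
    | succ t ih =>
      have a := (hz _ (ih fun a ha => h2 a (by omega))).2.2.2.2
      have b := h2 (t + 1) le_rfl
      rcases h : ty (s + (t + 1)) with _ | _ | b'
      · rfl
      · exact absurd h b
      · exact absurd h (a b')
  have znot : ∀ s, ty s = Ty.z → ∃ a, p (s + a) := fun s h => by
    by_contra g
    push Not at g
    obtain ⟨b, hb⟩ := hN (s + N) (by omega)
    rw [zrun s N h fun a _ => g a] at hb; cases hb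
  set K := hf.toFinset.card with hKd
  let T : ℕ → ℕ := fun k => Nat.nth p (k - 1)
  have hK : 1 ≤ K := by
    obtain ⟨a, ha⟩ := znot 0 t0
    obtain ⟨n, hn, -⟩ := Nat.exists_lt_card_finite_nth_eq hf ha
    omega
  have Tc : ∀ k, 1 ≤ k → k ≤ K → ty (T k) = Ty.c := fun k a b =>
    Nat.nth_mem_of_lt_card hf (by omega)
  have Tlt : ∀ k, 1 ≤ k → k < K → T k < T (k + 1) := fun k a b =>
    Nat.nth_lt_nth_of_lt_card hf (by omega) (by omega)
  have Tgap : ∀ k s, 1 ≤ k → T k < s → s < T (k + 1) → ¬ p s := fun k s a b c g => by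
    have : s < Nat.nth p (k - 1 + 1) := by rwa [show k - 1 + 1 = k + 1 - 1 by omega]
    exact absurd (Nat.le_nth_of_lt_nth_succ this g) (not_le.2 b)
  have Ttop : ∀ s, T K < s → ¬ p s := fun s a g => by
    obtain ⟨n, hn, e⟩ := Nat.exists_lt_card_finite_nth_eq hf g
    have := Nat.nth_le_nth_of_lt_card hf (m := n) (n := K - 1) (by omega) (by omega)
    rw [e] at this
    exact absurd this (not_le.2 a)
  have Tbot : ∀ s, s < T 1 → ty s = Ty.z := fun s a => by
    have := zrun 0 s t0 fun b hb g => by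
      have : Nat.nth p 0 ≤ 0 + b := by rw [Nat.nth_zero]; exact Nat.sInf_le g
      change s < Nat.nth p 0 at a
      omega
    rwa [zero_add] at this
  let wd : ℕ → ℕ → Bool := fun k a => match ty (T k + 1 + a) with
    | Ty.v b => b
    | _ => true
  have hwd : ∀ k a, (∃ b, ty (T k + 1 + a) = Ty.v b) → ty (T k + 1 + a) = Ty.v (wd k a) := by
    rintro k a ⟨b, h⟩; simp only [wd, h]
  let nn : ℕ → ℕ := fun k => sInf {a | ¬ ∃ b, ty (T k + 1 + a) = Ty.v b}
  let o : Orb := ⟨K, fun k => ⟨nn k - 1, T (k + 1) - (T k + 1 + nn k), wd k⟩, wd K⟩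
  have hblk : ∀ k, 1 ≤ k → k < K → T k + 1 + o.n k + o.j k = T (k + 1) ∧
      (∀ s < o.n k, ty (T k + 1 + s) = Ty.v (wd k s) ∧ (o.blk k).f s = sgb (wd k s)) ∧
      ∀ s < o.j k, ty (T k + 1 + o.n k + s) = Ty.z := fun k a b => by
    have c1 := Tlt k a b
    have c2 : T (k + 1) - (T k + 1) ∈ {a | ¬ ∃ b, ty (T k + 1 + a) = Ty.v b} := by
      rintro ⟨b', h⟩
      rw [Nat.add_sub_cancel' c1, Tc (k + 1) (by omega) b] at h; cases h
    have c3 : nn k ≤ T (k + 1) - (T k + 1) := Nat.sInf_le c2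
    have c4 : ¬ ∃ b, ty (T k + 1 + nn k) = Ty.v b := Nat.sInf_mem ⟨_, c2⟩
    have c5 : 1 ≤ nn k := by
      by_contra g
      rw [show nn k = 0 by omega] at c4
      exact c4 (hc _ (Tc k a b.le)).2.2.2.2.2
    have e1 : o.n k = nn k := by change nn k - 1 + 1 = _; omega
    have e2 : o.j k = T (k + 1) - (T k + 1 + nn k) := rfl
    rw [e1, e2]
    refine ⟨by omega, fun s hs => ⟨hwd k s (not_not.1 (Nat.notMem_of_lt_sInf hs)), ?_⟩,
      fun s hs => zrun _ s ?_ fun a' ha' => Tgap k _ a (by omega) (by omega)⟩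
    · unfold Block.f; rw [if_pos (by change s < o.n k; omega)]
    · have := Tgap k (T k + 1 + nn k) a (by omega) (by omega)
      rcases h : ty (T k + 1 + nn k) with _ | _ | b'
      · rfl
      · exact absurd h this
      · exact absurd ⟨b', h⟩ c4
  have hlast : ∀ s, ty (T K + 1 + s) = Ty.v (wd K s) := fun s => hwd K s (by
    rcases h : ty (T K + 1 + s) with _ | _ | b'
    · obtain ⟨a, ha⟩ := znot _ h
      exact absurd ha (Ttop _ (by omega))
    · exact absurd h (Ttop _ (by omega))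
    · exact ⟨b', rfl⟩)
  have hrun : ∀ k, 1 ≤ k → k < K →
      (x (T k + 1) = kap P (o.blk k).f (o.n k) +
        (-1) ^ o.n k * w (P.p * (o.n k + o.j k)) * x (T (k + 1)) ∧
      y (T (k + 1)) / 1000 = prt P (o.n k) (o.j k) (o.blk k).f (o.n k + o.j k) +
        Bc P (o.n k) (o.j k) * x (T k)) ∧
      V (T k + 1) = (-1) ^ o.n k * w (P.p * (o.n k + o.j k)) * V (T (k + 1)) ∧
      W (T (k + 1)) / 1000 = Bc P (o.n k) (o.j k) * V (T k) := fun k a b => by
    obtain ⟨c1, c2, c3⟩ := hblk k a b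
    obtain ⟨-, -, d1, -, d2, -⟩ := hc _ (Tc k a b.le)
    have r1 := blk_run (P := P) x y (o.blk k).f (T k + 1) (o.n k) (o.j k)
      (fun s hs => by rw [(c2 s hs).2]; exact ⟨(hv _ _ (c2 s hs).1).1, (hv _ _ (c2 s hs).1).2.1⟩)
      (fun s hs => ⟨(hz _ (c3 s hs)).1, (hz _ (c3 s hs)).2.1⟩)
    have r2 := blk_run (P := P) V W (fun _ => 0) (T k + 1) (o.n k) (o.j k)
      (fun s hs => by rw [sub_zero, add_zero]; exact (hv _ _ (c2 s hs).1).2.2)
      (fun s hs => ⟨(hz _ (c3 s hs)).2.2.1, (hz _ (c3 s hs)).2.2.2.1⟩)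
    rw [c1, d1] at r1
    rw [c1, d2, prt_eq] at r2
    simp only [kap, mul_zero, zero_mul, sum_const_zero, zero_add] at r2
    refine ⟨⟨r1.1, by rw [r1.2]; ring⟩, r2.1, by rw [r2.2]; ring⟩
  have hy0 : y (T 1) = 0 ∧ W (T 1) = 0 :=
    ⟨by rw [run_yz (P := P) y (T 1) fun s hs => (hz s (Tbot s hs)).2.1, h0, mul_zero],
      by rw [run_yz (P := P) W (T 1) fun s hs => (hz s (Tbot s hs)).2.2.2.1, h0', mul_zero]⟩
  have act : Act P G o (fun k => x (T k)) (fun k => y (T k) / 1000) := by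
    refine ⟨hK, by simp [hy0.1], fun k a b => (hrun k a b).1.2, fun k a b => (hc _ (Tc k a b)).1,
      fun k a b => ?_, fun a => ?_⟩
    · rw [← (hrun k a b).1.1, (hc _ (Tc k a b.le)).2.1]
    · have r := run_x (P := P) (fun s => x (T K + 1 + s)) (o.fut o.K) a fun s _ => by
        rw [Orb.fut_top]; exact (hv _ _ (hlast s)).1
      simp only [add_zero] at r
      change |phi G (x (T K)) - y (T K) / 1000 - _| ≤ _
      rw [← (hc _ (Tc K hK le_rfl)).2.1, r, add_sub_cancel_left, abs_mul, abs_mul, abs_sg, one_mul,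
        w_abs, mul_comm]
      exact mul_le_mul_of_nonneg_right (hb _) (w_pos _).le
  have tg := Orb.tangent hG act (V := fun k => V (T k)) (X := fun k => W (T k) / 1000)
    (by simp [hy0.2]) (fun k a b => (hrun k a b).2.2)
    (fun k a b => by rw [← (hrun k a b).2.1, (hc _ (Tc k a b.le)).2.2.2.1])
  change deriv (phi G) (x (T K)) * V (T K) - W (T K) / 1000 = 0 at tg
  rw [← (hc _ (Tc K hK le_rfl)).2.2.2.1] at tg
  refine ⟨T K + 1, fun s hs => ?_⟩
  obtain ⟨a, rfl⟩ : ∃ a, s = T K + 1 + a := ⟨s - (T K + 1), by omega⟩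
  clear hs
  induction a with
  | zero => exact tg
  | succ a ih => rw [← add_assoc, (hv _ _ (hlast a)).2.2.1, ih]; simp

end Pool.Agent.P.MP_97fbd9_an
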