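import Pool.Agent.P.MP_97fbd9_an.Dyn
import Pool.Agent.P.MP_97fbd9_an.Parse

/-! No transverse connection from the first saddle to the second one. -/

open Set Filter Topology

namespace Pool.Agent.P.MP_97fbd9_an

variable {P : Par} {J : ℝ → ℝ × ℝ} {F G : ℝ × ℝ → ℝ × ℝ} {f : Torus ≃ₜ Torus}

lemma IsG.gap (hJ : IsG P J) {x : ℝ} (h1 : w P.p / 10 ≤ |x|) (h2 : |x| ≤ 2 * w 2) :
    1 / 10 ≤ |phi J x| ∧ (|x| ≤ w P.p / 5 → |phi J x| ≤ 1 / 4) := by
  obtain ⟨a, -, b, c, d⟩ := Nd.zero_data (P := P) (N := root) rfl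
  refine ⟨?_, fun g => ?_⟩
  · rcases le_abs.1 h1 with g | g
    · have := hJ.above_a1 root h2 (by rw [a, b]; linarith)
      rw [c, d, root_a, mul_zero, w_zero] at this
      exact le_abs.2 (Or.inl (by linarith))
    · have := hJ.below_a1 root h2 (by rw [a, b]; linarith)
      rw [c, d, root_a, mul_zero, w_zero] at this
      exact le_abs.2 (Or.inr (by linarith))
  · have := hJ.mid root (abs_le_one_of h2) (by rw [a, b, sub_zero]; exact g)
    rwa [c, d, root_a, mul_zero, w_zero, zero_mul, add_zero, sub_zero] at this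

lemma vertical (hJ : IsG P J) (h : Ctx (phi J) (w P.p) (w P.q) F G f) {c : ℝ → ℝ × ℝ}
    (hc : ContDiff ℝ 1 c) (h0 : |(c 0).1| < w P.p / 10) (h1 : (c 0).2 = 0) (h2 : (deriv c 0).2 = 0)
    (h3 : ∃ N, ∀ s ≥ N, |(F^[s] (c 0)).1 - 1| < 1 / 4) :
    ∃ N, ∀ s ≥ N, (deriv (F^[s] ∘ c) 0).1 = 0 := by
  classical
  obtain ⟨N, hN⟩ := h3
  have ha := h.ha
  have ha1 := h.ha1
  set a := w P.p with haa
  let x : ℕ → ℝ := fun s => (F^[s] (c 0)).1
  let y : ℕ → ℝ := fun s => (F^[s] (c 0)).2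
  have bx : ∀ s, |x s| ≤ 3 ∧ |y s| ≤ 3 :=
    h.box_iter (by linarith) (by rw [h1]; simp)
  have st : ∀ s, F^[s + 1] (c 0) = F (x s, y s) := fun s => Function.iterate_succ_apply' _ _ _
  have sx : ∀ s, x (s + 1) = (F (x s, y s)).1 := fun s => congrArg Prod.fst (st s)
  have sy : ∀ s, y (s + 1) = (F (x s, y s)).2 := fun s => congrArg Prod.snd (st s)
  have nt : ∀ s, |x s| < 3 / 2 := fun s => by
    by_contra g
    have : ∀ k, 3 / 2 ≤ |x (s + k)| := fun k => by
      induction k with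
      | zero => exact not_lt.1 g
      | succ k ih =>
        have b1 := abs_sub_abs_le_abs_sub (x (s + k)) 1
        have b2 := abs_sub_abs_le_abs_sub (x (s + k)) (-1)
        rw [sub_neg_eq_add, abs_neg] at b2
        rw [abs_one] at b1 b2
        rw [← add_assoc, sx]
        exact h.M.esc _ _ (bx _).1 (bx _).2 (by linarith) (by linarith) (by linarith)
    have a1 := this N
    have a2 : |x (s + N) - 1| < 1 / 4 := hN _ (by omega)
    have b1 := abs_sub_abs_le_abs_sub (x (s + N)) 1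
    rw [abs_one] at b1
    linarith
  have yb : ∀ s, |y s| < 3 := fun s => by
    rcases s with _ | s
    · change |(c 0).2| < 3; rw [h1]; simp
    · have := (h.M.box _ _ (bx s).1 (bx s).2).2.2 (by linarith [nt s])
      rw [sy]; linarith
  let ty : ℕ → Ty := fun s => if |x s| < a / 10 then Ty.z else if |x s| ≤ 2 * w 2 then Ty.c
    else Ty.v (decide (0 < x s))
  have tz : ∀ s, ty s = Ty.z → |x s| < a / 10 := fun s g => by
    simp only [ty] at g; split_ifs at g; assumption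
  have tc : ∀ s, ty s = Ty.c → a / 10 ≤ |x s| ∧ |x s| ≤ 2 * w 2 := fun s g => by
    simp only [ty] at g; split_ifs at g with g1 g2; exact ⟨not_lt.1 g1, g2⟩
  have tv0 : ∀ s, 2 * w 2 < |x s| → ∃ b, ty s = Ty.v b := fun s g => by
    rw [w_two] at g
    exact ⟨_, by simp only [ty]; rw [if_neg (by linarith), if_neg (by rw [w_two]; linarith)]⟩
  have tv : ∀ s b, ty s = Ty.v b → |x s - sgb b| < 9 / 5 * a := fun s b g => by
    simp only [ty] at g
    split_ifs at g with g1 g2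
    obtain rfl := Ty.v.inj g
    rw [w_two, not_le] at g2
    have e : ¬ (9 / 5 * a ≤ |x s - 1| ∧ 9 / 5 * a ≤ |x s + 1|) := fun e => by
      have := h.M.esc _ _ (bx s).1 (bx s).2 (by linarith) e.1 e.2
      rw [← sx] at this
      linarith [nt (s + 1)]
    rw [not_and_or, not_le, not_le] at e
    rcases e with e | e
    · have : 0 < x s := by linarith [(abs_lt.1 e).1]
      simpa [this, sgb] using e
    · have : ¬ 0 < x s := by linarith [(abs_lt.1 e).2]
      simpa [this, sgb] using e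
  have dd : ∀ s, deriv (F^[s + 1] ∘ c) 0 = fderiv ℝ F (x s, y s) (deriv (F^[s] ∘ c) 0) := fun s => by
    have d1 := (((contDiff_iter h.sF s).comp hc).differentiable (by simp) 0).hasDerivAt
    rw [Function.iterate_succ', Function.comp_assoc]
    exact ((h.sF.differentiable (by simp) _).hasFDerivAt.comp_hasDerivAt 0 d1).deriv
  refine parse_tangent hJ x y (fun s => (deriv (F^[s] ∘ c) 0).1) (fun s => (deriv (F^[s] ∘ c) 0).2)
    ty h1 h2 (if_pos h0) (fun s g => ?_) (fun s g => ?_) (fun s b g => ?_)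
    (fun s => by linarith [nt s]) ⟨N, fun s hs => tv0 s ?_⟩
  · have g1 := tz s g
    have e := h.M.f3 _ _ g1.le (bx s).2
    have e2 : x (s + 1) = x s / a := by rw [sx, e]
    refine ⟨e2, by rw [sy, e], ?_, ?_, fun b g2 => ?_⟩
    · rw [dd, h.fd_z g1 (yb s)]
    · rw [dd, h.fd_z g1 (yb s)]
    · have a1 := tv _ _ g2
      have a2 : |x (s + 1)| < 1 / 10 := by
        rw [e2, abs_div, abs_of_pos ha, div_lt_iff₀ ha]; linarith
      have a3 := abs_sub_abs_le_abs_sub (sgb b) (x (s + 1))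
      rw [Idx.abs_sgb, abs_sub_comm] at a3
      linarith
  · obtain ⟨g1, g2⟩ := tc s g
    obtain ⟨p1, p2⟩ := hJ.gap g1 g2
    rw [w_two] at g2
    obtain ⟨q1, q2⟩ := h.M.near (x s) (y s) (by linarith) (bx s).2
    rw [← sx] at q1 q2
    have p3 : |phi J (x s)| < 9 / 5 := by
      by_contra g3; linarith [q2 (not_lt.1 g3), nt (s + 1)]
    have p4 := q1 p3.le
    have a1 := abs_sub_abs_le_abs_sub (phi J (x s)) (x (s + 1))
    have a2 := abs_sub_abs_le_abs_sub (x (s + 1)) (phi J (x s))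
    rw [abs_sub_comm] at a1
    obtain ⟨b, hb⟩ := tv0 (s + 1) (by rw [w_two]; linarith)
    have a3 := tv _ _ hb
    have a4 := abs_sub_abs_le_abs_sub (sgb b) (x (s + 1))
    rw [Idx.abs_sgb, abs_sub_comm] at a4
    have p5 : a / 5 < |x s| := by
      by_contra g3; linarith [p2 (not_lt.1 g3)]
    have e := h.M.fC _ _ p5.le (by linarith) p3.le (bx s).2
    have fd := h.fd_c (z := (x s, y s)) p5 (by simp only; linarith) p3 (yb s)
    refine ⟨by rw [w_two]; exact g2, by rw [sx, e], by rw [sy, e], ?_, ?_, b, hb⟩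
    · rw [dd, fd]
    · rw [dd, fd]
  · have g1 := tv s b g
    have e := h.M.fV _ _ _ (sgb_val b) g1.le (bx s).2
    have fd := h.fd_v (z := (x s, y s)) (sgb_val b) g1 (yb s)
    refine ⟨by rw [sx, e], by rw [sy, e], ?_, ?_⟩
    · rw [dd, fd]
    · rw [dd, fd]
  · have a2 : |x s - 1| < 1 / 4 := hN _ hs
    have b1 := abs_sub_abs_le_abs_sub 1 (x s)
    rw [abs_one, abs_sub_comm] at b1
    rw [w_two]; linarith

lemma ev_Icc : ∀ᶠ t in 𝓝 (0 : ℝ), t ∈ Icc (-1 : ℝ) 1 := Icc_mem_nhds (by norm_num) (by norm_num)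

theorem no_trans (hJ : IsG P J) (h : Ctx (phi J) (w P.p) (w P.q) F G f) :
    ¬ (Trans f (proj (0, 0)) (proj (fx (w P.p), fx (w P.q)))).Nonempty := by
  rintro ⟨-, γ, δ, hγ, hδ, e0, -, hi⟩
  rw [arc_iff] at hγ hδ
  have ha := h.ha
  have ha1 := h.ha1
  set a := w P.p with haa
  set β := w P.q with hββ
  have b := fx_bd ha
  have b' := fx_bd h.hb
  obtain ⟨n0, h0⟩ := hγ.2 (a / 10) (by positivity)
  obtain ⟨n1, h1⟩ := hδ.2 (a / 2) (by positivity)
  have z0 : (0 : ℝ) ∈ Icc (-1 : ℝ) 1 := by simp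
  obtain ⟨l, l1, l2⟩ := exists_close (G^[n0] (γ 0)) (0, 0)
  set c : ℝ → ℝ × ℝ := fun t => G^[n0] (γ t) - l with hc
  have sc : ContDiff ℝ 1 c := ((contDiff_iter h.sG n0).comp hγ.1).sub contDiff_const
  have pc : ∀ t, proj (c t) = f.symm^[n0] (proj (γ t)) := fun t => by
    rw [hc, proj_sub, l1, sub_zero, h.lG.iterate]
  have c0 : dist (c 0) (0, 0) < a / 10 := by
    rw [hc, l2, ← h.lG.iterate]; exact h0 n0 le_rfl 0 z0
  have c1 : ∀ᶠ t in 𝓝 (0 : ℝ), (c t).2 = 0 := by
    filter_upwards [ev_Icc, ((sc.continuous.dist continuous_const).continuousAt).eventually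
      (gt_mem_nhds c0)] with t t1 t2
    exact h.uloc t2 fun k => by
      rw [pc, ← Function.iterate_add_apply]; exact h0 _ (by omega) t t1
  have c2 : (deriv c 0).2 = 0 := by
    have d : HasDerivAt (fun t => (c t).2) (deriv c 0).2 0 :=
      (sc.differentiable (by simp) 0).hasDerivAt.snd
    exact d.unique ((hasDerivAt_const (0 : ℝ) (0 : ℝ)).congr_of_eventuallyEq c1)
  have c3 := c0
  rw [Prod.dist_eq, max_lt_iff, Real.dist_eq, Real.dist_eq, sub_zero, sub_zero] at c3
  have FG : ∀ z, F^[n0] (G^[n0] z) = z := Function.LeftInverse.iterate h.M.FG n0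
  have cl : ∀ s ≥ n1, dist (F^[s + n0] (c 0)) (fx a, fx β) < a / 2 := fun s hs => by
    have bx := h.box_iter (z := c 0) (by linarith [c3.1]) (by linarith [c3.2]) (s + n0)
    rw [← dist_proj_eq, ← h.lF.iterate, pc, Function.iterate_add_apply,
      Function.LeftInverse.iterate f.apply_symm_apply n0, e0]
    · exact h1 s hs 0 z0
    · exact (abs_sub _ _).trans (by rw [abs_of_pos b.1]; linarith [bx.1])
    · exact (abs_sub _ _).trans (by rw [abs_of_pos b'.1]; linarith [bx.2])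
  obtain ⟨N, hN⟩ := vertical hJ h sc c3.1 c1.self_of_nhds c2 ⟨n1 + n0, fun s hs => by
    obtain ⟨k, rfl⟩ : ∃ k, s = k + n0 := ⟨s - n0, by omega⟩
    have := cl k (by omega)
    rw [Prod.dist_eq, max_lt_iff, Real.dist_eq, abs_lt] at this
    have e := fx_eq ha
    rw [abs_lt]
    constructor <;> nlinarith [this.1.1, this.1.2]⟩
  set m := n1 + N with hm
  obtain ⟨l', l3, l4⟩ := h.M.equiF.iterate (m + n0) (-l) (by
    rw [← zero_sub, proj_sub, l1, sub_zero]; rfl)
  have e1 : ∀ t, F^[m + n0] (c t) = F^[m] (γ t) + l' := fun t => by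
    rw [hc]; simp only
    rw [sub_eq_add_neg, l4, Function.iterate_add_apply, FG]
  have v1 : (deriv (F^[m] ∘ γ) 0).1 = 0 := by
    have := hN (m + n0) (by omega)
    rw [show F^[m + n0] ∘ c = fun t => (F^[m] ∘ γ) t + l' from funext e1, deriv_add_const] at this
    exact this
  have sd : ContDiff ℝ 1 (F^[m] ∘ δ) := (contDiff_iter h.sF m).comp hδ.1
  have d0 : dist ((F^[m] ∘ δ) 0 + l') (fx a, fx β) < a / 2 := by
    rw [Function.comp_apply, ← e0, ← e1]; exact cl m (by omega)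
  have d1 : ∀ᶠ t in 𝓝 (0 : ℝ), ((F^[m] ∘ δ) t).1 = fx a - l'.1 := by
    filter_upwards [ev_Icc, (((sd.continuous.add continuous_const).dist
      continuous_const).continuousAt).eventually (gt_mem_nhds d0)] with t t1 t2
    have := h.sloc t2 fun k => by
      change dist (f^[k] (proj (F^[m] (δ t) + l'))) _ < _
      rw [proj_add, l3, add_zero, ← h.lF.iterate, ← Function.iterate_add_apply]
      exact h1 _ (by omega) t t1
    rw [← this]; simp
  have v2 : (deriv (F^[m] ∘ δ) 0).1 = 0 := by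
    have d : HasDerivAt (fun t => ((F^[m] ∘ δ) t).1) (deriv (F^[m] ∘ δ) 0).1 0 :=
      (sd.differentiable (by simp) 0).hasDerivAt.fst
    exact d.unique ((hasDerivAt_const (0 : ℝ) _).congr_of_eventuallyEq d1)
  exact not_indep v1 v2 (indep_map (contDiff_iter h.sF m) (contDiff_iter h.sG m)
    (Function.LeftInverse.iterate h.M.GF m) hγ.1 hδ.1 e0 hi)

lemma kap_xw (l : List Bool) (g : ℕ → ℝ) (hg : ∀ i < l.length, g i = sgb (l.getD i true)) :
    kap P g l.length = xw (w P.p) l 0 := by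
  induction l generalizing g with
  | nil => simp [kap, xw]
  | cons b l ih =>
    have := ih (fun i => g (i + 1)) fun i hi => by
      rw [hg (i + 1) (by simpa using hi)]; rfl
    have e : g 0 = if b then 1 else -1 := hg 0 (by simp)
    rw [xw, ← this, ← e]
    unfold kap
    rw [List.length_cons, Finset.sum_range_succ', Finset.mul_sum, sub_eq_add_neg,
      ← Finset.sum_neg_distrib, add_comm]
    congr 1
    · simp [w_zero]
    · exact Finset.sum_congr rfl fun i _ => by rw [mul_add P.p, mul_one, w_add]; ring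

theorem main (r : ℕ) : ∃ (f : Torus ≃ₜ Torus) (F G : ℝ × ℝ → ℝ × ℝ) (O O' : Torus),
    ContDiff ℝ r F ∧ ContDiff ℝ r G ∧ IsLift f F ∧ IsLift f.symm G ∧ Saddle f F O ∧
      Saddle f F O' ∧ 0 < Dynamics.coverEntropy f (HC f O ∩ HC f O') ∧ ¬ Related f O O' := by
  set P := mkPar (r + 2) (by omega) with hP
  obtain ⟨J, hJ⟩ := exists_G P
  have sφ : ContDiff ℝ ((r + 1 : ℕ) : WithTop ℕ∞) (phi J) := hJ.smooth'
  have hD := P.D_ge
  have hp := P.hp
  have ha := w_pos P.p
  have ha1 : w P.p ≤ 1 / 1000000000 := by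
    have := w_anti (x := 3) (y := P.p) (by omega)
    unfold w at this ⊢; linarith
  have hb := w_pos P.q
  have hb1 : w P.q ≤ w P.p / 1000000000 := by
    have := w_anti (x := P.p + 3) (y := P.q) (by have := q_ge P; omega)
    rw [w_add] at this
    unfold w at this ⊢; linarith
  obtain ⟨F, G, M⟩ := exists_map ha ha1 hb hb1 (by omega) sφ
    (fun y hy => hJ.right' (by rw [w_two]; linarith)) (fun y hy => hJ.left' (by rw [w_two]; linarith))
    (fun y hy => hJ.lin hy)
  obtain ⟨f, lF, lG⟩ := exists_homeo M.equiF M.equiG M.sF.continuous M.sG.continuous M.GF M.FG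
  have l1 : ((1 : ℕ) : WithTop ℕ∞) ≤ ((r + 1 : ℕ) : WithTop ℕ∞) := by exact_mod_cast (by omega)
  have l2 : ((r : ℕ) : WithTop ℕ∞) ≤ ((r + 1 : ℕ) : WithTop ℕ∞) := by exact_mod_cast (by omega)
  have h : Ctx (phi J) (w P.p) (w P.q) F G f := ⟨ha, ha1, hb, hb1, sφ.of_le (by simp),
    { M with sF := M.sF.of_le l1, sG := M.sG.of_le l1 }, lF, lG⟩
  refine ⟨f, F, G, _, _, M.sF.of_le l2, M.sG.of_le l2, lF, lG, h.saddle0, h.saddleP,
    h.entropy_pos fun l => ⟨h.hom0 (fun l hl => ?_) l, h.homP l⟩, fun g => no_trans hJ h g.1⟩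
  obtain ⟨n0, hn⟩ : ∃ n0, l.length = n0 + 1 := ⟨l.length - 1, by
    have := List.length_pos_iff.2 hl; omega⟩
  obtain ⟨c, c1, c2, c3⟩ := hJ.prim n0 fun i => l.getD i true
  have a1 := abs_sub_abs_le_abs_sub c (sgb (l.getD 0 true) * w 2)
  have a2 := abs_sub_abs_le_abs_sub (sgb (l.getD 0 true) * w 2) c
  rw [abs_sub_comm] at a2
  rw [abs_mul, Idx.abs_sgb, w_abs] at a1 a2
  rw [w_two] at a1 a2 c1
  refine ⟨c, by linarith, by linarith, ?_, by rw [c3.deriv]; exact (sig_pos _).ne'⟩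
  rw [c2, ← hn]
  exact kap_xw l _ fun i hi => by unfold Block.f; rw [if_pos (by change i < n0 + 1; omega)]

end Pool.Agent.P.MP_97fbd9_an
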