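import Pool.Agent.P.MP_97fbd9_an.Core

/-! The family of prescribed jets. -/

open Finset

namespace Pool.Agent.P.MP_97fbd9_an

/-- A node at a future level. -/
structure Nd where
  L : List Block
  f : ℕ → ℝ
  a : ℕ
  tri : ∀ b, Tri (f b)
  ne : ∀ b < a, f b ≠ 0

namespace Nd

variable (P : Par) (N : Nd)

/-- Data of the node. -/
noncomputable def I : Info := info P N.L
/-- Centre. -/
noncomputable def c : ℝ := pos P (N.I P) N.f (P.p * N.a)
/-- Spacing. -/
noncomputable def Th : ℝ := w (tau P (N.I P) (P.p * N.a))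
/-- Width of the steep zone. -/
noncomputable def J : ℝ := w (P.D * N.a + P.p)
/-- Intercept. -/
noncomputable def b0 : ℝ := kap P N.f N.a + (N.I P).h (cnt (N.I P) (P.p * N.a))
/-- Slope. -/
noncomputable def mu : ℝ := (N.I P).mu (cnt (N.I P) (P.p * N.a))

variable {P N}

lemma good : Good P (N.I P) := good_info _

lemma aff (t : ℝ) : Aff P (N.I P) N.f (P.p * N.a) t = N.b0 P + N.mu P * t := by
  unfold Aff b0 mu; rw [aF_mul]

lemma J_pos : 0 < N.J P := w_pos _

lemma c_le : |N.c P| ≤ 1001 / 1000 * w 2 := good.pos_abs N.tri _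

lemma J_le {x : ℕ} (hl : Live P (N.I P) x) (hx : x ≤ P.p * N.a) :
    N.J P ≤ w (tau P (N.I P) x) / 1000000 :=
  w_lt2 (by have := (good (P := P) (N := N)).tau_J N.a hl hx; have := d_le_D P N.a; omega)

/-- Two descriptions of the same node. -/
def Eqv (P : Par) (N N' : Nd) : Prop := N'.a = N.a ∧ Same P N.L N.f N'.L N'.f (P.p * N.a)

lemma Eqv.symm {N' : Nd} (h : Eqv P N N') : Eqv P N' N := ⟨h.1.symm, by rw [h.1]; exact h.2.symm⟩
lemma Eqv.c_eq {N' : Nd} (h : Eqv P N N') : N'.c P = N.c P := by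
  unfold c; rw [h.1]; exact h.2.pos_eq
lemma Eqv.Th_eq {N' : Nd} (h : Eqv P N N') : N'.Th P = N.Th P := by
  unfold Th; rw [h.1]; exact congrArg w h.2.tau_eq
lemma Eqv.J_eq {N' : Nd} (h : Eqv P N N') : N'.J P = N.J P := by unfold J; rw [h.1]
lemma Eqv.mu_eq {N' : Nd} (h : Eqv P N N') : N'.mu P = N.mu P := by
  unfold mu; rw [h.1]; exact h.2.mu_eq
lemma Eqv.b0_eq {N' : Nd} (h : Eqv P N N') : N'.b0 P = N.b0 P := by
  have := h.2.aff_eq 0
  have e1 := aff (P := P) (N := N) 0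
  have e2 := aff (P := P) (N := N') 0
  rw [h.1] at e2
  unfold I at e1 e2
  linarith

end Nd

/-- The node of a pass at a future level. -/
noncomputable def Orb.nd (o : Orb) (k a : ℕ) (h : k < o.K → a ≤ o.n k) : Nd :=
  ⟨o.past k, o.fut k, a, Orb.fut_tri k, fun b hb => (Orb.fut_ne_iff k b).2 fun g =>
    hb.trans_le (h g)⟩

/-- The terminal node of a pass. -/
noncomputable def Orb.tn (o : Orb) (k : ℕ) : Nd :=
  ⟨o.past k, (o.blk k).f, o.n k, (o.blk k).f_tri, fun _ hb => (o.blk k).f_ne hb⟩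

/-- Indices of the prescribed jets. -/
inductive Idx
  | br (N : Nd) (s : Bool)
  | a1 (N : Nd) (s : Bool)
  | a2 (N : Nd) (s : Bool)
  | tp (o : Orb) (k : ℕ) (h1 : 1 ≤ k) (h2 : k < o.K)

namespace Idx

/-- The node of an index. -/
noncomputable def nd : Idx → Nd
  | br N _ => N
  | a1 N _ => N
  | a2 N _ => N
  | tp o k _ _ => o.tn k

/-- The final digit. -/
noncomputable def fd : Idx → ℝ
  | br _ s => 2 * sgb s
  | _ => 0

/-- Position. -/
noncomputable def ps (P : Par) : Idx → ℝ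
  | br N s => N.c P + 2 * sgb s * N.Th P
  | a1 N s => N.c P + sgb s * (N.J P / 10)
  | a2 N s => N.c P + sgb s * (N.J P / 5)
  | tp o k _ _ => o.T P k

/-- Jet. -/
noncomputable def jet (P : Par) : Idx → ℝ × ℝ
  | br N s => (N.b0 P + 2 * sgb s * w (P.p * N.a), N.mu P)
  | a1 N _ => (N.b0 P - sig P N.a * N.c P, N.mu P + sig P N.a)
  | a2 N s => (N.b0 P + sgb s * (w (P.p * N.a) / 5), N.mu P)
  | tp o k _ _ => (o.jb P k, o.ja P k)

/-- Value of the jet. -/
noncomputable def val (P : Par) (i : Idx) (y : ℝ) : ℝ := (i.jet P).1 + (i.jet P).2 * y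

/-- Indices whose jet is controlled at `y`. -/
def Valid (P : Par) (y : ℝ) : Idx → Prop
  | br _ _ => True
  | a2 _ _ => True
  | a1 N _ => |y - N.c P| ≤ N.J P / 5
  | tp o k _ _ => |y - (o.tn k).c P| ≤ (o.tn k).J P / 5

/-- Extended digit. -/
noncomputable def edig (P : Par) (i : Idx) (x : ℕ) : ℝ :=
  if x < P.p * i.nd.a then dig P (i.nd.I P) i.nd.f x else i.fd

variable {P : Par}

lemma abs_sgb (s : Bool) : |sgb s| = 1 := by cases s <;> simp [sgb]

lemma tp_c {o : Orb} {k : ℕ} (h1 : 1 ≤ k) (h2 : k < o.K) :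
    |o.T P k - (o.tn k).c P| ≤ (o.tn k).J P / 50 := Orb.t_le Orb.cinf_le k h1 h2

lemma tp_jet (o : Orb) (k : ℕ) : o.jb P k = (o.tn k).b0 P - sig P (o.n k) * (o.tn k).c P ∧
    o.ja P k = (o.tn k).mu P + sig P (o.n k) + sig P (o.n k) * o.C P k := ⟨rfl, rfl⟩

lemma ps_stop (i : Idx) : |i.ps P - i.nd.c P - i.fd * i.nd.Th P| ≤ i.nd.J P / 5 := by
  have := Nd.J_pos (P := P) (N := i.nd)
  rcases i with ⟨N, s⟩ | ⟨N, s⟩ | ⟨N, s⟩ | ⟨o, k, h1, h2⟩ <;> simp only [ps, nd, fd] at *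
  · refine le_trans (le_of_eq ?_) (by positivity : (0 : ℝ) ≤ N.J P / 5)
    rw [abs_eq_zero]; ring
  · rw [zero_mul, sub_zero, add_sub_cancel_left, abs_mul, abs_sgb, abs_of_pos (by positivity)]
    linarith
  · rw [zero_mul, sub_zero, add_sub_cancel_left, abs_mul, abs_sgb, abs_of_pos (by positivity)]
    linarith
  · have := tp_c (P := P) h1 h2
    rw [zero_mul, sub_zero]; linarith

lemma fd_le (i : Idx) : |i.fd| ≤ 2 := by
  rcases i with ⟨N, s⟩ | ⟨N, s⟩ | ⟨N, s⟩ | ⟨o, k, h1, h2⟩ <;> simp [fd, abs_mul, abs_sgb]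

lemma locPos (i : Idx) {x : ℕ} (hl : Live P (i.nd.I P) x) (hx : x ≤ P.p * i.nd.a) :
    |i.ps P - pos P (i.nd.I P) i.nd.f x - i.edig P x * w (tau P (i.nd.I P) x)| ≤
      w (tau P (i.nd.I P) x) / 50 := by
  have h1 := ps_stop (P := P) i
  have h2 := Nd.J_le hl hx
  have hw := w_pos (tau P (i.nd.I P) x)
  unfold edig
  rcases eq_or_lt_of_le hx with rfl | g
  · rw [if_neg (lt_irrefl _)]
    exact h1.trans (by linarith)
  · rw [if_pos g]
    have h3 := Nd.good.pos_loc i.nd.tri hl g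
    have h4 := w_lt (Nd.good.tau_lt hl g)
    have h5 : |i.fd * i.nd.Th P| ≤ 2 * i.nd.Th P := by
      rw [abs_mul, abs_of_pos (a := i.nd.Th P) (w_pos _)]
      exact mul_le_mul_of_nonneg_right i.fd_le (w_pos _).le
    unfold Nd.Th at *
    unfold Nd.c at h1
    rw [abs_le] at *
    constructor <;> linarith [h1.1, h1.2, h3.1, h3.2, h5.1, h5.2]

lemma sig_C {o : Orb} {k : ℕ} (h1 : 1 ≤ k) :
    |sig P (o.n k) * o.C P k| ≤ w (P.p * o.n k) / 500 := by
  have a := Orb.C_le (P := P) (o := o) h1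
  have b := sig_J (P := P) (o.n k)
  have c : w (P.big * (o.n k + o.j k)) ≤ w (P.D * o.n k + P.p) / 1000 := by
    apply w_lt
    have := P.big_ge; have := P.hp; have := Orb.n_pos (o := o) k
    have : P.D * o.n k ≤ P.p * o.n k := by gcongr; omega
    nlinarith
  have := sig_pos (P := P) (o.n k)
  rw [abs_mul, abs_of_pos this, ← b]
  nlinarith

lemma val_stop (i : Idx) {y : ℝ} (hy : |y| ≤ 1) (hv : i.Valid P y) :
    |i.val P y - (i.nd.b0 P + i.nd.mu P * y) - i.fd * w (P.p * i.nd.a)| ≤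
      21 / 100 * w (P.p * i.nd.a) := by
  have hw := w_pos (P.p * i.nd.a)
  have hs := sig_pos (P := P) i.nd.a
  have hJ := sig_J (P := P) i.nd.a
  rcases i with ⟨N, s⟩ | ⟨N, s⟩ | ⟨N, s⟩ | ⟨o, k, h1, h2⟩ <;>
    simp only [val, jet, nd, fd, Valid] at *
  · refine le_trans (le_of_eq ?_) (by positivity : (0 : ℝ) ≤ 21 / 100 * w (P.p * N.a))
    rw [abs_eq_zero]; ring
  · have e : N.b0 P - sig P N.a * N.c P + (N.mu P + sig P N.a) * y - (N.b0 P + N.mu P * y) -
      0 * w (P.p * N.a) = sig P N.a * (y - N.c P) := by ring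
    rw [e, abs_mul, abs_of_pos hs]
    unfold Nd.J at hv
    nlinarith
  · have e : N.b0 P + sgb s * (w (P.p * N.a) / 5) + N.mu P * y - (N.b0 P + N.mu P * y) -
      0 * w (P.p * N.a) = sgb s * (w (P.p * N.a) / 5) := by ring
    rw [e, abs_mul, abs_sgb, abs_of_pos (by positivity)]
    linarith
  · rw [(tp_jet o k).1, (tp_jet o k).2]
    have a := sig_C (P := P) (o := o) h1
    change _ ≤ 21 / 100 * w (P.p * o.n k)
    change 0 < w (P.p * o.n k) at hw
    change 0 < sig P (o.n k) at hs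
    change sig P (o.n k) * (o.tn k).J P = w (P.p * o.n k) at hJ
    have e : (o.tn k).b0 P - sig P (o.n k) * (o.tn k).c P + ((o.tn k).mu P + sig P (o.n k) +
      sig P (o.n k) * o.C P k) * y - ((o.tn k).b0 P + (o.tn k).mu P * y) -
      0 * w (P.p * (o.tn k).a) = sig P (o.n k) * (y - (o.tn k).c P) +
        sig P (o.n k) * o.C P k * y := by ring
    rw [e]
    have b1 : |sig P (o.n k) * (y - (o.tn k).c P)| ≤ w (P.p * o.n k) / 5 := by
      rw [abs_mul, abs_of_pos hs]; nlinarith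
    have b2 : |sig P (o.n k) * o.C P k * y| ≤ w (P.p * o.n k) / 500 := by
      rw [abs_mul]; exact (mul_le_of_le_one_right (abs_nonneg _) hy).trans a
    have := abs_add_le (sig P (o.n k) * (y - (o.tn k).c P)) (sig P (o.n k) * o.C P k * y)
    linarith

lemma locVal (i : Idx) {x : ℕ} (hx : x ≤ P.p * i.nd.a) {y : ℝ} (hy : |y| ≤ 1)
    (hv : i.Valid P y) :
    |i.val P y - Aff P (i.nd.I P) i.nd.f x y - i.edig P x * w x| ≤ w x / 4 := by
  have h1 := val_stop i hy hv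
  rw [← Nd.aff] at h1
  have hw := w_pos x
  unfold edig
  rcases eq_or_lt_of_le hx with rfl | g
  · rw [if_neg (lt_irrefl _)]
    exact h1.trans (by linarith)
  · rw [if_pos g]
    have h3 := (Nd.good (P := P) (N := i.nd)).aff_loc i.nd.tri g hy
    have h4 := w_lt g
    have h5 : |i.fd * w (P.p * i.nd.a)| ≤ 2 * w (P.p * i.nd.a) := by
      rw [abs_mul, w_abs]
      exact mul_le_mul_of_nonneg_right i.fd_le (w_pos _).le
    rw [abs_le] at *
    constructor <;> linarith [h1.1, h1.2, h3.1, h3.2, h5.1, h5.2]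

/-- Integer valued numbers. -/
def Zv (z : ℝ) : Prop := ∃ n : ℤ, z = n

lemma Zv.gap {a b : ℝ} (ha : Zv a) (hb : Zv b) (h : a ≠ b) : 1 ≤ |a - b| := by
  obtain ⟨n, rfl⟩ := ha
  obtain ⟨m, rfl⟩ := hb
  have : n - m ≠ 0 := fun g => h (by rw [sub_eq_zero.1 g])
  exact_mod_cast Int.one_le_abs this

lemma zv_tri {z : ℝ} (h : Tri z) : Zv z := by
  rcases h with h | h | h
  · exact ⟨-1, by simp [h]⟩
  · exact ⟨0, by simp [h]⟩
  · exact ⟨1, by simp [h]⟩

lemma fd_val (i : Idx) : i.fd = 0 ∨ i.fd = 2 ∨ i.fd = -2 := by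
  rcases i with ⟨N, s⟩ | ⟨N, s⟩ | ⟨N, s⟩ | ⟨o, k, h1, h2⟩ <;> simp only [fd, true_or]
  cases s <;> simp [sgb]

lemma zv_edig (i : Idx) (x : ℕ) : Zv (i.edig P x) := by
  unfold edig; split_ifs
  · exact zv_tri (Nd.good.dig_tri i.nd.tri x)
  · rcases i.fd_val with h | h | h
    · exact ⟨0, by simp [h]⟩
    · exact ⟨2, by simp [h]⟩
    · exact ⟨-2, by simp [h]⟩

/-- Two indices split at level `x`. -/
def Split (P : Par) (i i' : Idx) (x : ℕ) : Prop :=
  x ≤ P.p * i.nd.a ∧ x ≤ P.p * i'.nd.a ∧ Same P i.nd.L i.nd.f i'.nd.L i'.nd.f x ∧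
    Live P (i.nd.I P) x ∧ 1 ≤ |i.edig P x - i'.edig P x|

lemma Split.symm {i i' : Idx} {x : ℕ} (h : Split P i i' x) : Split P i' i x :=
  ⟨h.2.1, h.1, h.2.2.1.symm, h.2.2.1.live h.2.2.2.1, by rw [abs_sub_comm]; exact h.2.2.2.2⟩

lemma split_aux {i i' : Idx} (ha : i.nd.a ≤ i'.nd.a) :
    (Nd.Eqv P i.nd i'.nd ∧ i'.fd = i.fd) ∨ ∃ x, Split P i i' x := by
  have hp := P.p_pos
  have hle : P.p * i.nd.a ≤ P.p * i'.nd.a := by gcongr
  rcases split (P := P) i.nd.L i.nd.f i'.nd.L i'.nd.f (P.p * i.nd.a) with h | ⟨x, hx, h, hd⟩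
  · by_cases g : i'.nd.a = i.nd.a ∧ i'.fd = i.fd
    · exact Or.inl ⟨⟨g.1, h⟩, g.2⟩
    · refine Or.inr ⟨_, le_rfl, hle, h, live_mul _, (zv_edig _ _).gap (zv_edig _ _) ?_⟩
      unfold edig
      rw [if_neg (lt_irrefl _)]
      rcases eq_or_lt_of_le ha with e | e
      · rw [if_neg (by rw [e]; exact lt_irrefl _)]
        exact fun g' => g ⟨e.symm, g'.symm⟩
      · rw [if_pos (by nlinarith), dig_mul]
        have a := i'.nd.ne _ e
        intro g'
        rcases neg_one_pow_eq_or ℝ i.nd.a with b | b <;> rcases i'.nd.tri i.nd.a with c | c | c <;>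
          rcases i.fd_val with d | d | d <;> simp [b, c, d] at a g' <;> norm_num at g'
  · refine Or.inr ⟨x, hx.le, by omega, h, h.live_of_ne hd, (zv_edig _ _).gap (zv_edig _ _) ?_⟩
    unfold edig
    rw [if_pos hx, if_pos (by omega)]
    exact hd.symm

lemma split_cases (i i' : Idx) :
    (Nd.Eqv P i.nd i'.nd ∧ i'.fd = i.fd) ∨ ∃ x, Split P i i' x := by
  rcases le_total i.nd.a i'.nd.a with h | h
  · exact split_aux h
  · rcases split_aux (P := P) h with ⟨a, b⟩ | ⟨x, a⟩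
    · exact Or.inl ⟨a.symm, b.symm⟩
    · exact Or.inr ⟨x, a.symm⟩

lemma Split.ps_diff {i i' : Idx} {x : ℕ} (h : Split P i i' x) :
    |i.ps P - i'.ps P - (i.edig P x - i'.edig P x) * w (tau P (i.nd.I P) x)| ≤
      w (tau P (i.nd.I P) x) / 25 := by
  have a := locPos i h.2.2.2.1 h.1
  have b := locPos i' h.symm.2.2.2.1 h.2.1
  have e1 : tau P (i'.nd.I P) x = tau P (i.nd.I P) x := h.2.2.1.tau_eq
  have e2 : pos P (i'.nd.I P) i'.nd.f x = pos P (i.nd.I P) i.nd.f x := h.2.2.1.pos_eq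
  rw [e1, e2] at b
  rw [abs_le] at *
  constructor <;> linarith [a.1, a.2, b.1, b.2]

lemma Split.far {i i' : Idx} {x : ℕ} (h : Split P i i' x) :
    w (tau P (i.nd.I P) x) / 2 ≤ |i.ps P - i'.ps P| := by
  have a := h.ps_diff
  have hw := w_pos (tau P (i.nd.I P) x)
  have b := abs_sub_abs_le_abs_sub ((i.edig P x - i'.edig P x) * w (tau P (i.nd.I P) x))
    (i.ps P - i'.ps P)
  rw [abs_sub_comm _ (i.ps P - i'.ps P), abs_mul, w_abs] at b
  have := mul_le_mul_of_nonneg_right h.2.2.2.2 hw.le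
  linarith

lemma Split.farJ {i i' : Idx} {x : ℕ} (h : Split P i i' x) : i.nd.J P < |i.ps P - i'.ps P| := by
  have a := h.far
  have b := Nd.J_le h.2.2.2.1 h.1
  have hw := w_pos (tau P (i.nd.I P) x)
  linarith

lemma Split.cmp {i i' : Idx} {x : ℕ} (h : Split P i i' x) (hp : i.ps P ≤ i'.ps P) {y : ℝ}
    (hy : |y| ≤ 1) (hv : i.Valid P y) (hv' : i'.Valid P y) : i.val P y ≤ i'.val P y := by
  have a := h.ps_diff
  have hw := w_pos (tau P (i.nd.I P) x)
  have b : i.edig P x - i'.edig P x ≤ -1 := by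
    rcases le_abs.1 h.2.2.2.2 with g | g
    · have := mul_le_mul_of_nonneg_right g hw.le
      rw [abs_le] at a; linarith [a.1]
    · linarith
  have c := locVal i h.1 hy hv
  have d := locVal i' h.2.1 hy hv'
  have e : Aff P (i'.nd.I P) i'.nd.f x y = Aff P (i.nd.I P) i.nd.f x y := h.2.2.1.aff_eq y
  rw [e] at d
  have := mul_le_mul_of_nonneg_right b (w_pos x).le
  have := w_pos x
  rw [abs_le] at c d
  linarith [c.2, d.1]

lemma jet_stop (i : Idx) :
    ‖i.jet P - (i.nd.b0 P, i.nd.mu P)‖ ≤ 2 * w (P.p * i.nd.a) + 2 * sig P i.nd.a := by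
  have hw := w_pos (P.p * i.nd.a)
  have hs := sig_pos (P := P) i.nd.a
  have hc : |sig P i.nd.a * i.nd.c P| ≤ sig P i.nd.a := by
    rw [abs_mul, abs_of_pos hs]
    have := Nd.c_le (P := P) (N := i.nd)
    rw [w_two] at this
    exact mul_le_of_le_one_right hs.le (by linarith)
  rw [Prod.norm_def, max_le_iff]
  rcases i with ⟨N, s⟩ | ⟨N, s⟩ | ⟨N, s⟩ | ⟨o, k, h1, h2⟩ <;>
    simp only [jet, nd, Prod.fst_sub, Prod.snd_sub, Real.norm_eq_abs, add_sub_cancel_left,
      sub_self, abs_zero] at *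
  · rw [abs_mul, abs_mul, abs_sgb, w_abs, abs_two]; constructor <;> linarith
  · rw [sub_sub_cancel_left, abs_neg, abs_of_pos hs]; constructor <;> linarith
  · rw [abs_mul, abs_sgb, abs_of_pos (by positivity)]; constructor <;> linarith
  · rw [(tp_jet o k).1, (tp_jet o k).2, sub_sub_cancel_left, abs_neg]
    have a := sig_C (P := P) (o := o) h1
    change 0 < w (P.p * o.n k) at hw
    change 0 < sig P (o.n k) at hs
    change |sig P (o.n k) * _| ≤ sig P (o.n k) at hc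
    change _ ≤ 2 * w (P.p * o.n k) + 2 * sig P (o.n k) ∧ _ ≤ 2 * w (P.p * o.n k) + 2 * sig P (o.n k)
    refine ⟨by linarith, ?_⟩
    rw [abs_le] at a ⊢
    constructor <;> linarith [a.1, a.2]

lemma tau_small {I : Info} (hI : Good P I) (x : ℕ) : tau P I x * P.m ≤ x + (P.p + 3 * P.m) := by
  have h1 : P.p * aF P x ≤ x + P.p := by
    rcases Nat.eq_zero_or_pos (aF P x) with g | g
    · rw [g]; omega
    · have := (lt_aF_iff (P := P) x (aF P x - 1)).1 (by omega)
      obtain ⟨b, hb⟩ : ∃ b, aF P x = b + 1 := ⟨aF P x - 1, by omega⟩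
      rw [hb] at this ⊢
      rw [Nat.add_sub_cancel] at this
      rw [mul_add]; omega
  have h2 : P.D * cnt I x ≤ x + P.D := by
    rcases Nat.eq_zero_or_pos (cnt I x) with g | g
    · rw [g]; omega
    · have := (lt_cnt_iff hI.e_mono x (cnt I x - 1)).1 (by omega)
      have h := hI.e_lb (cnt I x - 1)
      obtain ⟨b, hb⟩ : ∃ b, cnt I x = b + 1 := ⟨cnt I x - 1, by omega⟩
      rw [hb] at this h ⊢
      rw [Nat.add_sub_cancel] at this h
      rw [mul_add]; omega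
  have h3 := P.d_ge
  have h4 := P.hD
  have h5 := P.hp
  have a1 : 8 * P.m * aF P x ≤ P.p * aF P x := by gcongr; omega
  have a2 : 8 * P.m * cnt I x ≤ P.D * cnt I x := by gcongr; omega
  have a3 : x % 2 ≤ 1 := by omega
  unfold tau
  nlinarith

/-- The constant of the estimate. -/
noncomputable def M0 (P : Par) : ℝ := 1 / w ((P.m + 1) * P.p + 3 * P.m)

lemma M0_pos : 0 < M0 P := by unfold M0; have := w_pos ((P.m + 1) * P.p + 3 * P.m); positivity

lemma le_M0 {x y : ℕ} (h : y * P.m ≤ x + ((P.m + 1) * P.p + 3 * P.m)) : w x ≤ M0 P * w y ^ P.m := by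
  have := w_anti h
  rw [w_add, w_mul y] at this
  unfold M0
  rw [one_div, inv_mul_eq_div, le_div_iff₀ (w_pos _)]
  exact this

lemma sig_M0 {n y : ℕ} (h : y * P.m ≤ P.s * n + (P.m * P.p + 3 * P.m)) :
    sig P n ≤ M0 P * w y ^ P.m := by
  have := w_anti h
  rw [w_add, w_mul y] at this
  unfold M0 sig
  have e : (P.m + 1) * P.p + 3 * P.m = P.m * P.p + 3 * P.m + P.p := by ring
  rw [one_div, inv_mul_eq_div, div_le_div_iff₀ (w_pos _) (w_pos _), e, w_add _ P.p, ← mul_assoc]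
  exact mul_le_mul_of_nonneg_right this (w_pos _).le

lemma jet_loc (i : Idx) {x : ℕ} (hl : Live P (i.nd.I P) x) (hx : x ≤ P.p * i.nd.a) :
    ‖i.jet P - (Aff P (i.nd.I P) i.nd.f x 0, (i.nd.I P).mu (cnt (i.nd.I P) x))‖ ≤
      6 * M0 P * w (tau P (i.nd.I P) x) ^ P.m := by
  have hg := Nd.good (P := P) (N := i.nd)
  have h1 := jet_stop (P := P) i
  have h2 : ‖(i.nd.b0 P, i.nd.mu P) -
      (Aff P (i.nd.I P) i.nd.f x 0, (i.nd.I P).mu (cnt (i.nd.I P) x))‖ ≤ 2 * w x := by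
    have a := hg.aff_tail i.nd.tri x _ hx (t := 0) (by simp)
    rw [Nd.aff, mul_zero, add_zero] at a
    have b := hg.mu_diff (cnt_mono hg.e_mono hx)
    have c := w_anti (le_e_cnt hg.e_mono x)
    have := w_pos (P.p * i.nd.a)
    have := w_pos x
    rw [Prod.norm_def, max_le_iff]
    simp only [Prod.fst_sub, Prod.snd_sub, Real.norm_eq_abs]
    exact ⟨by linarith, by unfold Nd.mu; linarith⟩
  have h3 := w_anti hx
  have h4 : w x ≤ M0 P * w (tau P (i.nd.I P) x) ^ P.m :=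
    le_M0 (by have := tau_small hg x; nlinarith)
  have h5 : sig P i.nd.a ≤ M0 P * w (tau P (i.nd.I P) x) ^ P.m := by
    apply sig_M0
    have a := (hg.tau_le hl hx).trans (hg.tau_mul _)
    have b := P.hd
    have c : P.d * i.nd.a ≤ P.s * i.nd.a := by gcongr; have := P.s_ge; have := P.hD; omega
    calc _ ≤ (2 + (2 * P.m + 4) * i.nd.a) * P.m := by gcongr
      _ = 2 * P.m + P.m * (2 * P.m + 4) * i.nd.a := by ring
      _ ≤ 2 * P.m + P.d * i.nd.a := by gcongr
      _ ≤ _ := by omega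
  have := norm_sub_le_norm_sub_add_norm_sub (i.jet P) (i.nd.b0 P, i.nd.mu P)
    (Aff P (i.nd.I P) i.nd.f x 0, (i.nd.I P).mu (cnt (i.nd.I P) x))
  linarith

lemma hold_split {i i' : Idx} {x : ℕ} (h : Split P i i' x) :
    ‖i.jet P - i'.jet P‖ ≤ 12 * M0 P * 17 ^ P.m * |i.ps P - i'.ps P| ^ P.m := by
  have a := jet_loc i h.2.2.2.1 h.1
  have b := jet_loc i' h.symm.2.2.2.1 h.2.1
  have e1 : tau P (i'.nd.I P) x = tau P (i.nd.I P) x := h.2.2.1.tau_eq
  have e2 : Aff P (i'.nd.I P) i'.nd.f x 0 = Aff P (i.nd.I P) i.nd.f x 0 := h.2.2.1.aff_eq 0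
  have e3 : (i'.nd.I P).mu (cnt (i'.nd.I P) x) = (i.nd.I P).mu (cnt (i.nd.I P) x) := h.2.2.1.mu_eq
  rw [e1, e2, e3, norm_sub_rev] at b
  have c := norm_sub_le_norm_sub_add_norm_sub (i.jet P)
    (Aff P (i.nd.I P) i.nd.f x 0, (i.nd.I P).mu (cnt (i.nd.I P) x)) (i'.jet P)
  have d := h.far
  have hw := w_pos (tau P (i.nd.I P) x)
  have f : w (tau P (i.nd.I P) x) ^ P.m ≤ (17 * |i.ps P - i'.ps P|) ^ P.m := by
    gcongr; linarith
  rw [mul_pow] at f
  have := M0_pos (P := P)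
  nlinarith

lemma hold_far {i i' : Idx} (h : Nd.Eqv P i.nd i'.nd)
    (hd : i.nd.J P / 17 ≤ |i.ps P - i'.ps P|) :
    ‖i.jet P - i'.jet P‖ ≤ 12 * M0 P * 17 ^ P.m * |i.ps P - i'.ps P| ^ P.m := by
  have a := jet_stop (P := P) i
  have b := jet_stop (P := P) i'
  rw [h.b0_eq, h.mu_eq, h.1, norm_sub_rev] at b
  have c := norm_sub_le_norm_sub_add_norm_sub (i.jet P) (i.nd.b0 P, i.nd.mu P) (i'.jet P)
  have hs := sig_pos (P := P) i.nd.a
  have d : w (P.p * i.nd.a) ≤ sig P i.nd.a := by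
    rw [← sig_J]; exact mul_le_of_le_one_right hs.le (w_le_one _)
  have e : sig P i.nd.a ≤ M0 P * i.nd.J P ^ P.m := by
    apply sig_M0; rw [P.hs]; nlinarith
  have hJ := Nd.J_pos (P := P) (N := i.nd)
  have f : i.nd.J P ^ P.m ≤ (17 * |i.ps P - i'.ps P|) ^ P.m := by
    gcongr; linarith
  rw [mul_pow] at f
  have := M0_pos (P := P)
  have : 0 ≤ M0 P * (17 ^ P.m * |i.ps P - i'.ps P| ^ P.m) := by positivity
  nlinarith

lemma node_of {o o' : Orb} {k k' : ℕ} (h2 : k < o.K) (h2' : k' < o'.K)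
    (h : Nd.Eqv P (o.tn k) (o'.tn k')) : Orb.Node P o k o' k' := by
  refine ⟨h2, h2', h.2.succ ?_⟩
  have e : o'.n k' = o.n k := h.1
  change dig P _ (o'.blk k').f (P.p * o.n k) = dig P _ (o.blk k).f (P.p * o.n k)
  rw [dig_mul, dig_mul, Orb.f_top, ← e, Orb.f_top]

theorem holder (i i' : Idx) :
    ‖i.jet P - i'.jet P‖ ≤ 12 * M0 P * 17 ^ P.m * |i.ps P - i'.ps P| ^ P.m := by
  have hM := M0_pos (P := P)
  rcases split_cases (P := P) i i' with ⟨h, hf⟩ | ⟨x, h⟩
  swap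
  · exact hold_split h
  by_cases hd : i.nd.J P / 17 ≤ |i.ps P - i'.ps P|
  · exact hold_far h hd
  have hJ := Nd.J_pos (P := P) (N := i.nd)
  have e1 := h.c_eq
  have e2 := h.J_eq
  have e3 := h.b0_eq
  have e4 := h.mu_eq
  have e5 := h.1
  have z : i.jet P = i'.jet P → ‖i.jet P - i'.jet P‖ ≤
      12 * M0 P * 17 ^ P.m * |i.ps P - i'.ps P| ^ P.m := fun g => by
    rw [g, sub_self, norm_zero]; positivity
  rw [not_le, abs_lt] at hd
  rcases i with ⟨N, s⟩ | ⟨N, s⟩ | ⟨N, s⟩ | ⟨o, k, h1, h2⟩ <;>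
    rcases i' with ⟨N', s'⟩ | ⟨N', s'⟩ | ⟨N', s'⟩ | ⟨o', k', h1', h2'⟩ <;>
    simp only [nd, fd, ps] at h hf hd hJ e1 e2 e3 e4 e5
  · exact z (by simp only [jet, e3, e4, e5, hf])
  · exact absurd hf.symm (by simp [sgb_ne])
  · exact absurd hf.symm (by simp [sgb_ne])
  · exact absurd hf.symm (by simp [sgb_ne])
  · exact absurd hf (by simp [sgb_ne])
  · exact z (by simp only [jet, e1, e3, e4, e5])
  · exfalso; rw [e1, e2] at hd
    cases s <;> cases s' <;> simp [sgb] at hd <;> linarith [hd.1, hd.2]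
  · exfalso
    have := tp_c (P := P) h1' h2'
    rw [e1, e2, abs_le] at this
    cases s <;> simp [sgb] at hd <;> linarith [hd.1, hd.2, this.1, this.2]
  · exact absurd hf (by simp [sgb_ne])
  · exfalso; rw [e1, e2] at hd
    cases s <;> cases s' <;> simp [sgb] at hd <;> linarith [hd.1, hd.2]
  · rw [e1, e2] at hd
    obtain rfl : s = s' := by
      cases s <;> cases s' <;> simp [sgb] at hd ⊢ <;> linarith [hd.1, hd.2]
    exact z (by simp only [jet, e3, e4, e5])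
  · exfalso
    have := tp_c (P := P) h1' h2'
    rw [e1, e2, abs_le] at this
    cases s <;> simp [sgb] at hd <;> linarith [hd.1, hd.2, this.1, this.2]
  · exact absurd hf (by simp [sgb_ne])
  · exfalso
    have := tp_c (P := P) h1 h2
    rw [e1, e2] at hd
    rw [abs_le] at this
    cases s' <;> simp [sgb] at hd <;> linarith [hd.1, hd.2, this.1, this.2]
  · exfalso
    have := tp_c (P := P) h1 h2
    rw [e1, e2] at hd
    rw [abs_le] at this
    cases s' <;> simp [sgb] at hd <;> linarith [hd.1, hd.2, this.1, this.2]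
  · have hn := node_of h2 h2' h
    have h0 : Orb.Chain P o k o' k' 0 := ⟨fun l hl => by obtain rfl := Nat.le_zero.1 hl; exact hn,
      fun l hl => absurd hl (Nat.not_lt_zero l)⟩
    have a := Orb.C_hold h0 h1 h1' le_rfl
    have hs := sig_pos (P := P) (o.n k)
    have b : sig P (o.n k) ≤ M0 P := by
      have := sig_M0 (P := P) (n := o.n k) (y := 0) (by omega)
      simpa [w_zero] using this
    have c := w_le_one (P.s * o.n (k + 0))
    have c' := w_pos (P.s * o.n (k + 0))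
    simp only [jet, ps, Prod.norm_def, Prod.fst_sub, Prod.snd_sub, Real.norm_eq_abs, hn.jb_eq,
      sub_self, abs_zero, hn.ja_eq, abs_mul, abs_of_pos hs]
    rw [max_eq_right (by positivity)]
    have d : (2 * |o.T P k - o'.T P k'|) ^ P.m ≤ (17 * |o.T P k - o'.T P k'|) ^ P.m := by
      gcongr; norm_num
    have d0 : 0 ≤ (2 * |o.T P k - o'.T P k'|) ^ P.m := by positivity
    have e : |o.C P k - o'.C P k'| ≤ (17 * |o.T P k - o'.T P k'|) ^ P.m := by nlinarith
    rw [mul_pow] at e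
    calc _ ≤ M0 P * (17 ^ P.m * |o.T P k - o'.T P k'| ^ P.m) := by gcongr
      _ ≤ _ := by
        have : 0 ≤ M0 P * (17 ^ P.m * |o.T P k - o'.T P k'| ^ P.m) := by positivity
        linarith

end Idx

end Pool.Agent.P.MP_97fbd9_an
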