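import Pool.Agent.P.MP_97fbd9_an.Par

/-! The recursion on past itineraries. -/

open Finset

namespace Pool.Agent.P.MP_97fbd9_an

/-- Three piece definitions. -/
def pw {α : Type*} (N k : ℕ) (a b c : ℕ → α) (i : ℕ) : α :=
  if i ≤ N then a i else if i - (N + 1) < k then b (i - (N + 1)) else c (i - (N + 1))

lemma pw_lo {α : Type*} {N k : ℕ} {a b c : ℕ → α} {i : ℕ} (h : i ≤ N) : pw N k a b c i = a i :=
  if_pos h

lemma pw_mid {α : Type*} {N k : ℕ} {a b c : ℕ → α} {i : ℕ} (h : i < k) :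
    pw N k a b c (N + 1 + i) = b i := by
  unfold pw; rw [if_neg (by omega), Nat.add_sub_cancel_left, if_pos h]

lemma pw_hi {α : Type*} {N k : ℕ} {a b c : ℕ → α} {i : ℕ} (h : k ≤ i) :
    pw N k a b c (N + 1 + i) = c i := by
  unfold pw; rw [if_neg (by omega), Nat.add_sub_cancel_left, if_neg (by omega)]

lemma pw_cases (N k i : ℕ) : i ≤ N ∨ (∃ i', i' < k ∧ i = N + 1 + i') ∨
    (∃ i', k ≤ i' ∧ i = N + 1 + i') := by
  rcases le_or_gt i N with h | h
  · exact Or.inl h
  · rcases lt_or_ge (i - (N + 1)) k with h' | h'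
    · exact Or.inr (Or.inl ⟨_, h', by omega⟩)
    · exact Or.inr (Or.inr ⟨_, h', by omega⟩)

lemma pw_cases2 (N k i : ℕ) : i + 1 ≤ N ∨ (i = N ∧ 0 < k) ∨ (i = N ∧ k = 0) ∨
    (∃ i', i' + 1 < k ∧ i = N + 1 + i') ∨ (∃ i', i' + 1 = k ∧ i = N + 1 + i') ∨
    (∃ i', k ≤ i' ∧ i = N + 1 + i') := by
  rcases pw_cases N k i with h | ⟨i', h, rfl⟩ | ⟨i', h, rfl⟩
  · omega
  · rcases lt_or_ge (i' + 1) k with h' | h'
    · exact Or.inr (Or.inr (Or.inr (Or.inl ⟨i', h', rfl⟩)))
    · exact Or.inr (Or.inr (Or.inr (Or.inr (Or.inl ⟨i', by omega, rfl⟩))))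
  · exact Or.inr (Or.inr (Or.inr (Or.inr (Or.inr ⟨i', h, rfl⟩))))

/-- The slope of a terminal node. -/
noncomputable def sig (P : Par) (n : ℕ) : ℝ := w (P.s * n) / w P.p
/-- The signed coupling. -/
noncomputable def Bc (P : Par) (n j : ℕ) : ℝ := (-1) ^ n * w (2 + P.q * (n + j))
/-- The signed transfer factor. -/
noncomputable def Bs (P : Par) (n j : ℕ) : ℝ := (-1) ^ n * w (2 + P.qs * n + P.q * j + P.p)
/-- The signed contraction along leaves. -/
noncomputable def lam (P : Par) (n j : ℕ) : ℝ := (-1) ^ n * w (P.D * n + P.p * j + P.p)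
/-- Digits of a block read backwards. -/
noncomputable def dgt (n j : ℕ) (f : ℕ → ℝ) (i : ℕ) : ℝ :=
  if i < j then 0 else if i < n + j then f (n + j - 1 - i) else 0
/-- Signs of a block read backwards. -/
noncomputable def snn (j i : ℕ) : ℝ := if i ≤ j then 1 else (-1) ^ (i - j)
/-- Sums of the digits of a block. -/
noncomputable def prt (P : Par) (n j : ℕ) (f : ℕ → ℝ) (i : ℕ) : ℝ :=
  ∑ a ∈ range i, snn j a * dgt n j f a * w (1 + P.q * a)

/-- One step of the recursion. -/
noncomputable def step (P : Par) (I : Info) (n j : ℕ) (f : ℕ → ℝ) : Info where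
  pi := pw (n + j) (cnt I (P.p * n)) (dgt n j f) I.pi I.pi
  e := pw (n + j) (cnt I (P.p * n)) (fun i => 1 + P.q * i)
    (fun i => 2 + P.q * (n + j) + tau P I (I.e i)) (fun i => 2 + P.qs * n + P.q * j + P.p + I.e i)
  sn := pw (n + j) (cnt I (P.p * n)) (snn j) (fun i => (-1) ^ n * I.sn i)
    (fun i => (-1) ^ n * I.sn i)
  h := pw (n + j) (cnt I (P.p * n)) (prt P n j f)
    (fun i => prt P n j f (n + j) + Bc P n j * pos P I f (I.e i))
    (fun i => prt P n j f (n + j) + Bc P n j * pos P I f (P.p * n) + Bs P n j *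
      (I.h i - I.h (cnt I (P.p * n)) + (I.mu i - I.mu (cnt I (P.p * n))) *
        (pos P I f (P.p * n) - I.kn (cnt I (P.p * n)) / sig P n)))
  mu := pw (n + j) (cnt I (P.p * n)) (fun _ => 0) (fun _ => 0)
    (fun i => Bc P n j * lam P n j + Bs P n j * (I.mu i - I.mu (cnt I (P.p * n))) * lam P n j)
  kn := pw (n + j) (cnt I (P.p * n)) (fun i => prt P n j f i - prt P n j f (n + j))
    (fun i => Bc P n j * pos P I f (I.e i)) (fun i => Bs P n j * I.kn i)
  gg := pw (n + j) (cnt I (P.p * n)) (fun _ => Bc P n j) (fun _ => Bc P n j)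
    (fun i => Bs P n j * I.gg i)
  cc := pw (n + j) (cnt I (P.p * n)) (fun _ => pos P I f (P.p * n)) (fun _ => pos P I f (P.p * n))
    I.cc
  rd := pw (n + j) (cnt I (P.p * n)) (fun _ => P.D * n + P.p) (fun _ => P.D * n + P.p) I.rd
  S := pw (n + j) (cnt I (P.p * n)) (fun _ => n + j) (fun _ => n + j) (fun i => n + j + I.S i)
  fr := pw (n + j) (cnt I (P.p * n)) (fun _ => 1) (fun _ => 1) (fun i => I.fr i + 1)

/-- The data of the primary leaf. -/
noncomputable def info0 (P : Par) : Info where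
  pi := fun _ => 0
  e := fun i => 1 + P.q * i
  sn := fun _ => 1
  h := fun _ => 0
  mu := fun _ => 0
  kn := fun _ => 0
  gg := fun _ => 0
  cc := fun _ => 0
  rd := fun _ => 0
  S := fun _ => 1
  fr := fun _ => 1

variable {P : Par} {I : Info}

lemma sig_pos (n : ℕ) : 0 < sig P n := div_pos (w_pos _) (w_pos _)

lemma sig_mul (n x : ℕ) : sig P n * w (x + P.p) = w (P.s * n + x) := by
  unfold sig
  have := w_pos P.p
  rw [w_add, w_add]; field_simp

lemma div_sig (n x : ℕ) : w (P.s * n + x) / sig P n = w (x + P.p) := by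
  rw [← sig_mul, mul_div_cancel_left₀ _ (sig_pos n).ne']

lemma abs_sg (n : ℕ) : |(-1 : ℝ) ^ n| = 1 := by simp

lemma sg_sq (n : ℕ) : (-1 : ℝ) ^ n * (-1) ^ n = 1 := by rw [← mul_pow]; simp

lemma abs_Bc (n j : ℕ) : |Bc P n j| = w (2 + P.q * (n + j)) := by
  unfold Bc; rw [abs_mul, abs_sg, w_abs, one_mul]

lemma abs_Bs (n j : ℕ) : |Bs P n j| = w (2 + P.qs * n + P.q * j + P.p) := by
  unfold Bs; rw [abs_mul, abs_sg, w_abs, one_mul]

lemma abs_lam (n j : ℕ) : |lam P n j| = w (P.D * n + P.p * j + P.p) := by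
  unfold lam; rw [abs_mul, abs_sg, w_abs, one_mul]

lemma Bs_sig (n j : ℕ) : Bs P n j * sig P n = Bc P n j := by
  unfold Bs Bc
  rw [mul_assoc, mul_comm _ (sig P n), sig_mul, P.hq]
  congr 2; ring

lemma sig_lam (n j : ℕ) : sig P n * lam P n j = (-1) ^ n * w (P.p * (n + j)) := by
  unfold lam
  rw [mul_left_comm, sig_mul]
  congr 2
  rw [mul_add P.p n j]
  nth_rewrite 2 [P.hp]
  ring

lemma sig_J (n : ℕ) : sig P n * w (P.D * n + P.p) = w (P.p * n) := by
  rw [sig_mul]; congr 1; rw [P.hp]; ring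

lemma good_info0 : Good P (info0 P) := by
  have hq : P.D ≤ P.q := by have := P.qs_ge; have := P.hq; have := P.hp; omega
  have hD := P.D_ge
  refine ⟨?_, ?_, ?_, ?_, ?_, rfl, rfl, ?_, ?_, ?_, ?_, ?_, ?_, ?_, ?_, ?_, ?_⟩ <;>
    simp only [info0]
  · intro a b h; simp only; nlinarith
  · intro i; have := Par.mul_even P.q_even i; omega
  · intro i; nlinarith
  · intro i; simp [Tri]
  · simp
  · intro i t _; simp; have := w_pos (1 + P.q * i); positivity
  · intro i t _; simp; have := w_pos (1 + P.q * i); positivity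
  · simp
  · intro i; simp; exact (w_pos _).le
  · simp
  · simp
  · exact monotone_const
  · simp
  · simp
  · simp

lemma dgt_tri {n j : ℕ} {f : ℕ → ℝ} (hf : ∀ a, Tri (f a)) (i : ℕ) : Tri (dgt n j f i) := by
  unfold dgt; split_ifs
  · simp [Tri]
  · exact hf _
  · simp [Tri]

lemma snn_val (j i : ℕ) : snn j i = 1 ∨ snn j i = -1 := by
  unfold snn; split_ifs
  · simp
  · exact neg_one_pow_eq_or ℝ _

lemma dgt_top (n j : ℕ) (f : ℕ → ℝ) : dgt n j f (n + j) = 0 := by
  unfold dgt; split_ifs <;> first | rfl | omega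

lemma prt_succ (n j : ℕ) (f : ℕ → ℝ) (i : ℕ) :
    prt P n j f (i + 1) = prt P n j f i + snn j i * dgt n j f i * w (1 + P.q * i) :=
  sum_range_succ _ _

lemma q_ge (P : Par) : 11 * P.p + 60 ≤ P.q := by
  have := P.qs_ge; have := P.big_ge; have := P.hq; omega

lemma prt_tail {n j : ℕ} {f : ℕ → ℝ} (hf : ∀ a, Tri (f a)) (x y : ℕ) (hxy : x ≤ y) :
    |prt P n j f y - prt P n j f x| ≤ 1002 / 1000 * (w (1 + P.q * x) - w (1 + P.q * y)) := by
  induction y, hxy using Nat.le_induction with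
  | base => simp
  | succ y hxy ih =>
    rw [prt_succ]
    have h1 : |snn j y * dgt n j f y * w (1 + P.q * y)| ≤ w (1 + P.q * y) := by
      rw [abs_mul, abs_mul, w_abs]
      have a1 : |snn j y| = 1 := by rcases snn_val j y with h | h <;> simp [h]
      rw [a1, one_mul]
      exact mul_le_of_le_one_left (w_pos _).le (dgt_tri hf y).abs_le
    have hq := q_ge P
    have h2 := w_lt (x := 1 + P.q * y) (y := 1 + P.q * (y + 1)) (by nlinarith)
    have h3 := w_pos (1 + P.q * y)
    rw [abs_le] at *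
    constructor <;> linarith [h1.1, h1.2, ih.1, ih.2]

lemma Good.kn_le (hI : Good P I) (i : ℕ) : |I.kn i| ≤ |I.gg i| / 100 + 105 / 100 * w (I.e i) := by
  have h1 := hI.frm i (I.cc i) (by simp [(w_pos _).le])
  have h2 : |I.gg i * I.cc i| ≤ |I.gg i| / 100 := by
    rw [abs_mul]; have := hI.cc_le i; have := abs_nonneg (I.gg i); nlinarith
  have h3 : |I.sn i * I.pi i * w (I.e i)| ≤ w (I.e i) := by
    rw [abs_mul, abs_mul, w_abs]
    have a1 : |I.sn i| = 1 := by rcases hI.sn_val i with h | h <;> simp [h]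
    rw [a1, one_mul]
    exact mul_le_of_le_one_left (w_pos _).le (hI.pi_val i).abs_le
  rw [abs_le] at h1 h2 h3 ⊢
  constructor <;> linarith [h1.1, h1.2, h2.1, h2.2, h3.1, h3.2]

lemma Good.gg_sig (hI : Good P I) (n : ℕ) : |I.gg (cnt I (P.p * n)) / sig P n| ≤
    w (P.d * n + P.big * I.S (cnt I (P.p * n)) + P.p) := by
  have := hI.gg_key n _ (le_e_cnt hI.e_mono (P.p * n))
  rw [abs_div, abs_of_pos (sig_pos n), ← div_sig, ← add_assoc]
  gcongr
  exact (sig_pos n).le

lemma Good.e_sig (hI : Good P I) (n : ℕ) :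
    w (I.e (cnt I (P.p * n))) / sig P n ≤ w (P.D * n + P.p) / 1000 := by
  rw [div_le_iff₀ (sig_pos n)]
  have := w_lt (hI.lt_e_cnt n)
  rw [← sig_J] at this
  linarith

lemma Good.kn_sig (hI : Good P I) (n : ℕ) : |I.kn (cnt I (P.p * n)) / sig P n| ≤
    w (P.d * n + P.big * I.S (cnt I (P.p * n)) + P.p) / 100 + w (P.D * n + P.p) / 500 := by
  have h1 := hI.gg_sig n
  have h2 := hI.e_sig n
  have h3 := hI.kn_le (cnt I (P.p * n))
  have hs := sig_pos (P := P) n
  rw [abs_div, abs_of_pos hs] at *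
  have h4 := div_le_div_of_nonneg_right h3 hs.le
  rw [add_div, div_right_comm, mul_div_assoc] at h4
  have := w_pos (P.D * n + P.p)
  linarith

lemma Good.tau_J (hI : Good P I) (n : ℕ) {x : ℕ} (hl : Live P I x) (hx : x ≤ P.p * n) :
    tau P I x + 3 ≤ P.d * n + P.p := by
  have h1 := hI.tau_le hl hx
  have h2 := hI.tau_mul n
  have h3 := P.d_ge
  have h4 : (2 * P.m + 4) * n ≤ P.d * n := by gcongr; omega
  have := P.D_ge; have := P.hp
  omega

lemma d_le_D (P : Par) (n : ℕ) : P.d * n ≤ P.D * n := by rw [P.hD]; nlinarith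

theorem Good.step (hI : Good P I) {n : ℕ} (hn : 1 ≤ n) (j : ℕ) {f : ℕ → ℝ} (hf : ∀ a, Tri (f a)) :
    Good P (step P I n j f) := by
  have hq := q_ge P
  have hD := P.D_ge
  have hp := P.hp
  have hqq := P.hq
  have hqs := P.qs_ge
  have hbig := P.big_ge
  have hs2 := P.s_ge
  set k := cnt I (P.p * n) with hk
  have eN : P.q * (n + j) = P.s * n + P.qs * n + P.q * j := by rw [mul_add, hqq]; ring
  have epn : P.p * n = P.s * n + P.D * n := by rw [hp]; ring
  have hek : P.p * n ≤ I.e k := le_e_cnt hI.e_mono _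
  have hlt : ∀ i, i < k → I.e i < P.p * n := fun i hi => (lt_cnt_iff hI.e_mono _ _).1 hi
  have hdD := d_le_D P n
  have hc := hI.pos_abs hf (P.p * n)
  have hw2 := w_two
  have hlam : |lam P n j| ≤ w (P.D * n + P.p) := by rw [abs_lam]; apply w_anti; omega
  have hJ1 : w (P.D * n + P.p) ≤ 1 / 1000 := by rw [← w_one]; apply w_anti; omega
  have hBc := abs_Bc (P := P) n j
  have hBs := abs_Bs (P := P) n j
  refine ⟨?_, ?_, ?_, ?_, ?_, ?_, ?_, ?_, ?_, ?_, ?_, ?_, ?_, ?_, ?_, ?_, ?_⟩ <;>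
    simp only [MP_97fbd9_an.step, ← hk]
  · refine strictMono_nat_of_lt_succ fun i => ?_
    rcases pw_cases2 (n + j) k i with h | ⟨rfl, h⟩ | ⟨rfl, h⟩ | ⟨i', h, rfl⟩ | ⟨i', h, rfl⟩ |
      ⟨i', h, rfl⟩
    · rw [pw_lo h, pw_lo (by omega)]; nlinarith
    · rw [pw_lo le_rfl, ← add_zero (n + j + 1), pw_mid h]; omega
    · rw [pw_lo le_rfl, ← add_zero (n + j + 1), pw_hi h.le]; rw [h] at hek; omega
    · rw [add_assoc _ i', pw_mid h, pw_mid (by omega)]
      have := hI.tau_lt (live_e hI.e_mono i') (hI.e_mono (Nat.lt_succ_self i'))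
      simp only [Nat.succ_eq_add_one] at this
      omega
    · rw [add_assoc _ i', pw_mid (by omega), pw_hi h.ge]
      have := hI.tau_J n (live_e hI.e_mono i') (hlt i' (by omega)).le
      rw [h]; omega
    · rw [add_assoc _ i', pw_hi h, pw_hi (by omega)]
      have := hI.e_mono (Nat.lt_succ_self i')
      simp only [Nat.succ_eq_add_one] at this
      omega
  · intro i
    have a1 := Par.mul_even P.q_even i
    have a2 := Par.mul_even P.q_even (n + j)
    have a3 := Par.mul_even P.q_even j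
    have a4 := Par.mul_even P.qs_even n
    have a5 := P.p_even
    rcases pw_cases (n + j) k i with h | ⟨i', h, rfl⟩ | ⟨i', h, rfl⟩
    · rw [pw_lo h]; omega
    · rw [pw_mid h]; unfold tau; have := hI.e_odd i'; omega
    · rw [pw_hi h]; have := hI.e_odd i'; omega
  · intro i
    rcases pw_cases (n + j) k i with h | ⟨i', h, rfl⟩ | ⟨i', h, rfl⟩
    · rw [pw_lo h]; nlinarith
    · rw [pw_mid h]
      have a1 := hI.cnt_le n
      have a2 : P.D * i' ≤ P.p * n := by
        rw [P.p_eq]
        calc P.D * i' ≤ P.D * ((P.m + 1) * n) := by gcongr; omega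
          _ = _ := by ring
      have a3 : (2 * P.D + P.p) * (n + j) ≤ P.q * (n + j) := by gcongr; omega
      nlinarith
    · rw [pw_hi h]
      have a1 := hI.e_lb i'
      have a2 : P.D * n ≤ P.qs * n := by gcongr; omega
      have a3 : P.D * j ≤ P.q * j := by gcongr; omega
      nlinarith
  · intro i
    rcases pw_cases (n + j) k i with h | ⟨i', h, rfl⟩ | ⟨i', h, rfl⟩
    · rw [pw_lo h]; exact dgt_tri hf i
    · rw [pw_mid h]; exact hI.pi_val i'
    · rw [pw_hi h]; exact hI.pi_val i'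
  · intro i
    have : ∀ i', (-1 : ℝ) ^ n * I.sn i' = 1 ∨ (-1 : ℝ) ^ n * I.sn i' = -1 := fun i' => by
      rcases neg_one_pow_eq_or ℝ n with h | h <;> rcases hI.sn_val i' with h' | h' <;>
        simp [h, h']
    rcases pw_cases (n + j) k i with h | ⟨i', h, rfl⟩ | ⟨i', h, rfl⟩
    · rw [pw_lo h]; exact snn_val j i
    · rw [pw_mid h]; exact this i'
    · rw [pw_hi h]; exact this i'
  · rw [pw_lo (Nat.zero_le _)]; simp [prt]
  · rw [pw_lo (Nat.zero_le _)]
  · intro i t ht
    have hlt' : |lam P n j * t| ≤ w (P.D * n + P.p) := by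
      rw [abs_mul]; exact (mul_le_of_le_one_right (abs_nonneg _) ht).trans hlam
    rcases pw_cases2 (n + j) k i with h | ⟨rfl, h⟩ | ⟨rfl, h⟩ | ⟨i', h, rfl⟩ | ⟨i', h, rfl⟩ |
      ⟨i', h, rfl⟩
    · have h' : i ≤ n + j := by omega
      simp only [pw_lo h, pw_lo h', prt_succ]
      refine le_trans (le_of_eq ?_) (by have := w_pos (1 + P.q * i); positivity)
      rw [abs_eq_zero]; ring
    · rw [← add_zero (n + j + 1)]
      simp only [pw_lo le_rfl, pw_mid h, dgt_top]
      have a1 := hI.pos_abs hf (I.e 0)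
      have e : prt P n j f (n + j) + Bc P n j * pos P I f (I.e 0) + 0 * t -
        (prt P n j f (n + j) + 0 * t) - snn j (n + j) * 0 * w (1 + P.q * (n + j)) =
        Bc P n j * pos P I f (I.e 0) := by ring
      have a2 := w_lt (x := 1 + P.q * (n + j)) (y := 2 + P.q * (n + j)) (by omega)
      have a3 := w_pos (2 + P.q * (n + j))
      rw [e, abs_mul, hBc]
      nlinarith
    · rw [← add_zero (n + j + 1)]
      simp only [pw_lo le_rfl, pw_hi (le_refl 0), dgt_top, h]
      have e : prt P n j f (n + j) + Bc P n j * pos P I f (P.p * n) + Bs P n j *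
        (I.h 0 - I.h 0 + (I.mu 0 - I.mu 0) * (pos P I f (P.p * n) - I.kn 0 / sig P n)) +
        (Bc P n j * lam P n j + Bs P n j * (I.mu 0 - I.mu 0) * lam P n j) * t -
        (prt P n j f (n + j) + 0 * t) - snn j (n + j) * 0 * w (1 + P.q * (n + j)) =
        Bc P n j * (pos P I f (P.p * n) + lam P n j * t) := by ring
      have a2 := w_lt (x := 1 + P.q * (n + j)) (y := 2 + P.q * (n + j)) (by omega)
      have a3 := w_pos (2 + P.q * (n + j))
      have a4 := abs_add_le (pos P I f (P.p * n)) (lam P n j * t)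
      rw [e, abs_mul, hBc]
      nlinarith
    · have h' : i' < k := by omega
      rw [add_assoc _ i']
      simp only [pw_mid h, pw_mid h']
      have a1 := hI.pos_loc hf (live_e hI.e_mono i') (hI.e_mono (Nat.lt_succ_self i'))
      rw [hI.dig_e] at a1
      have e : prt P n j f (n + j) + Bc P n j * pos P I f (I.e (i' + 1)) + 0 * t -
        (prt P n j f (n + j) + Bc P n j * pos P I f (I.e i') + 0 * t) -
        (-1) ^ n * I.sn i' * I.pi i' * w (2 + P.q * (n + j) + tau P I (I.e i')) =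
        Bc P n j * (pos P I f (I.e (i' + 1)) - pos P I f (I.e i') -
          I.sn i' * I.pi i' * w (tau P I (I.e i'))) := by rw [w_add (2 + _)]; unfold Bc; ring
      have a3 := w_pos (2 + P.q * (n + j))
      have a4 := w_pos (tau P I (I.e i'))
      rw [e, abs_mul, hBc, w_add (2 + _)]
      simp only [Nat.succ_eq_add_one] at a1
      nlinarith
    · have h' : i' < k := by omega
      rw [add_assoc _ i']
      simp only [pw_hi (le_refl k), pw_mid h', h]
      have a1 := hI.pos_loc hf (live_e hI.e_mono i') (hlt i' h')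
      rw [hI.dig_e] at a1
      have a2 := w_lt (x := tau P I (I.e i')) (y := P.D * n + P.p)
        (by have := hI.tau_J n (live_e hI.e_mono i') (hlt i' h').le; omega)
      have e : prt P n j f (n + j) + Bc P n j * pos P I f (P.p * n) + Bs P n j *
        (I.h k - I.h k + (I.mu k - I.mu k) * (pos P I f (P.p * n) - I.kn k / sig P n)) +
        (Bc P n j * lam P n j + Bs P n j * (I.mu k - I.mu k) * lam P n j) * t -
        (prt P n j f (n + j) + Bc P n j * pos P I f (I.e i') + 0 * t) -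
        (-1) ^ n * I.sn i' * I.pi i' * w (2 + P.q * (n + j) + tau P I (I.e i')) =
        Bc P n j * ((pos P I f (P.p * n) - pos P I f (I.e i') -
          I.sn i' * I.pi i' * w (tau P I (I.e i'))) + lam P n j * t) := by
        rw [w_add (2 + _)]; unfold Bc; ring
      have a3 := w_pos (2 + P.q * (n + j))
      have a4 := w_pos (tau P I (I.e i'))
      have a5 := abs_add_le (pos P I f (P.p * n) - pos P I f (I.e i') -
          I.sn i' * I.pi i' * w (tau P I (I.e i'))) (lam P n j * t)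
      rw [e, abs_mul, hBc, w_add (2 + _)]
      nlinarith
    · have h' : k ≤ i' + 1 := by omega
      rw [add_assoc _ i']
      simp only [pw_hi h, pw_hi h']
      have a0 := hI.kn_sig n
      rw [← hk] at a0
      have a0' := w_le_one (P.d * n + P.big * I.S k + P.p)
      have a1 := hI.inc i' (pos P I f (P.p * n) - I.kn k / sig P n + lam P n j * t) (by
        rw [abs_le] at *
        constructor <;> linarith [a0.1, a0.2, hc.1, hc.2, hlt'.1, hlt'.2])
      have a3 := w_pos (2 + P.qs * n + P.q * j + P.p)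
      rw [w_add (2 + _ + _ + _), mul_div_assoc, ← hBs]
      refine le_trans (le_of_eq ?_) (mul_le_mul_of_nonneg_left a1 (abs_nonneg (Bs P n j)))
      rw [← abs_mul, hBs]
      unfold Bs
      congr 1; ring
  · intro i t ht
    rcases pw_cases (n + j) k i with h | ⟨i', h, rfl⟩ | ⟨i', h, rfl⟩
    · simp only [pw_lo h] at ht ⊢
      have a0 : |t| ≤ 1 := by
        rw [abs_le] at *; constructor <;> linarith [ht.1, ht.2, hc.1, hc.2]
      have a1 : |Bc P n j * t| ≤ w (1 + P.q * i) / 1000 := by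
        rw [abs_mul, hBc]
        refine (mul_le_of_le_one_right (w_pos _).le a0).trans (w_lt ?_)
        have : P.q * i ≤ P.q * (n + j) := by gcongr
        omega
      have a2 := w_pos (1 + P.q * i)
      rcases eq_or_lt_of_le h with rfl | h'
      · rw [dgt_top]; simp only [sub_self, sub_zero, mul_zero, zero_mul]; linarith
      · have a3 := prt_tail (P := P) (n := n) (j := j) hf (i + 1) (n + j) h'
        have a4 := w_lt (x := 1 + P.q * i) (y := 1 + P.q * (i + 1)) (by nlinarith)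
        have a5 := w_pos (1 + P.q * (n + j))
        rw [prt_succ] at a3
        rw [abs_le] at *
        constructor <;> linarith [a1.1, a1.2, a3.1, a3.2]
    · simp only [pw_mid h] at ht ⊢
      have a1 := hI.pos_loc hf (live_e hI.e_mono i') (hlt i' h)
      rw [hI.dig_e] at a1
      have a2 := w_lt (x := tau P I (I.e i')) (y := P.D * n + P.p)
        (by have := hI.tau_J n (live_e hI.e_mono i') (hlt i' h).le; omega)
      have e : Bc P n j * t - Bc P n j * pos P I f (I.e i') -
        (-1) ^ n * I.sn i' * I.pi i' * w (2 + P.q * (n + j) + tau P I (I.e i')) =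
        Bc P n j * ((pos P I f (P.p * n) - pos P I f (I.e i') -
          I.sn i' * I.pi i' * w (tau P I (I.e i'))) + (t - pos P I f (P.p * n))) := by
        rw [w_add (2 + _)]; unfold Bc; ring
      have a3 := w_pos (2 + P.q * (n + j))
      have a4 := w_pos (tau P I (I.e i'))
      have a5 := abs_add_le (pos P I f (P.p * n) - pos P I f (I.e i') -
          I.sn i' * I.pi i' * w (tau P I (I.e i'))) (t - pos P I f (P.p * n))
      rw [e, abs_mul, hBc, w_add (2 + _)]
      nlinarith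
    · simp only [pw_hi h] at ht ⊢
      have a1 := hI.frm i' t ht
      rw [w_add (2 + _ + _ + _), mul_div_assoc, ← hBs]
      refine le_trans (le_of_eq ?_) (mul_le_mul_of_nonneg_left a1 (abs_nonneg (Bs P n j)))
      rw [← abs_mul, hBs]
      unfold Bs
      congr 1; ring
  · intro i
    rcases pw_cases (n + j) k i with h | ⟨i', h, rfl⟩ | ⟨i', h, rfl⟩
    · rw [pw_lo h]; linarith
    · rw [pw_mid h]; linarith
    · rw [pw_hi h]; exact hI.cc_le i'
  · intro i
    have a1 : P.qs * (n + j) ≤ P.q * (n + j) := by gcongr; omega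
    rcases pw_cases (n + j) k i with h | ⟨i', h, rfl⟩ | ⟨i', h, rfl⟩
    · rw [pw_lo h, pw_lo h, hBc]; apply w_anti; omega
    · rw [pw_mid h, pw_mid h, hBc]; apply w_anti; omega
    · rw [pw_hi h, pw_hi h, abs_mul, hBs, mul_add, w_add (P.qs * _)]
      have a2 : P.qs * j ≤ P.q * j := by gcongr; omega
      have a3 := w_anti (x := P.qs * (n + j)) (y := 2 + P.qs * n + P.q * j + P.p)
        (by rw [mul_add]; omega)
      have := hI.gg_le i'
      have := w_pos (P.qs * (n + j))
      gcongr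
  · intro i
    have a1 : P.D * n + P.p ≤ (P.D + P.p) * (n + j) := by nlinarith
    rcases pw_cases (n + j) k i with h | ⟨i', h, rfl⟩ | ⟨i', h, rfl⟩
    · rw [pw_lo h, pw_lo h]; exact a1
    · rw [pw_mid h, pw_mid h]; exact a1
    · rw [pw_hi h, pw_hi h]; have := hI.rd_le i'; nlinarith
  · intro i
    rcases pw_cases (n + j) k i with h | ⟨i', h, rfl⟩ | ⟨i', h, rfl⟩
    · rw [pw_lo h]; omega
    · rw [pw_mid h]; omega
    · rw [pw_hi h]; omega
  · refine monotone_nat_of_le_succ fun i => ?_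
    rcases pw_cases2 (n + j) k i with h | ⟨rfl, h⟩ | ⟨rfl, h⟩ | ⟨i', h, rfl⟩ | ⟨i', h, rfl⟩ |
      ⟨i', h, rfl⟩
    · rw [pw_lo h, pw_lo (by omega)]
    · rw [pw_lo le_rfl, ← add_zero (n + j + 1), pw_mid h]
    · rw [pw_lo le_rfl, ← add_zero (n + j + 1), pw_hi h.le]; omega
    · rw [add_assoc _ i', pw_mid h, pw_mid (by omega)]
    · rw [add_assoc _ i', pw_mid (by omega), pw_hi h.ge]; omega
    · rw [add_assoc _ i', pw_hi h, pw_hi (by omega)]
      have := hI.fr_mono (Nat.le_succ i')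
      simp only [Nat.succ_eq_add_one] at this
      omega
  · intro i
    rcases pw_cases (n + j) k i with h | ⟨i', h, rfl⟩ | ⟨i', h, rfl⟩
    · rw [pw_lo h]
    · rw [pw_mid h]
    · rw [pw_hi h]; omega
  · intro i1 i2
    rcases pw_cases (n + j) k i1 with h | ⟨i', h, rfl⟩ | ⟨i', h, rfl⟩ <;>
      rcases pw_cases (n + j) k i2 with g | ⟨i'', g, rfl⟩ | ⟨i'', g, rfl⟩
    · simp only [pw_lo h, pw_lo g, implies_true]
    · simp only [pw_lo h, pw_mid g, implies_true]
    · simp only [pw_lo h, pw_hi g]; intro H; have := hI.fr_pos i''; omega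
    · simp only [pw_mid h, pw_lo g, implies_true]
    · simp only [pw_mid h, pw_mid g, implies_true]
    · simp only [pw_mid h, pw_hi g]; intro H; have := hI.fr_pos i''; omega
    · simp only [pw_hi h, pw_lo g]; intro H; have := hI.fr_pos i'; omega
    · simp only [pw_hi h, pw_mid g]; intro H; have := hI.fr_pos i'; omega
    · simp only [pw_hi h, pw_hi g]; intro H; rw [hI.same_mu i' i'' (by omega)]
  · obtain ⟨i0, h0⟩ := hI.stab
    refine ⟨n + j + 1 + max k i0, fun i hi => ?_⟩
    obtain ⟨i', rfl⟩ : ∃ i', i = n + j + 1 + i' := ⟨i - (n + j + 1), by omega⟩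
    have b1 : k ≤ i' := by omega
    have b2 : k ≤ max k i0 := le_max_left _ _
    obtain ⟨c1, c2, c3, c4, c5⟩ := h0 i' (by omega)
    obtain ⟨-, -, -, d4, d5⟩ := h0 (max k i0) (le_max_right _ _)
    simp only [pw_hi b1, pw_hi b2, c1, c2, c3, c4, c5, d4, d5, mul_zero, and_self]

end Pool.Agent.P.MP_97fbd9_an
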