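import Pool.Agent.P.MP_97fbd9_an.Info

/-! The data depend only on the known digits. -/

open Finset

namespace Pool.Agent.P.MP_97fbd9_an

/-- A block: a nonempty word of signs followed by `j` zeros. -/
structure Block where
  n0 : ℕ
  j : ℕ
  wd : ℕ → Bool

/-- A sign. -/
def sgb (b : Bool) : ℝ := if b then 1 else -1

lemma sgb_val (b : Bool) : sgb b = 1 ∨ sgb b = -1 := by cases b <;> simp [sgb]
lemma sgb_ne (b : Bool) : sgb b ≠ 0 := by cases b <;> simp [sgb]
lemma sgb_tri (b : Bool) : Tri (sgb b) := by cases b <;> simp [sgb, Tri]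

/-- Length of the word. -/
def Block.n (b : Block) : ℕ := b.n0 + 1
/-- Future digits of a block. -/
noncomputable def Block.f (b : Block) (a : ℕ) : ℝ := if a < b.n then sgb (b.wd a) else 0

lemma Block.n_pos (b : Block) : 1 ≤ b.n := Nat.succ_pos _
lemma Block.f_tri (b : Block) (a : ℕ) : Tri (b.f a) := by
  unfold Block.f; split_ifs
  · exact sgb_tri _
  · simp [Tri]
lemma Block.f_ne (b : Block) {a : ℕ} (h : a < b.n) : b.f a ≠ 0 := by
  unfold Block.f; rw [if_pos h]; exact sgb_ne _
lemma Block.f_zero (b : Block) {a : ℕ} (h : b.n ≤ a) : b.f a = 0 := by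
  unfold Block.f; rw [if_neg (by omega)]

/-- The data of a list of blocks, most recent first. -/
noncomputable def info (P : Par) : List Block → Info
  | [] => info0 P
  | b :: L => step P (info P L) b.n b.j b.f

variable {P : Par}

lemma good_info (L : List Block) : Good P (info P L) := by
  induction L with
  | nil => exact good_info0
  | cons b L ih => exact ih.step b.n_pos b.j b.f_tri

/-- Agreement of the first `i` past digits. -/
def Agree (I I' : Info) (i : ℕ) : Prop := ∀ a < i, I.pi a = I'.pi a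

/-- Agreement of the data up to depth `i`. -/
structure LocP (I I' : Info) (i : ℕ) : Prop where
  e : ∀ a ≤ i, I.e a = I'.e a
  sn : ∀ a ≤ i, I.sn a = I'.sn a
  h : ∀ a ≤ i, I.h a = I'.h a
  mu : ∀ a ≤ i, I.mu a = I'.mu a
  fr : ∀ a ≤ i, I.fr a = I'.fr a
  kg : ∀ a b, a ≤ b → b ≤ i → I.fr a < I.fr b → I.kn a = I'.kn a ∧ I.gg a = I'.gg a

lemma Agree.symm {I I' : Info} {i : ℕ} (h : Agree I I' i) : Agree I' I i :=
  fun a ha => (h a ha).symm

lemma Agree.mono {I I' : Info} {i i' : ℕ} (h : Agree I I' i) (hi : i' ≤ i) : Agree I I' i' :=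
  fun a ha => h a (by omega)

section node

variable {I I' : Info} {i : ℕ}

lemma cnt_congr (hI : StrictMono I.e) (hI' : StrictMono I'.e) (h : ∀ a ≤ i, I.e a = I'.e a)
    {x : ℕ} (hx : cnt I x ≤ i) : cnt I' x = cnt I x := by
  apply le_antisymm
  · rw [cnt_le_iff hI', ← h _ hx]; exact le_e_cnt hI x
  · by_contra hc
    have h1 := (lt_cnt_iff hI x _).1 (not_le.1 hc)
    rw [h _ (by omega)] at h1
    have := le_e_cnt hI' x
    omega

lemma tau_congr (hI : Good P I) (hI' : Good P I') (h : LocP I I' i) {x : ℕ} (hx : cnt I x ≤ i) :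
    tau P I' x = tau P I x := by
  unfold tau; rw [cnt_congr hI.e_mono hI'.e_mono h.e hx]

lemma live_congr (hI : Good P I) (hI' : Good P I') (h : LocP I I' i) {x : ℕ} (hx : cnt I x ≤ i)
    (hl : Live P I x) : Live P I' x := by
  unfold Live at *
  rwa [cnt_congr hI.e_mono hI'.e_mono h.e hx, ← h.e _ hx]

lemma dig_congr (hI : Good P I) (hI' : Good P I') (h : LocP I I' i) (ha : Agree I I' i)
    {f f' : ℕ → ℝ} {x : ℕ} (hx : cnt I (x + 1) ≤ i) (hf : ∀ a < aF P (x + 1), f a = f' a) :
    dig P I' f' x = dig P I f x := by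
  have hx' : cnt I x ≤ i := (cnt_mono hI.e_mono (Nat.le_succ x)).trans hx
  unfold dig
  rw [cnt_congr hI.e_mono hI'.e_mono h.e hx', ← h.e _ hx', ← h.sn _ hx']
  split_ifs with h1 h2
  · obtain ⟨a, rfl⟩ := h1
    rw [Nat.mul_div_cancel_left _ P.p_pos, hf a (by rw [aF_mul_succ]; omega)]
  · rw [ha _ ?_]
    have : cnt I (x + 1) = cnt I x + 1 := by
      conv_lhs => rw [← h2, cnt_e_succ hI.e_mono]
    omega
  · rfl

lemma pos_congr (hI : Good P I) (hI' : Good P I') (h : LocP I I' i) (ha : Agree I I' i)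
    {f f' : ℕ → ℝ} {x : ℕ} (hx : cnt I x ≤ i) (hf : ∀ a < aF P x, f a = f' a) :
    pos P I' f' x = pos P I f x := by
  unfold pos
  refine sum_congr rfl fun y hy => ?_
  have hy := mem_range.1 hy
  rw [dig_congr hI hI' h ha ((cnt_mono hI.e_mono hy).trans hx)
    (fun a h' => hf a (lt_of_lt_of_le h' (aF_mono hy))),
    tau_congr hI hI' h ((cnt_mono hI.e_mono hy.le).trans hx)]

lemma kap_congr {f f' : ℕ → ℝ} {a : ℕ} (hf : ∀ b < a, f b = f' b) : kap P f' a = kap P f a := by
  unfold kap
  exact sum_congr rfl fun b hb => by rw [hf b (mem_range.1 hb)]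

end node

/-- The shape of the data on the most recent word. -/
def Low (P : Par) (I : Info) (N : ℕ) : Prop :=
  I.sn 0 = 1 ∧ ∀ i ≤ N, I.e i = 1 + P.q * i ∧ I.mu i = 0 ∧ I.fr i = 1 ∧
    I.h i = ∑ a ∈ range i, I.sn a * I.pi a * w (1 + P.q * a) ∧
    (i < N → I.sn (i + 1) = if I.pi i = 0 then I.sn i else - I.sn i)

lemma low_info0 (N : ℕ) : Low P (info0 P) N := by
  simp [Low, info0]

lemma low_step (I : Info) (b : Block) {N : ℕ} (hN : N ≤ b.n + b.j) :
    Low P (step P I b.n b.j b.f) N := by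
  refine ⟨by simp [step, pw_lo, snn], fun i hi => ?_⟩
  have hi' : i ≤ b.n + b.j := hi.trans hN
  simp only [step, pw_lo hi', true_and]
  refine ⟨?_, fun h => ?_⟩
  · unfold prt
    refine sum_congr rfl fun a ha => ?_
    have : a ≤ b.n + b.j := by have := mem_range.1 ha; omega
    rw [pw_lo this, pw_lo this]
  · rw [pw_lo (by omega)]
    unfold snn dgt
    by_cases h1 : i < b.j
    · simp [h1, h1.le, Nat.succ_le_of_lt h1]
    · have h2 : i < b.n + b.j := by omega
      have h3 : b.f (b.n + b.j - 1 - i) ≠ 0 := b.f_ne (by omega)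
      rw [if_neg (by omega), if_neg h1, if_pos h2, if_neg h3]
      have e : i + 1 - b.j = (i - b.j) + 1 := by omega
      rw [e, pow_succ]
      split_ifs with h4
      · have : i - b.j = 0 := by omega
        simp [this]
      · ring

lemma loc_low {I I' : Info} {i : ℕ} (h : Low P I i) (h' : Low P I' i) (ha : Agree I I' i) :
    LocP I I' i := by
  have hs : ∀ a ≤ i, I.sn a = I'.sn a := by
    intro a
    induction a with
    | zero => intro _; rw [h.1, h'.1]
    | succ a ih =>
      intro hi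
      rw [(h.2 a (by omega)).2.2.2.2 hi, (h'.2 a (by omega)).2.2.2.2 hi, ih (by omega),
        ha a hi]
  refine ⟨fun a hi => ?_, hs, fun a hi => ?_, fun a hi => ?_, fun a hi => ?_, ?_⟩
  · rw [(h.2 a hi).1, (h'.2 a hi).1]
  · rw [(h.2 a hi).2.2.2.1, (h'.2 a hi).2.2.2.1]
    refine sum_congr rfl fun b hb => ?_
    have := mem_range.1 hb
    rw [hs b (by omega), ha b (by omega)]
  · rw [(h.2 a hi).2.1, (h'.2 a hi).2.1]
  · rw [(h.2 a hi).2.2.1, (h'.2 a hi).2.2.1]
  · intro a b hab hb hlt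
    rw [(h.2 a (by omega)).2.2.1, (h.2 b hb).2.2.1] at hlt
    omega

lemma loc_step {I I' : Info} (hI : Good P I) (hI' : Good P I') {i : ℕ} (h : LocP I I' i)
    (ha : Agree I I' i) (n j : ℕ) (f : ℕ → ℝ) :
    LocP (step P I n j f) (step P I' n j f) (n + j + 1 + i) := by
  set k := cnt I (P.p * n) with hk
  have key : ∀ a ≤ n + j + 1 + i, a ≤ n + j ∨
      (∃ a', a = n + j + 1 + a' ∧ a' ≤ i ∧ a' < k ∧ a' < cnt I' (P.p * n) ∧
        pos P I' f (I'.e a') = pos P I f (I.e a') ∧ tau P I' (I'.e a') = tau P I (I.e a')) ∨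
      (∃ a', a = n + j + 1 + a' ∧ a' ≤ i ∧ k ≤ a' ∧ cnt I' (P.p * n) = k ∧
        pos P I' f (P.p * n) = pos P I f (P.p * n)) := by
    intro a hi
    rcases pw_cases (n + j) k a with g | ⟨a', g, rfl⟩ | ⟨a', g, rfl⟩
    · exact Or.inl g
    · have g1 : a' ≤ i := by omega
      have g2 : cnt I (I.e a') ≤ i := by rw [cnt_e hI.e_mono]; exact g1
      refine Or.inr (Or.inl ⟨a', rfl, g1, g, ?_, ?_, ?_⟩)
      · rw [lt_cnt_iff hI'.e_mono, ← h.e _ g1, ← lt_cnt_iff hI.e_mono]; exact g
      · rw [← h.e _ g1]; exact pos_congr hI hI' h ha g2 (fun _ _ => rfl)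
      · rw [← h.e _ g1]; exact tau_congr hI hI' h g2
    · have g2 : cnt I (P.p * n) ≤ i := by omega
      exact Or.inr (Or.inr ⟨a', rfl, by omega, g, cnt_congr hI.e_mono hI'.e_mono h.e g2,
        pos_congr hI hI' h ha g2 (fun _ _ => rfl)⟩)
  refine ⟨fun a hi => ?_, fun a hi => ?_, fun a hi => ?_, fun a hi => ?_, fun a hi => ?_, ?_⟩
  · rcases key a hi with g | ⟨a', rfl, g1, g2, g3, g4, g5⟩ | ⟨a', rfl, g1, g2, g3, g4⟩
    · simp only [step, pw_lo g]
    · simp only [step, ← hk, pw_mid g2, pw_mid g3, g5]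
    · simp only [step, ← hk, g3, pw_hi g2, h.e _ g1]
  · rcases key a hi with g | ⟨a', rfl, g1, g2, g3, g4, g5⟩ | ⟨a', rfl, g1, g2, g3, g4⟩
    · simp only [step, pw_lo g]
    · simp only [step, ← hk, pw_mid g2, pw_mid g3, h.sn _ g1]
    · simp only [step, ← hk, g3, pw_hi g2, h.sn _ g1]
  · rcases key a hi with g | ⟨a', rfl, g1, g2, g3, g4, g5⟩ | ⟨a', rfl, g1, g2, g3, g4⟩
    · simp only [step, pw_lo g]
    · simp only [step, ← hk, pw_mid g2, pw_mid g3, g4]
    · simp only [step, ← hk, g3, pw_hi g2, g4, ← h.h _ g1, ← h.mu _ g1,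
        ← h.h _ (g2.trans g1), ← h.mu _ (g2.trans g1)]
      rcases eq_or_lt_of_le (hI.fr_mono g2) with g5 | g5
      · rw [hI.same_mu _ _ g5]; simp
      · rw [(h.kg _ _ g2 g1 g5).1]
  · rcases key a hi with g | ⟨a', rfl, g1, g2, g3, g4, g5⟩ | ⟨a', rfl, g1, g2, g3, g4⟩
    · simp only [step, pw_lo g]
    · simp only [step, ← hk, pw_mid g2, pw_mid g3]
    · simp only [step, ← hk, g3, pw_hi g2, ← h.mu _ g1, ← h.mu _ (g2.trans g1)]
  · rcases key a hi with g | ⟨a', rfl, g1, g2, g3, g4, g5⟩ | ⟨a', rfl, g1, g2, g3, g4⟩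
    · simp only [step, pw_lo g]
    · simp only [step, ← hk, pw_mid g2, pw_mid g3]
    · simp only [step, ← hk, g3, pw_hi g2, h.fr _ g1]
  · intro a b hab hb hlt
    rcases key a (hab.trans hb) with g | ⟨a', rfl, g1, g2, g3, g4, g5⟩ | ⟨a', rfl, g1, g2, g3, g4⟩
    · simp only [step, pw_lo g, and_self]
    · simp only [step, ← hk, pw_mid g2, pw_mid g3, g4, and_self]
    · obtain ⟨b', rfl⟩ : ∃ b', b = n + j + 1 + b' := ⟨b - (n + j + 1), by omega⟩
      have g5 : k ≤ b' := by omega
      simp only [step, ← hk, pw_hi g2, pw_hi g5] at hlt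
      obtain ⟨c1, c2⟩ := h.kg a' b' (by omega) (by omega) (by omega)
      simp only [step, ← hk, g3, pw_hi g2, c1, c2, and_self]

lemma pi_step_lo (I : Info) (n j : ℕ) (f : ℕ → ℝ) {a : ℕ} (h : a ≤ n + j) :
    (step P I n j f).pi a = dgt n j f a := by simp only [step, pw_lo h]

lemma pi_step_hi (I : Info) (n j : ℕ) (f : ℕ → ℝ) (a : ℕ) :
    (step P I n j f).pi (n + j + 1 + a) = I.pi a := by
  rcases lt_or_ge a (cnt I (P.p * n)) with h | h
  · simp only [step, pw_mid h]
  · simp only [step, pw_hi h]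

lemma sn_step_hi (I : Info) (n j : ℕ) (f : ℕ → ℝ) (a : ℕ) :
    (step P I n j f).sn (n + j + 1 + a) = (-1) ^ n * I.sn a := by
  rcases lt_or_ge a (cnt I (P.p * n)) with h | h
  · simp only [step, pw_mid h]
  · simp only [step, pw_hi h]

lemma dgt_zero_iff (b : Block) (a : ℕ) : dgt b.n b.j b.f a = 0 ↔ a < b.j ∨ b.n + b.j ≤ a := by
  unfold dgt
  split_ifs with h1 h2
  · simp [h1]
  · simp only [b.f_ne (show b.n + b.j - 1 - a < b.n by omega), false_iff]; omega
  · simp; omega

lemma parse (b : Block) (L L' : List Block) {i : ℕ} (hi : b.n + b.j < i)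
    (ha : Agree (info P (b :: L)) (info P L') i) :
    ∃ b' L0, L' = b' :: L0 ∧ b'.n = b.n ∧ b'.j = b.j ∧ b'.f = b.f := by
  have hn := b.n_pos
  have h1 : ∀ a ≤ b.n + b.j, (info P L').pi a = dgt b.n b.j b.f a := fun a h => by
    rw [← ha a (by omega)]; exact pi_step_lo _ _ _ _ h
  rcases L' with _ | ⟨b', L0⟩
  · have := h1 b.j (by omega)
    simp only [info, info0] at this
    have := (dgt_zero_iff b b.j).1 this.symm
    omega
  have hn' := b'.n_pos
  have h2 : ∀ a, a ≤ b.n + b.j → a ≤ b'.n + b'.j → dgt b'.n b'.j b'.f a = dgt b.n b.j b.f a :=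
    fun a g g' => by rw [← h1 a g]; exact (pi_step_lo _ _ _ _ g').symm
  have h3 : ∀ a, a ≤ b.n + b.j → a ≤ b'.n + b'.j →
      ((a < b'.j ∨ b'.n + b'.j ≤ a) ↔ (a < b.j ∨ b.n + b.j ≤ a)) := fun a g g' => by
    rw [← dgt_zero_iff, ← dgt_zero_iff, h2 a g g']
  have j1 : b'.j = b.j := by
    rcases lt_trichotomy b'.j b.j with g | g | g
    · have := h3 b'.j (by omega) (by omega); omega
    · exact g
    · have := h3 b.j (by omega) (by omega); omega
  have n1 : b'.n = b.n := by
    rcases lt_trichotomy b'.n b.n with g | g | g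
    · have := h3 (b'.n + b'.j) (by omega) (by omega); omega
    · exact g
    · have := h3 (b.n + b.j) (by omega) (by omega); omega
  refine ⟨b', L0, rfl, n1, j1, funext fun a => ?_⟩
  rcases lt_or_ge a b.n with g | g
  · have := h2 (b.n + b.j - 1 - a) (by omega) (by omega)
    unfold dgt at this
    rw [j1, n1, if_neg (by omega), if_pos (by omega), if_neg (by omega), if_pos (by omega)] at this
    have e : b.n + b.j - 1 - (b.n + b.j - 1 - a) = a := by omega
    rwa [e] at this
  · rw [b.f_zero g, b'.f_zero (by omega)]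

theorem loc (L : List Block) : ∀ (L' : List Block) (i : ℕ),
    Agree (info P L) (info P L') i → LocP (info P L) (info P L') i := by
  induction L with
  | nil =>
    intro L' i ha
    rcases L' with _ | ⟨b', L0⟩
    · exact loc_low (low_info0 i) (low_info0 i) ha
    · rcases le_or_gt i (b'.n + b'.j) with g | g
      · exact loc_low (low_info0 i) (low_step _ b' g) ha
      · obtain ⟨_, _, h, -⟩ := parse b' L0 [] g ha.symm
        simp at h
  | cons b L ih =>
    intro L' i ha
    rcases le_or_gt i (b.n + b.j) with g | g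
    · rcases L' with _ | ⟨b', L0⟩
      · exact loc_low (low_step _ b g) (low_info0 i) ha
      · rcases le_or_gt i (b'.n + b'.j) with g' | g'
        · exact loc_low (low_step _ b g) (low_step _ b' g') ha
        · obtain ⟨b1, L1, h, h1, h2, -⟩ := parse b' L0 _ g' ha.symm
          obtain ⟨rfl, -⟩ := List.cons.inj h
          omega
    · obtain ⟨b', L0, rfl, h1, h2, h3⟩ := parse b L _ g ha
      obtain ⟨i0, rfl⟩ : ∃ i0, i = b.n + b.j + 1 + i0 := ⟨i - (b.n + b.j + 1), by omega⟩
      simp only [info, h1, h2, h3] at ha ⊢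
      have ha0 : Agree (info P L) (info P L0) i0 := fun a h => by
        have := ha (b.n + b.j + 1 + a) (by omega)
        rwa [pi_step_hi, pi_step_hi] at this
      exact loc_step (good_info L) (good_info L0) (ih L0 i0 ha0) ha0 _ _ _

/-- Two paths are in the same node at level `x`. -/
def Same (P : Par) (L : List Block) (f : ℕ → ℝ) (L' : List Block) (f' : ℕ → ℝ) (x : ℕ) : Prop :=
  Agree (info P L) (info P L') (cnt (info P L) x) ∧ ∀ a < aF P x, f a = f' a

section same

variable {L L' : List Block} {f f' : ℕ → ℝ} {x : ℕ}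

lemma Same.locP (h : Same P L f L' f' x) : LocP (info P L) (info P L') (cnt (info P L) x) :=
  loc L L' _ h.1

lemma Same.mono (h : Same P L f L' f' x) {y : ℕ} (hy : y ≤ x) : Same P L f L' f' y :=
  ⟨h.1.mono (cnt_mono (good_info L).e_mono hy), fun a ha => h.2 a (ha.trans_le (aF_mono hy))⟩

lemma Same.cnt_eq (h : Same P L f L' f' x) : cnt (info P L') x = cnt (info P L) x :=
  cnt_congr (good_info L).e_mono (good_info L').e_mono h.locP.e le_rfl

lemma Same.symm (h : Same P L f L' f' x) : Same P L' f' L f x :=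
  ⟨by rw [h.cnt_eq]; exact h.1.symm, fun a ha => (h.2 a ha).symm⟩

lemma Same.tau_eq (h : Same P L f L' f' x) : tau P (info P L') x = tau P (info P L) x :=
  tau_congr (good_info L) (good_info L') h.locP le_rfl

lemma Same.live (h : Same P L f L' f' x) (hl : Live P (info P L) x) : Live P (info P L') x :=
  live_congr (good_info L) (good_info L') h.locP le_rfl hl

lemma Same.pos_eq (h : Same P L f L' f' x) : pos P (info P L') f' x = pos P (info P L) f x :=
  pos_congr (good_info L) (good_info L') h.locP h.1 le_rfl h.2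

lemma Same.h_eq (h : Same P L f L' f' x) :
    (info P L').h (cnt (info P L') x) = (info P L).h (cnt (info P L) x) := by
  rw [h.cnt_eq, h.locP.h _ le_rfl]

lemma Same.mu_eq (h : Same P L f L' f' x) :
    (info P L').mu (cnt (info P L') x) = (info P L).mu (cnt (info P L) x) := by
  rw [h.cnt_eq, h.locP.mu _ le_rfl]

lemma Same.aff_eq (h : Same P L f L' f' x) (t : ℝ) :
    Aff P (info P L') f' x t = Aff P (info P L) f x t := by
  unfold Aff; rw [h.h_eq, h.mu_eq, kap_congr h.2]

lemma same_zero (L : List Block) (f : ℕ → ℝ) (L' : List Block) (f' : ℕ → ℝ) :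
    Same P L f L' f' 0 :=
  ⟨by rw [cnt_zero (good_info L).e_mono]; intro a h; omega, by rw [aF_zero]; intro a h; omega⟩

lemma Same.dig_eq (h : Same P L f L' f' (x + 1)) :
    dig P (info P L') f' x = dig P (info P L) f x :=
  dig_congr (good_info L) (good_info L') h.locP h.1 le_rfl h.2

lemma Same.succ (h : Same P L f L' f' x) (hd : dig P (info P L') f' x = dig P (info P L) f x) :
    Same P L f L' f' (x + 1) := by
  have hI := good_info (P := P) L
  have hI' := good_info (P := P) L'
  by_cases hp : P.p ∣ x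
  · obtain ⟨a, rfl⟩ := hp
    rw [dig_mul, dig_mul] at hd
    refine ⟨by rw [cnt_succ_of_not hI.e_mono (hI.e_cnt_ne ⟨a, rfl⟩)]; exact h.1, fun b hb => ?_⟩
    rw [aF_mul_succ] at hb
    rcases eq_or_lt_of_le (Nat.lt_succ_iff.1 hb) with rfl | g
    · exact (mul_left_cancel₀ (by simp) hd).symm
    · exact h.2 b (by rw [aF_mul]; exact g)
  · refine ⟨?_, by rw [aF_succ_of_not hp]; exact h.2⟩
    by_cases he : (info P L).e (cnt (info P L) x) = x
    · have h2 : cnt (info P L) (x + 1) = cnt (info P L) x + 1 := by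
        conv_lhs => rw [← he, cnt_e_succ hI.e_mono]
      rw [h2]
      intro a ha
      rcases eq_or_lt_of_le (Nat.lt_succ_iff.1 ha) with rfl | g
      · unfold dig at hd
        rw [if_neg hp, if_neg hp, if_pos he, h.cnt_eq, ← h.locP.e _ le_rfl, if_pos he,
          ← h.locP.sn _ le_rfl] at hd
        refine (mul_left_cancel₀ ?_ hd).symm
        rcases hI.sn_val (cnt (info P L) x) with g | g <;> simp [g]
      · exact h.1 a g
    · rw [cnt_succ_of_not hI.e_mono he]; exact h.1

lemma Same.live_of_ne (h : Same P L f L' f' x)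
    (hd : dig P (info P L') f' x ≠ dig P (info P L) f x) : Live P (info P L) x := by
  by_contra hl
  exact hd (by rw [dig_dead _ hl, dig_dead _ (fun h' => hl (h.symm.live h'))])

/-- The first level where two paths split. -/
lemma split (L : List Block) (f : ℕ → ℝ) (L' : List Block) (f' : ℕ → ℝ) (X : ℕ) :
    Same P L f L' f' X ∨ ∃ x < X, Same P L f L' f' x ∧
      dig P (info P L') f' x ≠ dig P (info P L) f x := by
  induction X with
  | zero => exact Or.inl (same_zero _ _ _ _)
  | succ X ih =>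
    rcases ih with h | ⟨x, hx, h⟩
    · by_cases hd : dig P (info P L') f' X = dig P (info P L) f X
      · exact Or.inl (h.succ hd)
      · exact Or.inr ⟨X, Nat.lt_succ_self X, h, hd⟩
    · exact Or.inr ⟨x, by omega, h⟩

end same

end Pool.Agent.P.MP_97fbd9_an
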