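import Pool.Agent.P.MP_97fbd9_an.Loc

/-! The designed orbits. -/

open Finset

namespace Pool.Agent.P.MP_97fbd9_an

/-- Symbolic orbit: passes `1, …, K`, the blocks between them and the final word. -/
structure Orb where
  K : ℕ
  blk : ℕ → Block
  ka : ℕ → Bool

namespace Orb

/-- The past of a pass. -/
def past (o : Orb) : ℕ → List Block
  | 0 => []
  | 1 => []
  | k + 2 => o.blk (k + 1) :: past o (k + 1)

variable (P : Par) (o : Orb)

/-- Data of a pass. -/
noncomputable def I (k : ℕ) : Info := info P (o.past k)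
/-- Word length. -/
def n (k : ℕ) : ℕ := (o.blk k).n
/-- Number of zeros. -/
def j (k : ℕ) : ℕ := (o.blk k).j
/-- Number of known past digits. -/
noncomputable def ik (k : ℕ) : ℕ := cnt (o.I P k) (P.p * o.n k)
/-- Centre of the terminal node. -/
noncomputable def c (k : ℕ) : ℝ := pos P (o.I P k) (o.blk k).f (P.p * o.n k)
/-- Coupling to the cut pass. -/
noncomputable def g (k : ℕ) : ℝ := (o.I P k).gg (o.ik P k) / sig P (o.n k)
/-- Offset. -/
noncomputable def fo (k : ℕ) : ℝ := - ((o.I P k).kn (o.ik P k) / sig P (o.n k))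
/-- The cut pass. -/
noncomputable def u (k : ℕ) : ℕ := k - (o.I P k).fr (o.ik P k)
/-- Contraction. -/
noncomputable def lm (k : ℕ) : ℝ := lam P (o.n k) (o.j k)
/-- Product of contractions. -/
noncomputable def lh (k k' : ℕ) : ℝ := ∏ l ∈ Ico k k', o.lm P l
/-- Compensation. -/
noncomputable def C (k : ℕ) : ℝ :=
  ∑ k' ∈ Ico (k + 1) o.K, if o.u P k' = k then o.lh P k k' * o.g P k' else 0
/-- Flat coordinate. -/
noncomputable def tv (z : ℝ) (k : ℕ) : ℝ :=
  ∑ l ∈ Ico k o.K, o.lh P k l * (o.c P l + o.fo P l) + o.lh P k o.K * z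
/-- The designed positions. -/
noncomputable def t (z : ℝ) (k : ℕ) : ℝ :=
  o.tv P z k + ∑ k' ∈ Ico k o.K,
    if _h : o.u P k' < k then o.lh P k k' * o.g P k' * t z (o.u P k') else 0
termination_by k
/-- The designed heights. -/
noncomputable def eta (z : ℝ) : ℕ → ℝ
  | 0 => 0
  | 1 => 0
  | k + 2 => prt P (o.n (k + 1)) (o.j (k + 1)) (o.blk (k + 1)).f (o.n (k + 1) + o.j (k + 1)) +
      Bc P (o.n (k + 1)) (o.j (k + 1)) * o.t P z (k + 1)
/-- Transfer product. -/
noncomputable def GG (l k : ℕ) : ℝ :=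
  Bc P (o.n l) (o.j l) * ∏ i ∈ Ico (l + 1) k, Bs P (o.n i) (o.j i)
/-- Sum of block lengths. -/
def SS (l k : ℕ) : ℕ := ∑ i ∈ Ico l k, (o.n i + o.j i)
/-- Shift of depths. -/
def sh (l k : ℕ) : ℕ := ∑ i ∈ Ico l k, (o.n i + o.j i + 1)
/-- Depth of the cut of `k'` seen from `k`. -/
noncomputable def dep (k k' : ℕ) : ℕ := o.ik P k' - o.sh k k'
/-- Pending effect. -/
noncomputable def PE (z : ℝ) (k a i : ℕ) : ℝ :=
  ∑ k' ∈ Ico a o.K, if o.u P k' < k ∧ o.dep P k k' ≤ i then
    o.lh P k k' * o.g P k' * o.t P z (o.u P k') *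
      ((o.I P k).mu i - (o.I P k).mu (o.dep P k k')) else 0

variable {P o}

lemma good (k : ℕ) : Good P (o.I P k) := good_info _

lemma n_pos (k : ℕ) : 1 ≤ o.n k := (o.blk k).n_pos

lemma past_succ {k : ℕ} (hk : 1 ≤ k) : o.past (k + 1) = o.blk k :: o.past k := by
  obtain ⟨k, rfl⟩ : ∃ k', k = k' + 1 := ⟨k - 1, by omega⟩
  rfl

lemma I_succ {k : ℕ} (hk : 1 ≤ k) :
    o.I P (k + 1) = step P (o.I P k) (o.n k) (o.j k) (o.blk k).f := by
  unfold I; rw [past_succ hk]; rfl

lemma I_one : o.I P 1 = info0 P := rfl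

lemma eta_succ (z : ℝ) {k : ℕ} (hk : 1 ≤ k) : o.eta P z (k + 1) =
    prt P (o.n k) (o.j k) (o.blk k).f (o.n k + o.j k) + Bc P (o.n k) (o.j k) * o.t P z k := by
  obtain ⟨k, rfl⟩ : ∃ k', k = k' + 1 := ⟨k - 1, by omega⟩
  rfl

lemma lh_self (k : ℕ) : o.lh P k k = 1 := by simp [lh]

lemma lh_left {k k' : ℕ} (h : k < k') : o.lh P k k' = o.lm P k * o.lh P (k + 1) k' :=
  prod_eq_prod_Ico_succ_bot h _

lemma lh_right {k k' : ℕ} (h : k ≤ k') : o.lh P k (k' + 1) = o.lh P k k' * o.lm P k' :=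
  prod_Ico_succ_top h _

lemma lh_mul {k l k' : ℕ} (h : k ≤ l) (h' : l ≤ k') : o.lh P k k' = o.lh P k l * o.lh P l k' :=
  (prod_Ico_consecutive _ h h').symm

lemma tv_top (z : ℝ) : o.tv P z o.K = z := by simp [tv, lh_self]

lemma tv_succ (z : ℝ) {k : ℕ} (h : k < o.K) :
    o.tv P z k = o.c P k + o.fo P k + o.lm P k * o.tv P z (k + 1) := by
  unfold tv
  rw [sum_eq_sum_Ico_succ_bot h, lh_self, lh_left h, mul_add (o.lm P k), mul_sum]
  have : ∑ l ∈ Ico (k + 1) o.K, o.lh P k l * (o.c P l + o.fo P l) =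
      ∑ l ∈ Ico (k + 1) o.K, o.lm P k * (o.lh P (k + 1) l * (o.c P l + o.fo P l)) :=
    sum_congr rfl fun l hl => by rw [lh_left (mem_Ico.1 hl).1]; ring
  rw [this]; ring

lemma t_eq (z : ℝ) (k : ℕ) : o.t P z k = o.tv P z k + ∑ k' ∈ Ico k o.K,
    if o.u P k' < k then o.lh P k k' * o.g P k' * o.t P z (o.u P k') else 0 := by
  rw [t]; simp only [dite_eq_ite]

lemma t_top (z : ℝ) : o.t P z o.K = z := by rw [t_eq, tv_top]; simp

lemma u_lt {k : ℕ} (hk : 1 ≤ k) : o.u P k < k := by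
  unfold u; have := (good (P := P) (o := o) k).fr_pos (o.ik P k); omega

lemma C_eq (k : ℕ) : o.C P k = o.lm P k *
    ∑ k' ∈ Ico (k + 1) o.K, if o.u P k' = k then o.lh P (k + 1) k' * o.g P k' else 0 := by
  unfold C
  rw [mul_sum]
  refine sum_congr rfl fun l hl => ?_
  split_ifs
  · rw [lh_left (mem_Ico.1 hl).1]; ring
  · simp

lemma star (z : ℝ) {k : ℕ} (hk : 1 ≤ k) (h : k < o.K) :
    o.t P z k * (1 + o.C P k) = o.c P k + o.fo P k + o.g P k * o.t P z (o.u P k) +
      o.lm P k * o.t P z (k + 1) := by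
  have e1 := t_eq (P := P) (o := o) z k
  have e2 := t_eq (P := P) (o := o) z (k + 1)
  rw [sum_eq_sum_Ico_succ_bot h, if_pos (u_lt hk), lh_self, tv_succ z h] at e1
  have e3 : o.lm P k * (∑ k' ∈ Ico (k + 1) o.K,
      if o.u P k' < k + 1 then o.lh P (k + 1) k' * o.g P k' * o.t P z (o.u P k') else 0) =
      (∑ k' ∈ Ico (k + 1) o.K,
        if o.u P k' < k then o.lh P k k' * o.g P k' * o.t P z (o.u P k') else 0) +
      o.t P z k * o.C P k := by
    unfold C
    rw [mul_sum, mul_sum, ← sum_add_distrib]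
    refine sum_congr rfl fun l hl => ?_
    rw [lh_left (mem_Ico.1 hl).1]
    rcases lt_trichotomy (o.u P l) k with a | a | a
    · rw [if_pos (by omega), if_pos a, if_neg (by omega)]; ring
    · rw [if_pos (by omega), if_neg (by omega), if_pos a, a]; ring
    · rw [if_neg (by omega), if_neg (by omega), if_neg (by omega)]; ring
  linear_combination e1 - o.lm P k * e2 - e3

lemma fr_lo {k i : ℕ} (hk : 1 ≤ k) (h : i < o.n k + o.j k + 1 + o.ik P k) :
    (o.I P (k + 1)).fr i = 1 ∧ (o.I P (k + 1)).mu i = 0 ∧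
      (o.I P (k + 1)).gg i = Bc P (o.n k) (o.j k) ∧ (o.I P (k + 1)).S i = o.n k + o.j k ∧
      (o.I P (k + 1)).cc i = o.c P k ∧ (o.I P (k + 1)).rd i = P.D * o.n k + P.p ∧
      (o.I P (k + 1)).h i - (o.I P (k + 1)).kn i =
        prt P (o.n k) (o.j k) (o.blk k).f (o.n k + o.j k) := by
  rw [I_succ hk]
  rcases pw_cases (o.n k + o.j k) (o.ik P k) i with g | ⟨a, g, rfl⟩ | ⟨a, g, rfl⟩
  · simp only [step, pw_lo g, c, true_and]; ring
  · unfold ik at g; simp only [step, pw_mid g, c, true_and]; ring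
  · omega

lemma fr_hi {k a : ℕ} (hk : 1 ≤ k) (h : o.ik P k ≤ a) :
    let i := o.n k + o.j k + 1 + a
    (o.I P (k + 1)).fr i = (o.I P k).fr a + 1 ∧
      (o.I P (k + 1)).gg i = Bs P (o.n k) (o.j k) * (o.I P k).gg a ∧
      (o.I P (k + 1)).kn i = Bs P (o.n k) (o.j k) * (o.I P k).kn a ∧
      (o.I P (k + 1)).S i = o.n k + o.j k + (o.I P k).S a ∧
      (o.I P (k + 1)).cc i = (o.I P k).cc a ∧ (o.I P (k + 1)).rd i = (o.I P k).rd a ∧
      (o.I P (k + 1)).mu i = Bc P (o.n k) (o.j k) * o.lm P k +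
        Bs P (o.n k) (o.j k) * ((o.I P k).mu a - (o.I P k).mu (o.ik P k)) * o.lm P k ∧
      (o.I P (k + 1)).h i = prt P (o.n k) (o.j k) (o.blk k).f (o.n k + o.j k) +
        Bc P (o.n k) (o.j k) * o.c P k + Bs P (o.n k) (o.j k) *
        ((o.I P k).h a - (o.I P k).h (o.ik P k) +
          ((o.I P k).mu a - (o.I P k).mu (o.ik P k)) * (o.c P k + o.fo P k)) := by
  rw [I_succ hk]
  unfold ik at h
  simp only [step, pw_hi h, c, fo, lm, ik, sub_eq_add_neg, and_self]

lemma idx_cases (k i : ℕ) : i < o.n k + o.j k + 1 + o.ik P k ∨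
    ∃ a, o.ik P k ≤ a ∧ i = o.n k + o.j k + 1 + a := by
  rcases lt_or_ge i (o.n k + o.j k + 1 + o.ik P k) with h | h
  · exact Or.inl h
  · exact Or.inr ⟨i - (o.n k + o.j k + 1), by omega, by omega⟩

lemma frame {k : ℕ} (hk : 1 ≤ k) : ∀ i, (o.I P k).fr i ≤ k ∧
    ((o.I P k).fr i = k → (o.I P k).gg i = 0) ∧
    ((o.I P k).fr i < k → (o.I P k).gg i = o.GG P (k - (o.I P k).fr i) k ∧
      (o.I P k).S i = o.SS (k - (o.I P k).fr i) k ∧ (o.I P k).cc i = o.c P (k - (o.I P k).fr i) ∧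
      (o.I P k).rd i = P.D * o.n (k - (o.I P k).fr i) + P.p) := by
  induction k, hk using Nat.le_induction with
  | base => intro i; simp [I_one, info0]
  | succ k hk ih =>
    intro i
    rcases idx_cases (P := P) (o := o) k i with h | ⟨a, h, rfl⟩
    · obtain ⟨a1, -, a3, a4, a5, a6, -⟩ := fr_lo hk h
      rw [a1, a3, a4, a5, a6]
      refine ⟨by omega, by omega, fun _ => ?_⟩
      simp [GG, SS]
    · obtain ⟨a1, a2, -, a4, a5, a6, -⟩ := fr_hi hk h
      obtain ⟨b1, b2, b3⟩ := ih a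
      have hp := (good (P := P) (o := o) k).fr_pos a
      rw [a1, a2, a4, a5, a6]
      refine ⟨by omega, fun e => by rw [b2 (by omega), mul_zero], fun e => ?_⟩
      obtain ⟨c1, c2, c3, c4⟩ := b3 (by omega)
      have e' : k + 1 - ((o.I P k).fr a + 1) = k - (o.I P k).fr a := by omega
      rw [e', c1, c2, c3, c4]
      refine ⟨?_, ?_, rfl, rfl⟩
      · unfold GG; rw [prod_Ico_succ_top (by omega)]; ring
      · unfold SS; rw [sum_Ico_succ_top (by omega)]; ring

lemma g_zero {k : ℕ} (hk : 1 ≤ k) (h : o.u P k = 0) : o.g P k = 0 := by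
  obtain ⟨a, b, -⟩ := frame (P := P) (o := o) hk (o.ik P k)
  unfold g; rw [b (by unfold u at h; omega), zero_div]

lemma frame_u {k : ℕ} (hk : 1 ≤ k) (h : 1 ≤ o.u P k) :
    (o.I P k).gg (o.ik P k) = o.GG P (o.u P k) k ∧ (o.I P k).S (o.ik P k) = o.SS (o.u P k) k :=
  let b := (frame (P := P) (o := o) hk (o.ik P k)).2.2 (by unfold u at h; omega)
  ⟨b.1, b.2.1⟩

lemma sh_right {k k' : ℕ} (h : k ≤ k') : o.sh k (k' + 1) = o.sh k k' + (o.n k' + o.j k' + 1) :=
  sum_Ico_succ_top h _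

lemma sh_left {k k' : ℕ} (h : k < k') : o.sh k k' = o.n k + o.j k + 1 + o.sh (k + 1) k' :=
  sum_eq_sum_Ico_succ_bot h _

lemma sh_self (k : ℕ) : o.sh k k = 0 := by simp [sh]

lemma pull {k : ℕ} (hk : 1 ≤ k) {k' : ℕ} (hk' : k ≤ k') : ∀ i, k' - (o.I P k').fr i < k →
    o.sh k k' ≤ i ∧ (k < k' → o.ik P k ≤ i - o.sh k k') ∧
      k - (o.I P k).fr (i - o.sh k k') = k' - (o.I P k').fr i := by
  induction k', hk' using Nat.le_induction with
  | base => intro i _; simp [sh_self]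
  | succ k' hk' ih =>
    intro i hi
    rcases idx_cases (P := P) (o := o) k' i with h | ⟨a, h, rfl⟩
    · rw [(fr_lo (by omega) h).1] at hi; omega
    · rw [(fr_hi (by omega) h).1] at hi ⊢
      obtain ⟨b1, b2, b3⟩ := ih a (by omega)
      rw [sh_right hk']
      have e : o.n k' + o.j k' + 1 + a - (o.sh k k' + (o.n k' + o.j k' + 1)) = a - o.sh k k' := by
        omega
      rw [e]
      refine ⟨by omega, fun _ => ?_, by omega⟩
      rcases eq_or_lt_of_le hk' with rfl | g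
      · rw [sh_self]; exact h
      · exact b2 g

lemma dep_self (k : ℕ) : o.dep P k k = o.ik P k := by simp [dep, sh_self]

lemma dep_spec {k k' : ℕ} (hk : 1 ≤ k) (hk' : k ≤ k') (h : o.u P k' < k) :
    o.sh k k' ≤ o.ik P k' ∧ o.ik P k ≤ o.dep P k k' ∧
      k - (o.I P k).fr (o.dep P k k') = o.u P k' := by
  obtain ⟨a, b, c⟩ := pull hk hk' (o.ik P k') h
  refine ⟨a, ?_, c⟩
  rcases eq_or_lt_of_le hk' with rfl | g
  · rw [dep_self]
  · exact b g

lemma PE_ik (z : ℝ) {k a : ℕ} (hk : 1 ≤ k) (ha : k ≤ a) : o.PE P z k a (o.ik P k) = 0 := by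
  unfold PE
  refine sum_eq_zero fun l hl => ?_
  split_ifs with h
  · have := (dep_spec hk (ha.trans (mem_Ico.1 hl).1) h.1).2.1
    rw [le_antisymm h.2 this]; ring
  · rfl

lemma PE_split (z : ℝ) {k i : ℕ} (hk : 1 ≤ k) (h : k < o.K) (hi : o.ik P k ≤ i) :
    o.PE P z k k i = o.g P k * o.t P z (o.u P k) * ((o.I P k).mu i - (o.I P k).mu (o.ik P k)) +
      o.PE P z k (k + 1) i := by
  unfold PE
  rw [sum_eq_sum_Ico_succ_bot h, dep_self, if_pos ⟨u_lt hk, hi⟩, lh_self, one_mul]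

lemma g_sig (k : ℕ) : o.g P k * sig P (o.n k) = (o.I P k).gg (o.ik P k) :=
  div_mul_cancel₀ _ (sig_pos _).ne'

lemma fo_sig (k : ℕ) : o.fo P k * sig P (o.n k) = - (o.I P k).kn (o.ik P k) := by
  unfold fo; rw [neg_mul, div_mul_cancel₀ _ (sig_pos _).ne']

theorem inv (z : ℝ) {k : ℕ} (hk : 1 ≤ k) : k ≤ o.K → ∀ i, o.eta P z k =
    (o.I P k).h i + (o.I P k).mu i * o.t P z k - (o.I P k).kn i +
      (o.I P k).gg i * o.t P z (k - (o.I P k).fr i) - o.PE P z k k i := by
  induction k, hk using Nat.le_induction with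
  | base =>
    intro _ i
    simp [I_one, info0, eta, PE]
  | succ k hk ih =>
    intro hK i
    have hK' : k < o.K := hK
    have ih := ih hK'.le
    rw [eta_succ z hk]
    rcases idx_cases (P := P) (o := o) k i with h | ⟨a, h, rfl⟩
    · obtain ⟨a1, a2, a3, -, -, -, a7⟩ := fr_lo hk h
      have : o.PE P z (k + 1) (k + 1) i = 0 := by
        unfold PE
        refine sum_eq_zero fun l _ => ?_
        split_ifs with g
        · rw [a2, (fr_lo hk (lt_of_le_of_lt g.2 h)).2.1]; ring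
        · rfl
      rw [this, a1, a2, a3, Nat.add_sub_cancel]
      linear_combination -a7
    · obtain ⟨a1, a2, a3, -, -, -, a7, a8⟩ := fr_hi hk h
      have e1 := ih a
      have e2 := ih (o.ik P k)
      rw [PE_ik z hk le_rfl] at e2
      rw [PE_split z hk hK' h] at e1
      have e3 := star (P := P) (o := o) z hk hK'
      rw [C_eq] at e3
      have e4 : o.PE P z (k + 1) (k + 1) (o.n k + o.j k + 1 + a) =
          (∑ k' ∈ Ico (k + 1) o.K, if o.u P k' = k then o.lh P (k + 1) k' * o.g P k' else 0) *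
            o.t P z k * (o.I P (k + 1)).mu (o.n k + o.j k + 1 + a) +
          Bs P (o.n k) (o.j k) * o.PE P z k (k + 1) a := by
        unfold PE
        rw [sum_mul, sum_mul, mul_sum, ← sum_add_distrib]
        refine sum_congr rfl fun l hl => ?_
        have hl1 := (mem_Ico.1 hl).1
        rcases lt_trichotomy (o.u P l) k with b | b | b
        · obtain ⟨c1, c2, -⟩ := dep_spec hk (by omega : k ≤ l) b
          have d : o.dep P (k + 1) l = o.n k + o.j k + 1 + o.dep P k l := by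
            unfold dep; rw [sh_left hl1] at c1 ⊢; omega
          rw [d, if_neg (by omega : ¬ o.u P l = k)]
          by_cases g : o.dep P k l ≤ a
          · rw [if_pos ⟨by omega, by omega⟩, if_pos ⟨b, g⟩, a7, (fr_hi hk c2).2.2.2.2.2.2.1,
              lh_left hl1]
            ring
          · rw [if_neg (by omega), if_neg (by omega)]; ring
        · obtain ⟨-, -, c3⟩ := dep_spec (by omega : 1 ≤ k + 1) hl1 (by omega : o.u P l < k + 1)
          have d : o.dep P (k + 1) l < o.n k + o.j k + 1 + o.ik P k := by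
            rcases idx_cases (P := P) (o := o) k (o.dep P (k + 1) l) with g | ⟨a', g, g'⟩
            · exact g
            · rw [g', (fr_hi hk g).1] at c3
              have := (good (P := P) (o := o) k).fr_pos a'
              omega
          rw [if_pos ⟨by omega, by omega⟩, if_pos b, if_neg (by omega), (fr_lo hk d).2.1, b]
          ring
        · rw [if_neg (by omega), if_neg (by omega), if_neg (by omega)]; ring
      have e5 : k + 1 - ((o.I P k).fr a + 1) = k - (o.I P k).fr a := by omega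
      rw [e4, a1, a2, a3, a7, a8, e5, ← Bs_sig]
      have e6 := g_sig (P := P) (o := o) k
      have e7 := fo_sig (P := P) (o := o) k
      change o.eta P z k = _ + _ * o.t P z (o.u P k) - 0 at e2
      rw [← e6] at e2
      have e8 : (o.I P k).kn (o.ik P k) = - (o.fo P k * sig P (o.n k)) := by rw [e7]; ring
      rw [e8] at e2
      linear_combination Bs P (o.n k) (o.j k) * (e1 - e2) + Bs P (o.n k) (o.j k) *
        (sig P (o.n k) + ((o.I P k).mu a - (o.I P k).mu (o.ik P k))) * e3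

/-- Slope of the jet at a pass. -/
noncomputable def ja (P : Par) (o : Orb) (k : ℕ) : ℝ :=
  (o.I P k).mu (o.ik P k) + sig P (o.n k) + sig P (o.n k) * o.C P k
/-- Intercept of the jet at a pass. -/
noncomputable def jb (P : Par) (o : Orb) (k : ℕ) : ℝ :=
  kap P (o.blk k).f (o.n k) + (o.I P k).h (o.ik P k) - sig P (o.n k) * o.c P k

theorem pass_eq (z : ℝ) {k : ℕ} (hk : 1 ≤ k) (h : k < o.K) :
    o.jb P k + o.ja P k * o.t P z k - o.eta P z k = kap P (o.blk k).f (o.n k) +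
      (-1) ^ o.n k * w (P.p * (o.n k + o.j k)) * o.t P z (k + 1) := by
  have e2 := inv (P := P) (o := o) z hk h.le (o.ik P k)
  rw [PE_ik z hk le_rfl] at e2
  have e3 := star (P := P) (o := o) z hk h
  have e6 := g_sig (P := P) (o := o) k
  have e7 := fo_sig (P := P) (o := o) k
  change o.eta P z k = _ + _ * o.t P z (o.u P k) - 0 at e2
  rw [← sig_lam]
  unfold ja jb
  change _ = _ + _ * o.lm P k * _
  linear_combination -e2 + sig P (o.n k) * e3 + o.t P z (o.u P k) * e6 + e7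

theorem last_eq (hK : 1 ≤ o.K) : ∃ i0, ∀ i, i0 ≤ i → ∀ z,
    o.eta P z o.K = (o.I P o.K).h i + (o.I P o.K).mu i * z := by
  obtain ⟨i0, h⟩ := (good (P := P) (o := o) o.K).stab
  refine ⟨i0, fun i hi z => ?_⟩
  have e := inv (P := P) (o := o) z hK le_rfl i
  obtain ⟨a, b, -⟩ := h i hi
  rw [a, b, t_top] at e
  rw [e]; simp [PE]

end Orb

end Pool.Agent.P.MP_97fbd9_an
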