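import Mathlib

/-! Parameters, the scale function and the tree of digits. -/

open Finset

namespace Pool.Agent.P.MP_97fbd9_an

/-- The scale function. -/
noncomputable def w (x : ℕ) : ℝ := (1 / 1000) ^ x

lemma w_pos (x : ℕ) : 0 < w x := by unfold w; positivity
lemma w_add (x y : ℕ) : w (x + y) = w x * w y := pow_add _ _ _
lemma w_zero : w 0 = 1 := pow_zero _
lemma w_succ (x : ℕ) : w (x + 1) = w x / 1000 := by unfold w; rw [pow_succ]; ring
lemma w_one : w 1 = 1 / 1000 := by unfold w; simp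
lemma w_two : w 2 = 1 / 1000000 := by unfold w; norm_num
lemma w_anti {x y : ℕ} (h : x ≤ y) : w y ≤ w x :=
  pow_le_pow_of_le_one (by norm_num) (by norm_num) h
lemma w_lt {x y : ℕ} (h : x < y) : w y ≤ w x / 1000 := by
  rw [← w_succ]; exact w_anti h
lemma w_lt2 {x y : ℕ} (h : x + 2 ≤ y) : w y ≤ w x / 1000000 := by
  have := w_anti h
  rw [w_add, w_two] at this; linarith
lemma w_le_one (x : ℕ) : w x ≤ 1 := by simpa [w_zero] using w_anti (Nat.zero_le x)
lemma w_mul (x k : ℕ) : w (x * k) = w x ^ k := pow_mul _ _ _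
lemma w_abs (x : ℕ) : |w x| = w x := abs_of_pos (w_pos x)

lemma sum_w_le (a b c : ℕ) : ∑ k ∈ Ico a b, w (c + (k - a)) ≤ 1001 / 1000 * w c + w c / 1000 := by
  have : ∀ n, ∑ k ∈ range n, w (c + k) ≤ 1000 / 999 * (w c - w (c + n)) := by
    intro n
    induction n with
    | zero => simp
    | succ n ih =>
      rw [sum_range_succ, ← add_assoc, w_succ]
      linarith
  rw [sum_Ico_eq_sum_range]
  simp only [Nat.add_sub_cancel_left]
  have h1 := this (b - a)
  have h2 := w_pos (c + (b - a))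
  have h3 := w_pos c
  linarith

/-- The parameters of the construction. -/
structure Par where
  m : ℕ
  d : ℕ
  D : ℕ
  s : ℕ
  p : ℕ
  big : ℕ
  qs : ℕ
  q : ℕ
  hm : 2 ≤ m
  hd : m * (2 * m + 4) ≤ d
  hD : D = 2 * d
  hs : s = m * D
  hp : p = s + D
  hbig : 2 * m * p + s + 2 * m + 2 * p + 10 ≤ big
  hqs : (2 * m + 1) * (big + D + p) + big ≤ qs
  hq : q = s + qs
  qs_even : qs % 2 = 0

/-- Parameters exist for every order. -/
def mkPar (m : ℕ) (hm : 2 ≤ m) : Par where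
  m := m
  d := m * (2 * m + 4)
  D := 2 * (m * (2 * m + 4))
  s := m * (2 * (m * (2 * m + 4)))
  p := m * (2 * (m * (2 * m + 4))) + 2 * (m * (2 * m + 4))
  big := 2 * m * (m * (2 * (m * (2 * m + 4))) + 2 * (m * (2 * m + 4))) +
    m * (2 * (m * (2 * m + 4))) + 2 * m + 2 * (m * (2 * (m * (2 * m + 4))) + 2 * (m * (2 * m + 4))) + 10
  qs := 2 * ((2 * m + 1) * ((2 * m * (m * (2 * (m * (2 * m + 4))) + 2 * (m * (2 * m + 4))) +
    m * (2 * (m * (2 * m + 4))) + 2 * m + 2 * (m * (2 * (m * (2 * m + 4))) + 2 * (m * (2 * m + 4))) + 10)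
      + 2 * (m * (2 * m + 4)) + (m * (2 * (m * (2 * m + 4))) + 2 * (m * (2 * m + 4)))) +
      (2 * m * (m * (2 * (m * (2 * m + 4))) + 2 * (m * (2 * m + 4))) +
    m * (2 * (m * (2 * m + 4))) + 2 * m + 2 * (m * (2 * (m * (2 * m + 4))) + 2 * (m * (2 * m + 4))) + 10))
  q := m * (2 * (m * (2 * m + 4))) + 2 * ((2 * m + 1) * ((2 * m * (m * (2 * (m * (2 * m + 4))) + 2 * (m * (2 * m + 4))) +
    m * (2 * (m * (2 * m + 4))) + 2 * m + 2 * (m * (2 * (m * (2 * m + 4))) + 2 * (m * (2 * m + 4))) + 10)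
      + 2 * (m * (2 * m + 4)) + (m * (2 * (m * (2 * m + 4))) + 2 * (m * (2 * m + 4)))) +
      (2 * m * (m * (2 * (m * (2 * m + 4))) + 2 * (m * (2 * m + 4))) +
    m * (2 * (m * (2 * m + 4))) + 2 * m + 2 * (m * (2 * (m * (2 * m + 4))) + 2 * (m * (2 * m + 4))) + 10))
  hm := hm
  hd := le_rfl
  hD := rfl
  hs := rfl
  hp := rfl
  hbig := le_rfl
  hqs := by omega
  hq := rfl
  qs_even := by omega

namespace Par

variable (P : Par)

lemma d_ge : 4 * P.m + 8 ≤ P.d := by have := P.hd; have := P.hm; nlinarith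
lemma D_ge : 32 ≤ P.D := by have := P.d_ge; have := P.hm; have := P.hD; omega
lemma s_ge : 2 * P.D ≤ P.s := by have := P.hs; have := P.hm; nlinarith
lemma p_pos : 0 < P.p := by have := P.D_ge; have := P.hp; omega
lemma p_eq : P.p = (P.m + 1) * P.D := by rw [P.hp, P.hs]; ring
lemma s_even : P.s % 2 = 0 := by
  rw [P.hs, P.hD]; have : P.m * (2 * P.d) = 2 * (P.m * P.d) := by ring
  omega
lemma p_even : P.p % 2 = 0 := by have := P.s_even; have := P.hp; have := P.hD; omega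
lemma q_even : P.q % 2 = 0 := by have := P.s_even; have := P.hq; have := P.qs_even; omega
lemma big_ge : 6 * P.p + 10 ≤ P.big := by have := P.hbig; have := P.hm; nlinarith
lemma qs_ge : 6 * P.big + 5 * P.p ≤ P.qs := by have := P.hqs; have := P.hm; nlinarith
lemma mul_even {a : ℕ} (ha : a % 2 = 0) (n : ℕ) : (a * n) % 2 = 0 := by
  rw [Nat.mul_mod, ha]; simp

end Par

/-- The data attached to a past itinerary. -/
structure Info where
  pi : ℕ → ℝ
  e : ℕ → ℕ
  sn : ℕ → ℝ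
  h : ℕ → ℝ
  mu : ℕ → ℝ
  kn : ℕ → ℝ
  gg : ℕ → ℝ
  cc : ℕ → ℝ
  rd : ℕ → ℕ
  S : ℕ → ℕ
  fr : ℕ → ℕ

/-- Number of past digits of exponent below `x`. -/
noncomputable def cnt (I : Info) (x : ℕ) : ℕ := sInf {i | x ≤ I.e i}

/-- Number of future digits of exponent below `x`. -/
def aF (P : Par) (x : ℕ) : ℕ := (x + P.p - 1) / P.p

/-- Exponent of the spacing at level `x`. -/
noncomputable def tau (P : Par) (I : Info) (x : ℕ) : ℕ := 2 + 2 * (aF P x + cnt I x) + x % 2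

/-- Signed digit at level `x`. -/
noncomputable def dig (P : Par) (I : Info) (f : ℕ → ℝ) (x : ℕ) : ℝ :=
  if P.p ∣ x then (-1) ^ (x / P.p) * f (x / P.p)
  else if I.e (cnt I x) = x then I.sn (cnt I x) * I.pi (cnt I x) else 0

/-- Centre of the node at level `x`. -/
noncomputable def pos (P : Par) (I : Info) (f : ℕ → ℝ) (x : ℕ) : ℝ :=
  ∑ y ∈ range x, dig P I f y * w (tau P I y)

/-- Value of the first `a` future digits. -/
noncomputable def kap (P : Par) (f : ℕ → ℝ) (a : ℕ) : ℝ :=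
  ∑ b ∈ range a, (-1) ^ b * f b * w (P.p * b)

/-- The affine function of the node at level `x`. -/
noncomputable def Aff (P : Par) (I : Info) (f : ℕ → ℝ) (x : ℕ) (t : ℝ) : ℝ :=
  kap P f (aF P x) + I.h (cnt I x) + I.mu (cnt I x) * t

/-- Levels that carry a digit. -/
def Live (P : Par) (I : Info) (x : ℕ) : Prop := P.p ∣ x ∨ I.e (cnt I x) = x

/-- Three valued numbers. -/
def Tri (z : ℝ) : Prop := z = -1 ∨ z = 0 ∨ z = 1

lemma Tri.abs_le {z : ℝ} (h : Tri z) : |z| ≤ 1 := by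
  rcases h with h | h | h <;> simp [h]

/-- The invariants of the data. -/
structure Good (P : Par) (I : Info) : Prop where
  e_mono : StrictMono I.e
  e_odd : ∀ i, I.e i % 2 = 1
  e_lb : ∀ i, P.D * i + 1 ≤ I.e i
  pi_val : ∀ i, Tri (I.pi i)
  sn_val : ∀ i, I.sn i = 1 ∨ I.sn i = -1
  h0 : I.h 0 = 0
  mu0 : I.mu 0 = 0
  inc : ∀ i t, |t| ≤ 1 → |I.h (i + 1) + I.mu (i + 1) * t - (I.h i + I.mu i * t) -
    I.sn i * I.pi i * w (I.e i)| ≤ w (I.e i) / 50
  frm : ∀ i t, |t - I.cc i| ≤ w (I.rd i) →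
    |I.gg i * t - I.kn i - I.sn i * I.pi i * w (I.e i)| ≤ w (I.e i) / 20
  cc_le : ∀ i, |I.cc i| ≤ 1 / 100
  gg_le : ∀ i, |I.gg i| ≤ w (P.qs * I.S i)
  rd_le : ∀ i, I.rd i ≤ (P.D + P.p) * I.S i
  S_pos : ∀ i, 1 ≤ I.S i
  fr_mono : Monotone I.fr
  fr_pos : ∀ i, 1 ≤ I.fr i
  same_mu : ∀ i i', I.fr i = I.fr i' → I.mu i = I.mu i'
  stab : ∃ i0, ∀ i, i0 ≤ i → I.gg i = 0 ∧ I.kn i = 0 ∧ I.pi i = 0 ∧ I.h i = I.h i0 ∧
    I.mu i = I.mu i0

section tree

variable {P : Par} {I : Info}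

lemma aF_le_iff (x a : ℕ) : aF P x ≤ a ↔ x ≤ P.p * a := by
  unfold aF
  have := P.p_pos
  rw [← Nat.lt_succ_iff, Nat.div_lt_iff_lt_mul this]
  have : a.succ * P.p = P.p * a + P.p := by rw [Nat.succ_mul, mul_comm]
  omega

lemma lt_aF_iff (x a : ℕ) : a < aF P x ↔ P.p * a < x := by
  rw [← not_le, aF_le_iff, not_le]

lemma aF_mul (a : ℕ) : aF P (P.p * a) = a := by
  apply le_antisymm ((aF_le_iff _ _).2 le_rfl)
  rcases a with _ | a
  · omega
  · rw [Nat.succ_le_iff, lt_aF_iff]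
    have := P.p_pos
    nlinarith

lemma aF_mul_succ (a : ℕ) : aF P (P.p * a + 1) = a + 1 := by
  apply le_antisymm
  · rw [aF_le_iff]; have := P.p_pos; nlinarith
  · rw [Nat.succ_le_iff, lt_aF_iff]; omega

lemma aF_mono {x y : ℕ} (h : x ≤ y) : aF P x ≤ aF P y := by
  rw [aF_le_iff]; exact h.trans ((aF_le_iff _ _).1 le_rfl)

lemma aF_succ_of_not {x : ℕ} (h : ¬ P.p ∣ x) : aF P (x + 1) = aF P x := by
  apply le_antisymm _ (aF_mono (Nat.le_succ x))
  rw [aF_le_iff]
  have h1 := (aF_le_iff (P := P) x _).1 le_rfl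
  rcases eq_or_lt_of_le h1 with h2 | h2
  · exact absurd ⟨_, h2⟩ h
  · omega

lemma aF_zero : aF P 0 = 0 := by simpa using aF_mul (P := P) 0

lemma lt_cnt_iff (hI : StrictMono I.e) (x i : ℕ) : i < cnt I x ↔ I.e i < x := by
  unfold cnt
  have hne : {i | x ≤ I.e i}.Nonempty := ⟨x, hI.id_le x⟩
  constructor
  · intro h
    have := Nat.notMem_of_lt_sInf h
    exact not_le.1 this
  · intro h
    by_contra h'
    have : x ≤ I.e (sInf {i | x ≤ I.e i}) := Nat.sInf_mem hne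
    have h2 := hI.monotone (not_lt.1 h')
    omega

lemma cnt_le_iff (hI : StrictMono I.e) (x i : ℕ) : cnt I x ≤ i ↔ x ≤ I.e i := by
  rw [← not_lt, lt_cnt_iff hI, not_lt]

lemma le_e_cnt (hI : StrictMono I.e) (x : ℕ) : x ≤ I.e (cnt I x) := (cnt_le_iff hI _ _).1 le_rfl

lemma cnt_mono (hI : StrictMono I.e) {x y : ℕ} (h : x ≤ y) : cnt I x ≤ cnt I y := by
  rw [cnt_le_iff hI]; exact h.trans (le_e_cnt hI y)

lemma cnt_e (hI : StrictMono I.e) (i : ℕ) : cnt I (I.e i) = i := by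
  apply le_antisymm ((cnt_le_iff hI _ _).2 le_rfl)
  rcases i with _ | i
  · omega
  · rw [Nat.succ_le_iff, lt_cnt_iff hI]; exact hI (Nat.lt_succ_self i)

lemma cnt_e_succ (hI : StrictMono I.e) (i : ℕ) : cnt I (I.e i + 1) = i + 1 := by
  apply le_antisymm
  · rw [cnt_le_iff hI]; exact hI (Nat.lt_succ_self i)
  · rw [Nat.succ_le_iff, lt_cnt_iff hI]; omega

lemma cnt_succ_of_not (hI : StrictMono I.e) {x : ℕ} (h : I.e (cnt I x) ≠ x) :
    cnt I (x + 1) = cnt I x := by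
  apply le_antisymm _ (cnt_mono hI (Nat.le_succ x))
  rw [cnt_le_iff hI]
  have := le_e_cnt hI x
  omega

lemma cnt_zero (hI : StrictMono I.e) : cnt I 0 = 0 :=
  Nat.le_zero.1 ((cnt_le_iff hI _ _).2 (Nat.zero_le _))

lemma Good.not_dvd_e (hI : Good P I) (i : ℕ) : ¬ P.p ∣ I.e i := by
  rintro ⟨a, ha⟩
  have := hI.e_odd i
  have := Par.mul_even P.p_even a
  omega

lemma Good.e_cnt_ne (hI : Good P I) {x : ℕ} (h : P.p ∣ x) : I.e (cnt I x) ≠ x := fun h' =>
  hI.not_dvd_e _ (h' ▸ h)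

lemma Good.cnt_le (hI : Good P I) (n : ℕ) : cnt I (P.p * n) ≤ (P.m + 1) * n := by
  rw [cnt_le_iff hI.e_mono]
  have := hI.e_lb ((P.m + 1) * n)
  rw [P.p_eq]
  nlinarith

lemma Good.lt_e_cnt (hI : Good P I) (n : ℕ) : P.p * n < I.e (cnt I (P.p * n)) :=
  lt_of_le_of_ne (le_e_cnt hI.e_mono _) (hI.e_cnt_ne ⟨n, rfl⟩).symm

lemma Good.tau_mul (hI : Good P I) (n : ℕ) : tau P I (P.p * n) ≤ 2 + (2 * P.m + 4) * n := by
  unfold tau
  rw [aF_mul, Par.mul_even P.p_even]
  have := hI.cnt_le n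
  nlinarith

lemma tau_zero (hI : StrictMono I.e) : tau P I 0 = 2 := by
  simp [tau, aF_zero, cnt_zero hI]

lemma Good.nu_succ (hI : Good P I) {x : ℕ} (h : Live P I x) :
    aF P (x + 1) + cnt I (x + 1) = aF P x + cnt I x + 1 := by
  by_cases hp : P.p ∣ x
  · obtain ⟨a, rfl⟩ := hp
    rw [aF_mul_succ, aF_mul, cnt_succ_of_not hI.e_mono (hI.e_cnt_ne ⟨a, rfl⟩)]
    omega
  · have h := h.resolve_left hp
    have h2 : cnt I (x + 1) = cnt I x + 1 := by
      conv_lhs => rw [← h, cnt_e_succ hI.e_mono]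
    rw [aF_succ_of_not hp, h2]
    omega

lemma Good.tau_lt (hI : Good P I) {x y : ℕ} (h : Live P I x) (hxy : x < y) :
    tau P I x < tau P I y := by
  unfold tau
  have := hI.nu_succ h
  have h1 := aF_mono (P := P) (Nat.succ_le_of_lt hxy)
  have h2 := cnt_mono hI.e_mono (Nat.succ_le_of_lt hxy)
  simp only [Nat.succ_eq_add_one] at h1 h2
  omega

lemma Good.tau_le (hI : Good P I) {x y : ℕ} (h : Live P I x) (hxy : x ≤ y) :
    tau P I x ≤ tau P I y := by
  rcases eq_or_lt_of_le hxy with h' | h'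
  · rw [h']
  · exact (hI.tau_lt h h').le

lemma live_mul (a : ℕ) : Live P I (P.p * a) := Or.inl ⟨a, rfl⟩

lemma live_e (hI : StrictMono I.e) (i : ℕ) : Live P I (I.e i) := Or.inr (by rw [cnt_e hI])

lemma dig_mul (f : ℕ → ℝ) (a : ℕ) : dig P I f (P.p * a) = (-1) ^ a * f a := by
  unfold dig
  rw [if_pos ⟨a, rfl⟩, Nat.mul_div_cancel_left _ P.p_pos]

lemma Good.dig_e (hI : Good P I) (f : ℕ → ℝ) (i : ℕ) : dig P I f (I.e i) = I.sn i * I.pi i := by
  unfold dig
  rw [if_neg (hI.not_dvd_e i), cnt_e hI.e_mono, if_pos rfl]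

lemma dig_dead (f : ℕ → ℝ) {x : ℕ} (h : ¬ Live P I x) : dig P I f x = 0 := by
  unfold Live at h
  push Not at h
  unfold dig
  rw [if_neg h.1, if_neg h.2]

lemma Good.dig_tri (hI : Good P I) {f : ℕ → ℝ} (hf : ∀ a, Tri (f a)) (x : ℕ) :
    Tri (dig P I f x) := by
  unfold dig
  split_ifs
  · rcases neg_one_pow_eq_or ℝ (x / P.p) with h | h <;> rcases hf (x / P.p) with h' | h' | h' <;>
      simp [h, h', Tri]
  · rcases hI.sn_val (cnt I x) with h | h <;> rcases hI.pi_val (cnt I x) with h' | h' | h' <;>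
      simp [h, h', Tri]
  · simp [Tri]

lemma pos_succ (f : ℕ → ℝ) (x : ℕ) :
    pos P I f (x + 1) = pos P I f x + dig P I f x * w (tau P I x) := sum_range_succ _ _

lemma pos_zero (f : ℕ → ℝ) : pos P I f 0 = 0 := by simp [pos]

lemma Good.pos_tail (hI : Good P I) {f : ℕ → ℝ} (hf : ∀ a, Tri (f a)) (x y : ℕ) (hxy : x ≤ y) :
    |pos P I f y - pos P I f x| ≤ 1001 / 1000 * (w (2 + 2 * (aF P x + cnt I x)) -
      w (2 + 2 * (aF P y + cnt I y))) := by
  induction y, hxy using Nat.le_induction with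
  | base => simp
  | succ y hxy ih =>
    rw [pos_succ]
    by_cases hl : Live P I y
    · rw [hI.nu_succ hl]
      have h1 : |dig P I f y * w (tau P I y)| ≤ w (2 + 2 * (aF P y + cnt I y)) := by
        rw [abs_mul, w_abs]
        calc _ ≤ 1 * w (tau P I y) := by
              gcongr
              · exact (w_pos _).le
              · exact (hI.dig_tri hf y).abs_le
          _ ≤ _ := by rw [one_mul]; apply w_anti; unfold tau; omega
      have h2 := w_lt2 (x := 2 + 2 * (aF P y + cnt I y)) (y := 2 + 2 * (aF P y + cnt I y + 1))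
        (by omega)
      have h3 := w_pos (2 + 2 * (aF P y + cnt I y))
      have h4 := abs_add_le (pos P I f y - pos P I f x) (dig P I f y * w (tau P I y))
      have e : pos P I f y + dig P I f y * w (tau P I y) - pos P I f x =
        pos P I f y - pos P I f x + dig P I f y * w (tau P I y) := by ring
      rw [e]; linarith
    · rw [dig_dead f hl, zero_mul, add_zero]
      have h1 := aF_mono (P := P) (Nat.le_succ y)
      have h2 := cnt_mono hI.e_mono (Nat.le_succ y)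
      have h3 := w_anti (x := 2 + 2 * (aF P y + cnt I y))
        (y := 2 + 2 * (aF P (y + 1) + cnt I (y + 1))) (by simp only [Nat.succ_eq_add_one] at *; omega)
      linarith

lemma Good.pos_loc (hI : Good P I) {f : ℕ → ℝ} (hf : ∀ a, Tri (f a)) {x y : ℕ}
    (hl : Live P I x) (hxy : x < y) :
    |pos P I f y - pos P I f x - dig P I f x * w (tau P I x)| ≤ w (tau P I x) / 900 := by
  have h := hI.pos_tail hf (x + 1) y hxy
  rw [pos_succ, hI.nu_succ hl] at h
  have h1 := w_pos (2 + 2 * (aF P y + cnt I y))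
  have h2 := w_lt (x := tau P I x) (y := 2 + 2 * (aF P x + cnt I x + 1)) (by unfold tau; omega)
  have h3 := w_pos (tau P I x)
  rw [sub_sub]; linarith

lemma Good.pos_abs (hI : Good P I) {f : ℕ → ℝ} (hf : ∀ a, Tri (f a)) (y : ℕ) :
    |pos P I f y| ≤ 1001 / 1000 * w 2 := by
  have h := hI.pos_tail hf 0 y (Nat.zero_le _)
  rw [pos_zero, aF_zero, cnt_zero hI.e_mono, sub_zero] at h
  have h1 := w_pos (2 + 2 * (aF P y + cnt I y))
  simp only [add_zero, mul_zero] at h
  linarith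

lemma Good.aff_succ (hI : Good P I) (f : ℕ → ℝ) (x : ℕ) {t : ℝ} (ht : |t| ≤ 1) :
    |Aff P I f (x + 1) t - Aff P I f x t - dig P I f x * w x| ≤ w x / 50 := by
  have hw := w_pos x
  unfold Aff
  by_cases hp : P.p ∣ x
  · obtain ⟨a, rfl⟩ := hp
    rw [aF_mul_succ, aF_mul, cnt_succ_of_not hI.e_mono (hI.e_cnt_ne ⟨a, rfl⟩), dig_mul]
    unfold kap
    rw [sum_range_succ]
    refine le_trans (le_of_eq ?_) (by positivity : (0 : ℝ) ≤ w (P.p * a) / 50)
    rw [abs_eq_zero]; ring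
  · rw [aF_succ_of_not hp]
    by_cases he : I.e (cnt I x) = x
    · have h1 := hI.inc (cnt I x) t ht
      have h2 : cnt I (x + 1) = cnt I x + 1 := by
        conv_lhs => rw [← he, cnt_e_succ hI.e_mono]
      have h3 : dig P I f x = I.sn (cnt I x) * I.pi (cnt I x) := by
        unfold dig; rw [if_neg hp, if_pos he]
      rw [h2, h3]
      rw [he] at h1
      convert h1 using 2
      ring
    · rw [cnt_succ_of_not hI.e_mono he, dig_dead f (by rintro (h | h) <;> contradiction)]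
      simp; positivity

lemma Good.aff_tail (hI : Good P I) {f : ℕ → ℝ} (hf : ∀ a, Tri (f a)) (x y : ℕ) (hxy : x ≤ y)
    {t : ℝ} (ht : |t| ≤ 1) :
    |Aff P I f y t - Aff P I f x t| ≤ 103 / 100 * (w x - w y) := by
  induction y, hxy using Nat.le_induction with
  | base => simp
  | succ y hxy ih =>
    have h1 := hI.aff_succ f y ht
    have h2 : |dig P I f y * w y| ≤ w y := by
      rw [abs_mul, w_abs]
      exact mul_le_of_le_one_left (w_pos _).le (hI.dig_tri hf y).abs_le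
    rw [w_succ]
    have h3 := w_pos y
    rw [abs_le] at *
    constructor <;> linarith [h1.1, h1.2, h2.1, h2.2, ih.1, ih.2]

lemma Good.aff_loc (hI : Good P I) {f : ℕ → ℝ} (hf : ∀ a, Tri (f a)) {x y : ℕ} (hxy : x < y)
    {t : ℝ} (ht : |t| ≤ 1) :
    |Aff P I f y t - Aff P I f x t - dig P I f x * w x| ≤ w x / 40 := by
  have h1 := hI.aff_succ f x ht
  have h2 := hI.aff_tail hf (x + 1) y hxy ht
  rw [w_succ] at h2
  have h3 := w_pos y
  have h4 := w_pos x
  rw [abs_le] at *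
  constructor <;> linarith [h1.1, h1.2, h2.1, h2.2]

lemma Good.mu_tail (hI : Good P I) (i i' : ℕ) (h : i ≤ i') :
    |I.mu i' - I.mu i| ≤ 21 / 1000 * (w (I.e i) - w (I.e i')) := by
  induction i', h using Nat.le_induction with
  | base => simp
  | succ j hj ih =>
    have h1 := hI.inc j 1 (by simp)
    have h2 := hI.inc j (-1) (by simp)
    have h3 := w_lt (hI.e_mono (Nat.lt_succ_self j))
    have h4 := w_pos (I.e j)
    simp only [Nat.succ_eq_add_one] at h3
    rw [abs_le] at *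
    constructor <;> linarith [h1.1, h1.2, h2.1, h2.2, ih.1, ih.2]

lemma Good.mu_diff (hI : Good P I) {i i' : ℕ} (h : i ≤ i') :
    |I.mu i' - I.mu i| ≤ w (I.e i) / 40 := by
  have := hI.mu_tail i i' h
  have := w_pos (I.e i')
  have := w_pos (I.e i)
  linarith

lemma Good.gg_rd (hI : Good P I) (i : ℕ) : |I.gg i| * w (I.rd i) ≤ w (I.e i) / 20 := by
  have h1 := hI.frm i (I.cc i + w (I.rd i)) (by simp [w_abs])
  have h2 := hI.frm i (I.cc i - w (I.rd i)) (by simp [w_abs])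
  rw [← w_abs (I.rd i), ← abs_mul]
  rw [abs_le] at *
  constructor <;> nlinarith [h1.1, h1.2, h2.1, h2.2]

lemma Good.gg_key (hI : Good P I) (n i : ℕ) (hi : P.p * n ≤ I.e i) :
    |I.gg i| ≤ w (P.s * n + P.d * n + P.big * I.S i) := by
  by_cases h : P.s * n + P.d * n + P.big * I.S i + (P.D + P.p) * I.S i ≤ P.p * n
  · have h1 := hI.gg_rd i
    have h2 := w_anti (h.trans hi)
    have h3 := w_anti (hI.rd_le i)
    rw [w_add] at h2
    have h4 := w_pos ((P.D + P.p) * I.S i)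
    have h5 := w_pos (I.e i)
    have h6 : |I.gg i| * w ((P.D + P.p) * I.S i) ≤ |I.gg i| * w (I.rd i) := by gcongr
    exact le_of_mul_le_mul_right (by linarith) h4
  · refine (hI.gg_le i).trans (w_anti ?_)
    have h1 := P.hqs
    have e1 : P.p * n = P.s * n + 2 * (P.d * n) := by rw [P.hp, P.hD]; ring
    have h2 : P.d * n ≤ (P.big + P.D + P.p) * I.S i := by nlinarith
    have e2 : P.s * n = 2 * P.m * (P.d * n) := by rw [P.hs, P.hD]; ring
    calc P.s * n + P.d * n + P.big * I.S i = (2 * P.m + 1) * (P.d * n) + P.big * I.S i := by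
          rw [e2]; ring
      _ ≤ (2 * P.m + 1) * ((P.big + P.D + P.p) * I.S i) + P.big * I.S i := by gcongr
      _ = ((2 * P.m + 1) * (P.big + P.D + P.p) + P.big) * I.S i := by ring
      _ ≤ _ := by gcongr

end tree

end Pool.Agent.P.MP_97fbd9_an
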