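import Pool.Agent.P.MP_97fbd9_an.Idx
import Pool.Agent.P.MP_97fbd9_an.Ext

/-! The function with the prescribed jets. -/

open Set Filter Topology

namespace Pool.Agent.P.MP_97fbd9_an

open Idx

/-- The root node. -/
noncomputable def root : Nd := ⟨[], fun _ => 0, 0, fun _ => by simp [Tri], fun _ h => by omega⟩

/-- The extension property of the family of jets. -/
def IsG (P : Par) (G : ℝ → ℝ × ℝ) : Prop :=
  ExtProp (Idx.ps P) (Idx.jet P) (P.m - 1) (br root false) (br root true) G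

/-- The function defined by a field of affine functions. -/
def phi (G : ℝ → ℝ × ℝ) (y : ℝ) : ℝ := (G y).1 + (G y).2 * y

variable {P : Par} {G : ℝ → ℝ × ℝ}

lemma ps_br (N : Nd) (s : Bool) : (br N s).ps P = N.c P + 2 * sgb s * N.Th P := rfl
lemma ps_a1 (N : Nd) (s : Bool) : (a1 N s).ps P = N.c P + sgb s * (N.J P / 10) := rfl
lemma ps_a2 (N : Nd) (s : Bool) : (a2 N s).ps P = N.c P + sgb s * (N.J P / 5) := rfl
lemma sgb_t : sgb true = 1 := rfl
lemma sgb_f : sgb false = -1 := by simp [sgb]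
lemma root_a : root.a = 0 := rfl

lemma Nd.zero_data {N : Nd} (h : N.a = 0) :
    N.c P = 0 ∧ N.Th P = w 2 ∧ N.J P = w P.p ∧ N.b0 P = 0 ∧ N.mu P = 0 := by
  have hg := Nd.good (P := P) (N := N)
  unfold Nd.c Nd.Th Nd.J Nd.b0 Nd.mu
  rw [h, mul_zero, mul_zero, zero_add, pos_zero, tau_zero hg.e_mono, cnt_zero hg.e_mono, hg.h0,
    hg.mu0]
  simp [kap]

lemma ps_root (s : Bool) : (br root s).ps P = 2 * sgb s * w 2 := by
  obtain ⟨a, b, -⟩ := Nd.zero_data (P := P) (N := root) rfl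
  simp only [ps, a, b, zero_add]

lemma ps_abs (i : Idx) : |i.ps P| ≤ 2 * w 2 := by
  have hg := Nd.good (P := P) (N := i.nd)
  have h := locPos (P := P) i (x := P.p * 0) (live_mul 0) (by simp)
  rw [mul_zero, pos_zero, tau_zero hg.e_mono, sub_zero] at h
  have hw := w_pos 2
  by_cases g : |i.edig P 0| ≤ 1
  · have : |i.edig P 0 * w 2| ≤ w 2 := by
      rw [abs_mul, w_abs]; exact mul_le_of_le_one_left hw.le g
    rw [abs_le] at *
    constructor <;> linarith [h.1, h.2, this.1, this.2]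
  · unfold edig at g
    split_ifs at g with g1
    · exact absurd (hg.dig_tri i.nd.tri 0).abs_le g
    · have g2 : i.nd.a = 0 := by
        have := P.p_pos
        by_contra g2
        exact g1 (Nat.mul_pos this (Nat.pos_of_ne_zero g2))
      rcases i with ⟨N, s⟩ | ⟨N, s⟩ | ⟨N, s⟩ | ⟨o, k, h1, h2⟩ <;> simp only [fd, nd] at g g2
      · obtain ⟨a, b, -⟩ := Nd.zero_data (P := P) g2
        simp only [ps, a, b, zero_add, abs_mul, abs_sgb, w_abs, abs_two, mul_one, le_refl]
      all_goals simp at g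

theorem exists_G (P : Par) : ∃ G, IsG P G := by
  have hm := P.hm
  have hM := M0_pos (P := P)
  refine ext_family _ _ _ (12 * M0 P * 17 ^ P.m) (by positivity) (fun a b => ?_) _ _ (fun i => ?_)
    (fun i => ?_)
  · rw [Nat.sub_add_cancel (by omega)]; exact holder a b
  · have := (abs_le.1 (ps_abs (P := P) i)).1
    rw [ps_root]; simp only [sgb]; simp; linarith
  · have := (abs_le.1 (ps_abs (P := P) i)).2
    rw [ps_root]; simp only [sgb]; simp; linarith

lemma IsG.smooth' (hG : IsG P G) : ContDiff ℝ ((P.m - 1 : ℕ) : WithTop ℕ∞) (phi G) :=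
  hG.smooth.fst.add (hG.smooth.snd.mul contDiff_id)

lemma IsG.deriv (hG : IsG P G) {y : ℝ} (hy : y ∈ closure (range (Idx.ps P))) :
    HasDerivAt (phi G) (G y).2 y := by
  have h := hG.flat (by have := P.hm; omega) y hy
  have h1 : HasDerivAt (fun y => (G y).1) 0 y := h.fst
  have h2 : HasDerivAt (fun y => (G y).2) 0 y := h.snd
  have := h1.add (h2.mul (hasDerivAt_id y))
  simp only [zero_mul, zero_add, mul_one] at this
  exact this

lemma IsG.right' (hG : IsG P G) {y : ℝ} (hy : 2 * w 2 ≤ y) : phi G y = 2 := by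
  obtain ⟨-, -, -, a, b⟩ := Nd.zero_data (P := P) (N := root) rfl
  unfold phi
  rw [hG.right y (by rw [ps_root]; simpa [sgb] using hy)]
  simp [jet, a, b, sgb, root_a, w_zero]

lemma IsG.left' (hG : IsG P G) {y : ℝ} (hy : y ≤ - (2 * w 2)) : phi G y = -2 := by
  obtain ⟨-, -, -, a, b⟩ := Nd.zero_data (P := P) (N := root) rfl
  unfold phi
  rw [hG.left y (by rw [ps_root]; simpa [sgb] using hy)]
  simp [jet, a, b, sgb, root_a, w_zero]

lemma valid_between (y : ℝ) (i : Idx) : ∃ i', Valid P y i' ∧ i'.ps P ∈ uIcc (i.ps P) y := by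
  by_cases h : Valid P y i
  · exact ⟨i, h, left_mem_uIcc⟩
  have h0 : i.fd = 0 ∧ i.nd.J P / 5 < |y - i.nd.c P| := by
    rcases i with ⟨N, s⟩ | ⟨N, s⟩ | ⟨N, s⟩ | ⟨o, k, h1, h2⟩ <;>
      simp only [Valid, not_true, not_le] at h
    · exact ⟨rfl, h⟩
    · exact ⟨rfl, h⟩
  have h1 := ps_stop (P := P) i
  rw [h0.1, zero_mul, sub_zero, abs_le] at h1
  rcases lt_abs.1 h0.2 with g | g
  · refine ⟨a2 i.nd true, trivial, mem_uIcc.2 (Or.inl ?_)⟩
    rw [ps_a2, sgb_t]
    constructor <;> linarith [h1.2]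
  · refine ⟨a2 i.nd false, trivial, mem_uIcc.2 (Or.inr ?_)⟩
    rw [ps_a2, sgb_f]
    constructor <;> linarith [h1.1]

lemma IsG.mem (hG : IsG P G) {y : ℝ} (s1 s2 : Idx) {K : Set (ℝ × ℝ)} (hK : IsClosed K)
    (hc : Convex ℝ K) (h1 : s1.ps P ≤ y) (h2 : y ≤ s2.ps P)
    (h : ∀ i : Idx, Valid P y i → s1.ps P ≤ i.ps P → i.ps P ≤ s2.ps P → i.jet P ∈ K) : G y ∈ K :=
  hG.locB y s1 s2 K (Valid P y) hK hc h1 h2 h (fun i _ _ => valid_between y i)

lemma hp_closed (a b v : ℝ) : IsClosed {z : ℝ × ℝ | v ≤ a * z.1 + b * z.2} :=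
  isClosed_le continuous_const (by fun_prop)

lemma hp_convex (a b v : ℝ) : Convex ℝ {z : ℝ × ℝ | v ≤ a * z.1 + b * z.2} := by
  intro x hx z hz s t hs ht hst
  simp only [mem_ofPred_eq, Prod.fst_add, Prod.snd_add, Prod.smul_fst, Prod.smul_snd,
    smul_eq_mul] at *
  have e : v = s * v + t * v := by rw [← add_mul, hst, one_mul]
  nlinarith [mul_le_mul_of_nonneg_left hx hs, mul_le_mul_of_nonneg_left hz ht]

lemma IsG.ge (hG : IsG P G) {y : ℝ} (s1 s2 : Idx) (a b v : ℝ) (h1 : s1.ps P ≤ y)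
    (h2 : y ≤ s2.ps P) (h : ∀ i : Idx, Valid P y i → s1.ps P ≤ i.ps P → i.ps P ≤ s2.ps P →
      v ≤ a * (i.jet P).1 + b * (i.jet P).2) : v ≤ a * (G y).1 + b * (G y).2 :=
  hG.mem s1 s2 (hp_closed a b v) (hp_convex a b v) h1 h2 h

lemma abs_le_one_of {y : ℝ} (h : |y| ≤ 2 * w 2) : |y| ≤ 1 := by rw [w_two] at h; linarith

lemma val_br_eq {N : Nd} {s : Bool} {i : Idx} (h : Nd.Eqv P N i.nd) (hf : i.fd = 2 * sgb s)
    (y : ℝ) : i.val P y = (br N s).val P y := by
  rcases i with ⟨N', s'⟩ | ⟨N', s'⟩ | ⟨N', s'⟩ | ⟨o, k, h1, h2⟩ <;> simp only [fd, nd] at hf h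
  · simp only [val, jet, h.b0_eq, h.mu_eq, h.1, hf]
  all_goals exact absurd hf.symm (by simp [sgb_ne])

theorem IsG.above_br (hG : IsG P G) (N : Nd) {y : ℝ} (hy : |y| ≤ 2 * w 2)
    (h : N.c P + 2 * N.Th P ≤ y) : N.b0 P + N.mu P * y + 2 * w (P.p * N.a) ≤ phi G y := by
  have := hG.ge (br N true) (br root true) 1 y ((br N true).val P y) (y := y)
    (by simpa [ps, sgb] using h) (by rw [ps_root]; simpa [sgb] using (abs_le.1 hy).2)
    fun i hv h1 _ => by
      have : (br N true).val P y ≤ i.val P y := by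
        rcases split_cases (P := P) (br N true) i with ⟨a, b⟩ | ⟨x, a⟩
        · exact (val_br_eq a b y).ge
        · exact a.cmp h1 (abs_le_one_of hy) trivial hv
      unfold val at this ⊢; linarith
  simp only [val, jet, sgb, if_true] at this
  unfold phi; linarith

theorem IsG.below_br (hG : IsG P G) (N : Nd) {y : ℝ} (hy : |y| ≤ 2 * w 2)
    (h : y ≤ N.c P - 2 * N.Th P) : phi G y ≤ N.b0 P + N.mu P * y - 2 * w (P.p * N.a) := by
  have := hG.ge (br root false) (br N false) (-1) (-y) (-(br N false).val P y) (y := y)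
    (by rw [ps_root]; simpa [sgb] using (abs_le.1 hy).1) (by simp [ps, sgb]; linarith)
    fun i hv _ h1 => by
      have : i.val P y ≤ (br N false).val P y := by
        rcases split_cases (P := P) (br N false) i with ⟨a, b⟩ | ⟨x, a⟩
        · exact (val_br_eq a b y).le
        · exact a.symm.cmp h1 (abs_le_one_of hy) hv trivial
      unfold val at this ⊢; linarith
  simp only [val, jet, sgb, Bool.false_eq_true, if_false] at this
  unfold phi; linarith

lemma in_node (N : Nd) {i : Idx} (h : |i.ps P - N.c P| ≤ N.J P / 5) :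
    Nd.Eqv P N i.nd ∧ i.fd = 0 := by
  rcases split_cases (P := P) (a1 N true) i with a | ⟨x, a⟩
  · exact a
  · exfalso
    have := a.farJ
    have hJ := Nd.J_pos (P := P) (N := N)
    rw [ps_a1, sgb_t] at this
    change N.J P < _ at this
    rw [abs_le] at h
    rcases lt_abs.1 this with g | g <;> linarith [h.1, h.2]

lemma val_side {N : Nd} {i : Idx} (s : Bool) {y : ℝ} (h : Nd.Eqv P N i.nd) (hf : i.fd = 0)
    (h1 : N.J P / 10 ≤ sgb s * (y - N.c P)) (h2 : N.J P / 10 ≤ sgb s * (i.ps P - N.c P)) :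
    w (P.p * N.a) / 10 ≤ sgb s * (i.val P y - (N.b0 P + N.mu P * y)) := by
  have hJ := Nd.J_pos (P := P) (N := N)
  have hs := sig_pos (P := P) N.a
  have hw := w_pos (P.p * N.a)
  have e : sig P N.a * N.J P = w (P.p * N.a) := sig_J _
  rcases i with ⟨N', s'⟩ | ⟨N', s'⟩ | ⟨N', s'⟩ | ⟨o, k, k1, k2⟩ <;> simp only [fd, nd] at hf h
  · exact absurd hf (by simp [sgb_ne])
  · simp only [val, jet, h.b0_eq, h.mu_eq, h.1, h.c_eq]
    nlinarith
  · simp only [val, jet, h.b0_eq, h.mu_eq, h.1, ps, h.c_eq, h.J_eq] at h2 ⊢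
    cases s <;> cases s' <;> simp [sgb] at h2 ⊢ <;> linarith
  · have := tp_c (P := P) k1 k2
    rw [h.c_eq, h.J_eq, abs_le] at this
    simp only [ps] at h2
    cases s <;> simp [sgb] at h2 <;> linarith [this.1, this.2]

theorem IsG.above_a1 (hG : IsG P G) (N : Nd) {y : ℝ} (hy : |y| ≤ 2 * w 2)
    (h : N.c P + N.J P / 10 ≤ y) : N.b0 P + N.mu P * y + w (P.p * N.a) / 10 ≤ phi G y := by
  have hJ := Nd.J_pos (P := P) (N := N)
  have hw := w_pos (P.p * N.a)
  have := hG.ge (a1 N true) (br root true) 1 y (N.b0 P + N.mu P * y + w (P.p * N.a) / 10) (y := y)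
    (by simpa [ps, sgb] using h) (by rw [ps_root]; simpa [sgb] using (abs_le.1 hy).2)
    fun i hv h1 _ => by
      rw [ps_a1, sgb_t] at h1
      rcases split_cases (P := P) (a2 N true) i with ⟨a, b⟩ | ⟨x, a⟩
      · have := val_side (N := N) true a b (y := y) (by rw [sgb_t]; linarith)
          (by rw [sgb_t]; linarith)
        rw [sgb_t, val] at this
        linarith
      · have c := a.farJ
        rw [ps_a2, sgb_t] at c
        change N.J P < _ at c
        have := a.cmp (by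
          rw [ps_a2, sgb_t]
          rcases lt_abs.1 c with g | g <;> linarith) (abs_le_one_of hy) trivial hv
        change N.b0 P + 1 * (w (P.p * N.a) / 5) + N.mu P * y ≤ _ at this
        rw [val] at this
        linarith
  unfold phi; linarith

theorem IsG.below_a1 (hG : IsG P G) (N : Nd) {y : ℝ} (hy : |y| ≤ 2 * w 2)
    (h : y ≤ N.c P - N.J P / 10) : phi G y ≤ N.b0 P + N.mu P * y - w (P.p * N.a) / 10 := by
  have hJ := Nd.J_pos (P := P) (N := N)
  have hw := w_pos (P.p * N.a)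
  have := hG.ge (br root false) (a1 N false) (-1) (-y)
    (-(N.b0 P + N.mu P * y - w (P.p * N.a) / 10)) (y := y)
    (by rw [ps_root]; simpa [sgb] using (abs_le.1 hy).1) (by simp [ps, sgb]; linarith)
    fun i hv _ h1 => by
      rw [ps_a1, sgb_f] at h1
      rcases split_cases (P := P) (a2 N false) i with ⟨a, b⟩ | ⟨x, a⟩
      · have := val_side (N := N) false a b (y := y) (by rw [sgb_f]; linarith)
          (by rw [sgb_f]; linarith)
        rw [sgb_f, val] at this
        linarith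
      · have c := a.farJ
        rw [ps_a2, sgb_f] at c
        change N.J P < _ at c
        have := a.symm.cmp (by
          rw [ps_a2, sgb_f]
          rcases lt_abs.1 c with g | g <;> linarith) (abs_le_one_of hy) hv trivial
        change _ ≤ N.b0 P + sgb false * (w (P.p * N.a) / 5) + N.mu P * y at this
        rw [val, sgb_f] at this
        linarith
  unfold phi; linarith

theorem IsG.mid (hG : IsG P G) (N : Nd) {y : ℝ} (hy : |y| ≤ 1) (h : |y - N.c P| ≤ N.J P / 5) :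
    |phi G y - (N.b0 P + N.mu P * y)| ≤ w (P.p * N.a) / 4 := by
  have hw := w_pos (P.p * N.a)
  have key : ∀ i : Idx, Valid P y i → (a2 N false).ps P ≤ i.ps P → i.ps P ≤ (a2 N true).ps P →
      |i.val P y - (N.b0 P + N.mu P * y)| ≤ w (P.p * N.a) / 4 := fun i hv h1 h2 => by
    rw [ps_a2, sgb_f] at h1
    rw [ps_a2, sgb_t] at h2
    obtain ⟨a, b⟩ := in_node (P := P) N (i := i) (abs_le.2 ⟨by linarith, by linarith⟩)
    have := val_stop i hy hv
    rw [a.b0_eq, a.mu_eq, a.1, b, zero_mul, sub_zero] at this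
    linarith
  rw [abs_le] at h
  have p1 : (a2 N false).ps P ≤ y := by simp [ps, sgb]; linarith [h.1]
  have p2 : y ≤ (a2 N true).ps P := by simp [ps, sgb]; linarith [h.2]
  have a := hG.ge _ _ 1 y (N.b0 P + N.mu P * y - w (P.p * N.a) / 4) p1 p2 fun i hv h1 h2 => by
    have := (abs_le.1 (key i hv h1 h2)).1
    unfold val at this; linarith
  have b := hG.ge _ _ (-1) (-y) (-(N.b0 P + N.mu P * y) - w (P.p * N.a) / 4) p1 p2
    fun i hv h1 h2 => by
    have := (abs_le.1 (key i hv h1 h2)).2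
    unfold val at this; linarith
  unfold phi
  rw [abs_le]; constructor <;> linarith

lemma box_closed (a b v : ℝ) : IsClosed {z : ℝ × ℝ | z.1 = a ∧ |z.2 - b| ≤ v} :=
  (isClosed_eq continuous_fst continuous_const).inter
    (isClosed_le (f := fun z : ℝ × ℝ => |z.2 - b|) (by fun_prop) continuous_const)

lemma box_convex (a b v : ℝ) : Convex ℝ {z : ℝ × ℝ | z.1 = a ∧ |z.2 - b| ≤ v} := by
  intro x hx z hz s t hs ht hst
  simp only [mem_ofPred_eq, Prod.fst_add, Prod.snd_add, Prod.smul_fst, Prod.smul_snd,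
    smul_eq_mul, abs_le] at *
  obtain rfl : t = 1 - s := by linarith
  refine ⟨by rw [hx.1, hz.1]; ring, ?_, ?_⟩
  · nlinarith [mul_le_mul_of_nonneg_left hx.2.1 hs, mul_le_mul_of_nonneg_left hz.2.1 ht]
  · nlinarith [mul_le_mul_of_nonneg_left hx.2.2 hs, mul_le_mul_of_nonneg_left hz.2.2 ht]

theorem IsG.steep (hG : IsG P G) (N : Nd) {y B : ℝ} (hB : 0 ≤ B) (h : |y - N.c P| ≤ N.J P / 10)
    (hC : ∀ (o : Orb) k, 1 ≤ k → o.n k = N.a → |sig P (o.n k) * o.C P k| ≤ B) :
    (G y).1 = N.b0 P - sig P N.a * N.c P ∧ |(G y).2 - (N.mu P + sig P N.a)| ≤ B := by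
  have hJ := Nd.J_pos (P := P) (N := N)
  rw [abs_le] at h
  refine hG.mem (a1 N false) (a1 N true) (box_closed _ _ _) (box_convex _ _ _)
    (by simp [ps, sgb]; linarith [h.1]) (by simp [ps, sgb]; linarith [h.2]) fun i _ h1 h2 => ?_
  rw [ps_a1, sgb_f] at h1
  rw [ps_a1, sgb_t] at h2
  obtain ⟨a, b⟩ := in_node (P := P) N (i := i) (abs_le.2 ⟨by linarith, by linarith⟩)
  rcases i with ⟨N', s'⟩ | ⟨N', s'⟩ | ⟨N', s'⟩ | ⟨o, k, k1, k2⟩ <;> simp only [fd, nd] at a b
  · exact absurd b (by simp [sgb_ne])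
  · simp [jet, a.b0_eq, a.mu_eq, a.1, a.c_eq, hB]
  · simp only [ps, a.c_eq, a.J_eq] at h1 h2
    cases s' <;> simp [sgb] at h1 h2 <;> linarith
  · have e : o.n k = N.a := a.1
    have := hC o k k1 e
    simp only [mem_ofPred_eq, jet, (tp_jet o k).1, (tp_jet o k).2, a.b0_eq, a.mu_eq, a.c_eq,
      add_sub_cancel_left, ← e, true_and, this]

theorem IsG.lin (hG : IsG P G) {y : ℝ} (h : |y| ≤ w P.p / 10) : phi G y = y / w P.p := by
  obtain ⟨a, -, b, c, d⟩ := Nd.zero_data (P := P) (N := root) rfl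
  have := hG.steep root (y := y) le_rfl (by rw [a, b, sub_zero]; exact h) fun o k _ g => by
    have := Orb.n_pos (o := o) k
    simp only [root] at g; omega
  rw [a, c, d, abs_nonpos_iff] at this
  unfold phi
  rw [this.1, sub_eq_zero.1 this.2]
  simp [root, sig, w_zero]; ring

theorem IsG.steep2 (hG : IsG P G) {o : Orb} {k : ℕ} (h1 : 1 ≤ k) (h2 : k < o.K) {y B : ℝ}
    (h : |y - o.T P k| ≤ w (P.D * o.n k + P.p) / 100)
    (hC : ∀ (o' : Orb) k', 1 ≤ k' → Orb.Node P o k o' k' →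
      |o.T P k - o'.T P k'| ≤ 4 * |y - o.T P k| → |o.C P k - o'.C P k'| ≤ B) :
    (G y).1 = o.jb P k ∧ |(G y).2 - o.ja P k| ≤ sig P (o.n k) * B := by
  have hJ := Nd.J_pos (P := P) (N := o.tn k)
  have t0 := tp_c (P := P) h1 h2
  change _ ≤ (o.tn k).J P / 100 at h
  refine hG.locL y (tp o k h1 h2) _ (box_closed _ _ _) (box_convex _ _ _) fun i hi => ?_
  change _ ≤ 3 * |y - o.T P k| at hi
  have t1 : |o.T P k - i.ps P| ≤ 4 * |y - o.T P k| := by
    have := abs_sub_le (o.T P k) y (i.ps P)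
    rw [abs_sub_comm (o.T P k) y, abs_sub_comm y (i.ps P)] at this
    linarith
  have t2 : |i.ps P - (o.tn k).c P| ≤ (o.tn k).J P * (6 / 100) := by
    have := abs_sub_le (i.ps P) (o.T P k) ((o.tn k).c P)
    rw [abs_sub_comm (i.ps P) (o.T P k)] at this
    linarith
  obtain ⟨a, b⟩ := in_node (P := P) (o.tn k) (i := i) (by linarith)
  rw [abs_le] at t2
  rcases i with ⟨N', s'⟩ | ⟨N', s'⟩ | ⟨N', s'⟩ | ⟨o', k', k1, k2⟩ <;> simp only [fd, nd] at a b
  · exact absurd b (by simp [sgb_ne])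
  · simp only [ps, a.c_eq, a.J_eq] at t2
    cases s' <;> simp [sgb] at t2 <;> linarith [t2.1, t2.2]
  · simp only [ps, a.c_eq, a.J_eq] at t2
    cases s' <;> simp [sgb] at t2 <;> linarith [t2.1, t2.2]
  · have hn := node_of h2 k2 a
    have := hC o' k' k1 hn t1
    refine ⟨hn.jb_eq, ?_⟩
    simp only [jet]
    rw [abs_sub_comm, hn.ja_eq, abs_mul, abs_of_pos (sig_pos _)]
    exact mul_le_mul_of_nonneg_left this (sig_pos _).le

theorem IsG.at_T (hG : IsG P G) {o : Orb} {k : ℕ} (h1 : 1 ≤ k) (h2 : k < o.K) :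
    phi G (o.T P k) = o.jb P k + o.ja P k * o.T P k ∧
      HasDerivAt (phi G) (o.ja P k) (o.T P k) := by
  have e : G (o.T P k) = (o.jb P k, o.ja P k) := hG.eq (tp o k h1 h2)
  have := hG.deriv (subset_closure ⟨tp o k h1 h2, rfl⟩)
  change HasDerivAt _ (G (o.T P k)).2 (o.T P k) at this
  rw [e] at this
  exact ⟨by unfold phi; rw [e], this⟩

theorem IsG.at_lim (hG : IsG P G) {s : ℕ → Idx} {y : ℝ} {z : ℝ × ℝ}
    (h1 : Tendsto (fun a => (s a).ps P) atTop (𝓝 y))
    (h2 : Tendsto (fun a => (s a).jet P) atTop (𝓝 z)) :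
    phi G y = z.1 + z.2 * y ∧ HasDerivAt (phi G) z.2 y := by
  have e : G y = z := by
    have := (hG.smooth.continuous.tendsto y).comp h1
    refine tendsto_nhds_unique (this.congr fun a => hG.eq _) h2
  have := hG.deriv (mem_closure_of_tendsto h1 (Eventually.of_forall fun a => ⟨_, rfl⟩))
  rw [e] at this
  exact ⟨by unfold phi; rw [e], this⟩

end Pool.Agent.P.MP_97fbd9_an
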