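import Pool.Agent.P.MP_97fbd9_an.Chain

/-! Separation of designed positions with different futures. -/

open Finset

namespace Pool.Agent.P.MP_97fbd9_an

namespace Orb

variable {P : Par} {o o' : Orb} {k k' L : ℕ}

/-- Past displacement. -/
noncomputable def Pt (P : Par) (o : Orb) (k : ℕ) : ℝ := o.fo P k + o.g P k * o.T P (o.u P k)
/-- One pending term. -/
noncomputable def pd (P : Par) (o : Orb) (k l : ℕ) : ℝ :=
  if o.u P l < k then o.lh P k l * o.g P l * o.T P (o.u P l) else 0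
/-- Absolute pending sum. -/
noncomputable def Rab (P : Par) (o : Orb) (k m : ℕ) : ℝ := ∑ l ∈ Ico m o.K, |o.pd P k l|

lemma Rab_nonneg (k m : ℕ) : 0 ≤ o.Rab P k m := sum_nonneg fun _ _ => abs_nonneg _

lemma sum_alive (hK : k + L < o.K) (ha : ∀ l, 1 ≤ l → l ≤ L → k ≤ o.u P (k + l)) (F : ℕ → ℝ)
    (hF : ∀ l, k ≤ o.u P l → F l = 0) :
    ∑ l ∈ Ico (k + 1) o.K, F l = ∑ l ∈ Ico (k + L + 1) o.K, F l := by
  rw [← sum_Ico_consecutive F (by omega : k + 1 ≤ k + L + 1) (by omega : k + L + 1 ≤ o.K),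
    sum_eq_zero, zero_add]
  intro l hl
  obtain ⟨h1, h2⟩ := mem_Ico.1 hl
  apply hF
  have := ha (l - k) (by omega) (by omega)
  rwa [Nat.add_sub_cancel' (by omega)] at this

lemma T_split (hk : 1 ≤ k) (hK : k + L < o.K) (ha : ∀ l, 1 ≤ l → l ≤ L → k ≤ o.u P (k + l)) :
    |o.T P k - (o.c P k + o.Pt P k + o.lm P k * o.tv P (o.cinf P) (k + 1))| ≤
      o.Rab P k (k + L + 1) := by
  have h : k < o.K := by omega
  have e := t_eq (P := P) (o := o) (o.cinf P) k
  rw [sum_eq_sum_Ico_succ_bot h, if_pos (u_lt hk), lh_self, tv_succ _ h] at e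
  have e2 := sum_alive hK ha (o.pd P k) (fun l hl => if_neg (by omega))
  have e3 : o.T P k - (o.c P k + o.Pt P k + o.lm P k * o.tv P (o.cinf P) (k + 1)) =
      ∑ l ∈ Ico (k + L + 1) o.K, o.pd P k l := by
    rw [← e2]; unfold Pt pd T; linear_combination e
  rw [e3]
  exact abs_sum_le_sum_abs _ _

lemma Rab_top {m : ℕ} (hm : o.K ≤ m) : o.Rab P k m = 0 := by
  unfold Rab; rw [Ico_eq_empty (by omega), sum_empty]

lemma Rab_le {m : ℕ} (hk : 1 ≤ k) (hkm : k ≤ m) (hm : m < o.K) :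
    o.Rab P k m ≤ 2 * |o.lh P k m| * w (P.d * o.n m + P.p) := by
  have hp : ∀ l, m ≤ l → l < o.K → |o.pd P k l| ≤ |o.lh P k l| * w (P.d * o.n l + P.p + P.big) :=
    fun l a b => abs_ite_le (by have := w_pos (P.d * o.n l + P.p + P.big); positivity) fun _ => by
      rw [mul_assoc, abs_mul]
      exact mul_le_mul_of_nonneg_left (gt_le cinf_le (by omega) b.le) (abs_nonneg _)
  unfold Rab
  rw [sum_eq_sum_Ico_succ_bot hm]
  have h1 := hp m le_rfl hm
  have h2 : |∑ l ∈ Ico (m + 1) o.K, abs (o.pd P k l)| ≤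
      1002 / 1000 * |o.lh P k m| * w (P.D * o.n m + P.p) := by
    refine sum_geo (abs_nonneg _) fun l hl => ?_
    obtain ⟨a, b⟩ := mem_Ico.1 hl
    rw [abs_abs]
    refine (hp l (by omega) b).trans ?_
    rw [lh_mul hkm (by omega : m ≤ l), abs_mul, mul_assoc]
    refine mul_le_mul_of_nonneg_left ?_ (abs_nonneg _)
    exact (mul_le_of_le_one_right (abs_nonneg _) (w_le_one _)).trans (lh_le a)
  have h3 := w_lt (x := P.d * o.n m + P.p) (y := P.d * o.n m + P.p + P.big)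
    (by have := P.big_ge; omega)
  have h4 := w_anti (x := P.d * o.n m + P.p) (y := P.D * o.n m + P.p)
    (by have := d_le_D P (o.n m); omega)
  have h5 := le_abs_self (∑ l ∈ Ico (m + 1) o.K, |o.pd P k l|)
  have h6 := abs_nonneg (o.lh P k m)
  have h7 := w_pos (P.d * o.n m + P.p)
  nlinarith

lemma PE_le (hk : 1 ≤ k) (hK : k + L < o.K) (ha : ∀ l, 1 ≤ l → l ≤ L → k ≤ o.u P (k + l))
    {i : ℕ} (hi : o.ik P k ≤ i) :
    |o.PE P (o.cinf P) k (k + 1) i| ≤ o.Rab P k (k + L + 1) * (w ((o.I P k).e (o.ik P k)) / 20) := by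
  unfold PE
  rw [sum_alive hK ha _ (fun l hl => if_neg (by omega))]
  unfold Rab
  rw [sum_mul]
  refine (abs_sum_le_sum_abs _ _).trans (sum_le_sum fun l hl => ?_)
  have hw := w_pos ((o.I P k).e (o.ik P k))
  refine abs_ite_le (by positivity) fun h => ?_
  have hg := good (P := P) (o := o) k
  have a1 := hg.mu_diff hi
  have a2 := hg.mu_diff (dep_spec hk (by have := (mem_Ico.1 hl).1; omega) h.1).2.1
  unfold pd T
  rw [if_pos h.1, abs_mul]
  gcongr
  rw [abs_le] at *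
  constructor <;> linarith [a1.1, a1.2, a2.1, a2.2]

lemma Pt_eq (hk : 1 ≤ k) (hK : k < o.K) {i : ℕ} (hi : o.ik P k ≤ i) :
    sig P (o.n k) * o.Pt P k = (o.I P k).h i - (o.I P k).h (o.ik P k) +
      ((o.I P k).mu i - (o.I P k).mu (o.ik P k)) * (o.T P k - o.g P k * o.T P (o.u P k)) +
      ((o.I P k).gg i * o.T P (k - (o.I P k).fr i) - (o.I P k).kn i) -
      o.PE P (o.cinf P) k (k + 1) i := by
  have e1 := inv (P := P) (o := o) (o.cinf P) hk hK.le i
  have e2 := inv (P := P) (o := o) (o.cinf P) hk hK.le (o.ik P k)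
  rw [PE_ik _ hk le_rfl] at e2
  rw [PE_split _ hk hK hi] at e1
  have e6 := g_sig (P := P) (o := o) k
  have e7 := fo_sig (P := P) (o := o) k
  change o.eta P _ k = _ + _ * o.t P _ (o.u P k) - 0 at e2
  unfold Pt T
  linear_combination e1 - e2 + o.t P (o.cinf P) (o.u P k) * e6 + e7

lemma dP_aux (h : Chain P o k o' k' L) (hk : 1 ≤ k) (hk' : 1 ≤ k')
    (ha : ∀ l, 1 ≤ l → l ≤ L → k ≤ o.u P (k + l)) {i : ℕ} (hi : o.ik P k ≤ i)
    (hag : Agree (o.I P k) (o'.I P k') i) :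
    |o.Pt P k - o'.Pt P k' - (((o.I P k).gg i * o.T P (k - (o.I P k).fr i) - (o.I P k).kn i) -
      ((o'.I P k').gg i * o'.T P (k' - (o'.I P k').fr i) - (o'.I P k').kn i)) / sig P (o.n k)| ≤
      (|o.T P k - o'.T P k'| + |o.Pt P k - o'.Pt P k'| + o.Rab P k (k + L + 1) +
        o'.Rab P k' (k' + L + 1)) / 1000 := by
  have h0 := h.1 0 (by omega)
  simp only [add_zero] at h0
  have ha' : ∀ l, 1 ≤ l → l ≤ L → k' ≤ o'.u P (k' + l) := fun l a b => by
    have := (h.u_iff hk hk' b).2; have := ha l a b; omega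
  have hK := (h.1 L le_rfl).1
  have hK' := (h.1 L le_rfl).2.1
  have hi' : o'.ik P k' ≤ i := h0.ik_eq ▸ hi
  have e1 := Pt_eq hk h0.1 hi
  have e2 := Pt_eq hk' h0.2.1 hi'
  have b1 := PE_le hk hK ha hi
  have b2 := PE_le hk' hK' ha' hi'
  have hl : LocP (o.I P k) (o'.I P k') i := loc _ _ _ hag
  rw [h0.ik_eq, h0.n_eq, ← hl.h _ le_rfl, ← hl.h _ hi, ← hl.mu _ le_rfl, ← hl.mu _ hi] at e2
  rw [h0.ik_eq, ← hl.e _ hi] at b2
  have hg := good (P := P) (o := o) k
  have hs := sig_pos (P := P) (o.n k)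
  have c1 := hg.mu_diff hi
  have c2 : w ((o.I P k).e (o.ik P k)) ≤ sig P (o.n k) / 1000 := by
    have := hg.e_sig (o.n k)
    rw [div_le_iff₀ hs] at this
    have h1 := w_le_one (P.D * o.n k + P.p)
    unfold ik
    nlinarith
  set dm := (o.I P k).mu i - (o.I P k).mu (o.ik P k) with hdm
  have c3 : |dm * (o.g P k * o.T P (o.u P k) - o'.g P k' * o'.T P (o'.u P k'))| ≤
      |dm| * |o.Pt P k - o'.Pt P k'| := by
    rcases eq_or_lt_of_le (hg.fr_mono hi) with g | g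
    · rw [hdm, hg.same_mu _ _ g]; simp
    · have := (hl.kg _ _ hi le_rfl g).1
      rw [← abs_mul]
      apply le_of_eq
      congr 2
      unfold Pt fo
      rw [h0.ik_eq, h0.n_eq, this]; ring
  have c4 : |dm * (o.T P k - o'.T P k')| ≤ |dm| * |o.T P k - o'.T P k'| := (abs_mul _ _).le
  set A := (o.I P k).gg i * o.T P (k - (o.I P k).fr i) - (o.I P k).kn i
  set A' := (o'.I P k').gg i * o'.T P (k' - (o'.I P k').fr i) - (o'.I P k').kn i
  have e : o.Pt P k - o'.Pt P k' - (A - A') / sig P (o.n k) =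
      (dm * (o.T P k - o'.T P k') -
        dm * (o.g P k * o.T P (o.u P k) - o'.g P k' * o'.T P (o'.u P k')) -
        o.PE P (o.cinf P) k (k + 1) i + o'.PE P (o'.cinf P) k' (k' + 1) i) / sig P (o.n k) := by
    field_simp
    linear_combination e1 - e2
  rw [e, abs_div, abs_of_pos hs, div_le_iff₀ hs]
  have r1 := Rab_nonneg (P := P) (o := o) k (k + L + 1)
  have r2 := Rab_nonneg (P := P) (o := o') k' (k' + L + 1)
  have r3 := abs_nonneg (o.T P k - o'.T P k')
  have r4 := abs_nonneg (o.Pt P k - o'.Pt P k')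
  have d1 : |dm| * |o.T P k - o'.T P k'| ≤ sig P (o.n k) / 1000 * |o.T P k - o'.T P k'| := by
    gcongr; linarith [w_pos ((o.I P k).e (o.ik P k))]
  have d2 : |dm| * |o.Pt P k - o'.Pt P k'| ≤ sig P (o.n k) / 1000 * |o.Pt P k - o'.Pt P k'| := by
    gcongr; linarith [w_pos ((o.I P k).e (o.ik P k))]
  have d3 : o.Rab P k (k + L + 1) * (w ((o.I P k).e (o.ik P k)) / 20) ≤
      o.Rab P k (k + L + 1) * (sig P (o.n k) / 1000) :=
    mul_le_mul_of_nonneg_left (by linarith [w_pos ((o.I P k).e (o.ik P k))]) r1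
  have d4 : o'.Rab P k' (k' + L + 1) * (w ((o.I P k).e (o.ik P k)) / 20) ≤
      o'.Rab P k' (k' + L + 1) * (sig P (o.n k) / 1000) :=
    mul_le_mul_of_nonneg_left (by linarith [w_pos ((o.I P k).e (o.ik P k))]) r2
  rw [abs_le] at b1 b2 c3 c4 ⊢
  constructor <;> nlinarith [b1.1, b1.2, b2.1, b2.2, c3.1, c3.2, c4.1, c4.2]

lemma dP (h : Chain P o k o' k' L) (hk : 1 ≤ k) (hk' : 1 ≤ k')
    (ha : ∀ l, 1 ≤ l → l ≤ L → k ≤ o.u P (k + l)) :
    ∃ Y Mn : ℝ, 0 ≤ Y ∧ |o.Pt P k - o'.Pt P k' - Mn| ≤ Y / 10 +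
      (|o.T P k - o'.T P k'| + |o.Pt P k - o'.Pt P k'| + o.Rab P k (k + L + 1) +
        o'.Rab P k' (k' + L + 1)) / 1000 ∧
      ((Y = 0 ∧ Mn = 0 ∧ ∀ a, (o.I P k).pi a = (o'.I P k').pi a) ∨
        ∃ i, o.ik P k ≤ i ∧ Agree (o.I P k) (o'.I P k') i ∧ (o.I P k).pi i ≠ (o'.I P k').pi i ∧
          Y = w ((o.I P k).e i) / sig P (o.n k) ∧
          Mn = (o.I P k).sn i * ((o.I P k).pi i - (o'.I P k').pi i) * Y) := by
  classical
  have h0 := h.1 0 (by omega)
  simp only [add_zero] at h0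
  by_cases hall : ∀ a, (o.I P k).pi a = (o'.I P k').pi a
  · obtain ⟨i0, s0⟩ := (good (P := P) (o := o) k).stab
    obtain ⟨i1, s1⟩ := (good (P := P) (o := o') k').stab
    have := dP_aux h hk hk' ha (i := max (o.ik P k) (max i0 i1)) (le_max_left _ _)
      (fun a _ => hall a)
    obtain ⟨a1, a2, -⟩ := s0 (max (o.ik P k) (max i0 i1)) (by omega)
    obtain ⟨a3, a4, -⟩ := s1 (max (o.ik P k) (max i0 i1)) (by omega)
    rw [a1, a2, a3, a4] at this
    exact ⟨0, 0, le_rfl, by simpa using this, Or.inl ⟨rfl, rfl, hall⟩⟩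
  · push Not at hall
    set i := Nat.find hall with hi
    have hne : (o.I P k).pi i ≠ (o'.I P k').pi i := Nat.find_spec hall
    have hag : Agree (o.I P k) (o'.I P k') i := fun a g => by
      have := Nat.find_min hall g; push Not at this; exact this
    have hik : o.ik P k ≤ i := by
      by_contra g; exact hne (h0.agree i (not_le.1 g))
    have hs := sig_pos (P := P) (o.n k)
    have hw := w_pos ((o.I P k).e i)
    refine ⟨_, _, by positivity, ?_, Or.inr ⟨i, hik, hag, hne, rfl, rfl⟩⟩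
    have b := dP_aux h hk hk' ha hik hag
    have f1 := frame_t (P := P) (o := o) (cinf_le (P := P) (o := o)) hk h0.1.le i
    have f2 := frame_t (P := P) (o := o') (cinf_le (P := P) (o := o')) hk' h0.2.1.le i
    have hl : LocP (o.I P k) (o'.I P k') i := loc _ _ _ hag
    rw [← hl.e _ le_rfl, ← hl.sn _ le_rfl] at f2
    set A := (o.I P k).gg i * o.T P (k - (o.I P k).fr i) - (o.I P k).kn i
    set A' := (o'.I P k').gg i * o'.T P (k' - (o'.I P k').fr i) - (o'.I P k').kn i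
    have c : |(A - A') / sig P (o.n k) - (o.I P k).sn i * ((o.I P k).pi i - (o'.I P k').pi i) *
        (w ((o.I P k).e i) / sig P (o.n k))| ≤ w ((o.I P k).e i) / sig P (o.n k) / 10 := by
      rw [← mul_div_assoc, ← sub_div, abs_div, abs_of_pos hs, div_right_comm]
      gcongr
      change |A - _| ≤ _ at f1
      change |A' - _| ≤ _ at f2
      rw [abs_le] at *
      constructor <;> nlinarith [f1.1, f1.2, f2.1, f2.2]
    rw [abs_le] at *
    constructor <;> linarith [b.1, b.2, c.1, c.2]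

lemma lb_real {t dP Mn Fm Y X R R' : ℝ} (hX : 0 < X) (_hY : 0 ≤ Y)
    (h1 : |t - (dP + Fm)| ≤ R + R') (hR : R + R' ≤ X / 100)
    (h2 : |dP - Mn| ≤ Y / 10 + (|t| + |dP| + R + R') / 1000)
    (hF1 : 9 / 10 * X ≤ |Fm|) (hF2 : |Fm| ≤ 21 / 10 * X) (hM1 : Y ≤ |Mn|) (hM2 : |Mn| ≤ 2 * Y)
    (hc : 1000 * X ≤ Y ∨ 1000 * Y ≤ X ∨ 0 ≤ Mn * Fm) : X / 2 ≤ |t| := by
  have a1 : |dP| ≤ |t| + |Fm| + (R + R') := by
    have := abs_sub_abs_le_abs_sub (dP + Fm) t
    rw [abs_sub_comm] at this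
    have := abs_sub_abs_le_abs_sub dP (dP + Fm)
    simp only [sub_add_cancel_left, abs_neg] at this
    linarith
  have a2 : |Mn + Fm| ≤ |t| + (R + R') + |dP - Mn| := by
    have e : Mn + Fm = t - (t - (dP + Fm)) - (dP - Mn) := by ring
    rw [e]
    have := abs_sub (t - (t - (dP + Fm))) (dP - Mn)
    have := abs_sub t (t - (dP + Fm))
    linarith
  have a3 : |Mn| - |Fm| ≤ |Mn + Fm| := by
    have := abs_sub_abs_le_abs_sub Mn (-Fm); simpa using this
  have a4 : |Fm| - |Mn| ≤ |Mn + Fm| := by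
    have := abs_sub_abs_le_abs_sub Fm (-Mn); rw [add_comm]; simpa using this
  have a5 := abs_nonneg t
  rcases hc with h | h | h
  · linarith
  · linarith
  · have : |Mn + Fm| = |Mn| + |Fm| := by
      rcases mul_nonneg_iff.1 h with g | g
      · rw [abs_of_nonneg g.1, abs_of_nonneg g.2, abs_of_nonneg (by linarith [g.1, g.2])]
      · rw [abs_of_nonpos g.1, abs_of_nonpos g.2, abs_of_nonpos (by linarith [g.1, g.2])]; ring
    linarith

lemma tri_diff {a b : ℝ} (ha : Tri a) (hb : Tri b) (h : a ≠ b) : 1 ≤ |a - b| ∧ |a - b| ≤ 2 := by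
  rcases ha with rfl | rfl | rfl <;> rcases hb with rfl | rfl | rfl <;>
    first | exact absurd rfl h | norm_num

lemma parity {a b : ℕ} (h : a % 2 ≠ b % 2) : 1000 * w a ≤ w b ∨ 1000 * w b ≤ w a := by
  rcases lt_trichotomy a b with g | g | g
  · have := w_lt g; right; linarith
  · exact absurd (by rw [g]) h
  · have := w_lt g; left; linarith

lemma LE_even (k k' : ℕ) : o.LE P k k' % 2 = 0 := by
  unfold LE
  rw [← Nat.dvd_iff_mod_eq_zero]
  refine dvd_sum fun l _ => ?_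
  have a := Par.mul_even P.p_even (o.j l)
  have b : P.D * o.n l % 2 = 0 := Par.mul_even (by have := P.hD; omega) _
  have := P.p_even
  omega

lemma lb_main (h : Chain P o k o' k' L) (hk : 1 ≤ k) (hk' : 1 ≤ k')
    (ha : ∀ l, 1 ≤ l → l ≤ L → k ≤ o.u P (k + l)) {E : ℕ}
    (hR : o.Rab P k (k + L + 1) + o'.Rab P k' (k' + L + 1) ≤ w E / 100)
    (hF1 : 9 / 10 * w E ≤ |o.lh P k (k + L) * (o.lm P (k + L) * o.tv P (o.cinf P) (k + L + 1) -
      o'.lm P (k' + L) * o'.tv P (o'.cinf P) (k' + L + 1))|)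
    (hF2 : |o.lh P k (k + L) * (o.lm P (k + L) * o.tv P (o.cinf P) (k + L + 1) -
      o'.lm P (k' + L) * o'.tv P (o'.cinf P) (k' + L + 1))| ≤ 21 / 10 * w E)
    (hc : E % 2 = 0 ∨ ((∃ a, (o.I P k).pi a ≠ (o'.I P k').pi a) ∧ ∀ i,
      Agree (o.I P k) (o'.I P k') i → (o.I P k).pi i ≠ (o'.I P k').pi i →
      0 ≤ (o.I P k).sn i * ((o.I P k).pi i - (o'.I P k').pi i) *
        (o.lh P k (k + L) * (o.lm P (k + L) * o.tv P (o.cinf P) (k + L + 1) -
          o'.lm P (k' + L) * o'.tv P (o'.cinf P) (k' + L + 1))))) :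
    w E / 2 ≤ |o.T P k - o'.T P k'| := by
  have h0 := h.1 0 (by omega)
  simp only [add_zero] at h0
  have ha' : ∀ l, 1 ≤ l → l ≤ L → k' ≤ o'.u P (k' + l) := fun l a b => by
    have := (h.u_iff hk hk' b).2; have := ha l a b; omega
  have s1 := T_split hk (h.1 L le_rfl).1 ha
  have s2 := T_split hk' (h.1 L le_rfl).2.1 ha'
  have s3 := h.tv_diff hk hk' ha (o.cinf P) (o'.cinf P)
  rw [h0.c_eq] at s2
  obtain ⟨Y, Mn, hY, b, hcase⟩ := dP h hk hk' ha
  set Fm := o.lh P k (k + L) * (o.lm P (k + L) * o.tv P (o.cinf P) (k + L + 1) -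
      o'.lm P (k' + L) * o'.tv P (o'.cinf P) (k' + L + 1))
  have h1 : |o.T P k - o'.T P k' - (o.Pt P k - o'.Pt P k' + Fm)| ≤
      o.Rab P k (k + L + 1) + o'.Rab P k' (k' + L + 1) := by
    rw [← s3]
    rw [abs_le] at *
    constructor <;> linarith [s1.1, s1.2, s2.1, s2.2]
  rcases hcase with ⟨rfl, rfl, hall⟩ | ⟨i, hi, hag, hne, hYe, hMn⟩
  · exact lb_real (w_pos E) le_rfl h1 hR b hF1 hF2 (by simp) (by simp)
      (Or.inr (Or.inr (by simp)))
  · have hg := good (P := P) (o := o) k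
    have hg' := good (P := P) (o := o') k'
    obtain ⟨t1, t2⟩ := tri_diff (hg.pi_val i) (hg'.pi_val i) hne
    have hsn : |(o.I P k).sn i| = 1 := by rcases hg.sn_val i with g | g <;> simp [g]
    have hM : |Mn| = |(o.I P k).pi i - (o'.I P k').pi i| * Y := by
      rw [hMn, abs_mul, abs_mul, hsn, one_mul, abs_of_nonneg hY]
    refine lb_real (w_pos E) hY h1 hR b hF1 hF2 (by rw [hM]; nlinarith) (by rw [hM]; nlinarith) ?_
    rcases hc with hc | hc
    · have a1 : P.p * o.n k ≤ (o.I P k).e i :=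
        (le_e_cnt hg.e_mono _).trans (hg.e_mono.monotone hi)
      have a2 : P.s * o.n k ≤ P.p * o.n k := by gcongr; have := P.hp; omega
      obtain ⟨y, hy⟩ : ∃ y, (o.I P k).e i = P.s * o.n k + y := ⟨_, (Nat.add_sub_cancel' (a2.trans a1)).symm⟩
      have a3 := hg.e_odd i
      have a4 := Par.mul_even P.s_even (o.n k)
      have a5 := P.p_even
      rw [hYe, hy, div_sig]
      rcases parity (a := E) (b := y + P.p) (by omega) with g | g
      · exact Or.inl g
      · exact Or.inr (Or.inl g)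
    · refine Or.inr (Or.inr ?_)
      have := hc.2 i hag hne
      rw [hMn]
      nlinarith [mul_nonneg this hY]

end Orb

end Pool.Agent.P.MP_97fbd9_an
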