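import Pool.Agent.P.MP_97fbd9_an.Phi

/-! The function at the final pass and at the primary centres. -/

open Finset Filter Topology

namespace Pool.Agent.P.MP_97fbd9_an

open Idx

variable {P : Par} {G : ℝ → ℝ × ℝ}

lemma w_p_tendsto (P : Par) : Tendsto (fun a => w (P.p * a)) atTop (𝓝 0) :=
  w_tendsto.comp (tendsto_id.const_mul_atTop' P.p_pos)

lemma kap_tendsto {f : ℕ → ℝ} (hf : ∀ a, Tri (f a)) : ∃ κ, Tendsto (kap P f) atTop (𝓝 κ) := by
  have : Summable fun b => (-1 : ℝ) ^ b * f b * w (P.p * b) := by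
    refine Summable.of_norm_bounded (g := fun b => (1 / 1000 : ℝ) ^ b)
      (summable_geometric_of_lt_one (by norm_num) (by norm_num)) fun b => ?_
    rw [Real.norm_eq_abs, abs_mul, abs_mul, abs_sg, one_mul, w_abs]
    refine (mul_le_of_le_one_left (w_pos _).le (hf b).abs_le).trans (w_anti ?_)
    exact Nat.le_mul_of_pos_left _ P.p_pos
  exact ⟨_, this.hasSum.tendsto_sum_nat⟩

theorem IsG.top (hG : IsG P G) (o : Orb) (hK : 1 ≤ o.K) : ∃ H M κ : ℝ,
    (∀ z, o.eta P z o.K = H + M * z) ∧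
    (∀ a y, |y| ≤ 1 →
      |κ + H + M * y - Aff P (o.I P o.K) (o.fut o.K) (P.p * a) y| ≤ 103 / 100 * w (P.p * a)) ∧
    (∀ X, (∀ a, |X - kap P (o.fut o.K) a| ≤ 2 * w (P.p * a)) → X = κ) ∧
    phi G (o.cinf P) = κ + H + M * o.cinf P ∧ HasDerivAt (phi G) M (o.cinf P) := by
  have hg := Orb.good (P := P) (o := o) o.K
  obtain ⟨i0, h0⟩ := hg.stab
  obtain ⟨i1, h1⟩ := Orb.last_eq (P := P) (o := o) hK
  obtain ⟨κ, hκ⟩ := kap_tendsto (P := P) (Orb.fut_tri (o := o) o.K)
  have ev : ∀ᶠ b in atTop, (o.I P o.K).h (cnt (o.I P o.K) (P.p * b)) = (o.I P o.K).h i0 ∧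
      (o.I P o.K).mu (cnt (o.I P o.K) (P.p * b)) = (o.I P o.K).mu i0 := by
    filter_upwards [eventually_gt_atTop ((o.I P o.K).e i0)] with b hb
    have : i0 < cnt (o.I P o.K) (P.p * b) := by
      rw [lt_cnt_iff hg.e_mono]
      exact hb.trans_le (Nat.le_mul_of_pos_left _ P.p_pos)
    exact (h0 _ this.le).2.2.2
  have hw := w_p_tendsto P
  refine ⟨(o.I P o.K).h i0, (o.I P o.K).mu i0, κ, fun z => ?_, fun a y hy => ?_, fun X hX => ?_, ?_⟩
  · rw [h1 (max i0 i1) (le_max_right _ _), (h0 _ (le_max_left _ _)).2.2.2.1,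
      (h0 _ (le_max_left _ _)).2.2.2.2]
  · have t : Tendsto (fun b => Aff P (o.I P o.K) (o.fut o.K) (P.p * b) y) atTop
        (𝓝 (κ + (o.I P o.K).h i0 + (o.I P o.K).mu i0 * y)) := by
      refine ((hκ.add_const _).add_const _).congr' ?_
      filter_upwards [ev] with b hb
      unfold Aff; rw [aF_mul, hb.1, hb.2]
    refine le_of_tendsto (t.sub_const _).abs ?_
    filter_upwards [eventually_ge_atTop a] with b hb
    have := hg.aff_tail (Orb.fut_tri (o := o) o.K) (P.p * a) (P.p * b) (by gcongr) hy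
    have := w_pos (P.p * b)
    linarith
  · have t : Tendsto (fun a => X - kap P (o.fut o.K) a) atTop (𝓝 0) :=
      squeeze_zero_norm hX (by simpa using hw.const_mul 2)
    have := tendsto_nhds_unique t (hκ.const_sub X)
    linarith
  · refine hG.at_lim (s := fun a => br (o.nd o.K a (fun g => absurd g (lt_irrefl _))) true)
      (z := (κ + (o.I P o.K).h i0, (o.I P o.K).mu i0)) ?_ ?_
    · have t1 := (hg.plim_tendsto (Orb.fut_tri (o := o) o.K)).comp
        (tendsto_id.const_mul_atTop' P.p_pos)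
      have t2 : Tendsto (fun a => w (tau P (o.I P o.K) (P.p * a))) atTop (𝓝 0) :=
        w_tendsto.comp (tendsto_atTop_mono (fun a => by
          simp only [id]; unfold tau; rw [aF_mul]; omega) tendsto_id)
      have := t1.add (t2.const_mul (2 * sgb true))
      rw [mul_zero, add_zero] at this
      exact this
    · have t1 := (hκ.add_const ((o.I P o.K).h i0)).add (hw.const_mul (2 * sgb true))
      rw [mul_zero, add_zero] at t1
      refine (t1.prodMk_nhds (tendsto_const_nhds (x := (o.I P o.K).mu i0))).congr' ?_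
      filter_upwards [ev] with b hb
      change _ = (kap P (o.fut o.K) b + (o.I P o.K).h (cnt (o.I P o.K) (P.p * b)) +
        2 * sgb true * w (P.p * b), (o.I P o.K).mu (cnt (o.I P o.K) (P.p * b)))
      rw [hb.1, hb.2]

theorem IsG.prim (hG : IsG P G) (n0 : ℕ) (wd : ℕ → Bool) : ∃ c : ℝ,
    |c - sgb (wd 0) * w 2| ≤ w 2 / 900 ∧
    phi G c = kap P (Block.f ⟨n0, 0, wd⟩) (n0 + 1) ∧ HasDerivAt (phi G) (sig P (n0 + 1)) c := by
  let o : ℕ → Orb := fun j => ⟨2, fun _ => ⟨n0, j, wd⟩, fun _ => true⟩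
  set f := Block.f ⟨n0, 0, wd⟩ with hf
  set c := pos P (info0 P) f (P.p * (n0 + 1)) with hc
  have hT : ∀ j, (o j).T P 1 = c + lam P (n0 + 1) j * (o j).cinf P := fun j => by
    have e := Orb.star (P := P) (o := o j) ((o j).cinf P) (k := 1) le_rfl (by simp [o])
    have e1 : (o j).C P 1 = 0 := by simp [Orb.C, o]
    have e2 : (o j).fo P 1 = 0 := by simp [Orb.fo, Orb.I_one, info0]
    have e3 : (o j).g P 1 = 0 := by simp [Orb.g, Orb.I_one, info0]
    have e4 : (o j).t P ((o j).cinf P) (1 + 1) = (o j).cinf P := Orb.t_top (o := o j) _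
    rw [e1, e2, e3, e4] at e
    unfold Orb.T
    have e5 : (o j).c P 1 = c := rfl
    have e6 : (o j).lm P 1 = lam P (n0 + 1) j := rfl
    rw [e5, e6] at e
    linarith
  have hJ : ∀ j, ((o j).jb P 1, (o j).ja P 1) =
      (kap P f (n0 + 1) - sig P (n0 + 1) * c, sig P (n0 + 1)) := fun j => by
    have e1 : (o j).C P 1 = 0 := by simp [Orb.C, o]
    unfold Orb.jb Orb.ja
    rw [e1]
    simp only [Orb.I_one, info0, add_zero, zero_add, mul_zero]
    rfl
  have := hG.at_lim (s := fun j => tp (o j) 1 le_rfl (by simp [o])) (y := c)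
    (z := (kap P f (n0 + 1) - sig P (n0 + 1) * c, sig P (n0 + 1))) (by
      simp only [ps, hT]
      have t : Tendsto (fun j => lam P (n0 + 1) j * (o j).cinf P) atTop (𝓝 0) := by
        refine squeeze_zero_norm (fun j => ?_) (w_p_tendsto P)
        rw [Real.norm_eq_abs, abs_mul, abs_lam]
        have a := Orb.cinf_le (P := P) (o := o j)
        rw [w_two] at a
        exact (mul_le_of_le_one_right (w_pos _).le (by linarith)).trans (w_anti (by omega))
      simpa using t.const_add c) (by simp only [jet, hJ]; exact tendsto_const_nhds)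
  refine ⟨c, ?_, by rw [this.1]; ring, this.2⟩
  have hg := good_info0 (P := P)
  have a := hg.pos_loc (f := f) (Block.f_tri _) (x := P.p * 0) (y := P.p * (n0 + 1)) (live_mul 0)
    (by have := P.p_pos; nlinarith)
  rw [dig_mul, mul_zero, pos_zero, tau_zero hg.e_mono] at a
  simpa [hf, Block.f, Block.n] using a

end Pool.Agent.P.MP_97fbd9_an
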