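import Pool.Agent.P.MP_97fbd9_an.Defs

/-! Generalities on lifts to the plane. -/

open Set Filter Topology

namespace Pool.Agent.P.MP_97fbd9_an

lemma proj_add (z z' : ℝ × ℝ) : proj (z + z') = proj z + proj z' := rfl

lemma proj_sub (z z' : ℝ × ℝ) : proj (z - z') = proj z - proj z' := rfl

lemma coe_zero_iff (x : ℝ) : (x : AddCircle (16 : ℝ)) = 0 ↔ ∃ m : ℤ, x = 16 * m := by
  rw [AddCircle.coe_eq_zero_iff]
  exact exists_congr fun m => by rw [zsmul_eq_mul, mul_comm, eq_comm]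

lemma proj_zero_iff (z : ℝ × ℝ) : proj z = 0 ↔ ∃ m k : ℤ, z = (16 * (m : ℝ), 16 * (k : ℝ)) := by
  unfold proj
  rw [Prod.mk_eq_zero, coe_zero_iff, coe_zero_iff]
  constructor
  · rintro ⟨⟨m, a⟩, k, b⟩; exact ⟨m, k, Prod.ext a b⟩
  · rintro ⟨m, k, rfl⟩; exact ⟨⟨m, rfl⟩, k, rfl⟩

lemma proj_quot : IsOpenQuotientMap proj :=
  QuotientAddGroup.isOpenQuotientMap_mk.prodMap QuotientAddGroup.isOpenQuotientMap_mk

lemma proj_cont : Continuous proj := proj_quot.continuous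

lemma dist_proj_eq {z p : ℝ × ℝ} (h1 : |z.1 - p.1| ≤ 8) (h2 : |z.2 - p.2| ≤ 8) :
    dist (proj z) (proj p) = dist z p := by
  have e : ∀ x y : ℝ, |x - y| ≤ 8 → dist (x : AddCircle (16 : ℝ)) y = dist x y := fun x y h => by
    rw [dist_eq_norm, ← AddCircle.coe_sub, Real.dist_eq,
      AddCircle.norm_coe_eq_abs_iff _ (by norm_num)]
    norm_num; exact h
  rw [Prod.dist_eq, Prod.dist_eq, ← e _ _ h1, ← e _ _ h2]; rfl

lemma proj_inj {z p : ℝ × ℝ} (h1 : |z.1 - p.1| ≤ 8) (h2 : |z.2 - p.2| ≤ 8) (h : proj z = proj p) :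
    z = p := by
  rw [← dist_eq_zero, ← dist_proj_eq h1 h2, h, dist_self]

lemma exists_close (z p : ℝ × ℝ) : ∃ l, proj l = 0 ∧ dist (z - l) p = dist (proj z) (proj p) := by
  have e : ∀ x : ℝ, |x - 16 * round (x / 16)| ≤ 8 := fun x => by
    have := abs_le.1 (abs_sub_round (x / 16))
    rw [abs_le]; constructor <;> linarith [this.1, this.2]
  have h : proj (16 * (round ((z.1 - p.1) / 16) : ℝ), 16 * (round ((z.2 - p.2) / 16) : ℝ)) = 0 :=
    (proj_zero_iff _).2 ⟨_, _, rfl⟩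
  refine ⟨_, h, ?_⟩
  rw [← dist_proj_eq, proj_sub, h, sub_zero]
  · convert e (z.1 - p.1) using 2; simp only [Prod.fst_sub]; ring
  · convert e (z.2 - p.2) using 2; simp only [Prod.snd_sub]; ring

/-- Maps commuting with the lattice up to lattice vectors. -/
def Equi (F : ℝ × ℝ → ℝ × ℝ) : Prop := ∀ l, proj l = 0 → ∃ l', proj l' = 0 ∧ ∀ z, F (z + l) = F z + l'

lemma Equi.iterate {F : ℝ × ℝ → ℝ × ℝ} (h : Equi F) (n : ℕ) : Equi F^[n] := by
  induction n with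
  | zero => exact fun l hl => ⟨l, hl, fun _ => rfl⟩
  | succ n ih =>
    intro l hl
    obtain ⟨l1, a, b⟩ := h l hl
    obtain ⟨l2, c, d⟩ := ih l1 a
    exact ⟨l2, c, fun z => by rw [Function.iterate_succ_apply, b, d]; rfl⟩

lemma Equi.desc {F : ℝ × ℝ → ℝ × ℝ} (h : Equi F) (hc : Continuous F) :
    ∃ f : Torus → Torus, Continuous f ∧ IsLift f F := by
  have hs := proj_quot.surjective
  have key : IsLift (fun p => proj (F (Function.surjInv hs p))) F := fun z => by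
    have e := Function.surjInv_eq hs (proj z)
    obtain ⟨l', a, b⟩ := h (Function.surjInv hs (proj z) - z) (by rw [proj_sub, e, sub_self])
    have := b z
    rw [add_sub_cancel] at this
    simp only [this, proj_add, a, add_zero]
  refine ⟨_, ?_, key⟩
  rw [proj_quot.isQuotientMap.continuous_iff]
  have : (fun p => proj (F (Function.surjInv hs p))) ∘ proj = proj ∘ F := funext key
  rw [this]
  exact proj_cont.comp hc

lemma exists_homeo {F G : ℝ × ℝ → ℝ × ℝ} (hF : Equi F) (hG : Equi G) (cF : Continuous F)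
    (cG : Continuous G) (h1 : ∀ z, G (F z) = z) (h2 : ∀ z, F (G z) = z) :
    ∃ f : Torus ≃ₜ Torus, IsLift f F ∧ IsLift f.symm G := by
  obtain ⟨f, a, b⟩ := hF.desc cF
  obtain ⟨g, c, d⟩ := hG.desc cG
  refine ⟨⟨⟨f, g, fun p => ?_, fun p => ?_⟩, a, c⟩, b, d⟩
  · obtain ⟨z, rfl⟩ := proj_quot.surjective p
    rw [b, d, h1]
  · obtain ⟨z, rfl⟩ := proj_quot.surjective p
    rw [d, b, h2]

lemma IsLift.iterate {f : Torus → Torus} {F : ℝ × ℝ → ℝ × ℝ} (h : IsLift f F) (n : ℕ) :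
    IsLift f^[n] F^[n] := by
  induction n with
  | zero => exact fun _ => rfl
  | succ n ih => intro z; rw [Function.iterate_succ_apply, h, ih]; rfl

lemma contDiff_iter {F : ℝ × ℝ → ℝ × ℝ} (h : ContDiff ℝ 1 F) (n : ℕ) : ContDiff ℝ 1 F^[n] := by
  induction n with
  | zero => exact contDiff_id
  | succ n ih => exact ih.comp h

lemma indep_map {H K : ℝ × ℝ → ℝ × ℝ} (hH : ContDiff ℝ 1 H) (hK : ContDiff ℝ 1 K)
    (hKH : ∀ z, K (H z) = z) {γ δ : ℝ → ℝ × ℝ} (hγ : ContDiff ℝ 1 γ) (hδ : ContDiff ℝ 1 δ)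
    (h0 : γ 0 = δ 0) (h : LinearIndependent ℝ ![deriv γ 0, deriv δ 0]) :
    LinearIndependent ℝ ![deriv (H ∘ γ) 0, deriv (H ∘ δ) 0] := by
  have d1 := (hH.differentiable (by simp) (γ 0)).hasFDerivAt
  have d2 := (hK.differentiable (by simp) (H (γ 0))).hasFDerivAt
  have e : (fderiv ℝ K (H (γ 0))).comp (fderiv ℝ H (γ 0)) = ContinuousLinearMap.id ℝ _ := by
    have := d2.comp (γ 0) d1
    rw [show K ∘ H = id from funext hKH] at this
    exact this.unique (hasFDerivAt_id _)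
  have a1 := (d1.comp_hasDerivAt 0 (hγ.differentiable (by simp) 0).hasDerivAt).deriv
  have a2 := ((h0 ▸ d1).comp_hasDerivAt 0 (hδ.differentiable (by simp) 0).hasDerivAt).deriv
  rw [a1, a2, LinearIndependent.pair_iff]
  intro s t hst
  refine LinearIndependent.pair_iff.1 h s t ?_
  have := congrArg (fderiv ℝ K (H (γ 0))) hst
  rw [← h0, ← map_smul, ← map_smul, ← map_add, map_zero] at this
  exact (congrArg (· (s • deriv γ 0 + t • deriv δ 0)) e).symm.trans this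

lemma not_indep {u v : ℝ × ℝ} (hu : u.1 = 0) (hv : v.1 = 0) : ¬ LinearIndependent ℝ ![u, v] := by
  rw [LinearIndependent.pair_iff]
  intro h
  have a := h v.2 (-u.2) (Prod.ext (by simp [hu, hv]) (by simp; ring))
  have := h 1 0 (Prod.ext (by simp [hu]) (by simpa using a.2))
  simp at this

lemma indep_of {u v : ℝ × ℝ} (hu : u.1 ≠ 0) (hv : v.1 = 0) (hv' : v.2 ≠ 0) :
    LinearIndependent ℝ ![u, v] := by
  rw [LinearIndependent.pair_iff]
  intro s t h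
  have a := congrArg Prod.fst h
  have b := congrArg Prod.snd h
  simp only [Prod.fst_add, Prod.smul_fst, smul_eq_mul, hv, mul_zero, add_zero, Prod.fst_zero,
    mul_eq_zero, hu, or_false] at a
  simp only [a, zero_smul, zero_add, Prod.smul_snd, smul_eq_mul, Prod.snd_zero, mul_eq_zero, hv',
    or_false] at b
  exact ⟨a, b⟩

lemma arc_iff {g : Torus → Torus} {p : Torus} {γ : ℝ → ℝ × ℝ} : Arc g p γ ↔ ContDiff ℝ 1 γ ∧
    ∀ ε > 0, ∃ N, ∀ n ≥ N, ∀ t ∈ Icc (-1 : ℝ) 1, dist (g^[n] (proj (γ t))) p < ε := by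
  unfold Arc
  rw [Metric.tendstoUniformlyOn_iff]
  simp only [eventually_atTop, dist_comm p]

lemma arc_of {g : Torus → Torus} {F : ℝ × ℝ → ℝ × ℝ} (h : IsLift g F) {p : ℝ × ℝ} {γ : ℝ → ℝ × ℝ}
    (hγ : ContDiff ℝ 1 γ) (N : ℕ) {b : ℝ} (hb : 0 ≤ b) (hb1 : b < 1)
    (hd : ∀ n, ∀ t ∈ Icc (-1 : ℝ) 1, dist (F^[n + N] (γ t)) p ≤ 8 * b ^ n) : Arc g (proj p) γ := by
  refine arc_iff.2 ⟨hγ, fun ε hε => ?_⟩
  have t := (tendsto_pow_atTop_nhds_zero_of_lt_one hb hb1).const_mul 8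
  rw [mul_zero] at t
  obtain ⟨M, hM⟩ := eventually_atTop.1 (t.eventually (gt_mem_nhds hε))
  refine ⟨M + N, fun n hn t ht => ?_⟩
  obtain ⟨k, rfl⟩ : ∃ k, n = k + N := ⟨n - N, by omega⟩
  have a := hd k t ht
  have b1 : b ^ k ≤ 1 := pow_le_one₀ hb hb1.le
  have c := a
  rw [Prod.dist_eq, max_le_iff, Real.dist_eq, Real.dist_eq] at c
  rw [h.iterate, dist_proj_eq (by linarith [c.1]) (by linarith [c.2])]
  exact a.trans_lt (hM k (by omega))

variable {f : Torus ≃ₜ Torus} {F G : ℝ × ℝ → ℝ × ℝ}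

lemma Arc.fwd_u (hF : IsLift f F) (sF : ContDiff ℝ 1 F) {p : Torus} {γ : ℝ → ℝ × ℝ}
    (h : Arc f.symm p γ) : Arc f.symm p (F ∘ γ) := by
  rw [arc_iff] at h ⊢
  refine ⟨sF.comp h.1, fun ε hε => ?_⟩
  obtain ⟨N, hN⟩ := h.2 ε hε
  refine ⟨N + 1, fun n hn t ht => ?_⟩
  obtain ⟨k, rfl⟩ : ∃ k, n = k + 1 := ⟨n - 1, by omega⟩
  rw [Function.iterate_succ_apply, Function.comp_apply, ← hF, f.symm_apply_apply]
  exact hN k (by omega) t ht

lemma Arc.fwd_s (hF : IsLift f F) (sF : ContDiff ℝ 1 F) {p : Torus} {γ : ℝ → ℝ × ℝ}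
    (h : Arc f p γ) : Arc f p (F ∘ γ) := by
  rw [arc_iff] at h ⊢
  refine ⟨sF.comp h.1, fun ε hε => ?_⟩
  obtain ⟨N, hN⟩ := h.2 ε hε
  refine ⟨N, fun n hn t ht => ?_⟩
  rw [Function.comp_apply, ← hF, ← Function.iterate_succ_apply]
  exact hN (n + 1) (by omega) t ht

lemma trans_fwd (hF : IsLift f F) (sF : ContDiff ℝ 1 F) (sG : ContDiff ℝ 1 G)
    (hGF : ∀ z, G (F z) = z) {p q z : Torus} (h : z ∈ Trans f p q) (n : ℕ) :
    f^[n] z ∈ Trans f p q := by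
  induction n with
  | zero => exact h
  | succ n ih =>
    obtain ⟨γ, δ, a, b, c, d, e⟩ := ih
    refine ⟨F ∘ γ, F ∘ δ, a.fwd_u hF sF, b.fwd_s hF sF, congrArg F c, ?_,
      indep_map sF sG hGF a.1 b.1 c e⟩
    rw [Function.iterate_succ_apply', ← d, hF]; rfl

end Pool.Agent.P.MP_97fbd9_an
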