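import Pool.Agent.P.MP_97fbd9_an.Top

/-! An orbit with a given itinerary is the designed one, and it is tangent. -/

open Finset Filter Topology

namespace Pool.Agent.P.MP_97fbd9_an

open Idx

/-- The equations of an actual orbit with the itinerary `o`. -/
structure Act (P : Par) (G : ℝ → ℝ × ℝ) (o : Orb) (x et : ℕ → ℝ) : Prop where
  K_pos : 1 ≤ o.K
  e1 : et 1 = 0
  es : ∀ k, 1 ≤ k → k < o.K → et (k + 1) =
    prt P (o.n k) (o.j k) (o.blk k).f (o.n k + o.j k) + Bc P (o.n k) (o.j k) * x k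
  xb : ∀ k, 1 ≤ k → k ≤ o.K → |x k| ≤ 2 * w 2
  ps : ∀ k, 1 ≤ k → k < o.K → phi G (x k) - et k = kap P (o.blk k).f (o.n k) +
    (-1) ^ o.n k * w (P.p * (o.n k + o.j k)) * x (k + 1)
  last : ∀ a, |phi G (x o.K) - et o.K - kap P (o.fut o.K) a| ≤ 2 * w (P.p * a)

namespace Orb

variable (P : Par) (G : ℝ → ℝ × ℝ) (o : Orb) (x et : ℕ → ℝ)

/-- Deviation of positions. -/
noncomputable def xi (k : ℕ) : ℝ := x k - o.T P k
/-- Normalised deviation. -/
noncomputable def psi (k : ℕ) : ℝ := o.xi P x k / o.v P k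
/-- Deviation of heights. -/
noncomputable def ze (k : ℕ) : ℝ := et k - o.eta P (o.cinf P) k
/-- Nonlinear defect. -/
noncomputable def dd (k : ℕ) : ℝ :=
  (phi G (x k) - phi G (o.T P k) - o.ja P k * o.xi P x k) / sig P (o.n k)
/-- Normalised Wronskian. -/
noncomputable def Y (k : ℕ) : ℝ :=
  (o.v P k * o.ze P et k - o.xv P k * o.xi P x k) / o.lh P k o.K

variable {P G o x et}

lemma v_bd {k : ℕ} (hk : 1 ≤ k) (hK : k ≤ o.K) : 99 / 100 * |o.lh P k o.K| ≤ |o.v P k| ∧
    |o.v P k| ≤ 101 / 100 * |o.lh P k o.K| := by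
  have a := v_le (P := P) (o := o) k hk hK
  have b := abs_sub_abs_le_abs_sub (o.v P k) (o.lh P k o.K)
  have c := abs_sub_abs_le_abs_sub (o.lh P k o.K) (o.v P k)
  rw [abs_sub_comm] at c
  constructor <;> linarith

lemma v_pos {k : ℕ} (hk : 1 ≤ k) (hK : k ≤ o.K) : 0 < |o.v P k| := by
  have := (v_bd (P := P) hk hK).1
  have := abs_pos.2 (lh_ne (P := P) (o := o) k o.K)
  linarith

lemma v_ne {k : ℕ} (hk : 1 ≤ k) (hK : k ≤ o.K) : o.v P k ≠ 0 := abs_pos.1 (v_pos hk hK)

lemma v_cmp {l k : ℕ} (hl : 1 ≤ l) (h : l ≤ k) (hK : k ≤ o.K) :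
    |o.v P l| ≤ 103 / 100 * (|o.lh P l k| * |o.v P k|) ∧
      |o.lh P l k| * |o.v P k| ≤ 103 / 100 * |o.v P l| := by
  obtain ⟨a, b⟩ := v_bd (P := P) hl (h.trans hK)
  obtain ⟨c, d⟩ := v_bd (P := P) (hl.trans h) hK
  rw [lh_mul h hK, abs_mul] at a b
  have p := abs_nonneg (o.lh P l k)
  have q := mul_nonneg p (abs_nonneg (o.lh P k o.K))
  have c' := mul_le_mul_of_nonneg_left c p
  have d' := mul_le_mul_of_nonneg_left d p
  constructor <;> linarith

lemma xi_eq {k : ℕ} (hk : 1 ≤ k) (hK : k ≤ o.K) : o.xi P x k = o.psi P x k * o.v P k :=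
  (div_mul_cancel₀ _ (v_ne hk hK)).symm

lemma xi_cmp {l k : ℕ} (hl : 1 ≤ l) (h : l ≤ k) (hK : k ≤ o.K)
    (hB : |o.psi P x l| ≤ 2 * |o.psi P x k|) :
    |o.xi P x l| ≤ 21 / 10 * (|o.lh P l k| * |o.xi P x k|) := by
  rw [xi_eq hl (h.trans hK), xi_eq (hl.trans h) hK, abs_mul, abs_mul]
  have a := (v_cmp (P := P) hl h hK).1
  have := abs_nonneg (o.psi P x k)
  have : 0 ≤ |o.lh P l k| * (|o.psi P x k| * |o.v P k|) := by positivity
  calc _ ≤ 2 * |o.psi P x k| * (103 / 100 * (|o.lh P l k| * |o.v P k|)) := by gcongr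
    _ ≤ _ := by linarith

lemma T_abs {k : ℕ} (hk : 1 ≤ k) (hK : k ≤ o.K) : |o.T P k| ≤ 11 / 10 * w 2 :=
  t_abs cinf_le hk hK

lemma ze_succ (h : Act P G o x et) {k : ℕ} (hk : 1 ≤ k) (hK : k < o.K) :
    o.ze P et (k + 1) = Bc P (o.n k) (o.j k) * o.xi P x k := by
  unfold ze xi T; rw [h.es k hk hK, eta_succ _ hk]; ring

lemma pass_dev (hG : IsG P G) (h : Act P G o x et) {k : ℕ} (hk : 1 ≤ k) (hK : k < o.K) :
    phi G (x k) - phi G (o.T P k) - o.ze P et k = sig P (o.n k) * o.lm P k * o.xi P x (k + 1) := by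
  have e1 := h.ps k hk hK
  have e2 := pass_eq (P := P) (o := o) (o.cinf P) hk hK
  rw [(hG.at_T hk hK).1]
  unfold lm ze xi
  rw [sig_lam]
  unfold T
  linear_combination e1 - e2

lemma Y_eq (hG : IsG P G) (h : Act P G o x et) {k : ℕ} (hk : 1 ≤ k) (hK : k ≤ o.K) :
    o.Y P x et k = - ∑ l ∈ Ico 1 k, o.GG P l k * o.dd P G x l * (o.v P l / o.lh P l o.K) := by
  induction k, hk using Nat.le_induction with
  | base => simp [Y, ze, h.e1, eta, xv_one]
  | succ k hk ih =>
    have hK' : k < o.K := hK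
    have ih := ih hK'.le
    have e1 := pass_dev hG h hk hK'
    have e2 := v_pass (P := P) hk hK'
    rw [← sig_lam] at e2
    change _ = sig P (o.n k) * o.lm P k * _ at e2
    have e3 : ∑ l ∈ Ico 1 k, o.GG P l (k + 1) * o.dd P G x l * (o.v P l / o.lh P l o.K) =
        Bs P (o.n k) (o.j k) *
          ∑ l ∈ Ico 1 k, o.GG P l k * o.dd P G x l * (o.v P l / o.lh P l o.K) := by
      rw [mul_sum]
      refine sum_congr rfl fun l hl => ?_
      rw [GG_mul (mem_Ico.1 hl).2 (Nat.le_succ k)]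
      simp only [Nat.succ_eq_add_one, Nat.Ico_succ_singleton, prod_singleton]
      ring
    have e4 : o.GG P k (k + 1) = Bc P (o.n k) (o.j k) := by simp [GG]
    rw [sum_Ico_succ_top hk, e3, e4, ← neg_eq_iff_eq_neg.2 ih]
    unfold Y dd
    rw [ze_succ h hk hK', xv_succ hk, lh_left hK', ← Bs_sig]
    have n1 := lh_ne (P := P) (o := o) (k + 1) o.K
    have n2 : o.lm P k ≠ 0 := by rw [← abs_pos, abs_lm]; exact w_pos _
    have n3 := (sig_pos (P := P) (o.n k)).ne'
    field_simp
    linear_combination (Bs P (o.n k) (o.j k)) * (o.v P k * e1 - o.xi P x k * e2)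

lemma Y_le (hG : IsG P G) (h : Act P G o x et) {k c : ℕ} (hk : 1 ≤ k) (hK : k ≤ o.K) {M : ℝ}
    (hM : 0 ≤ M) (hb : ∀ l, 1 ≤ l → l < k →
      |o.GG P l k * o.dd P G x l| ≤ M * w (c + (k - (l + 1)))) :
    |o.Y P x et k| ≤ 2 * M * w c := by
  rw [Y_eq hG h hk hK, abs_neg]
  have e := sum_Ico_reflect (fun l => o.GG P l k * o.dd P G x l * (o.v P l / o.lh P l o.K)) 1
    (m := k) (n := k) (Nat.le_succ k)
  rw [Nat.add_sub_cancel_left, Nat.add_sub_cancel] at e
  rw [← e]
  have := sum_geo (a := 1) (b := k) (c := c) (M := 101 / 100 * M)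
    (x := fun j => o.GG P (k - j) k * o.dd P G x (k - j) * (o.v P (k - j) / o.lh P (k - j) o.K))
    (by positivity) fun j hj => by
      obtain ⟨j1, j2⟩ := mem_Ico.1 hj
      have a := hb (k - j) (by omega) (by omega)
      rw [show k - (k - j + 1) = j - 1 by omega] at a
      have b := (v_bd (P := P) (o := o) (k := k - j) (by omega) (by omega)).2
      have p := abs_pos.2 (lh_ne (P := P) (o := o) (k - j) o.K)
      rw [abs_mul, abs_div]
      have := w_pos (c + (j - 1))
      calc _ ≤ M * w (c + (j - 1)) * (101 / 100) := by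
            exact mul_le_mul a ((div_le_iff₀ p).2 b) (by positivity) (by positivity)
        _ = _ := by ring
  have := mul_nonneg hM (w_pos c).le
  linarith

lemma dd_le (hG : IsG P G) (h : Act P G o x et) {k : ℕ} (hk : 1 ≤ k) (hK : k < o.K)
    (hA : |o.xi P x k| ≤ w (P.D * o.n k + P.p) / 100) {B : ℝ}
    (hC : ∀ (o' : Orb) k', 1 ≤ k' → Node P o k o' k' →
      |o.T P k - o'.T P k'| ≤ 4 * |o.xi P x k| → |o.C P k - o'.C P k'| ≤ B) :
    |o.dd P G x k| ≤ B * (2 * w 2) := by
  obtain ⟨a, b⟩ := hG.steep2 hk hK hA hC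
  have hs := sig_pos (P := P) (o.n k)
  have e : o.dd P G x k = ((G (x k)).2 - o.ja P k) / sig P (o.n k) * x k := by
    unfold dd xi
    rw [(hG.at_T hk hK).1]
    unfold phi
    rw [a]; field_simp; ring
  have c : |((G (x k)).2 - o.ja P k) / sig P (o.n k)| ≤ B := by
    rw [abs_div, abs_of_pos hs, div_le_iff₀ hs]; linarith
  rw [e, abs_mul]
  exact mul_le_mul c (h.xb k hk hK.le) (abs_nonneg _) ((abs_nonneg _).trans c)

/-- The induction hypothesis. -/
def IH (P : Par) (o : Orb) (x : ℕ → ℝ) (k : ℕ) : Prop :=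
  (∀ l, 1 ≤ l → l < k → |o.xi P x l| ≤ w (P.D * o.n l + P.p) / 100) ∧
    ∀ l l', 1 ≤ l → l ≤ l' → l' ≤ k → |o.psi P x l| ≤ 2 * |o.psi P x l'|

lemma Y_base (hG : IsG P G) (h : Act P G o x et) {k : ℕ} (hk : 1 ≤ k) (hK : k ≤ o.K)
    (ih : IH P o x k) : |o.Y P x et k| ≤ w (P.p * 1) / 100 := by
  have := Y_le hG h hk hK (c := P.p * 1 + 1) (M := 1) zero_le_one fun l l1 l2 => by
    have a := dd_le hG h l1 (by omega) (ih.1 l l1 l2) (B := 4) fun o' k' k1 _ _ => by
      have a := C_le (P := P) (o := o) l1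
      have b := C_le (P := P) (o := o') k1
      have := abs_sub (o.C P l) (o'.C P k')
      linarith [w_le_one (P.big * (o.n l + o.j l)), w_le_one (P.big * (o'.n k' + o'.j k'))]
    rw [w_two] at a
    rw [abs_mul, one_mul]
    refine (mul_le_of_le_one_right (abs_nonneg _) (by linarith)).trans
      ((abs_GG l k).trans (w_anti ?_))
    have := q_ge P
    have := n_pos (o := o) l
    have : P.q * 1 ≤ P.q * (o.n l + o.j l) := by gcongr; omega
    omega
  rw [w_succ] at this
  linarith [w_pos (P.p * 1)]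

lemma Y_lev (hG : IsG P G) (h : Act P G o x et) {k a : ℕ} (hk : 1 ≤ k) (hK : k ≤ o.K)
    (ih : IH P o x k) (ha : k < o.K → a + 1 ≤ o.n k)
    (hx : |o.xi P x k| ≤ 4 * w (tau P (o.I P k) (P.p * (a + 1)))) :
    |o.Y P x et k| ≤ w (P.p * (a + 1 + 1)) / 100 := by
  have := Y_le hG h hk hK (c := P.p * (a + 1 + 1) + 1) (M := 1) zero_le_one fun l l1 l2 => by
    obtain ⟨L, rfl⟩ : ∃ L, k = l + L + 1 := ⟨k - (l + 1), by omega⟩
    have hG0 : 0 < |o.GG P l (l + L + 1)| := by
      rw [abs_pos]; unfold GG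
      refine mul_ne_zero ?_ (prod_ne_zero_iff.2 fun i _ => ?_)
      · rw [← abs_pos, abs_Bc]; exact w_pos _
      · rw [← abs_pos, abs_Bs]; exact w_pos _
    have a0 := dd_le hG h l1 (by omega) (ih.1 l l1 l2)
      (B := 4 * w (P.p * (a + 1) + (P.p + 3) * (L + 1)) / |o.GG P l (l + L + 1)|)
      fun o' k' k1 hn hT => by
        have hw := w_pos (P.p * (a + 1) + (P.p + 3) * (L + 1))
        have b1 := xi_cmp l1 l2.le hK (ih.2 _ _ l1 l2.le le_rfl)
        have b2 := w_lt ((good (P := P) (o := o) (l + L + 1)).tau_lt (live_mul a)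
          (y := P.p * (a + 1)) (by have := P.p_pos; nlinarith))
        have b3 := abs_pos.2 (lh_ne (P := P) (o := o) l (l + L + 1))
        have b4 := w_pos (tau P (o.I P (l + L + 1)) (P.p * a))
        have b5 : |o.lh P l (l + L + 1)| * |o.xi P x (l + L + 1)| ≤
            |o.lh P l (l + L + 1)| * (4 * (w (tau P (o.I P (l + L + 1)) (P.p * a)) / 1000)) := by
          gcongr; linarith
        have b6 := mul_pos b3 b4
        rcases near (a := a) hn l1 k1 hK (fun g => by have := ha g; omega) (by linarith) with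
          g | ⟨g1, g2, g3⟩
        · rw [g, sub_self, abs_zero]; positivity
        · have c1 := GG_Ct (P := P) (o := o) (b := a + 1) l1 l2 ha
          have c2 := GG_Ct (P := P) (o := o') (k := k') (m := k' + L + 1) (b := a + 1) k1
            (by omega) fun g => by
              have := g3.2 a (by rw [aF_mul_succ]; omega)
              have d := (fut_ne_iff (o := o) (l + L + 1) a).2 fun g => ha g
              exact (fut_ne_iff (o := o') (k' + L + 1) a).1 (this ▸ d) g
          rw [(g1.blocks_succ g2).GG_eq, show k' + L + 1 - k' = L + 1 by omega] at c2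
          rw [show l + L + 1 - l = L + 1 by omega] at c1
          rw [g1.C_sub l1 k1, le_div_iff₀ hG0, ← abs_mul, sub_mul, mul_comm, mul_comm (o'.Ct _ _ _)]
          exact (abs_sub _ _).trans (by linarith)
    rw [w_two] at a0
    have hw := w_pos (P.p * (a + 1) + (P.p + 3) * (L + 1))
    have a1 := w_anti (x := P.p * (a + 1 + 1) + 1 + (l + L + 1 - (l + 1)))
      (y := P.p * (a + 1) + (P.p + 3) * (L + 1)) (by
        rw [show l + L + 1 - (l + 1) = L by omega]; nlinarith)
    rw [abs_mul, one_mul]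
    refine (mul_le_mul_of_nonneg_left a0 hG0.le).trans ?_
    rw [← mul_assoc, mul_div_cancel₀ _ hG0.ne']
    linarith
  rw [w_succ] at this
  linarith [w_pos (P.p * (a + 1 + 1))]

lemma mu_le {k : ℕ} (hk : 1 ≤ k) (i : ℕ) :
    |(o.I P (k + 1)).mu i| ≤ 11 / 10 * (|Bc P (o.n k) (o.j k)| * |o.lm P k|) := by
  rcases idx_cases (P := P) (o := o) k i with g | ⟨a, g, rfl⟩
  · rw [(fr_lo hk g).2.1, abs_zero]; positivity
  · rw [(fr_hi hk g).2.2.2.2.2.2.1, ← add_mul, abs_mul, ← mul_assoc]
    refine mul_le_mul_of_nonneg_right ((abs_add_le _ _).trans ?_) (abs_nonneg _)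
    have hg := good (P := P) (o := o) k
    have a1 := hg.mu_diff g
    have a2 := hg.e_sig (o.n k)
    have hs := sig_pos (P := P) (o.n k)
    rw [div_le_iff₀ hs] at a2
    have a3 := w_le_one (P.D * o.n k + P.p)
    rw [← Bs_sig, abs_mul, abs_mul, abs_of_pos hs]
    have a4 : |(o.I P k).mu a - (o.I P k).mu (o.ik P k)| ≤ sig P (o.n k) / 10 := by
      unfold ik at *; nlinarith
    have := mul_le_mul_of_nonneg_left a4 (abs_nonneg (Bs P (o.n k) (o.j k)))
    linarith

lemma E_le (h : Act P G o x et) {k : ℕ} (hk : 1 ≤ k) (hK : k < o.K) (ih : IH P o x k) :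
    |o.ze P et k - (o.I P k).mu (o.ik P k) * o.xi P x k| ≤
      w (P.p * o.n k) / 100000 + 2 * |o.Y P x et k| := by
  have hw := w_pos (P.p * o.n k)
  rcases eq_or_lt_of_le hk with rfl | hk2
  · simp only [ze, h.e1, eta, I_one, info0, sub_self, zero_mul, abs_zero]; positivity
  obtain ⟨k, rfl⟩ : ∃ k', k = k' + 1 := ⟨k - 1, by omega⟩
  have hk : 1 ≤ k := by omega
  have hK' : k < o.K := by omega
  have e1 := xv_ik (P := P) (o := o) (k := k + 1) (by omega) hK.le
  have e2 := xv_succ (P := P) (o := o) hk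
  have e3 := ze_succ h hk hK'
  have e4 := xi_eq (P := P) (x := x) hk hK'.le
  have e5 := xi_eq (P := P) (x := x) (k := k + 1) (by omega) hK.le
  set mu := (o.I P (k + 1)).mu (o.ik P (k + 1))
  set gg := (o.I P (k + 1)).gg (o.ik P (k + 1)) with hgg
  set D := o.psi P x k - o.psi P x (k + 1) with hD
  have e : o.ze P et (k + 1) - mu * o.xi P x (k + 1) =
      mu * o.v P (k + 1) * D + gg * (o.v P (o.u P (k + 1)) * o.psi P x k) := by
    rw [e3, e4, e5, hD]; linear_combination o.psi P x k * (e1 - e2)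
  have eY : o.Y P x et (k + 1) * o.lh P (k + 1) o.K =
      Bc P (o.n k) (o.j k) * o.v P k * o.v P (k + 1) * D := by
    unfold Y; rw [div_mul_cancel₀ _ (lh_ne _ _), e3, e2, e4, e5, hD]; ring
  have b1 : |mu * o.v P (k + 1) * D| ≤ 2 * |o.Y P x et (k + 1)| := by
    have a1 := mu_le (P := P) (o := o) hk (o.ik P (k + 1))
    have a2 := (v_cmp (P := P) (o := o) hk (Nat.le_succ k) hK.le).2
    rw [lh_right le_rfl, lh_self, one_mul] at a2
    have a3 := (v_bd (P := P) (o := o) (k := k + 1) (by omega) hK.le).1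
    have a4 := abs_pos.2 (lh_ne (P := P) (o := o) (k + 1) o.K)
    have a5 := congrArg abs eY
    simp only [abs_mul] at a5 ⊢
    simp only [Nat.succ_eq_add_one] at a2
    have p1 := abs_nonneg (Bc P (o.n k) (o.j k))
    have p2 := abs_nonneg D
    have p3 := abs_nonneg (o.v P k)
    refine le_of_mul_le_mul_right ?_ a4
    calc |mu| * |o.v P (k + 1)| * |D| * |o.lh P (k + 1) o.K| ≤
          11 / 10 * (|Bc P (o.n k) (o.j k)| * |o.lm P k|) * |o.v P (k + 1)| * |D| *
            (100 / 99 * |o.v P (k + 1)|) := by gcongr; linarith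
      _ = 11 / 10 * (100 / 99) * |Bc P (o.n k) (o.j k)| * (|o.lm P k| * |o.v P (k + 1)|) *
            (|o.v P (k + 1)| * |D|) := by ring
      _ ≤ 11 / 10 * (100 / 99) * |Bc P (o.n k) (o.j k)| * (103 / 100 * |o.v P k|) *
            (|o.v P (k + 1)| * |D|) := by gcongr
      _ ≤ _ := by
        rw [mul_assoc 2, a5]
        have : 0 ≤ |Bc P (o.n k) (o.j k)| * |o.v P k| * |o.v P (k + 1)| * |D| := by positivity
        linarith
  have b2 : |gg * (o.v P (o.u P (k + 1)) * o.psi P x k)| ≤ w (P.p * o.n (k + 1)) / 100000 := by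
    obtain ⟨f1, f2, f3⟩ := frame (P := P) (o := o) (k := k + 1) (by omega) (o.ik P (k + 1))
    rcases eq_or_lt_of_le f1 with g | g
    · rw [hgg, f2 g, zero_mul, abs_zero]; positivity
    have hg := good (P := P) (o := o) (k + 1)
    have c1 := hg.gg_rd (o.ik P (k + 1))
    rw [(f3 g).2.2.2] at c1
    change |gg| * w (P.D * o.n (o.u P (k + 1)) + P.p) ≤ _ at c1
    have c2 := w_lt (hg.lt_e_cnt (o.n (k + 1)))
    have u1 : 1 ≤ o.u P (k + 1) := by unfold u; omega
    have u2 := u_lt (P := P) (o := o) (k := k + 1) (by omega)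
    have hJ := w_pos (P.D * o.n (o.u P (k + 1)) + P.p)
    have c3 : |o.v P (o.u P (k + 1)) * o.psi P x k| ≤ w (P.D * o.n (o.u P (k + 1)) + P.p) / 50 := by
      have d0 := ih.1 k hk (by omega)
      rcases eq_or_lt_of_le (Nat.lt_succ_iff.1 u2) with g' | g'
      · rw [g', mul_comm, ← e4]; linarith [w_pos (P.D * o.n k + P.p)]
      · have d1 := (v_cmp (P := P) (o := o) u1 g'.le hK'.le).1
        have d2 := (lh_le (P := P) (o := o) g').trans (w_anti (Nat.le_add_right _ _))
        have d3 := w_le_one (P.D * o.n k + P.p)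
        rw [e4, abs_mul] at d0
        rw [abs_mul]
        have p1 := abs_nonneg (o.psi P x k)
        have p2 := abs_nonneg (o.v P k)
        calc _ ≤ 103 / 100 * (w (P.D * o.n (o.u P (k + 1)) + P.p) * |o.v P k|) * |o.psi P x k| := by
              gcongr; exact d1.trans (by gcongr)
          _ = 103 / 100 * w (P.D * o.n (o.u P (k + 1)) + P.p) * (|o.psi P x k| * |o.v P k|) := by
              ring
          _ ≤ 103 / 100 * w (P.D * o.n (o.u P (k + 1)) + P.p) * (1 / 100) := by gcongr; linarith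
          _ ≤ _ := by linarith
    rw [abs_mul]
    have := mul_le_mul_of_nonneg_left c3 (abs_nonneg gg)
    unfold ik at c1
    linarith
  rw [e]
  exact (abs_add_le _ _).trans (by linarith)

lemma bracket (hG : IsG P G) (N : Nd) {y : ℝ} (hy : |y| ≤ 2 * w 2)
    (h : |phi G y - (N.b0 P + N.mu P * y)| ≤ 3 / 2 * w (P.p * N.a)) :
    |y - N.c P| ≤ 2 * N.Th P := by
  have hw := w_pos (P.p * N.a)
  rw [abs_le] at h ⊢
  constructor
  · by_contra g
    have := hG.below_br N hy (by linarith)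
    linarith [h.1]
  · by_contra g
    have := hG.above_br N hy (by linarith)
    linarith [h.2]

lemma levels (hG : IsG P G) (h : Act P G o x et) {k : ℕ} (hk : 1 ≤ k) (hK : k ≤ o.K)
    (ih : IH P o x k) {A : ℝ}
    (hA : ∀ a, (k < o.K → a ≤ o.n k) →
      |A - Aff P (o.I P k) (o.fut k) (P.p * a) (x k)| ≤ 103 / 100 * w (P.p * a) ∧
      |phi G (x k) - A| ≤ w (P.p * a) / 100 + 2 * |o.Y P x et k|) :
    ∀ a, (k < o.K → a ≤ o.n k) → |o.xi P x k| ≤ 4 * w (tau P (o.I P k) (P.p * a)) ∧
      |o.Y P x et k| ≤ w (P.p * (a + 1)) / 100 := by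
  have hx := h.xb k hk hK
  intro a
  induction a with
  | zero =>
    intro _
    refine ⟨?_, Y_base hG h hk hK ih⟩
    rw [mul_zero, tau_zero (good k).e_mono]
    have := T_abs (P := P) hk hK
    have := abs_sub (x k) (o.T P k)
    unfold xi; linarith [w_pos 2]
  | succ a iha =>
    intro ha
    obtain ⟨-, b⟩ := iha fun g => by have := ha g; omega
    obtain ⟨c1, c2⟩ := hA (a + 1) ha
    have hw := w_pos (P.p * (a + 1))
    have d := bracket hG (o.nd k (a + 1) ha) hx (by
      rw [← Nd.aff]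
      change |phi G (x k) - Aff P (o.I P k) (o.fut k) (P.p * (a + 1)) (x k)| ≤
        3 / 2 * w (P.p * (a + 1))
      have := abs_sub_le (phi G (x k)) A (Aff P (o.I P k) (o.fut k) (P.p * (a + 1)) (x k))
      linarith)
    change |x k - pos P (o.I P k) (o.fut k) (P.p * (a + 1))| ≤
      2 * w (tau P (o.I P k) (P.p * (a + 1))) at d
    have e := T_loc (P := P) hk hK (live_mul (a + 1)) (fun g => Nat.mul_le_mul_left _ (ha g))
    have f : |dig P (o.I P k) (o.fut k) (P.p * (a + 1)) * w (tau P (o.I P k) (P.p * (a + 1)))| ≤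
        w (tau P (o.I P k) (P.p * (a + 1))) := by
      rw [abs_mul, w_abs]
      exact mul_le_of_le_one_left (w_pos _).le ((good k).dig_tri (fut_tri k) _).abs_le
    have g : |o.xi P x k| ≤ 4 * w (tau P (o.I P k) (P.p * (a + 1))) := by
      have := w_pos (tau P (o.I P k) (P.p * (a + 1)))
      unfold xi
      rw [abs_le] at *
      constructor <;> linarith [d.1, d.2, e.1, e.2, f.1, f.2]
    exact ⟨g, Y_lev hG h hk hK ih ha g⟩

lemma stepA (hG : IsG P G) (h : Act P G o x et) {k : ℕ} (hk : 1 ≤ k) (hK : k < o.K)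
    (ih : IH P o x k) : |o.xi P x k| ≤ w (P.D * o.n k + P.p) / 100 := by
  have hx := h.xb k hk hK.le
  have hx1 := h.xb (k + 1) (by omega) hK
  have hT := T_abs (P := P) hk hK.le
  have hT1 := T_abs (P := P) (k := k + 1) (by omega) hK
  have hg := good (P := P) (o := o) k
  have hw := w_pos (P.p * o.n k)
  have hs := sig_pos (P := P) (o.n k)
  have hE := E_le h hk hK ih
  have hS : |sig P (o.n k) * o.lm P k| ≤ w (P.p * o.n k) := by
    unfold lm; rw [sig_lam, abs_mul, abs_sg, one_mul, w_abs]; apply w_anti; nlinarith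
  rw [w_two] at hx1 hT1 hT
  have k1 : |phi G (x k) - ((o.tn k).b0 P + (o.tn k).mu P * x k)| ≤
      w (P.p * o.n k) / 500 + 2 * |o.Y P x et k| := by
    have e1 := h.ps k hk hK
    rw [← sig_lam] at e1
    have e2 := inv (P := P) (o := o) (o.cinf P) hk hK.le (o.ik P k)
    rw [PE_ik _ hk le_rfl] at e2
    have a1 := frame_t (P := P) (o := o) (cinf_le (P := P) (o := o)) hk hK.le (o.ik P k)
    have a2 := snpi_le hg (o.ik P k)
    have a3 := w_lt (hg.lt_e_cnt (o.n k))
    have a4 : |sig P (o.n k) * o.lm P k * x (k + 1)| ≤ w (P.p * o.n k) / 100000 := by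
      rw [abs_mul]
      have := mul_le_mul hS hx1 (abs_nonneg _) hw.le
      linarith
    have e : phi G (x k) - ((o.tn k).b0 P + (o.tn k).mu P * x k) =
        (o.ze P et k - (o.I P k).mu (o.ik P k) * o.xi P x k) + sig P (o.n k) * o.lm P k * x (k + 1) +
        ((o.I P k).gg (o.ik P k) * o.t P (o.cinf P) (k - (o.I P k).fr (o.ik P k)) -
          (o.I P k).kn (o.ik P k)) := by
      change _ - (kap P (o.blk k).f (o.n k) + (o.I P k).h (o.ik P k) +
        (o.I P k).mu (o.ik P k) * x k) = _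
      unfold ze xi T lm
      linear_combination e1 + e2
    rw [e]
    unfold ik at *
    rw [abs_le] at *
    constructor <;> linarith [hE.1, hE.2, a1.1, a1.2, a2.1, a2.2, a4.1, a4.2]
  have k2 := (levels hG h hk hK.le ih (A := (o.tn k).b0 P + (o.tn k).mu P * x k) (fun a ha => by
    have ha := ha hK
    have a1 := w_anti (Nat.mul_le_mul_left P.p ha)
    refine ⟨?_, by linarith⟩
    rw [← Nd.aff, fut_lt hK]
    have := hg.aff_tail (o.blk k).f_tri _ _ (Nat.mul_le_mul_left P.p ha) (abs_le_one_of hx)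
    exact this.trans (by linarith)) (o.n k) (fun _ => le_rfl)).2
  have k3 := w_lt (x := P.p * o.n k) (y := P.p * (o.n k + 1)) (by have := P.p_pos; nlinarith)
  have k4 : |x k - (o.tn k).c P| ≤ (o.tn k).J P / 10 := by
    rw [abs_le] at k1 ⊢
    constructor
    · by_contra g
      have := hG.below_a1 (o.tn k) hx (by linarith)
      change _ ≤ _ - w (P.p * o.n k) / 10 at this
      linarith [k1.1]
    · by_contra g
      have := hG.above_a1 (o.tn k) hx (by linarith)
      change _ + w (P.p * o.n k) / 10 ≤ _ at this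
      linarith [k1.2]
  obtain ⟨s1, s2⟩ := hG.steep (o.tn k) (B := w (P.p * o.n k) / 500) (by positivity) k4
    fun o' k' k1 e => by
      have := sig_C (P := P) (o := o') k1
      rw [e] at this ⊢; exact this
  change _ = _ - sig P (o.n k) * _ at s1
  change |_ - ((o.I P k).mu (o.ik P k) + sig P (o.n k))| ≤ _ at s2
  have s3 := sig_C (P := P) (o := o) hk
  have e1 := pass_dev hG h hk hK
  have e : sig P (o.n k) * o.xi P x k = (o.ze P et k - (o.I P k).mu (o.ik P k) * o.xi P x k) +
      sig P (o.n k) * o.lm P k * o.xi P x (k + 1) -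
      ((G (x k)).2 - ((o.I P k).mu (o.ik P k) + sig P (o.n k))) * x k +
      sig P (o.n k) * o.C P k * o.T P k := by
    rw [(hG.at_T hk hK).1, (tp_jet o k).1] at e1
    unfold phi ja at e1
    rw [s1] at e1
    unfold xi at *
    linear_combination e1
  have a1 : |sig P (o.n k) * o.lm P k * o.xi P x (k + 1)| ≤ w (P.p * o.n k) / 1000 := by
    rw [abs_mul]
    have : |o.xi P x (k + 1)| ≤ 1 / 1000 := (abs_sub _ _).trans (by linarith)
    have := mul_le_mul hS this (abs_nonneg _) hw.le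
    linarith
  have a2 : |((G (x k)).2 - ((o.I P k).mu (o.ik P k) + sig P (o.n k))) * x k| ≤
      w (P.p * o.n k) / 500 := by
    rw [abs_mul]; exact (mul_le_of_le_one_right (abs_nonneg _) (abs_le_one_of hx)).trans s2
  have a3 : |sig P (o.n k) * o.C P k * o.T P k| ≤ w (P.p * o.n k) / 500 := by
    rw [abs_mul]; exact (mul_le_of_le_one_right (abs_nonneg _) (by linarith)).trans s3
  have a4 : |sig P (o.n k) * o.xi P x k| ≤ w (P.p * o.n k) / 100 := by
    rw [e]
    rw [abs_le] at hE a1 a2 a3 ⊢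
    constructor <;> linarith [hE.1, hE.2, a1.1, a1.2, a2.1, a2.2, a3.1, a3.2]
  rw [abs_mul, abs_of_pos hs, ← sig_J, mul_div_assoc] at a4
  exact le_of_mul_le_mul_left a4 hs

lemma delta (hG : IsG P G) (h : Act P G o x et) {m : ℕ} (hm : 1 ≤ m) (hK : m < o.K)
    (hA : ∀ l, 1 ≤ l → l ≤ m → |o.xi P x l| ≤ w (P.D * o.n l + P.p) / 100)
    (hB : ∀ l, 1 ≤ l → l ≤ m → |o.psi P x l| ≤ 2 * |o.psi P x m|) :
    |o.psi P x m - o.psi P x (m + 1)| ≤ |o.psi P x m| * |o.xi P x m| := by
  have hY := Y_le hG h (k := m + 1) (c := 0) (by omega) hK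
    (M := |Bc P (o.n m) (o.j m)| * (o.xi P x m ^ 2 / 1000)) (by positivity) fun l l1 l2 => by
    have l3 : l ≤ m := by omega
    have b1 := xi_cmp l1 l3 hK.le (hB l l1 l3)
    have p0 := abs_pos.2 (lh_ne (P := P) (o := o) l m)
    have a0 := dd_le hG h l1 (by omega) (hA l l1 l3)
      (B := (8 * |o.xi P x l|) ^ 2 * w (P.s * o.n m) / 400) fun o' k' k1 hn hT => by
        have hw := w_pos (P.s * o.n m)
        have key : o.C P l = o'.C P k' ∨ Chain P o l o' k' (m - l) := by
          rcases eq_or_lt_of_le l3 with rfl | g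
          · rw [Nat.sub_self]
            exact Or.inr ⟨fun a ha => by obtain rfl := Nat.le_zero.1 ha; exact hn,
              fun a ha => absurd ha (Nat.not_lt_zero a)⟩
          obtain ⟨L, rfl⟩ : ∃ L, m = l + L + 1 := ⟨m - (l + 1), by omega⟩
          have b2 := hA _ hm le_rfl
          have b3 := Nd.J_le (P := P) (N := o.tn (l + L + 1)) (live_mul _) le_rfl
          change w (P.D * o.n (l + L + 1) + P.p) ≤
            w (tau P (o.I P (l + L + 1)) (P.p * o.n (l + L + 1))) / 1000000 at b3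
          have b4 := w_pos (tau P (o.I P (l + L + 1)) (P.p * o.n (l + L + 1)))
          have b5 : |o.lh P l (l + L + 1)| * |o.xi P x (l + L + 1)| ≤ |o.lh P l (l + L + 1)| *
              (w (tau P (o.I P (l + L + 1)) (P.p * o.n (l + L + 1))) / 1000) := by
            gcongr; linarith
          have b6 := mul_pos p0 b4
          rcases near (a := o.n (l + L + 1)) hn l1 k1 hK.le (fun _ => le_rfl) (by linarith) with
            g | ⟨g1, g2, g3⟩
          · exact Or.inl g
          right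
          rw [show l + L + 1 - l = L + 1 by omega]
          have c1 : k' + L + 1 < o'.K := by
            by_contra c
            have := g3.2 (o.n (l + L + 1)) (by rw [aF_mul_succ]; omega)
            have d := (fut_ne_iff (o := o') (k' + L + 1) (o.n (l + L + 1))).2 fun g => absurd g c
            have := (fut_ne_iff (o := o) (l + L + 1) _).1 (this ▸ d) hK
            omega
          rw [fut_lt hK, fut_lt c1] at g3
          refine ⟨fun a ha => ?_, fun a ha => ?_⟩
          · rcases eq_or_lt_of_le ha with rfl | g'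
            · exact ⟨hK, c1, g3⟩
            · exact g1.1 a (by omega)
          · rcases eq_or_lt_of_le (Nat.lt_succ_iff.1 ha) with rfl | g'
            · exact g2
            · exact g1.2 a g'
        rcases key with g | g
        · rw [g, sub_self, abs_zero]; positivity
        · have := C_hold g l1 k1 P.hm
          rw [show l + (m - l) = m by omega] at this
          refine this.trans ?_
          have c : (2 * |o.T P l - o'.T P k'|) ^ 2 ≤ (8 * |o.xi P x l|) ^ 2 :=
            pow_le_pow_left₀ (by positivity) (by linarith) 2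
          gcongr
    have a1 : |o.GG P l (m + 1)| * w (P.s * o.n m) ≤ |Bc P (o.n m) (o.j m)| * w (m - l) := by
      rcases eq_or_lt_of_le l3 with rfl | g
      · simp only [GG, Ico_self, prod_empty, mul_one, Nat.sub_self, w_zero]
        exact mul_le_of_le_one_right (abs_nonneg _) (w_le_one _)
      · rw [GG_mul g (Nat.le_succ m)]
        simp only [Nat.succ_eq_add_one, Nat.Ico_succ_singleton, prod_singleton]
        rw [← Bs_sig, abs_mul, abs_mul, abs_of_pos (sig_pos _), mul_comm |o.GG P l m|, mul_assoc,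
          mul_assoc]
        refine mul_le_mul_of_nonneg_left ?_ (abs_nonneg _)
        have c1 := (abs_GG (P := P) (o := o) l m).trans (w_anti (x := m - l) (by omega))
        have c2 : w (P.s * o.n m) ≤ sig P (o.n m) := by
          have := sig_mul (P := P) (o.n m) 0
          rw [add_zero] at this
          rw [← this]; exact mul_le_of_le_one_right (sig_pos _).le (w_le_one _)
        rw [mul_comm]
        exact mul_le_mul c2 c1 (abs_nonneg _) (sig_pos _).le
    have a2 : |o.xi P x l| ≤ 21 / 10 * |o.xi P x m| := b1.trans (by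
      have := mul_le_of_le_one_left (abs_nonneg (o.xi P x m)) (lh_le_one (P := P) (o := o) l m)
      linarith)
    have a3 : (8 * |o.xi P x l|) ^ 2 ≤ 400 * o.xi P x m ^ 2 := by
      rw [← sq_abs (o.xi P x m)]
      have := abs_nonneg (o.xi P x l)
      nlinarith
    rw [show 0 + (m + 1 - (l + 1)) = m - l by omega, abs_mul]
    rw [w_two] at a0
    have hw := w_pos (P.s * o.n m)
    have a4 : |o.dd P G x l| ≤ w (P.s * o.n m) * (o.xi P x m ^ 2 / 1000) := by
      have := mul_le_mul_of_nonneg_right a3 hw.le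
      have : 0 ≤ o.xi P x m ^ 2 * w (P.s * o.n m) := by positivity
      linarith
    calc _ ≤ |o.GG P l (m + 1)| * (w (P.s * o.n m) * (o.xi P x m ^ 2 / 1000)) := by gcongr
      _ = |o.GG P l (m + 1)| * w (P.s * o.n m) * (o.xi P x m ^ 2 / 1000) := by ring
      _ ≤ |Bc P (o.n m) (o.j m)| * w (m - l) * (o.xi P x m ^ 2 / 1000) := by gcongr
      _ = _ := by ring
  have e4 := xi_eq (P := P) (x := x) hm hK.le
  have e5 := xi_eq (P := P) (x := x) (k := m + 1) (by omega) hK
  have eY : o.Y P x et (m + 1) * o.lh P (m + 1) o.K = Bc P (o.n m) (o.j m) * o.v P m *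
      o.v P (m + 1) * (o.psi P x m - o.psi P x (m + 1)) := by
    unfold Y; rw [div_mul_cancel₀ _ (lh_ne _ _), ze_succ h hm hK, xv_succ hm, e4, e5]; ring
  have a5 := congrArg abs eY
  simp only [abs_mul] at a5
  have a3 := (v_bd (P := P) (o := o) (k := m + 1) (by omega) hK).1
  have p1 : 0 < |Bc P (o.n m) (o.j m)| := by rw [abs_Bc]; exact w_pos _
  have p2 := v_pos (P := P) hm hK.le
  have p3 := v_pos (P := P) (k := m + 1) (by omega) hK
  refine le_of_mul_le_mul_left ?_ (mul_pos (mul_pos p1 p2) p3)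
  rw [← a5]
  rw [w_zero, mul_one, ← sq_abs (o.xi P x m), sq] at hY
  nth_rewrite 1 [e4] at hY
  rw [abs_mul] at hY
  calc _ ≤ 2 * (|Bc P (o.n m) (o.j m)| * (|o.psi P x m| * |o.v P m| * |o.xi P x m| / 1000)) *
        (100 / 99 * |o.v P (m + 1)|) := by gcongr; linarith
    _ ≤ _ := by
      have : 0 ≤ |Bc P (o.n m) (o.j m)| * |o.v P m| * |o.v P (m + 1)| *
        (|o.psi P x m| * |o.xi P x m|) := by positivity
      linarith

lemma IH_succ (hG : IsG P G) (h : Act P G o x et) {k : ℕ} (hk : 1 ≤ k) (hK : k < o.K)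
    (ih : IH P o x k) : IH P o x (k + 1) := by
  have hA : ∀ l, 1 ≤ l → l ≤ k → |o.xi P x l| ≤ w (P.D * o.n l + P.p) / 100 := fun l l1 l2 => by
    rcases eq_or_lt_of_le l2 with rfl | g
    · exact stepA hG h hk hK ih
    · exact ih.1 l l1 g
  refine ⟨fun l l1 l2 => hA l l1 (by omega), fun l l' l1 l2 l3 => ?_⟩
  rcases lt_or_ge l' (k + 1) with g | g
  · exact ih.2 l l' l1 l2 (by omega)
  obtain rfl : l' = k + 1 := by omega
  have p0 := abs_nonneg (o.psi P x k)
  have hD : ∀ m, 1 ≤ m → m ≤ k →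
      |o.psi P x m - o.psi P x (m + 1)| ≤ |o.psi P x k| / 20 * w (k - m) := fun m m1 m2 => by
    have a := delta hG h m1 (by omega) (fun l a b => hA l a (by omega))
      (fun l a b => ih.2 l m a b m2)
    have b := xi_cmp m1 m2 hK.le (ih.2 m k m1 m2 le_rfl)
    have c : |o.lh P m k| ≤ w (k - m) := by rw [abs_lh]; exact w_anti (LE_ge' m k)
    have d := hA k hk le_rfl
    have e := w_le_one (P.D * o.n k + P.p)
    have hw := w_pos (k - m)
    have f : |o.lh P m k| * |o.xi P x k| ≤ w (k - m) * (1 / 100) := by gcongr; linarith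
    calc _ ≤ |o.psi P x m| * |o.xi P x m| := a
      _ ≤ 2 * |o.psi P x k| * (21 / 10 * (w (k - m) * (1 / 100))) := by
        gcongr
        · exact ih.2 m k m1 m2 le_rfl
        · linarith
      _ ≤ _ := by nlinarith
  have hS : ∀ a, a ≤ k → |o.psi P x (k + 1 - a) - o.psi P x (k + 1)| ≤
      |o.psi P x k| / 10 * (1 - w a) := fun a ha => by
    induction a with
    | zero => simp [w_zero]
    | succ a iha =>
      have b := iha (by omega)
      have c := hD (k - a) (by omega) (by omega)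
      rw [show k - (k - a) = a by omega, show k - a + 1 = k + 1 - a by omega] at c
      rw [show k + 1 - (a + 1) = k - a by omega, w_succ]
      have := abs_sub_le (o.psi P x (k - a)) (o.psi P x (k + 1 - a)) (o.psi P x (k + 1))
      have := mul_nonneg p0 (w_pos a).le
      nlinarith
  have a1 := hS 1 hk
  have a2 := hS (k + 1 - l) (by omega)
  rw [show k + 1 - (k + 1 - l) = l by omega] at a2
  rw [Nat.add_sub_cancel] at a1
  have b1 := abs_sub_abs_le_abs_sub (o.psi P x k) (o.psi P x (k + 1))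
  have b2 := abs_sub_abs_le_abs_sub (o.psi P x l) (o.psi P x (k + 1))
  have := mul_nonneg p0 (w_pos 1).le
  have := mul_nonneg p0 (w_pos (k + 1 - l)).le
  have := abs_nonneg (o.psi P x (k + 1))
  linarith

theorem uniq (hG : IsG P G) (h : Act P G o x et) : ∀ k, 1 ≤ k → k ≤ o.K → x k = o.T P k := by
  have hK := h.K_pos
  have ih : ∀ k, 1 ≤ k → k ≤ o.K → IH P o x k := fun k hk => by
    induction k, hk using Nat.le_induction with
    | base =>
      refine fun _ => ⟨fun l a b => by omega, fun l l' a b c => ?_⟩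
      obtain rfl : l = l' := by omega
      linarith [abs_nonneg (o.psi P x l)]
    | succ k hk ih => exact fun g => IH_succ hG h hk g (ih (by omega))
  have ih := ih _ hK le_rfl
  obtain ⟨H, M, κ, t1, t2, t3, -⟩ := hG.top o hK
  have hx := h.xb _ hK le_rfl
  have lv := levels hG h hK le_rfl ih (A := κ + H + M * x o.K) fun a _ => by
    refine ⟨t2 a _ (abs_le_one_of hx), ?_⟩
    have e : phi G (x o.K) - (κ + H + M * x o.K) = o.Y P x et o.K := by
      unfold Y ze xi xv T
      rw [v_top, lh_self, t_top, t1, t1, t1, ← t3 _ h.last]; ring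
    rw [e]
    linarith [w_pos (P.p * a), abs_nonneg (o.Y P x et o.K)]
  have z : o.xi P x o.K = 0 := by
    have t : Tendsto (fun a => 4 * w a) atTop (𝓝 0) := by simpa using w_tendsto.const_mul 4
    refine abs_nonpos_iff.1 (ge_of_tendsto' t fun a => (lv a fun g => absurd g (lt_irrefl _)).1.trans ?_)
    have := w_anti (x := a) (y := tau P (o.I P o.K) (P.p * a)) (by unfold tau; rw [aF_mul]; omega)
    linarith
  intro k k1 k2
  have := xi_cmp k1 k2 le_rfl (ih.2 k _ k1 k2 le_rfl)
  rw [z, abs_zero, mul_zero, mul_zero, abs_nonpos_iff] at this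
  exact sub_eq_zero.1 this

theorem tangent (hG : IsG P G) (h : Act P G o x et) {V X : ℕ → ℝ} (h1 : X 1 = 0)
    (h2 : ∀ k, 1 ≤ k → k < o.K → X (k + 1) = Bc P (o.n k) (o.j k) * V k)
    (h3 : ∀ k, 1 ≤ k → k < o.K → deriv (phi G) (x k) * V k - X k =
      (-1) ^ o.n k * w (P.p * (o.n k + o.j k)) * V (k + 1)) :
    deriv (phi G) (x o.K) * V o.K - X o.K = 0 := by
  have hK := h.K_pos
  have key : ∀ k, 1 ≤ k → k ≤ o.K → V k = V 1 / o.v P 1 * o.v P k ∧
      X k = V 1 / o.v P 1 * o.xv P k := fun k hk => by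
    induction k, hk using Nat.le_induction with
    | base => exact fun g => ⟨(div_mul_cancel₀ _ (v_ne le_rfl g)).symm, by simp [h1, xv_one]⟩
    | succ k hk ih =>
      intro g
      obtain ⟨a, b⟩ := ih (by omega)
      refine ⟨?_, by rw [h2 k hk g, xv_succ hk, a]; ring⟩
      have c := h3 k hk g
      rw [uniq hG h k hk (by omega), (hG.at_T hk g).2.deriv, a, b] at c
      have d := v_pass (P := P) hk g
      have n : (-1 : ℝ) ^ o.n k * w (P.p * (o.n k + o.j k)) ≠ 0 :=
        mul_ne_zero (by simp) (w_pos _).ne'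
      apply mul_left_cancel₀ n
      linear_combination V 1 / o.v P 1 * d - c
  obtain ⟨H, M, κ, t1, -, -, -, t5⟩ := hG.top o hK
  obtain ⟨a, b⟩ := key _ hK le_rfl
  rw [uniq hG h _ hK le_rfl, a, b]
  unfold T xv
  rw [t_top, t5.deriv, v_top, t1, t1]; ring

end Orb

end Pool.Agent.P.MP_97fbd9_an
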